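import Mathlib
import Pool.Agent.H76.CQ.Qb
import Pool.Agent.H76.CQ.Qc
import Pool.Agent.H76.PN.N1
import Pool.Agent.H76.XP.X1
import Pool.Agent.H76.XP.X2
import Pool.Agent.H76.XP.X4
import Pool.Agent.H76.XP.X5
import Pool.Agent.H76.XP.X8
import Pool.Agent.H76.ZQ.Y14
import Pool.Agent.H76.ZQ.Y2

/-! This file joins several modules to save build time (Y1). -/

set_option autoImplicit false

section S_H88_AB_Df

set_option autoImplicit false
set_option linter.unusedSectionVars false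
open scoped Classical

open WithZero NumberField IsDedekindDomain H38RT
open H38T1 (SC sc scu rep eo la si Pri OddP tp unif ka)
open H76PP H36MX H76MX

namespace H88AB

/-- The local conditions descend along `j`. -/
def Dsc {F F' : Type} [Field F] [Field F'] (j : F →+* F') (x' : SC F') (x : SC F) : Prop :=
  ∀ y0 y2 : SC F, LW x' (scm (j : F →* F') y0) (scm (j : F →* F') y2) → LW x y0 y2

/-- The Hilbert symbols of all completions are bilinear and nondegenerate (proved in H36/MX). -/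
def AllHF : Prop :=
  ∀ (k : Type) [Field k] [NumberField k] (v : HeightOneSpectrum (𝓞 k)), HF (v.adicCompletion k)

/-- The local conditions of the twist by `E`, for coordinates with respect to `θ`, at all places. -/
def LCE (M : Type) [Field M] [NumberField M] (A B E : M) (δ : Fin 3 → M) : Prop :=
  (∀ W : HeightOneSpectrum (𝓞 M), LC (algebraMap M (W.adicCompletion M)) (E ^ 2 * A) (E ^ 3 * B)
    (fun i => δ i / E ^ (i : ℕ))) ∧
  ∀ s : M →+* ℝ, LC s (E ^ 2 * A) (E ^ 3 * B) (fun i => δ i / E ^ (i : ℕ))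

/-- For a class over `K`: the local conditions of the twist by `D * d` at the places of `M` above `u`, where `D` is
a local square at `u`, are contained in `LW x`. -/
def CondX (K M : Type) [Field K] [NumberField K] [Field M] [NumberField M] [Algebra K M]
    (u : HeightOneSpectrum (𝓞 K)) (A B : 𝓞 K) (e : Fin 3 → Kv u) (d : 𝓞 M) (x : SC (Kv u)) : Prop :=
  ∀ (hs : Spl (algebraMap K (Kv u) (A : K)) (algebraMap K (Kv u) (B : K)) e)
    (L : Type) [Field L] [NumberField L] [Algebra K L] (θ : L) (h : Cub K L (A : K) (B : K) θ)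
    (D : 𝓞 K), D ≠ 0 →
    (∃ m : K, m ≠ 0 ∧ u.valuation K ((D : K) * m ^ 2 - 1) < u.valuation K 4) →
    ∀ (E : M), E = algebraMap K M (D : K) * (d : M) →
    ∀ δ : Fin 3 → K, ev θ δ ≠ 0 → IsSquare (Algebra.norm K (ev θ δ)) →
      (∀ W : HeightOneSpectrum (𝓞 M), dn K W = u →
        LC (algebraMap M (W.adicCompletion M)) (E ^ 2 * algebraMap K M (A : K))
          (E ^ 3 * algebraMap K M (B : K)) (fun i => algebraMap K M (δ i) / E ^ (i : ℕ))) →
      LW x (lcl h (algebraMap K (Kv u)) hs 0 (sc (ev θ δ)))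
        (lcl h (algebraMap K (Kv u)) hs 2 (sc (ev θ δ)))

/-- The class of `d` modulo squares is fixed by the automorphisms of `M / K`. -/
def Stw (K : Type) {M : Type} [Field K] [Field M] [Algebra K M] (d : M) : Prop :=
  ∀ g : M ≃ₐ[K] M, ∃ z : M, z ≠ 0 ∧ g d = d * z ^ 2

end H88AB

end S_H88_AB_Df

section S_H88_AB_Cd

set_option autoImplicit false
set_option linter.unusedSectionVars false
open scoped Classical

open WithZero NumberField IsDedekindDomain H38RT
open H38T1 (SC sc scu rep eo la si Pri OddP tp unif ka)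
open H76PP H36MX H76MX

namespace H88AB

theorem ev_ne {K L M LM : Type} [Field K] [Field L] [Algebra K L] [Field M] [Algebra K M] [Field LM]
    [Algebra M LM] {a b : M} {θ : L} {θM : LM} (hM : Cub M LM a b θM) {δ : Fin 3 → K}
    (hδ : ev θ δ ≠ 0) : ev θM (fun i => algebraMap K M (δ i)) ≠ 0 := by
  intro h0
  apply hδ
  obtain ⟨e0, e1, e2⟩ := hM.li _ _ _ h0
  have hinj : ∀ y : K, algebraMap K M y = 0 → y = 0 := fun y hy =>
    (map_eq_zero (algebraMap K M)).1 hy
  unfold ev
  rw [hinj _ e0, hinj _ e1, hinj _ e2]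
  simp

theorem spl_map {F F' : Type} [Field F] [Field F'] (j : F →+* F') {a b : F} {e : Fin 3 → F}
    (h : Spl a b e) : Spl (j a) (j b) (fun i => j (e i)) := by
  have hne : ∀ {x y : F}, x ≠ y → j x ≠ j y := fun hxy h0 => hxy (j.injective h0)
  refine ⟨?_, ?_, ?_, hne h.ne01, hne h.ne02, hne h.ne12, ?_, ?_⟩
  · rw [← map_add, ← map_add, h.s1, map_zero]
  · rw [← h.s2]
    simp only [map_add, map_mul]
  · rw [← map_neg, ← h.s3]
    simp only [map_mul]
  · obtain ⟨s, hs⟩ := h.sq0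
    refine ⟨j s, ?_⟩
    rw [← map_mul, ← hs]
    simp only [map_sub, map_mul]
  · obtain ⟨s, hs⟩ := h.sq2
    refine ⟨j s, ?_⟩
    rw [← map_mul, ← hs]
    simp only [map_sub, map_mul]

/-- **The local condition over `K`.** -/
theorem condX_of {K M : Type} [Field K] [NumberField K] [Field M] [NumberField M] [Algebra K M]
    {r : ℕ} (hr : Module.finrank K M = 2 ^ r) {u : HeightOneSpectrum (𝓞 K)}
    {W : HeightOneSpectrum (𝓞 M)} (hW : dn K W = u) (j : Kv u →+* Kv W)
    (hj : ∀ x : K, j (algebraMap K (Kv u) x) = algebraMap M (Kv W) (algebraMap K M x))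
    {A B : 𝓞 K} {e : Fin 3 → Kv u} {A' B' : 𝓞 M} (hA' : (A' : M) = algebraMap K M (A : K))
    (hB' : (B' : M) = algebraMap K M (B : K)) {μ : 𝓞 M} (hμ : μ ≠ 0) {xW : SC (Kv W)}
    (hc : CondAt W A' B' (fun i => j (e i)) μ xW) {x : SC (Kv u)} (hx : Dsc j xW x) :
    CondX K M u A B e μ x := by
  intro hs L _ _ _ θ h D hD0 hDsq E hE δ hδ hsq hLC
  obtain ⟨m, hm, hmu⟩ := hDsq
  have hirr : ∀ t : K, t ^ 3 + (A : K) * t + (B : K) ≠ 0 := by
    intro t ht
    have h1 : (θ - algebraMap K L t) * (algebraMap K L ((A : K) + t ^ 2) + algebraMap K L t * θ +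
        algebraMap K L 1 * θ ^ 2) = 0 := by
      have h2 := congrArg (algebraMap K L) ht
      simp only [map_add, map_mul, map_pow, map_zero, map_one] at h2 ⊢
      linear_combination h.root - h2
    rcases mul_eq_zero.1 h1 with h2 | h2
    · have h3 := h.li (-t) 1 0 (by
        simp only [map_neg, map_one, map_zero]
        linear_combination h2)
      exact one_ne_zero h3.2.1
    · exact one_ne_zero (h.li _ _ _ h2).2.2
  obtain ⟨LM, _, _, _, θM, hM⟩ := H24PD.exists_cub (K := M)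
    (H73P2.noroot (K := K) (N := M) (k := M) hr hirr)
  rw [← hA', ← hB'] at hM
  have hsM : Spl (algebraMap M (Kv W) (A' : M)) (algebraMap M (Kv W) (B' : M)) (fun i => j (e i)) := by
    have h1 := spl_map j hs
    rw [hj, hj, ← hA', ← hB'] at h1
    exact h1
  have hDK : (D : K) ≠ 0 := fun h0 => hD0 (RingOfIntegers.coe_eq_zero_iff.1 h0)
  have hμM : (μ : M) ≠ 0 := fun h0 => hμ (RingOfIntegers.coe_eq_zero_iff.1 h0)
  have hDM : algebraMap K M (D : K) ≠ 0 := (map_ne_zero _).2 hDK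
  obtain ⟨D', hD'⟩ : ∃ D' : 𝓞 M, (D' : M) = algebraMap K M (D : K) :=
    ⟨algebraMap (𝓞 K) (𝓞 M) D, rfl⟩
  have hD'0 : D' ≠ 0 := by
    rintro rfl
    apply hDM
    rw [← hD']
    exact map_zero _
  have hDmu : ((D' * μ : 𝓞 M) : M) = E := by
    rw [hE, ← hD']
    exact map_mul (algebraMap (𝓞 M) M) D' μ
  have hE0 : E ≠ 0 := by
    rw [hE]
    exact mul_ne_zero hDM hμM
  have hEL : algebraMap M LM E ≠ 0 := (map_ne_zero _).2 hE0
  have hDsq' : ∃ m : M, m ≠ 0 ∧ W.valuation M ((D' : M) * m ^ 2 - 1) < W.valuation M 4 := by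
    refine ⟨algebraMap K M m, (map_ne_zero _).2 hm, ?_⟩
    have h4 : (4 : K) ≠ 0 := by norm_num
    have h4' : (4 : M) ≠ 0 := by norm_num
    have h5 : (dn K W).valuation K (((D : K) * m ^ 2 - 1) / 4) < 1 := by
      rw [hW, map_div₀]
      exact (div_lt_one₀ (zero_lt_iff.2 ((Valuation.ne_zero_iff _).2 h4))).2 hmu
    have h6 := val_lt h5
    rw [map_div₀, map_div₀, map_ofNat, map_sub, map_mul, map_pow, map_one, ← hD'] at h6
    exact (div_lt_one₀ (zero_lt_iff.2 ((Valuation.ne_zero_iff _).2 h4'))).1 h6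
  obtain ⟨δM, hδM⟩ : ∃ δM : Fin 3 → M, δM = fun i => algebraMap K M (δ i) / E ^ (i : ℕ) := ⟨_, rfl⟩
  have hev : ev (algebraMap M LM E * θM) δM = ev θM (fun i => algebraMap K M (δ i)) := by
    rw [hδM]
    unfold ev
    simp only [Fin.val_zero, Fin.val_one, Fin.val_two, pow_zero, div_one, pow_one, map_div₀, map_pow]
    field_simp
  have hne : ev θM (fun i => algebraMap K M (δ i)) ≠ 0 := ev_ne hM hδ
  have hnorm : IsSquare (Algebra.norm M (ev θM (fun i => algebraMap K M (δ i)))) := by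
    rw [Te_norm hM]
    rw [Te_norm h] at hsq
    obtain ⟨c, hc⟩ := hsq
    refine ⟨algebraMap K M c, ?_⟩
    have h1 := Te_nf_map (algebraMap K M) (A : K) (B : K) δ
    rw [hA', hB', h1, hc, map_mul]
  have h1 := hc hsM LM θM hM D' hD'0 hDsq' δM (by rw [hDmu, hev]; exact hne)
    (by rw [hDmu, hev]; exact hnorm) (by
      rw [hDmu, hδM, hA', hB']
      exact hLC W hW)
  rw [hDmu, hev] at h1
  have hrh : ∀ k : Fin 3, rh hM (algebraMap M (Kv W)) (hsM.root k)
      (ev θM (fun i => algebraMap K M (δ i))) = j (rh h (algebraMap K (Kv u)) (hs.root k) (ev θ δ)) := by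
    intro k
    unfold ev
    simp only [map_add, map_mul, map_pow, rh_algebraMap, rh_theta, hj]
  have hlcl : ∀ k : Fin 3, lcl hM (algebraMap M (Kv W)) hsM k
      (sc (ev θM (fun i => algebraMap K M (δ i)))) =
      scm (j : Kv u →* Kv W) (lcl h (algebraMap K (Kv u)) hs k (sc (ev θ δ))) := by
    intro k
    rw [lcl_sc _ _ _ _ hne, lcl_sc _ _ _ _ hδ, hrh, scm_sc]
    · rfl
    · exact (map_ne_zero _).2 hδ
  rw [hlcl, hlcl] at h1
  exact hx _ _ h1

end H88AB

end S_H88_AB_Cd

section S_H30_MG_Ta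

set_option autoImplicit false
set_option linter.unusedSectionVars false

namespace H30MG

variable {Ω : Type*} [Field Ω] [CharZero Ω]

/-- The local condition over the fixed field of `σ`: `α` or `α ρ^2` is a square, and `β X^2 + ρ^2 Y^2 = 1` is
solvable. -/
structure LF (σ : Ω → Ω) (ρ α β : Ω) : Prop where
  sq : ∃ a : Ω, σ a = a ∧ (α = a ^ 2 ∨ α * ρ ^ 2 = a ^ 2)
  con : ∃ X Y : Ω, σ X = X ∧ σ Y = Y ∧ β * X ^ 2 + ρ ^ 2 * Y ^ 2 = 1

theorem lf_step (σ : Ω →+* Ω) {ρ α β : Ω} (hρ0 : ρ ≠ 0) (hρ : σ (σ ρ) = -ρ) (hα0 : α ≠ 0)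
    (hα : σ α = α) (hβ : σ β = β) (h : LF (fun x => σ (σ x)) ρ α β) : LF σ (ρ * σ ρ) α β := by
  obtain ⟨⟨a, ha, hsq⟩, ⟨X, Y, hX, hY, hc⟩⟩ := h
  have h2 : (2 : Ω) ≠ 0 := two_ne_zero
  have hσρ0 : σ ρ ≠ 0 := (map_ne_zero σ).2 hρ0
  obtain ⟨n, hn⟩ : ∃ n, n = ρ * σ ρ := ⟨_, rfl⟩
  have hn0 : n ≠ 0 := by
    rw [hn]
    exact mul_ne_zero hρ0 hσρ0
  have hσn : σ n = -n := by
    rw [hn, map_mul, hρ]
    ring
  have hn2 : n ^ 2 = ρ ^ 2 * σ (ρ ^ 2) := by
    rw [hn, map_pow]
    ring
  have hm : ∀ x : Ω, x ^ 2 = 0 → x = 0 := fun x hx => pow_eq_zero_iff (two_ne_zero) |>.1 hx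
  -- sign
  have hsgn : ∀ x : Ω, σ (x ^ 2) = x ^ 2 → σ x = x ∨ σ (x * n) = x * n := by
    intro x hx
    rw [map_pow] at hx
    rcases sq_eq_sq_iff_eq_or_eq_neg.1 hx with h1 | h1
    · exact Or.inl h1
    · right
      rw [map_mul, h1, hσn]
      ring
  rw [← hn]
  refine ⟨?_, ?_⟩
  · rcases hsq with h1 | h1
    · rcases hsgn a (by rw [← h1, hα]) with h3 | h3
      · exact ⟨a, h3, Or.inl h1⟩
      · exact ⟨a * n, h3, Or.inr (by rw [h1]; ring)⟩
    · exfalso
      have h3 : (α * n) ^ 2 = (a * σ a) ^ 2 := by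
        have h4 : (a * σ a) ^ 2 = a ^ 2 * σ (a ^ 2) := by
          rw [map_pow]
          ring
        rw [h4, ← h1, map_mul, hα, mul_pow, hn2]
        ring
      have h5 : σ (a * σ a) = a * σ a := by
        rw [map_mul, ha]
        ring
      have h6 : σ (α * n) = -(α * n) := by
        rw [map_mul, hα, hσn]
        ring
      have h7 : α * n = 0 := by
        rcases sq_eq_sq_iff_eq_or_eq_neg.1 h3 with h8 | h8
        · rw [h8] at h6
          have h9 : 2 * (a * σ a) = 0 := by linear_combination h6 - h5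
          rw [h8]
          exact (mul_eq_zero.1 h9).resolve_left h2
        · have h10 : σ (α * n) = α * n := by
            rw [h8, map_neg, h5]
          have h9 : 2 * (α * n) = 0 := by linear_combination h6 - h10
          exact (mul_eq_zero.1 h9).resolve_left h2
      exact mul_ne_zero hα0 hn0 h7
  · by_cases hY0 : Y = 0
    · rw [hY0] at hc
      have hX0 : X ≠ 0 := by
        rintro rfl
        simp at hc
      -- `β = b ^ 2`
      obtain ⟨b, hb⟩ : ∃ b, b = X⁻¹ := ⟨_, rfl⟩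
      have hb2 : β = b ^ 2 := by
        rw [hb]
        field_simp
        linear_combination hc
      have hb0 : b ≠ 0 := by
        rw [hb]
        exact inv_ne_zero hX0
      rcases hsgn b (by rw [← hb2, hβ]) with h3 | h3
      · refine ⟨b⁻¹, 0, by rw [map_inv₀, h3], map_zero σ, ?_⟩
        rw [hb2]
        field_simp
        ring
      · -- `μ = p + q n`
        obtain ⟨μ, hμ⟩ : ∃ μ, μ = ρ ^ 2 := ⟨_, rfl⟩
        have hσμ : σ (σ μ) = μ := by
          rw [hμ, map_pow, map_pow, hρ]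
          ring
        obtain ⟨p, hp⟩ : ∃ p, p = (μ + σ μ) / 2 := ⟨_, rfl⟩
        obtain ⟨q, hq⟩ : ∃ q, q = (μ - σ μ) / (2 * n) := ⟨_, rfl⟩
        have hσp : σ p = p := by
          rw [hp, map_div₀, map_add, hσμ, map_ofNat]
          ring
        have hσq : σ q = q := by
          rw [hq, map_div₀, map_sub, map_mul, hσμ, map_ofNat, hσn]
          field_simp
          ring
        have hpq : n ^ 2 * (1 + q ^ 2) = p ^ 2 := by
          have h4 : n ^ 2 = μ * σ μ := by
            rw [hn2, hμ]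
          have h5 : n ^ 2 * q ^ 2 = (μ - σ μ) ^ 2 / 4 := by
            rw [hq]
            field_simp
            ring
          rw [mul_add, h5, hp, mul_one, h4]
          ring
        obtain ⟨s, hs⟩ : ∃ s, s = b / n := ⟨_, rfl⟩
        have hs0 : s ≠ 0 := by
          rw [hs]
          exact div_ne_zero hb0 hn0
        have hσs : σ s = s := by
          have h4 : σ b = -b := by
            rw [map_mul, hσn] at h3
            have h5 : n * (σ b + b) = 0 := by linear_combination -h3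
            have h6 := (mul_eq_zero.1 h5).resolve_left hn0
            linear_combination h6
          rw [hs, map_div₀, h4, hσn]
          field_simp
        have hβs : β = n ^ 2 * s ^ 2 := by
          rw [hb2, hs]
          field_simp
        -- the conic `n² x² + n² y² = 1`
        obtain ⟨x, y, hx, hy, hxy⟩ : ∃ x y : Ω, σ x = x ∧ σ y = y ∧ n ^ 2 * (x ^ 2 + y ^ 2) = 1 := by
          by_cases hp0 : p = 0
          · rw [hp0] at hpq
            have h4 : 1 + q ^ 2 = 0 := by
              have h5 : n ^ 2 * (1 + q ^ 2) = 0 := by rw [hpq]; ring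
              exact (mul_eq_zero.1 h5).resolve_left (pow_ne_zero 2 hn0)
            have hq0 : q ≠ 0 := by
              rintro h0
              rw [h0] at h4
              simp at h4
            have hσn2 : σ (n ^ 2) = n ^ 2 := by
              rw [map_pow, hσn]
              ring
            refine ⟨(1 + (n ^ 2)⁻¹) / 2, (1 - (n ^ 2)⁻¹) / (2 * q), ?_, ?_, ?_⟩
            · rw [map_div₀, map_add, map_inv₀, hσn2, map_one, map_ofNat]
            · rw [map_div₀, map_sub, map_inv₀, hσn2, map_one, map_mul, map_ofNat, hσq]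
            · have h5 : q ^ 2 = -1 := by linear_combination h4
              have h6 : ((1 - (n ^ 2)⁻¹) / (2 * q)) ^ 2 = -((1 - (n ^ 2)⁻¹) ^ 2 / 4) := by
                rw [div_pow, mul_pow, h5]
                ring
              rw [h6]
              field_simp
              ring
          · refine ⟨1 / p, q / p, ?_, ?_, ?_⟩
            · rw [map_div₀, map_one, hσp]
            · rw [map_div₀, hσp, hσq]
            · field_simp
              linear_combination hpq
        refine ⟨x / s, y, ?_, hy, ?_⟩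
        · rw [map_div₀, hx, hσs]
        · rw [hβs, ← hxy]
          field_simp
    · obtain ⟨A, hA⟩ : ∃ A, A = Y⁻¹ := ⟨_, rfl⟩
      obtain ⟨B, hB⟩ : ∃ B, B = X / Y := ⟨_, rfl⟩
      have hσA : σ (σ A) = A := by rw [hA, map_inv₀, map_inv₀, hY]
      have hσB : σ (σ B) = B := by rw [hB, map_div₀, map_div₀, hX, hY]
      have hμ : ρ ^ 2 = A ^ 2 - β * B ^ 2 := by
        rw [hA, hB]
        field_simp
        linear_combination hc
      obtain ⟨P, hP⟩ : ∃ P, P = A * σ A + β * (B * σ B) := ⟨_, rfl⟩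
      obtain ⟨Q, hQ⟩ : ∃ Q, Q = A * σ B + B * σ A := ⟨_, rfl⟩
      have hσP : σ P = P := by
        rw [hP]
        simp only [map_add, map_mul, hσA, hσB, hβ]
        ring
      have hσQ : σ Q = Q := by
        rw [hQ]
        simp only [map_add, map_mul, hσA, hσB]
        ring
      have hPQ : n ^ 2 = P ^ 2 - β * Q ^ 2 := by
        rw [hn2, hμ, hP, hQ]
        simp only [map_sub, map_mul, map_pow, hβ]
        ring
      by_cases hP0 : P = 0
      · rw [hP0] at hPQ
        have hQ0 : Q ≠ 0 := by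
          intro h0
          rw [h0] at hPQ
          apply hn0
          apply hm
          rw [hPQ]
          ring
        have hσn2 : σ (n ^ 2) = n ^ 2 := by
          rw [map_pow, hσn]
          ring
        -- `Y' = (1 + 1/n²)/2`, `X' = Q (1/n² - 1)/2`
        refine ⟨Q * ((n ^ 2)⁻¹ - 1) / 2, (1 + (n ^ 2)⁻¹) / 2, ?_, ?_, ?_⟩
        · rw [map_div₀, map_mul, map_sub, map_inv₀, hσn2, map_one, map_ofNat, hσQ]
        · rw [map_div₀, map_add, map_inv₀, hσn2, map_one, map_ofNat]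
        · have h5 : β * Q ^ 2 = -n ^ 2 := by linear_combination hPQ
          have h6 : β * (Q * ((n ^ 2)⁻¹ - 1) / 2) ^ 2 = (β * Q ^ 2) * (((n ^ 2)⁻¹ - 1) ^ 2 / 4) := by
            ring
          rw [h6, h5]
          field_simp
          ring
      · refine ⟨Q / P, 1 / P, ?_, ?_, ?_⟩
        · rw [map_div₀, hσP, hσQ]
        · rw [map_div₀, map_one, hσP]
        · field_simp
          linear_combination hPQ

/-- The product of the conjugates. -/
theorem pr_neg (φ : Ω →+* Ω) (m : ℕ) {ρ : Ω} (hρ0 : ρ ≠ 0) (hρ : φ^[m] ρ = -ρ) :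
    φ (∏ i ∈ Finset.range m, φ^[i] ρ) = -∏ i ∈ Finset.range m, φ^[i] ρ := by
  have h1 : φ (∏ i ∈ Finset.range m, φ^[i] ρ) * ρ = (∏ i ∈ Finset.range m, φ^[i] ρ) * φ^[m] ρ := by
    rw [← Finset.prod_range_succ (fun i => φ^[i] ρ) m, Finset.prod_range_succ', map_prod]
    congr 1
    exact Finset.prod_congr rfl fun i _ => (Function.iterate_succ_apply' φ i ρ).symm
  rw [hρ] at h1
  exact mul_right_cancel₀ hρ0 (by rw [h1]; ring)

theorem lf_tower (φ : Ω →+* Ω) {α β : Ω} (hα0 : α ≠ 0) (hα : φ α = α) (hβ : φ β = β) (r : ℕ) :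
    ∀ ρ : Ω, ρ ≠ 0 → φ^[2 ^ r] ρ = -ρ → LF (φ^[2 ^ r]) ρ α β →
      ∃ ρ₀ : Ω, ρ₀ ≠ 0 ∧ φ ρ₀ = -ρ₀ ∧ LF φ ρ₀ α β := by
  induction r with
  | zero =>
    intro ρ h0 h1 h2
    exact ⟨ρ, h0, h1, h2⟩
  | succ r ih =>
    intro ρ h0 h1 h2
    have hc : ∀ x, (φ ^ (2 ^ r)) x = φ^[2 ^ r] x := fun x => by
      rw [RingHom.coe_pow]
    have hcc : ∀ x, (φ ^ (2 ^ r)) ((φ ^ (2 ^ r)) x) = φ^[2 ^ (r + 1)] x := fun x => by
      rw [hc, hc, ← Function.iterate_add_apply]
      congr 1
      ring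
    have h3 : (fun x => (φ ^ (2 ^ r)) ((φ ^ (2 ^ r)) x)) = φ^[2 ^ (r + 1)] := funext hcc
    have hα' : (φ ^ (2 ^ r)) α = α := by
      rw [hc]
      exact Function.iterate_fixed hα _
    have hβ' : (φ ^ (2 ^ r)) β = β := by
      rw [hc]
      exact Function.iterate_fixed hβ _
    have hs := lf_step (φ ^ (2 ^ r)) h0 (by rw [hcc]; exact h1) hα0 hα' hβ' (by rw [h3]; exact h2)
    have h4 : (⇑(φ ^ (2 ^ r)) : Ω → Ω) = φ^[2 ^ r] := RingHom.coe_pow φ _
    rw [h4] at hs
    refine ih _ (mul_ne_zero h0 ?_) ?_ hs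
    · rw [← h4]
      exact (map_ne_zero _).2 h0
    · rw [← h4, map_mul, hcc, h1]
      ring

/-- The condition depends on `ρ` only up to a fixed factor. -/
theorem LF.scale {σ : Ω →+* Ω} {ρ ρ' α β : Ω} (hρ : ρ ≠ 0) (hρ' : ρ' ≠ 0) (h1 : σ ρ = -ρ)
    (h1' : σ ρ' = -ρ') (h : LF σ ρ α β) : LF σ ρ' α β := by
  obtain ⟨⟨a, ha, hsq⟩, ⟨X, Y, hX, hY, hc⟩⟩ := h
  obtain ⟨c, hc'⟩ : ∃ c, c = ρ' / ρ := ⟨_, rfl⟩
  have hc0 : c ≠ 0 := by
    rw [hc']
    exact div_ne_zero hρ' hρ
  have hσc : σ c = c := by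
    rw [hc', map_div₀, h1, h1']
    field_simp
  have hρc : ρ' = c * ρ := by
    rw [hc']
    field_simp
  refine ⟨?_, X, Y / c, hX, by rw [map_div₀, hY, hσc], ?_⟩
  · rcases hsq with h2 | h2
    · exact ⟨a, ha, Or.inl h2⟩
    · refine ⟨a * c, by rw [map_mul, ha, hσc], Or.inr ?_⟩
      rw [hρc]
      linear_combination c ^ 2 * h2
  · rw [hρc, ← hc]
    field_simp

/-- **The cyclic tower.** -/
theorem lf_all (φ : Ω →+* Ω) {α β : Ω} (hα0 : α ≠ 0) (hα : φ α = α) (hβ : φ β = β) (r : ℕ)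
    {ρ ρ₀ : Ω} (hρ0 : ρ ≠ 0) (hρ : φ^[2 ^ r] ρ = -ρ) (h : LF (φ^[2 ^ r]) ρ α β)
    (hρ₀ : ρ₀ ≠ 0) (hφ : φ ρ₀ = -ρ₀) : LF φ ρ₀ α β := by
  obtain ⟨ρ', h1, h2, h3⟩ := lf_tower φ hα0 hα hβ r ρ hρ0 hρ h
  exact h3.scale h1 hρ₀ h2 hφ

end H30MG

end S_H30_MG_Ta

section S_H30_MG_Lb

set_option autoImplicit false
set_option linter.unusedSectionVars false
open scoped Classical

open WithZero NumberField IsDedekindDomain H76PP H36CY

namespace H30MG

variable {K N : Type} [Field K] [NumberField K] [Field N] [NumberField N] [Algebra K N]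

variable (K) in
/-- The decomposition group of `W`. -/
def Dec (W : HeightOneSpectrum (𝓞 N)) : Subgroup (N ≃ₐ[K] N) where
  carrier := {g | Stb K W g}
  mul_mem' := by
    intro g h hg hh y
    rw [AlgEquiv.mul_apply, hg, hh]
  one_mem' := fun y => rfl
  inv_mem' := by
    intro g hg y
    have h1 := hg (g⁻¹ y)
    have h2 : g (g⁻¹ y) = y := g.apply_symm_apply y
    rw [h2] at h1
    exact h1.symm

theorem mem_dec {W : HeightOneSpectrum (𝓞 N)} {g : N ≃ₐ[K] N} :
    g ∈ Dec K W ↔ ∀ y : N, W.valuation N (g y) = W.valuation N y := Iff.rfl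

/-- The action of the decomposition group on the completion. -/
noncomputable def ac (W : HeightOneSpectrum (𝓞 N)) (g : N ≃ₐ[K] N) :
    W.adicCompletion N →+* W.adicCompletion N :=
  if h : Stb K W g then (exists_act W h).choose else RingHom.id _

theorem ac_cont (W : HeightOneSpectrum (𝓞 N)) (g : N ≃ₐ[K] N) : Continuous (ac W g) := by
  unfold ac
  split_ifs with h
  · exact (exists_act W h).choose_spec.1
  · exact continuous_id

theorem ac_coe {W : HeightOneSpectrum (𝓞 N)} {g : N ≃ₐ[K] N} (hg : g ∈ Dec K W) (x : N) :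
    ac W g (algebraMap N (W.adicCompletion N) x) = algebraMap N (W.adicCompletion N) (g x) := by
  unfold ac
  have h : Stb K W g := hg
  rw [dif_pos h]
  exact (exists_act W h).choose_spec.2 x

theorem ac_mul {W : HeightOneSpectrum (𝓞 N)} {g h : N ≃ₐ[K] N} (hg : g ∈ Dec K W)
    (hh : h ∈ Dec K W) (y : W.adicCompletion N) : ac W (g * h) y = ac W g (ac W h y) := by
  have h1 := act_ext (K := N) W (f := fun y => ac W (g * h) y) (f' := fun y => ac W g (ac W h y))
    (ac_cont W _) ((ac_cont W g).comp (ac_cont W h)) (fun x => by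
      rw [ac_coe ((Dec K W).mul_mem hg hh), ac_coe hh, ac_coe hg]
      rfl)
  exact congrFun h1 y

theorem ac_one (W : HeightOneSpectrum (𝓞 N)) (y : W.adicCompletion N) :
    ac W (1 : N ≃ₐ[K] N) y = y := by
  have h1 := act_ext (K := N) W (f := fun y => ac W (1 : N ≃ₐ[K] N) y) (f' := fun y => y)
    (ac_cont W _) continuous_id (fun x => by
      rw [ac_coe (Dec K W).one_mem]
      rfl)
  exact congrFun h1 y

theorem ac_pow {W : HeightOneSpectrum (𝓞 N)} {g : N ≃ₐ[K] N} (hg : g ∈ Dec K W) (n : ℕ)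
    (y : W.adicCompletion N) : ac W (g ^ n) y = (ac W g)^[n] y := by
  induction n with
  | zero => rw [pow_zero, ac_one]; rfl
  | succ n ih =>
    rw [pow_succ', ac_mul hg (pow_mem hg n), ih, Function.iterate_succ_apply']

theorem ac_iso {W : HeightOneSpectrum (𝓞 N)} {g : N ≃ₐ[K] N} (hg : g ∈ Dec K W)
    (y : W.adicCompletion N) : Valued.v (ac W g y) = Valued.v y :=
  act_iso (K := K) hg (ac_cont W g) (fun x => ac_coe hg x) y

/-- An element of the completion which is fixed by the decomposition group is a limit of elements of the base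
field. -/
theorem dense_gen [IsGalois K N] {W : HeightOneSpectrum (𝓞 N)} {y : W.adicCompletion N}
    (hy : ∀ g ∈ Dec K W, ac W g y = y) {ε : WithZero (Multiplicative ℤ)} (hε : ε ≠ 0) :
    ∃ t : K, Valued.v (y - algebraMap N (W.adicCompletion N) (algebraMap K N t)) < ε := by
  have : FiniteDimensional K N := Module.Finite.of_restrictScalars_finite ℚ K N
  set i := algebraMap N (W.adicCompletion N) with hi
  have hiv : ∀ k : N, Valued.v (i k) = W.valuation N k := fun k =>
    HeightOneSpectrum.valuedAdicCompletion_eq_valuation' W k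
  have hdense : DenseRange (⇑i) := HeightOneSpectrum.denseRange_algebraMap (K := N) W
  have hF : Fintype (N ≃ₐ[K] N) := inferInstance
  let H : Finset (N ≃ₐ[K] N) := Finset.univ.filter (fun g => g ∈ Dec K W)
  have hH : ∀ g, g ∈ H ↔ g ∈ Dec K W := fun g => by
    rw [Finset.mem_filter]
    exact ⟨fun h => h.2, fun h => ⟨Finset.mem_univ _, h⟩⟩
  have h1H : (1 : N ≃ₐ[K] N) ∈ H := (hH 1).2 (Dec K W).one_mem
  obtain ⟨m, hm⟩ : ∃ m, m = H.card := ⟨_, rfl⟩
  have hm0 : m ≠ 0 := by
    rw [hm]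
    exact Finset.card_ne_zero_of_mem h1H
  have hmN : (m : N) ≠ 0 := Nat.cast_ne_zero.2 hm0
  obtain ⟨π, hπ⟩ := W.valuation_exists_uniformizer N
  have hπ0 : π ≠ 0 := by
    rintro rfl
    rw [map_zero] at hπ
    exact absurd hπ.symm (by simp)
  have hπ1 : W.valuation N π < 1 := by
    rw [hπ]
    exact (WithZero.exp_lt_exp.2 (by norm_num : (-1 : ℤ) < 0)).trans_eq WithZero.exp_zero
  obtain ⟨n, hn⟩ := exists_pow_lt₀ hπ1 (Units.mk0 ε hε)
  rw [Units.val_mk0] at hn
  have hc'0 : i (π ^ n * m) ≠ 0 := (map_ne_zero i).2 (mul_ne_zero (pow_ne_zero _ hπ0) hmN)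
  obtain ⟨c, hc⟩ := hdense.mem_nhds (Te_nhd y hc'0)
  have hc1 : Valued.v (y - i c) < Valued.v (i (π ^ n * m)) := by
    rw [Valuation.map_sub_swap]
    exact hc
  have hj : ∀ g ∈ Dec K W, Valued.v (y - i (g c)) = Valued.v (y - i c) := by
    intro g hg
    have h1 : y - i (g c) = ac W g (y - i c) := by
      rw [map_sub, hy g hg, ac_coe hg]
    rw [h1, ac_iso hg]
  set S : N := ∑ g ∈ H, g c with hS
  have hfix : ∀ g : N ≃ₐ[K] N, Stb K W g → g (S / m) = S / m := by
    intro g hg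
    rw [map_div₀, map_natCast, hS, map_sum]
    congr 1
    refine Finset.sum_bij (fun h _ => g * h) (fun h hh => ?_) (fun a _ b _ hab => mul_left_cancel hab)
      (fun h hh => ⟨g⁻¹ * h, ?_, by group⟩) (fun h _ => rfl)
    · rw [hH] at hh ⊢
      exact (Dec K W).mul_mem hg hh
    · rw [hH] at hh ⊢
      exact (Dec K W).mul_mem ((Dec K W).inv_mem hg) hh
  obtain ⟨t, ht⟩ := dense_fix W hfix hε
  refine ⟨t, ?_⟩
  have h1 : (m : W.adicCompletion N) * (y - i (S / m)) = ∑ g ∈ H, (y - i (g c)) := by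
    rw [Finset.sum_sub_distrib, Finset.sum_const, ← hm, nsmul_eq_mul, ← map_sum,
      ← hS, mul_sub, map_div₀, map_natCast, mul_div_cancel₀]
    rw [← map_natCast i]
    exact (map_ne_zero i).2 hmN
  have h2 : Valued.v ((m : W.adicCompletion N) * (y - i (S / m))) < Valued.v (i (π ^ n * m)) := by
    rw [h1]
    refine Valuation.map_sum_lt _ ((Valuation.ne_zero_iff _).2 hc'0) fun g hg => ?_
    rw [hj g ((hH g).1 hg)]
    exact hc1
  have h3 : Valued.v (y - i (S / m)) < ε := by
    rw [map_mul i, map_mul, map_mul, map_natCast i, mul_comm (Valued.v (i (π ^ n)))] at h2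
    have h4 := lt_of_mul_lt_mul_left h2 zero_le
    rw [map_pow, map_pow, hiv] at h4
    exact h4.trans hn
  have h4 : y - i (algebraMap K N t) = (y - i (S / m)) + i (S / m - algebraMap K N t) := by
    rw [map_sub]
    ring
  rw [h4]
  refine Valuation.map_add_lt _ h3 ?_
  rw [hiv]
  exact ht

/-- The map of completions reflects the order. -/
theorem map_lt_rev (W : HeightOneSpectrum (𝓞 N)) {x y : (dn K W).adicCompletion K}
    (h : Valued.v ((over_dn (K := K) W).map x) < Valued.v ((over_dn (K := K) W).map y)) :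
    Valued.v x < Valued.v y := by
  by_contra hc
  rw [not_lt] at hc
  exact absurd h (not_lt.2 (H36LG.map_le' (over_dn (K := K) W) hc))

/-- The image of the completion of the base field is closed. -/
theorem closed_range (W : HeightOneSpectrum (𝓞 N)) {y : W.adicCompletion N}
    (hy : ∀ ε : WithZero (Multiplicative ℤ), ε ≠ 0 →
      ∃ t : K, Valued.v (y - algebraMap N (W.adicCompletion N) (algebraMap K N t)) < ε) :
    ∃ x : (dn K W).adicCompletion K, (over_dn (K := K) W).map x = y := by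
  set hov := over_dn (K := K) W with hhov
  set F : Filter ((dn K W).adicCompletion K) := Filter.comap hov.map (nhds y) with hF
  have hne : F.NeBot := by
    rw [hF, Filter.comap_neBot_iff]
    intro s hs
    rw [Valued.mem_nhds] at hs
    obtain ⟨γ, hγ⟩ := hs
    obtain ⟨t, ht⟩ := hy (MonoidWithZeroHom.ValueGroup₀.embedding γ.1) (by simp)
    refine ⟨algebraMap K _ t, hγ ?_⟩
    change Valued.v.restrict _ < γ.1
    rw [Valuation.restrict_lt_iff_lt_embedding, hov.map_algebraMap, Valuation.map_sub_swap]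
    exact ht
  have hca : Cauchy F := by
    rw [Valued.cauchy_iff]
    refine ⟨hne, fun γ => ?_⟩
    obtain ⟨n, hn⟩ := exists_exp_neg_natCast_lt
      (x := MonoidWithZeroHom.ValueGroup₀.embedding γ.1) (by simp)
    obtain ⟨c, hc⟩ := (dn K W).valuation_surjective K (exp (-(n : ℤ)))
    have hc0 : c ≠ 0 := by
      rintro rfl
      rw [map_zero] at hc
      exact exp_ne_zero hc.symm
    obtain ⟨c', hc'⟩ : ∃ c', c' = hov.map (algebraMap K _ c) := ⟨_, rfl⟩
    have hc'0 : c' ≠ 0 := by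
      rw [hc']
      exact (map_ne_zero _).2 ((map_ne_zero _).2 hc0)
    refine ⟨hov.map ⁻¹' {z | Valued.v (z - y) < Valued.v c'}, Filter.preimage_mem_comap
      (Te_nhd y hc'0), fun x hx z hz => ?_⟩
    change Valued.v (hov.map x - y) < Valued.v c' at hx
    change Valued.v (hov.map z - y) < Valued.v c' at hz
    have h1 : Valued.v (hov.map (z - x)) < Valued.v (hov.map (algebraMap K _ c)) := by
      rw [← hc']
      have h2 : hov.map (z - x) = (hov.map z - y) - (hov.map x - y) := by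
        rw [map_sub]
        ring
      rw [h2]
      exact Valuation.map_sub_lt _ hz hx
    have h3 := map_lt_rev W h1
    have h4 : Valued.v (algebraMap K ((dn K W).adicCompletion K) c) = exp (-(n : ℤ)) := by
      rw [← hc]
      exact HeightOneSpectrum.valuedAdicCompletion_eq_valuation' (dn K W) c
    rw [Valuation.restrict_lt_iff_lt_embedding]
    rw [h4] at h3
    exact h3.trans hn
  obtain ⟨x, hx⟩ := CompleteSpace.complete hca
  refine ⟨x, ?_⟩
  have h1 : Filter.Tendsto hov.map F (nhds (hov.map x)) :=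
    (hov.continuous_map.continuousAt (x := x)).tendsto.mono_left hx
  have h2 : Filter.Tendsto hov.map F (nhds y) := Filter.tendsto_comap
  exact tendsto_nhds_unique h1 h2

/-- **The fixed field of the decomposition group is the completion of the base field.** -/
theorem fixed_range [IsGalois K N] {W : HeightOneSpectrum (𝓞 N)} {y : W.adicCompletion N}
    (hy : ∀ g ∈ Dec K W, ac W g y = y) :
    ∃ x : (dn K W).adicCompletion K, (over_dn (K := K) W).map x = y :=
  closed_range W fun _ hε => dense_gen hy hε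

end H30MG

end S_H30_MG_Lb

section S_H30_MG_Lo

set_option autoImplicit false
set_option linter.unusedSectionVars false
open scoped Classical

open WithZero NumberField IsDedekindDomain H76PP H36CY H36MX
open H38T1 (SC sc scu rep rep_ne sc_rep sc_mul sc_eq_zero sc_surj)

namespace H30MG

/-- `LW` for elements. -/
theorem lw_iff {F : Type} [Field F] {x α β : F} (hx : x ≠ 0) (hα : α ≠ 0) (hβ : β ≠ 0) :
    LW (sc x) (sc α) (sc β) ↔ (IsSquare α ∨ IsSquare (α * x)) ∧ ∃ X Y : F, β * X ^ 2 + x * Y ^ 2 = 1 := by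
  unfold LW
  rw [hsc_sc hβ hx, hs_eq_zero, sc_eq_zero hα]
  have h1 : sc α = sc x ↔ IsSquare (α * x) := by
    rw [← sc_eq_zero (mul_ne_zero hα hx), sc_mul hα hx]
    have h2 := SC.two_smul (sc x)
    rw [two_nsmul] at h2
    constructor
    · intro h
      rw [h, h2]
    · intro h
      rw [← h2] at h
      exact add_right_cancel h
  rw [h1]
  rfl

variable {K M N : Type} [Field K] [NumberField K] [Field M] [NumberField M] [Field N] [NumberField N]
  [Algebra K M] [Algebra K N] [Algebra M N] [IsScalarTower K M N]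

/-- The completions of `K` and `M` in the completion of `N`. -/
theorem map_map (W : HeightOneSpectrum (𝓞 N)) (x : (dn K W).adicCompletion K) :
    (over_dn (K := M) W).map ((over_mid (k := K) (k' := M) W).map x) = (over_dn (K := K) W).map x := by
  have h := act_ext (dn K W)
    (f := fun x => (over_dn (K := M) W).map ((over_mid (k := K) (k' := M) W).map x))
    (f' := fun x => (over_dn (K := K) W).map x)
    ((over_dn (K := M) W).continuous_map.comp (over_mid (k := K) (k' := M) W).continuous_map)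
    (over_dn (K := K) W).continuous_map (fun x => by
      rw [Pool.Agent.H10.Over.map_algebraMap, Pool.Agent.H10.Over.map_algebraMap,
        Pool.Agent.H10.Over.map_algebraMap, ← IsScalarTower.algebraMap_apply K M N])
  exact congrFun h x

/-- The completion of `M` is fixed by the elements of the decomposition group which fix `M`. -/
theorem ac_fix {W : HeightOneSpectrum (𝓞 N)} {g : N ≃ₐ[K] N} (hg : g ∈ Dec K W)
    (hM : ∀ x : M, g (algebraMap M N x) = algebraMap M N x) (y : (dn M W).adicCompletion M) :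
    ac W g ((over_dn (K := M) W).map y) = (over_dn (K := M) W).map y := by
  have h := act_ext (dn M W)
    (f := fun y => ac W g ((over_dn (K := M) W).map y))
    (f' := fun y => (over_dn (K := M) W).map y)
    ((ac_cont W g).comp (over_dn (K := M) W).continuous_map)
    (over_dn (K := M) W).continuous_map (fun x => by
      rw [Pool.Agent.H10.Over.map_algebraMap, ac_coe hg, hM])
  exact congrFun h y

/-- If the decomposition group fixes `M` then the condition over the completion of `M` is the condition over the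
completion of `K`. -/
theorem lo_triv [IsGalois K N] {W : HeightOneSpectrum (𝓞 N)}
    (hD : ∀ g ∈ Dec K W, ∀ x : M, g (algebraMap M N x) = algebraMap M N x)
    {ν : (dn M W).adicCompletion M} (hν : ν ≠ 0) {m α β : (dn K W).adicCompletion K}
    (hm : (over_dn (K := K) W).map m = (over_dn (K := M) W).map ν) (hα : α ≠ 0) (hβ : β ≠ 0)
    (h : LW (sc ν) (sc ((over_mid (k := K) (k' := M) W).map α))
      (sc ((over_mid (k := K) (k' := M) W).map β))) : LW (sc m) (sc α) (sc β) := by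
  have key : ∀ y : (dn M W).adicCompletion M, ∃ x : (dn K W).adicCompletion K,
      (over_dn (K := K) W).map x = (over_dn (K := M) W).map y := fun y =>
    fixed_range fun g hg => ac_fix hg (hD g hg) y
  have hinj : Function.Injective (over_dn (K := K) W).map := RingHom.injective _
  have hm0 : m ≠ 0 := by
    rintro rfl
    rw [map_zero] at hm
    exact hν ((map_eq_zero _).1 hm.symm)
  have hα' : (over_mid (k := K) (k' := M) W).map α ≠ 0 := (map_ne_zero _).2 hα
  have hβ' : (over_mid (k := K) (k' := M) W).map β ≠ 0 := (map_ne_zero _).2 hβ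
  rw [lw_iff hν hα' hβ'] at h
  rw [lw_iff hm0 hα hβ]
  obtain ⟨h1, X, Y, h2⟩ := h
  refine ⟨?_, ?_⟩
  · rcases h1 with ⟨a, ha⟩ | ⟨a, ha⟩
    · obtain ⟨a', ha'⟩ := key a
      refine Or.inl ⟨a', hinj ?_⟩
      rw [map_mul, ha', ← map_map (M := M), ha, map_mul]
    · obtain ⟨a', ha'⟩ := key a
      refine Or.inr ⟨a', hinj ?_⟩
      rw [map_mul, map_mul, ha', hm, ← map_map (M := M), ← map_mul, ha, map_mul]
  · obtain ⟨X', hX⟩ := key X
    obtain ⟨Y', hY⟩ := key Y
    refine ⟨X', Y', hinj ?_⟩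
    rw [map_add, map_mul, map_mul, map_pow, map_pow, hX, hY, hm, ← map_map (M := M), ← map_pow,
      ← map_pow, ← map_mul, ← map_mul, ← map_add, h2, map_one, map_one]

/-- The fixed field of `U` in the completion. -/
def Om (W : HeightOneSpectrum (𝓞 N)) (U : Subgroup (N ≃ₐ[K] N)) : Subfield (W.adicCompletion N) where
  carrier := {y | ∀ h ∈ Dec K W, h ∈ U → ac W h y = y}
  mul_mem' := by
    intro x y hx hy h h1 h2
    rw [map_mul, hx h h1 h2, hy h h1 h2]
  one_mem' := fun h _ _ => map_one _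
  add_mem' := by
    intro x y hx hy h h1 h2
    rw [map_add, hx h h1 h2, hy h h1 h2]
  zero_mem' := fun h _ _ => map_zero _
  neg_mem' := by
    intro x hx h h1 h2
    rw [map_neg, hx h h1 h2]
  inv_mem' := by
    intro x hx h h1 h2
    rw [map_inv₀, hx h h1 h2]

theorem om_ac {W : HeightOneSpectrum (𝓞 N)} {U : Subgroup (N ≃ₐ[K] N)} [hU : U.Normal]
    {g : N ≃ₐ[K] N} (hg : g ∈ Dec K W) {y : W.adicCompletion N} (hy : y ∈ Om W U) :
    ac W g y ∈ Om W U := by
  intro h h1 h2
  have h3 : g⁻¹ * h * g ∈ U := by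
    have := hU.conj_mem h h2 g⁻¹
    rwa [inv_inv] at this
  have h4 : g⁻¹ * h * g ∈ Dec K W :=
    (Dec K W).mul_mem ((Dec K W).mul_mem ((Dec K W).inv_mem hg) h1) hg
  rw [← ac_mul h1 hg]
  have h5 : h * g = g * (g⁻¹ * h * g) := by group
  rw [h5, ac_mul hg h4, hy _ h4 h3]

/-- The action on the fixed field. -/
noncomputable def phU (W : HeightOneSpectrum (𝓞 N)) (U : Subgroup (N ≃ₐ[K] N)) [U.Normal]
    {g : N ≃ₐ[K] N} (hg : g ∈ Dec K W) : Om W U →+* Om W U :=
  ((ac W g).comp (Om W U).subtype).codRestrict (Om W U) fun y => om_ac hg y.2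

theorem phU_coe {W : HeightOneSpectrum (𝓞 N)} {U : Subgroup (N ≃ₐ[K] N)} [U.Normal]
    {g : N ≃ₐ[K] N} (hg : g ∈ Dec K W) (y : Om W U) : ((phU W U hg y : Om W U) : W.adicCompletion N) =
      ac W g y := rfl

theorem phU_iter {W : HeightOneSpectrum (𝓞 N)} {U : Subgroup (N ≃ₐ[K] N)} [U.Normal]
    {g : N ≃ₐ[K] N} (hg : g ∈ Dec K W) (n : ℕ) (y : Om W U) :
    (((phU W U hg)^[n] y : Om W U) : W.adicCompletion N) = ac W (g ^ n) y := by
  rw [ac_pow hg]
  induction n with
  | zero => rfl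
  | succ n ih => rw [Function.iterate_succ_apply', Function.iterate_succ_apply', phU_coe, ih]

/-- **The local descent** in the cyclic case. -/
theorem lo_main [IsGalois K N] {W : HeightOneSpectrum (𝓞 N)} (U : Subgroup (N ≃ₐ[K] N)) [U.Normal]
    (hUM : ∀ h ∈ U, ∀ x : M, h (algebraMap M N x) = algebraMap M N x)
    {g : N ≃ₐ[K] N} (hg : g ∈ Dec K W)
    (hgen : ∀ h ∈ Dec K W, ∃ i : ℕ, ∃ c ∈ U, h = g ^ i * c) {r : ℕ}
    (hgr : ∀ x : M, (g ^ 2 ^ r) (algebraMap M N x) = algebraMap M N x)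
    {ν : (dn M W).adicCompletion M} {ρ : W.adicCompletion N} (hρ0 : ρ ≠ 0)
    (hρν : ρ ^ 2 = (over_dn (K := M) W).map ν) (hUρ : ∀ h ∈ Dec K W, h ∈ U → ac W h ρ = ρ)
    (hgρ : ac W (g ^ 2 ^ r) ρ = -ρ) {ρ₀ : W.adicCompletion N} (hρ₀ : ρ₀ ≠ 0)
    (hUρ₀ : ∀ h ∈ Dec K W, h ∈ U → ac W h ρ₀ = ρ₀) (hgρ₀ : ac W g ρ₀ = -ρ₀)
    {m α β : (dn K W).adicCompletion K} (hm : (over_dn (K := K) W).map m = ρ₀ ^ 2)
    (hα : α ≠ 0) (hβ : β ≠ 0)
    (h : LW (sc ν) (sc ((over_mid (k := K) (k' := M) W).map α))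
      (sc ((over_mid (k := K) (k' := M) W).map β))) : LW (sc m) (sc α) (sc β) := by
  have _ : CharZero (W.adicCompletion N) := char_zero W
  have hcz : CharZero (Om W U) := charZero_of_injective_algebraMap
    (R := ℚ) (algebraMap ℚ (Om W U)).injective
  have hinj : Function.Injective (over_dn (K := K) W).map := RingHom.injective _
  have hν : ν ≠ 0 := by
    rintro rfl
    rw [map_zero] at hρν
    exact hρ0 (pow_eq_zero_iff two_ne_zero |>.1 hρν)
  have hm0 : m ≠ 0 := by
    rintro rfl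
    rw [map_zero] at hm
    exact hρ₀ (pow_eq_zero_iff two_ne_zero |>.1 hm.symm)
  have hα' : (over_mid (k := K) (k' := M) W).map α ≠ 0 := (map_ne_zero _).2 hα
  have hβ' : (over_mid (k := K) (k' := M) W).map β ≠ 0 := (map_ne_zero _).2 hβ
  rw [lw_iff hν hα' hβ'] at h
  rw [lw_iff hm0 hα hβ]
  -- elements of the fixed field
  have hM : ∀ y : (dn M W).adicCompletion M, (over_dn (K := M) W).map y ∈ Om W U := fun y h h1 h2 =>
    ac_fix h1 (hUM h h2) y
  have hMg : ∀ y : (dn M W).adicCompletion M, (phU W U hg)^[2 ^ r] ⟨_, hM y⟩ = ⟨_, hM y⟩ := fun y =>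
    Subtype.ext (by
      rw [phU_iter]
      exact ac_fix (pow_mem hg _) hgr y)
  have hK : ∀ x : (dn K W).adicCompletion K, ∀ h ∈ Dec K W,
      ac W h ((over_dn (K := K) W).map x) = (over_dn (K := K) W).map x := fun x h h1 =>
    ac_fix (M := K) h1 (fun x => h.commutes x) x
  have hKm : ∀ x : (dn K W).adicCompletion K, (over_dn (K := K) W).map x ∈ Om W U := fun x h h1 _ =>
    hK x h h1
  -- the converse: fixed elements come from `K`
  have key : ∀ y : Om W U, phU W U hg y = y → ∃ x : (dn K W).adicCompletion K,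
      (over_dn (K := K) W).map x = (y : W.adicCompletion N) := by
    intro y hy
    have hy' : ac W g (y : W.adicCompletion N) = y := congrArg Subtype.val hy
    refine fixed_range fun h hh => ?_
    obtain ⟨i, c, hc, hic⟩ := hgen h hh
    have hcD : c ∈ Dec K W := by
      have h1 : c = (g ^ i)⁻¹ * h := by rw [hic]; group
      rw [h1]
      exact (Dec K W).mul_mem ((Dec K W).inv_mem (pow_mem hg i)) hh
    rw [hic, ac_mul (pow_mem hg i) hcD, y.2 c hcD hc, ac_pow hg]
    exact Function.iterate_fixed hy' i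
  obtain ⟨h1, X, Y, h2⟩ := h
  have hab : ∀ x : (dn K W).adicCompletion K, (over_dn (K := M) W).map
      ((over_mid (k := K) (k' := M) W).map x) = (over_dn (K := K) W).map x := fun x => map_map W x
  have hLF : LF ((phU W U hg)^[2 ^ r]) (⟨ρ, hUρ⟩ : Om W U) ⟨_, hKm α⟩ ⟨_, hKm β⟩ := by
    refine ⟨?_, ⟨_, hM X⟩, ⟨_, hM Y⟩, hMg X, hMg Y, ?_⟩
    · rcases h1 with ⟨a, ha⟩ | ⟨a, ha⟩
      · refine ⟨⟨_, hM a⟩, hMg a, Or.inl (Subtype.ext ?_)⟩
        change (over_dn (K := K) W).map α = (over_dn (K := M) W).map a ^ 2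
        rw [← hab, ha, map_mul, sq]
      · refine ⟨⟨_, hM a⟩, hMg a, Or.inr (Subtype.ext ?_)⟩
        change (over_dn (K := K) W).map α * ρ ^ 2 = (over_dn (K := M) W).map a ^ 2
        rw [hρν, ← hab, ← map_mul, ha, map_mul, sq]
    · refine Subtype.ext ?_
      change (over_dn (K := K) W).map β * (over_dn (K := M) W).map X ^ 2 +
        ρ ^ 2 * (over_dn (K := M) W).map Y ^ 2 = 1
      rw [hρν, ← hab, ← map_pow, ← map_pow, ← map_mul, ← map_mul, ← map_add, h2, map_one]
  have hr := lf_all (phU W U hg) (α := ⟨_, hKm α⟩) (β := ⟨_, hKm β⟩)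
    (fun h0 => hα ((map_eq_zero (over_dn (K := K) W).map).1 (congrArg Subtype.val h0)))
    (Subtype.ext (hK α g hg)) (Subtype.ext (hK β g hg)) r (ρ := ⟨ρ, hUρ⟩) (ρ₀ := ⟨ρ₀, hUρ₀⟩)
    (fun h0 => hρ0 (congrArg Subtype.val h0))
    (Subtype.ext (by rw [phU_iter]; exact hgρ)) hLF (fun h0 => hρ₀ (congrArg Subtype.val h0))
    (Subtype.ext hgρ₀)
  obtain ⟨⟨a, ha, hsq⟩, X', Y', hX, hY, hc⟩ := hr
  refine ⟨?_, ?_⟩
  · obtain ⟨a', ha'⟩ := key a ha
    rcases hsq with h3 | h3
    · refine Or.inl ⟨a', hinj ?_⟩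
      rw [map_mul, ha', ← sq]
      exact congrArg Subtype.val h3
    · refine Or.inr ⟨a', hinj ?_⟩
      rw [map_mul, map_mul, ha', hm, ← sq]
      exact congrArg Subtype.val h3
  · obtain ⟨X₀, hX₀⟩ := key X' hX
    obtain ⟨Y₀, hY₀⟩ := key Y' hY
    refine ⟨X₀, Y₀, hinj ?_⟩
    rw [map_add, map_mul, map_mul, map_pow, map_pow, hX₀, hY₀, hm, map_one]
    exact congrArg Subtype.val hc

end H30MG

end S_H30_MG_Lo

section S_H30_MG_Lq

set_option autoImplicit false
set_option linter.unusedSectionVars false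
open scoped Classical

open WithZero NumberField IsDedekindDomain H76PP H36CY H36MX H38RT
open H38T1 (SC sc scu rep rep_ne sc_rep sc_mul sc_eq_zero sc_surj OddP)
open H76MX (Kv)

namespace H30MG

/-- `x` is a local class at `u` for the pair `(M, μ)`: at some place `w` of `M` above `u` the Kummer classes (at the
roots `e 0`, `e 2`) of the points of the twist by `μ` over `M_w`, if they come from classes over `K_u`, satisfy
`LW x`. -/
def LocCl {K M : Type} [Field K] [NumberField K] [Field M] [NumberField M] [Algebra K M]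
    (u : HeightOneSpectrum (𝓞 K)) (e : Fin 3 → Kv u) (μ : M) (x : SC (Kv u)) : Prop :=
  ∃ (w : HeightOneSpectrum (𝓞 M)) (hw : Pool.Agent.H10.Over u w), ∀ E z : Kv w, E ≠ 0 →
    IsSquare (E * algebraMap M (Kv w) μ) → (∀ j, z ≠ hw.map (e j)) →
    IsSquare (E * ((z - hw.map (e 0)) * (z - hw.map (e 1)) * (z - hw.map (e 2)))) →
    ∀ α β : Kv u, α ≠ 0 → β ≠ 0 → sc (hw.map α) = sc (E * (z - hw.map (e 0))) →
      sc (hw.map β) = sc (E * (z - hw.map (e 2))) → LW x (sc α) (sc β)

theorem Spl.map' {F F' : Type} [Field F] [Field F'] (f : F →+* F') {a b : F} {e : Fin 3 → F}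
    (h : Spl a b e) : Spl (f a) (f b) (fun j => f (e j)) where
  s1 := by rw [← map_add, ← map_add, h.s1, map_zero]
  s2 := by rw [← map_mul, ← map_mul, ← map_mul, ← map_add, ← map_add, h.s2]
  s3 := by rw [← map_mul, ← map_mul, h.s3, map_neg]
  ne01 := fun h1 => h.ne01 (f.injective h1)
  ne02 := fun h1 => h.ne02 (f.injective h1)
  ne12 := fun h1 => h.ne12 (f.injective h1)
  sq0 := by
    rw [← map_sub, ← map_sub, ← map_mul]
    exact h.sq0.map f
  sq2 := by
    rw [← map_sub, ← map_sub, ← map_mul]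
    exact h.sq2.map f

section Val

variable {K L : Type} [Field K] [NumberField K] [Field L] [NumberField L] [Algebra K L]
  {v : HeightOneSpectrum (𝓞 K)} {w : HeightOneSpectrum (𝓞 L)}

theorem val_le_of (h : Pool.Agent.H10.Over v w) {x y : v.adicCompletion K}
    (hxy : Valued.v (h.map x) ≤ Valued.v (h.map y)) : Valued.v x ≤ Valued.v y := by
  by_contra hc
  rw [not_le] at hc
  exact absurd (map_lt h hc) (not_lt.2 hxy)

theorem val_eq_of (h : Pool.Agent.H10.Over v w) {x y : v.adicCompletion K}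
    (hxy : Valued.v x = Valued.v y) : Valued.v (h.map x) = Valued.v (h.map y) :=
  le_antisymm (H36LG.map_le' h hxy.le) (H36LG.map_le' h hxy.ge)

theorem val_one_of (h : Pool.Agent.H10.Over v w) {x : v.adicCompletion K}
    (hx : Valued.v x = 1) : Valued.v (h.map x) = 1 := by
  have h1 := val_eq_of h (x := x) (y := 1) (by rw [hx, map_one])
  rw [h1, map_one, map_one]

theorem val_lt_one_of (h : Pool.Agent.H10.Over v w) {x : v.adicCompletion K}
    (hx : Valued.v x < 1) : Valued.v (h.map x) < 1 := by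
  have h1 := map_lt h (x := x) (y := 1) (by rw [map_one]; exact hx)
  rwa [map_one, map_one] at h1

end Val

variable {K M N : Type} [Field K] [NumberField K] [Field M] [NumberField M] [Field N] [NumberField N]
  [Algebra K M] [Algebra K N] [Algebra M N] [IsScalarTower K M N]

/-- In the trivial case the completion of `M` is that of `K`. -/
theorem triv_surj [IsGalois K N] {W : HeightOneSpectrum (𝓞 N)}
    (hD : ∀ g ∈ Dec K W, ∀ x : M, g (algebraMap M N x) = algebraMap M N x)
    (y : (dn M W).adicCompletion M) : ∃ x : (dn K W).adicCompletion K,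
      (over_mid (k := K) (k' := M) W).map x = y := by
  obtain ⟨x, hx⟩ := fixed_range (K := K) (y := (over_dn (K := M) W).map y)
    fun g hg => ac_fix hg (hD g hg) y
  refine ⟨x, (RingHom.injective (over_dn (K := M) W).map) ?_⟩
  rw [map_map, hx]

/-- The unramified class is preserved in the trivial case. -/
theorem unr_up [IsGalois K N] {W : HeightOneSpectrum (𝓞 N)}
    (hD : ∀ g ∈ Dec K W, ∀ x : M, g (algebraMap M N x) = algebraMap M N x)
    {g0 : (dn K W).adicCompletion K} (h : Unr g0) :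
    Unr ((over_mid (k := K) (k' := M) W).map g0) := by
  obtain ⟨ρ, h1, h2, h3⟩ := h
  refine ⟨(over_mid (k := K) (k' := M) W).map ρ, ?_, ?_, ?_⟩
  · have h4 := H36LG.map_le (over_mid (k := K) (k' := M) W) h1
    exact h4
  · intro t ht
    obtain ⟨t', rfl⟩ := triv_surj hD t
    rw [← map_pow, ← map_add, ← map_sub]
    refine val_one_of _ (h2 t' ?_)
    have h5 : Valued.v ((over_mid (k := K) (k' := M) W).map t') ≤
        Valued.v ((over_mid (k := K) (k' := M) W).map 1) := by
      rw [map_one, map_one]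
      exact ht
    have h6 := val_le_of _ h5
    rwa [map_one] at h6
  · rw [h3, map_add, map_mul, map_one, map_ofNat]

/-- If `μ = ρ^2` with `ρ` fixed by the decomposition group (and also `M`) then `μ` is a square of the
completion. -/
theorem triv_sq [IsGalois K N] {W : HeightOneSpectrum (𝓞 N)} {μ : M} {ρ : N}
    (hρ : ρ ^ 2 = algebraMap M N μ) (hD : ∀ g ∈ Dec K W, g ρ = ρ) :
    IsSquare (algebraMap M ((dn M W).adicCompletion M) μ) := by
  obtain ⟨x, hx⟩ := fixed_range (K := K) (W := W) (y := algebraMap N (W.adicCompletion N) ρ)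
    fun g hg => by rw [ac_coe hg, hD g hg]
  refine ⟨(over_mid (k := K) (k' := M) W).map x, RingHom.injective (over_dn (K := M) W).map ?_⟩
  rw [map_mul, map_map, hx, Pool.Agent.H10.Over.map_algebraMap, ← hρ, map_pow, sq]

/-- `μ` is not a square of the completion of `M` if some element of the decomposition group fixes `M` and
changes the sign of `ρ`. -/
theorem not_sq {W : HeightOneSpectrum (𝓞 N)} {μ : M} {ρ : N} (hρ0 : ρ ≠ 0)
    (hρ : ρ ^ 2 = algebraMap M N μ) {g : N ≃ₐ[K] N} (hg : g ∈ Dec K W)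
    (hgM : ∀ x : M, g (algebraMap M N x) = algebraMap M N x) (hgρ : g ρ = -ρ) :
    ¬ IsSquare (algebraMap M ((dn M W).adicCompletion M) μ) := by
  rintro ⟨b, hb⟩
  have _ := char_zero W
  have h1 : (algebraMap N (W.adicCompletion N) ρ) ^ 2 = (over_dn (K := M) W).map b ^ 2 := by
    rw [← map_pow, hρ, ← Pool.Agent.H10.Over.map_algebraMap (over_dn (K := M) W), hb, map_mul, sq]
  have h2 : ac W g (algebraMap N (W.adicCompletion N) ρ) = algebraMap N (W.adicCompletion N) ρ := by
    rcases sq_eq_sq_iff_eq_or_eq_neg.1 h1 with h | h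
    · rw [h]
      exact ac_fix hg hgM b
    · rw [h, map_neg]
      rw [ac_fix hg hgM b]
  rw [ac_coe hg, hgρ, map_neg] at h2
  have h3 : algebraMap N (W.adicCompletion N) ρ ≠ 0 := (map_ne_zero _).2 hρ0
  have h4 : 2 * algebraMap N (W.adicCompletion N) ρ = 0 := by linear_combination -h2
  exact (mul_ne_zero two_ne_zero h3) h4

section Two

variable [IsGalois K N] {W : HeightOneSpectrum (𝓞 N)} {a b : (dn K W).adicCompletion K}
  {e : Fin 3 → (dn K W).adicCompletion K}

theorem sc_sq_mul {F : Type} [Field F] {E μ c : F} (hE : E ≠ 0) (hμ : μ ≠ 0) (hc : c ≠ 0)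
    (h : IsSquare (E * μ)) : sc (E * c) = sc (μ * c) := by
  rw [sc_mul hE hc, sc_mul hμ hc, sc_eq_of_sq hE hμ h]

private theorem two_lt (h2 : (dn K W).valuation K 2 < 1) : (dn M W).valuation M 2 < 1 := by
  have h1 := v_lt_one (over_mid (k := K) (k' := M) W) h2
  rwa [map_ofNat] at h1

/-- Above two, trivial decomposition. -/
theorem locCl_two_triv (h2 : (dn K W).valuation K 2 < 1) (hs : Spl a b e)
    (hδ : IsSquare (e 1 - e 0)) (h1 : Valued.v (e 1 - e 0) = 1)
    (h16 : Valued.v (e 2 - e 1) = Valued.v (16 : (dn K W).adicCompletion K)) {μ : M} {ρ : N}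
    (hρ0 : ρ ≠ 0) (hρ : ρ ^ 2 = algebraMap M N μ)
    (hD : ∀ g ∈ Dec K W, ∀ x : M, g (algebraMap M N x) = algebraMap M N x)
    (hDρ : ∀ g ∈ Dec K W, g ρ = ρ) {g0 : (dn K W).adicCompletion K} (hg0 : Unr g0) :
    LocCl (dn K W) e μ (sc g0) := by
  refine ⟨dn M W, over_mid W, fun E z hE hEμ hz hsq α β hα hβ h3 h4 => ?_⟩
  have hμ0 : μ ≠ 0 := by
    rintro rfl
    rw [map_zero] at hρ
    exact hρ0 (pow_eq_zero_iff two_ne_zero |>.1 hρ)
  have hμ0' : algebraMap M ((dn M W).adicCompletion M) μ ≠ 0 := (map_ne_zero _).2 hμ0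
  have hEsq : IsSquare E := by
    obtain ⟨t, ht⟩ := triv_sq hρ hDρ
    obtain ⟨s, hs⟩ := hEμ
    have ht0 : t ≠ 0 := by
      rintro rfl
      rw [mul_zero] at ht
      exact hμ0' ht
    refine ⟨s / t, ?_⟩
    rw [ht] at hs
    field_simp
    linear_combination hs
  have h2' := two_lt (M := M) h2
  have e16 : (over_mid (k := K) (k' := M) W).map (16 : (dn K W).adicCompletion K) = 16 :=
    map_ofNat _ _
  have h5 := cond_two h2' (hf_two h2') (Spl.map' (over_mid (k := K) (k' := M) W).map hs)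
    (by rw [← map_sub]; exact hδ.map _) (by rw [← map_sub]; exact val_one_of _ h1)
    (by rw [← map_sub, ← e16]; exact val_eq_of _ h16) hE hz hsq (unr_up hD hg0)
  rw [if_pos hEsq] at h5
  rw [← h3, ← h4] at h5
  have hg00 : g0 ≠ 0 := by
    intro h
    have h1 := unr_one h2 hg0
    rw [h, map_zero] at h1
    exact zero_ne_one h1
  exact lo_triv hD ((map_ne_zero _).2 hg00) (map_map W g0).symm hα hβ h5

/-- Above two, cyclic decomposition. -/
theorem locCl_two_cyc (h2 : (dn K W).valuation K 2 < 1) (hs : Spl a b e)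
    (hδ : IsSquare (e 1 - e 0)) (h1 : Valued.v (e 1 - e 0) = 1)
    (h16 : Valued.v (e 2 - e 1) = Valued.v (16 : (dn K W).adicCompletion K)) {μ : M} {ρ : N}
    (hρ0 : ρ ≠ 0) (hρ : ρ ^ 2 = algebraMap M N μ) (U : Subgroup (N ≃ₐ[K] N)) [U.Normal]
    (hUM : ∀ h ∈ U, ∀ x : M, h (algebraMap M N x) = algebraMap M N x) (hUρ : ∀ h ∈ U, h ρ = ρ)
    {g : N ≃ₐ[K] N} (hg : g ∈ Dec K W)
    (hgen : ∀ h ∈ Dec K W, ∃ i : ℕ, ∃ c ∈ U, h = g ^ i * c) {r : ℕ}
    (hgr : ∀ x : M, (g ^ 2 ^ r) (algebraMap M N x) = algebraMap M N x)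
    (hgρ : (g ^ 2 ^ r) ρ = -ρ) {ρ₀ : N} (hρ₀ : ρ₀ ≠ 0) (hUρ₀ : ∀ h ∈ Dec K W, h ∈ U → h ρ₀ = ρ₀)
    (hgρ₀ : g ρ₀ = -ρ₀) {m : (dn K W).adicCompletion K}
    (hm : (over_dn (K := K) W).map m = algebraMap N (W.adicCompletion N) ρ₀ ^ 2) :
    LocCl (dn K W) e μ (sc m) := by
  refine ⟨dn M W, over_mid W, fun E z hE hEμ hz hsq α β hα hβ h3 h4 => ?_⟩
  have hμ0 : μ ≠ 0 := by
    rintro rfl
    rw [map_zero] at hρ
    exact hρ0 (pow_eq_zero_iff two_ne_zero |>.1 hρ)
  have hμ0' : algebraMap M ((dn M W).adicCompletion M) μ ≠ 0 := (map_ne_zero _).2 hμ0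
  have hns := not_sq hρ0 hρ (pow_mem hg _) hgr hgρ
  have hEsq : ¬ IsSquare E := by
    rintro ⟨t, ht⟩
    apply hns
    obtain ⟨s, hs⟩ := hEμ
    have ht0 : t ≠ 0 := by
      rintro rfl
      rw [mul_zero] at ht
      exact hE ht
    refine ⟨s / t, ?_⟩
    rw [ht] at hs
    field_simp
    linear_combination hs
  have h2' := two_lt (M := M) h2
  have e16 : (over_mid (k := K) (k' := M) W).map (16 : (dn K W).adicCompletion K) = 16 :=
    map_ofNat _ _
  obtain ⟨g1, hg1⟩ := exists_unr h2'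
  have h5 := cond_two h2' (hf_two h2') (Spl.map' (over_mid (k := K) (k' := M) W).map hs)
    (by rw [← map_sub]; exact hδ.map _) (by rw [← map_sub]; exact val_one_of _ h1)
    (by rw [← map_sub, ← e16]; exact val_eq_of _ h16) hE hz hsq hg1
  rw [if_neg hEsq, sc_eq_of_sq hE hμ0' hEμ, ← h3, ← h4] at h5
  refine lo_main U hUM hg hgen hgr (ρ := algebraMap N (W.adicCompletion N) ρ)
    (ρ₀ := algebraMap N (W.adicCompletion N) ρ₀) ((map_ne_zero _).2 hρ0) ?_
    (fun h h1 h2 => by rw [ac_coe h1, hUρ h h2]) (by rw [ac_coe (pow_mem hg _), hgρ, map_neg])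
    ((map_ne_zero _).2 hρ₀) (fun h h1 h2 => by rw [ac_coe h1, hUρ₀ h h1 h2])
    (by rw [ac_coe hg, hgρ₀, map_neg]) hm hα hβ h5
  rw [← map_pow, hρ, Pool.Agent.H10.Over.map_algebraMap]

end Two

section Odd

variable [IsGalois K N] {W : HeightOneSpectrum (𝓞 N)} {a b : (dn K W).adicCompletion K}
  {e : Fin 3 → (dn K W).adicCompletion K}

private theorem odd_up (hu : OddP (dn K W)) : OddP (dn M W) := by
  have h1 := v_one (over_mid (k := K) (k' := M) W) (x := (2 : K)) hu
  rw [map_ofNat] at h1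
  exact h1

/-- The class over the completion of `M` at an odd place. -/
private theorem odd_cond (hu : OddP (dn K W)) (hs : Spl a b e) (h1 : Valued.v (e 1 - e 0) = 1)
    (hτ : Valued.v (e 2 - e 1) < 1) {μ : M} (hμ0 : μ ≠ 0) {n : ℤ}
    (hμv : (dn M W).valuation M μ = exp (2 * n)) {E z : (dn M W).adicCompletion M} (hE : E ≠ 0)
    (hEμ : IsSquare (E * algebraMap M ((dn M W).adicCompletion M) μ))
    (hz : ∀ j, z ≠ (over_mid (k := K) (k' := M) W).map (e j))
    (hsq : IsSquare (E * ((z - (over_mid (k := K) (k' := M) W).map (e 0)) *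
      (z - (over_mid (k := K) (k' := M) W).map (e 1)) *
      (z - (over_mid (k := K) (k' := M) W).map (e 2))))) :
    LW (sc (algebraMap M ((dn M W).adicCompletion M) μ *
        (over_mid (k := K) (k' := M) W).map (e 1 - e 0)))
      (sc (E * (z - (over_mid (k := K) (k' := M) W).map (e 0))))
      (sc (E * (z - (over_mid (k := K) (k' := M) W).map (e 2)))) := by
  have hμ0' : algebraMap M ((dn M W).adicCompletion M) μ ≠ 0 := (map_ne_zero _).2 hμ0
  have hEv : ∃ k : ℤ, Valued.v E = exp (2 * k) := by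
    obtain ⟨s, hs⟩ := hEμ
    have hs0 : s ≠ 0 := by
      rintro rfl
      rw [mul_zero] at hs
      exact (mul_ne_zero hE hμ0') hs
    have hv := congrArg Valued.v hs
    rw [map_mul, map_mul, val_coe, hμv] at hv
    have hvs : Valued.v s ≠ 0 := (Valuation.ne_zero_iff _).2 hs0
    have hvE : Valued.v E ≠ 0 := (Valuation.ne_zero_iff _).2 hE
    rw [← exp_log hvs, ← exp_log hvE, ← exp_add, ← exp_add] at hv
    have hv' := WithZero.exp_injective hv
    refine ⟨log (Valued.v s) - n, ?_⟩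
    rw [← exp_log hvE]
    congr 1
    linarith
  obtain ⟨k, hk⟩ := hEv
  have h5 := cond_odd (odd_up (M := M) hu) (Spl.map' (over_mid (k := K) (k' := M) W).map hs)
    (by rw [← map_sub]; exact val_one_of _ h1) (by rw [← map_sub]; exact val_lt_one_of _ hτ)
    hE hk hz hsq
  have he : (over_mid (k := K) (k' := M) W).map (e 1 - e 0) ≠ 0 := by
    refine (map_ne_zero _).2 (sub_ne_zero.2 hs.ne01.symm)
  have h6 : sc (E * ((over_mid (k := K) (k' := M) W).map (e 1) -
      (over_mid (k := K) (k' := M) W).map (e 0))) =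
      sc (algebraMap M ((dn M W).adicCompletion M) μ *
        (over_mid (k := K) (k' := M) W).map (e 1 - e 0)) := by
    rw [← map_sub]
    exact sc_sq_mul hE hμ0' he hEμ
  rw [h6] at h5
  exact h5

/-- Auxiliary place, the decomposition group fixes `M`. -/
theorem locCl_odd_one (hu : OddP (dn K W)) (hs : Spl a b e) (h1 : Valued.v (e 1 - e 0) = 1)
    (hτ : Valued.v (e 2 - e 1) < 1) {μ : M} {ρ : N} (hρ0 : ρ ≠ 0) (hρ : ρ ^ 2 = algebraMap M N μ)
    {n : ℤ} (hμv : (dn M W).valuation M μ = exp (2 * n))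
    (hD : ∀ g ∈ Dec K W, ∀ x : M, g (algebraMap M N x) = algebraMap M N x)
    {m : (dn K W).adicCompletion K}
    (hm : (over_dn (K := K) W).map m = algebraMap N (W.adicCompletion N) ρ ^ 2) :
    LocCl (dn K W) e μ (sc (m * (e 1 - e 0))) := by
  refine ⟨dn M W, over_mid W, fun E z hE hEμ hz hsq α β hα hβ h3 h4 => ?_⟩
  have hμ0 : μ ≠ 0 := by
    rintro rfl
    rw [map_zero] at hρ
    exact hρ0 (pow_eq_zero_iff two_ne_zero |>.1 hρ)
  have h5 := odd_cond hu hs h1 hτ hμ0 hμv hE hEμ hz hsq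
  rw [← h3, ← h4] at h5
  have he : (over_mid (k := K) (k' := M) W).map (e 1 - e 0) ≠ 0 :=
    (map_ne_zero _).2 (sub_ne_zero.2 hs.ne01.symm)
  refine lo_triv hD (mul_ne_zero ((map_ne_zero _).2 hμ0) he) ?_ hα hβ h5
  rw [map_mul, map_mul, hm, map_map, Pool.Agent.H10.Over.map_algebraMap, ← hρ, map_pow]

/-- Auxiliary place, the decomposition group does not fix `M`. -/
theorem locCl_odd_cyc (hu : OddP (dn K W)) (hs : Spl a b e) (h1 : Valued.v (e 1 - e 0) = 1)
    (hτ : Valued.v (e 2 - e 1) < 1) {μ : M} {ρ : N}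
    (hρ0 : ρ ≠ 0) (hρ : ρ ^ 2 = algebraMap M N μ)
    {n : ℤ} (hμv : (dn M W).valuation M μ = exp (2 * n)) (U : Subgroup (N ≃ₐ[K] N)) [U.Normal]
    (hUM : ∀ h ∈ U, ∀ x : M, h (algebraMap M N x) = algebraMap M N x) (hUρ : ∀ h ∈ U, h ρ = ρ)
    {g : N ≃ₐ[K] N} (hg : g ∈ Dec K W)
    (hgen : ∀ h ∈ Dec K W, ∃ i : ℕ, ∃ c ∈ U, h = g ^ i * c) {r : ℕ}
    (hgr : ∀ x : M, (g ^ 2 ^ (r + 1)) (algebraMap M N x) = algebraMap M N x)
    (hgρ : (g ^ 2 ^ (r + 1)) ρ = -ρ) {ρ₀ : N} (hρ₀ : ρ₀ ≠ 0)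
    (hUρ₀ : ∀ h ∈ Dec K W, h ∈ U → h ρ₀ = ρ₀)
    (hgρ₀ : g ρ₀ = -ρ₀) {m : (dn K W).adicCompletion K}
    (hm : (over_dn (K := K) W).map m = algebraMap N (W.adicCompletion N) ρ₀ ^ 2)
    (hem : IsSquare (e 1 - e 0) ∨ IsSquare ((e 1 - e 0) * m)) :
    LocCl (dn K W) e μ (sc m) := by
  refine ⟨dn M W, over_mid W, fun E z hE hEμ hz hsq α β hα hβ h3 h4 => ?_⟩
  have hμ0 : μ ≠ 0 := by
    rintro rfl
    rw [map_zero] at hρ
    exact hρ0 (pow_eq_zero_iff two_ne_zero |>.1 hρ)
  have h5 := odd_cond hu hs h1 hτ hμ0 hμv hE hEμ hz hsq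
  rw [← h3, ← h4] at h5
  have he0 : e 1 - e 0 ≠ 0 := sub_ne_zero.2 hs.ne01.symm
  have hm0 : m ≠ 0 := by
    rintro rfl
    rw [map_zero] at hm
    exact hρ₀ ((map_eq_zero _).1 (pow_eq_zero_iff two_ne_zero |>.1 hm.symm))
  -- a square root of `e 1 - e 0`
  have hfixK : ∀ (x : (dn K W).adicCompletion K) (h : N ≃ₐ[K] N), h ∈ Dec K W →
      ac W h ((over_dn (K := K) W).map x) = (over_dn (K := K) W).map x := fun x h h1 =>
    ac_fix (M := K) h1 (fun x => h.commutes x) x
  have hiter : ∀ y : W.adicCompletion N, ac W g y = -y → ac W (g ^ 2 ^ (r + 1)) y = y := by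
    intro y hy
    have h2 : ac W (g ^ 2) y = y := by
      rw [sq, ac_mul hg hg, hy, map_neg, hy, neg_neg]
    rw [pow_succ', pow_mul, ac_pow (pow_mem hg 2)]
    exact Function.iterate_fixed h2 _
  obtain ⟨t, ht0, ht2, htU, htg⟩ : ∃ t : W.adicCompletion N, t ≠ 0 ∧
      t ^ 2 = (over_dn (K := K) W).map (e 1 - e 0) ∧
      (∀ h ∈ Dec K W, h ∈ U → ac W h t = t) ∧ ac W (g ^ 2 ^ (r + 1)) t = t := by
    rcases hem with ⟨c, hc⟩ | ⟨c, hc⟩
    · refine ⟨(over_dn (K := K) W).map c, ?_, ?_, fun h h1 _ => hfixK c h h1,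
        hfixK c _ (pow_mem hg _)⟩
      · refine (map_ne_zero _).2 ?_
        rintro rfl
        rw [mul_zero] at hc
        exact he0 hc
      · rw [hc, map_mul, sq]
    · have hρ₀' : algebraMap N (W.adicCompletion N) ρ₀ ≠ 0 := (map_ne_zero _).2 hρ₀
      have hc0 : c ≠ 0 := by
        rintro rfl
        rw [mul_zero] at hc
        exact (mul_ne_zero he0 hm0) hc
      refine ⟨(over_dn (K := K) W).map c / algebraMap N (W.adicCompletion N) ρ₀,
        div_ne_zero ((map_ne_zero _).2 hc0) hρ₀', ?_, ?_, ?_⟩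
      · rw [div_pow, ← hm, ← map_pow, sq, ← hc, map_mul]
        have hm' : (over_dn (K := K) W).map m ≠ 0 := (map_ne_zero _).2 hm0
        field_simp
      · intro h h1 h2
        rw [map_div₀, hfixK c h h1, ac_coe h1, hUρ₀ h h1 h2]
      · rw [map_div₀, hfixK c _ (pow_mem hg _),
          hiter _ (by rw [ac_coe hg, hgρ₀, map_neg])]
  refine lo_main U hUM hg hgen hgr (ρ := algebraMap N (W.adicCompletion N) ρ * t)
    (ρ₀ := algebraMap N (W.adicCompletion N) ρ₀) (mul_ne_zero ((map_ne_zero _).2 hρ0) ht0) ?_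
    (fun h h1 h2 => by rw [map_mul, ac_coe h1, hUρ h h2, htU h h1 h2])
    (by rw [map_mul, ac_coe (pow_mem hg _), hgρ, map_neg, htg, neg_mul])
    ((map_ne_zero _).2 hρ₀) (fun h h1 h2 => by rw [ac_coe h1, hUρ₀ h h1 h2])
    (by rw [ac_coe hg, hgρ₀, map_neg]) hm hα hβ h5
  rw [mul_pow, ← map_pow, hρ, ht2, map_mul, Pool.Agent.H10.Over.map_algebraMap, map_map]

end Odd

end H30MG

end S_H30_MG_Lq

section S_H88_AB_Ce

set_option autoImplicit false
set_option linter.unusedSectionVars false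
open scoped Classical

open WithZero NumberField IsDedekindDomain H38RT
open H38T1 (SC sc scu rep eo la si Pri OddP tp unif ka)
open H76PP H36MX H76MX

namespace H88AB

/-- **The local condition over `K`.** -/
theorem condX_of_loc {K M : Type} [Field K] [NumberField K] [Field M] [NumberField M] [Algebra K M]
    {r : ℕ} (hr : Module.finrank K M = 2 ^ r) {u : HeightOneSpectrum (𝓞 K)}
    {A B : 𝓞 K} {e : Fin 3 → Kv u} {μ : 𝓞 M} (hμ : μ ≠ 0) {x : SC (Kv u)}
    (hc : H30MG.LocCl u e (μ : M) x) : CondX K M u A B e μ x := by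
  intro hs L _ _ _ θ h D hD0 hDsq E hE δ hδ hsq hLC
  obtain ⟨W, hw, hc⟩ := hc
  have hW : dn K W = u := by
    apply HeightOneSpectrum.ext
    have hmax : u.asIdeal.IsMaximal := u.isMaximal
    exact (hmax.eq_of_le (Ideal.comap_ne_top _ W.isPrime.ne_top) fun y hy => hw y hy).symm
  have hj : ∀ x : K, hw.map (algebraMap K (Kv u) x) = algebraMap M (Kv W) (algebraMap K M x) :=
    fun x => hw.map_algebraMap x
  obtain ⟨w, hw0, hwD⟩ := Bc_sq hDsq
  have hirr : ∀ t : K, t ^ 3 + (A : K) * t + (B : K) ≠ 0 := by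
    intro t ht
    have h1 : (θ - algebraMap K L t) * (algebraMap K L ((A : K) + t ^ 2) + algebraMap K L t * θ +
        algebraMap K L 1 * θ ^ 2) = 0 := by
      have h2 := congrArg (algebraMap K L) ht
      simp only [map_add, map_mul, map_pow, map_zero, map_one] at h2 ⊢
      linear_combination h.root - h2
    rcases mul_eq_zero.1 h1 with h2 | h2
    · have h3 := h.li (-t) 1 0 (by
        simp only [map_neg, map_one, map_zero]
        linear_combination h2)
      exact one_ne_zero h3.2.1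
    · exact one_ne_zero (h.li _ _ _ h2).2.2
  obtain ⟨LM, _, _, _, θM, hM⟩ := H24PD.exists_cub (K := M)
    (H73P2.noroot (K := K) (N := M) (k := M) hr hirr)
  have hsM : Spl (algebraMap M (Kv W) (algebraMap K M (A : K)))
      (algebraMap M (Kv W) (algebraMap K M (B : K))) (fun i => hw.map (e i)) := by
    have h1 := spl_map hw.map hs
    rw [hj, hj] at h1
    exact h1
  have hDK : (D : K) ≠ 0 := fun h0 => hD0 (RingOfIntegers.coe_eq_zero_iff.1 h0)
  have hμM : (μ : M) ≠ 0 := fun h0 => hμ (RingOfIntegers.coe_eq_zero_iff.1 h0)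
  have hDM : algebraMap K M (D : K) ≠ 0 := (map_ne_zero _).2 hDK
  have hE0 : E ≠ 0 := by
    rw [hE]
    exact mul_ne_zero hDM hμM
  have hEL : algebraMap M LM E ≠ 0 := (map_ne_zero _).2 hE0
  obtain ⟨δM, hδM⟩ : ∃ δM : Fin 3 → M, δM = fun i => algebraMap K M (δ i) / E ^ (i : ℕ) := ⟨_, rfl⟩
  have hev : ev (algebraMap M LM E * θM) δM = ev θM (fun i => algebraMap K M (δ i)) := by
    rw [hδM]
    unfold ev
    simp only [Fin.val_zero, Fin.val_one, Fin.val_two, pow_zero, div_one, pow_one, map_div₀, map_pow]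
    field_simp
  have hne : ev θM (fun i => algebraMap K M (δ i)) ≠ 0 := ev_ne hM hδ
  obtain ⟨z, hz, hzsq, hl⟩ := kum_Z hM (algebraMap M (Kv W)) hsM hE0 (d := δM)
    (by rw [hev]; exact hne) (by
      rw [hδM]
      exact hLC W hW)
  rw [hev] at hl
  have hrh : ∀ k : Fin 3, rh hM (algebraMap M (Kv W)) (hsM.root k)
      (ev θM (fun i => algebraMap K M (δ i))) =
      hw.map (rh h (algebraMap K (Kv u)) (hs.root k) (ev θ δ)) := by
    intro k
    unfold ev
    simp only [map_add, map_mul, map_pow, rh_algebraMap, rh_theta, hj]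
  have hl' : ∀ k : Fin 3, sc (hw.map (rh h (algebraMap K (Kv u)) (hs.root k) (ev θ δ))) =
      sc (algebraMap M (Kv W) E * (z - hw.map (e k))) := by
    intro k
    rw [← hl k, lcl_sc _ _ _ _ hne, hrh]
  have h0 : ∀ k : Fin 3, rh h (algebraMap K (Kv u)) (hs.root k) (ev θ δ) ≠ 0 := fun k =>
    (map_ne_zero _).2 hδ
  rw [lcl_sc _ _ _ _ hδ, lcl_sc _ _ _ _ hδ]
  refine hc (algebraMap M (Kv W) E) z ((map_ne_zero _).2 hE0) ?_ hz hzsq _ _ (h0 0) (h0 2) (hl' 0)
    (hl' 2)
  refine ⟨hw.map w * algebraMap M (Kv W) (μ : M), ?_⟩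
  rw [hE, map_mul, ← hj, hwD, map_pow]
  ring

end H88AB

end S_H88_AB_Ce
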