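import Mathlib
import Pool.Agent.H76.XP.X5
import Pool.Agent.H76.XP.X6
import Pool.Agent.H76.XP.X7

/-! This file joins several modules to save build time (Y3). -/

set_option autoImplicit false

section S_H76_AB_Tg

set_option autoImplicit false
set_option linter.unusedSectionVars false
open scoped Classical

open WithZero NumberField IsDedekindDomain H38RT
open H38T1 (SC sc scu rep eo la si Pri OddP tp unif ka)
open H76PP H36MX H76MQ H76MX

namespace H76AB

theorem Tg_abs {P D : Type} [Fintype P] [Fintype D] {r : ℕ} (hr : 0 < r)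
    {X : P × Nd D r → Type} [∀ j, AddCommGroup (X j)] [∀ j, Module (ZMod 2) (X j)]
    [∀ j, Finite (X j)] (h : ∀ j, X j →ₗ[ZMod 2] X j →ₗ[ZMod 2] ZMod 2)
    (hsy : ∀ j x y, h j x y = h j y x) (hnd : ∀ j x, x ≠ 0 → ∃ y, h j x y = 1)
    (η : ∀ j, X j) (hη : ∀ j, η j ≠ 0) (y : (p : P) → D → X (p, none))
    (hy : ∀ p δ, y p δ ≠ 0) (on : P → D → Fin r → D → Prop) (hon : ∀ p δ i, on p δ i δ)
    (hoff : ∀ p δ δ', δ ≠ δ' → ∃ i, ¬ on p δ i δ') :
    ∃ W₀ : Submodule (ZMod 2) (∀ j, X j × X j),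
      (∀ p ∈ W₀, ∑ j, h j (p j).1 (p j).2 = 0) ∧
      Nat.card W₀ = ∏ j, Nat.card (X j) ∧
      ∀ (δ₀ : D) (g : ∀ j, X j), (∀ p, g (p, none) = y p δ₀) →
        (∀ p, g (p, some none) = η (p, some none)) →
        (∀ p δ i b, g (p, some (some (δ, i, b))) =
          if on p δ i δ₀ then η (p, some (some (δ, i, b))) else 0) →
        ∀ q ∈ W₀, (∀ j, ((q j).1 = 0 ∨ (q j).1 = g j) ∧ h j (q j).2 (g j) = 0) → q = 0 := by
  choose μ hμ using fun j => hnd j (η j) (hη j)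
  choose μ' hμ' using fun p δ => hnd (p, none) (y p δ) (hy p δ)
  obtain ⟨lam, hl1, hl2⟩ : ∃ lam : (j : P × Nd D r) → (P × Nd D r) → X j,
      (∀ p n k, lam (p, some n) k = μ (p, some n)) ∧
      (∀ p δ i k, lam (p, none) (k, ndA δ i) = μ' p δ) :=
    ⟨fun j k => match j with
      | (p, some n) => μ (p, some n)
      | (p, none) => match k.2 with
        | some (some (δ, _, false)) => μ' p δ
        | _ => 0, fun _ _ _ => rfl, fun _ _ _ _ => rfl⟩
  refine ⟨Wst h 0 EJ lam, fun p hp => Q_W0 (Ed := EJ) hsy (fun _ _ e => EJ_symm e) EJ_irr hp,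
    card_W hnd 0 EJ lam, ?_⟩
  intro δ₀ g g0 g1 g2 q hq hloc
  refine graph_zero0 hsy hnd hr g (fun p i δ => on p δ i δ₀) δ₀
    (fun p i => hon p δ₀ i) (fun p δ hδ => hoff p δ δ₀ hδ) ?_ ?_ ?_ ?_ hq hloc
  · intro p δ i hon z
    refine ⟨fun _ => ?_, fun _ => ?_⟩
    · rw [hl1, g2 p δ i false, if_pos hon]
      exact hμ _
    · rw [hl1, g2 p δ i true, if_pos hon]
      exact hμ _
  · intro p δ i hon
    refine ⟨?_, ?_⟩
    · rw [g2 p δ i false, if_neg hon]
    · rw [g2 p δ i true, if_neg hon]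
  · intro p z _
    rw [hl1, g1]
    exact hμ _
  · intro p i _
    rw [hl2, g0]
    exact hμ' _ _

variable {K : Type} [Field K] [NumberField K]

/-- The target of the walk, for an arbitrary index type: a singular subgroup of at least `2^m` elements which
meets the local conditions of every index only in zero. -/
structure TargetG (C : CfgX K) {ι : Type*} (x : (u : HeightOneSpectrum (𝓞 K)) → ι → SC (Kv u))
    (W : Submodule (ZMod 2) C.V) : Prop where
  sing : ∀ p ∈ W, C.Q p = 0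
  card : 2 ^ (Module.finrank ℚ K + 2 * C.Z.card) ≤ Nat.card W
  zero : ∀ i, ∀ p ∈ W, (∀ u : {u // u ∈ C.Z}, LW (x u.1 i) (p u).1 (p u).2) → p = 0

theorem TargetG.target {C : CfgX K} {ι : Type*} {x : (u : HeightOneSpectrum (𝓞 K)) → ι → SC (Kv u)}
    {W : Submodule (ZMod 2) C.V} (h : TargetG C x W) : Target C ∅ (fun _ _ => 0) W :=
  ⟨h.sing, h.card, fun _ hd => absurd hd (Set.notMem_empty _)⟩

/-- **The target subgroup.** `P`: the places above two, `D`: the types of twists; at the places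
`pl (p, ndA δ i)`, `pl (p, ndB δ i)` the class of a twist of type `χ` is `η` if `on p δ i χ` and `0` otherwise. -/
theorem exists_targetG {C : CfgX K} (hC : C.Ok) (hH : ∀ v : HeightOneSpectrum (𝓞 K), HF (Kv v))
    {P D : Type} [Fintype P] [Fintype D] {r : ℕ} (hr : 0 < r)
    (pl : P × Nd D r → HeightOneSpectrum (𝓞 K)) (hinj : Function.Injective pl)
    (hZ : ∀ u, u ∈ C.Z ↔ ∃ j, pl j = u) {ι : Type*}
    (x : (u : HeightOneSpectrum (𝓞 K)) → ι → SC (Kv u))
    (η : (u : HeightOneSpectrum (𝓞 K)) → SC (Kv u)) (hη : ∀ u, η u ≠ 0)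
    (cl : ι → D) (on : P → D → Fin r → D → Prop) (hon : ∀ p δ i, on p δ i δ)
    (hoff : ∀ p δ δ', δ ≠ δ' → ∃ i, ¬ on p δ i δ')
    (y : (p : P) → D → SC (Kv (pl (p, none)))) (hy : ∀ p δ, y p δ ≠ 0)
    (hx0 : ∀ p a, x (pl (p, none)) a = y p (cl a))
    (hx1 : ∀ p a, x (pl (p, some none)) a = η (pl (p, some none)))
    (hx2 : ∀ p δ i b a, x (pl (p, some (some (δ, i, b)))) a =
      if on p δ i (cl a) then η (pl (p, some (some (δ, i, b)))) else 0) :
    ∃ W : Submodule (ZMod 2) C.V, TargetG C x W := by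
  choose h hh using fun j => exists_hscL (hH (pl j))
  have hsy : ∀ j x y, h j x y = h j y x := fun j x y => by rw [hh, hh, H76MX.hsc_comm]
  have hnd : ∀ j x, x ≠ 0 → ∃ y, h j x y = 1 := by
    intro j x hx
    obtain ⟨y, hy⟩ := H76MX.hsc_nd (hH (pl j)) hx
    exact ⟨y, by rw [hh]; exact hy⟩
  have hfin : ∀ j, Finite (SC (Kv (pl j))) := fun j => fin_scv _
  obtain ⟨W₀, h1, h2, h3⟩ := @Tg_abs P D _ _ r hr (fun j => SC (Kv (pl j)))
    (fun j => inferInstance) (fun j => inferInstance) hfin h hsy hnd (fun j => η (pl j))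
    (fun j => hη _) y hy on hon hoff
  obtain ⟨enc, henc⟩ : ∃ enc : D → 𝓞 K, Function.Injective enc :=
    ⟨fun δ => ((Fintype.equivFin D δ : ℕ) : 𝓞 K), fun δ δ' h =>
      (Fintype.equivFin D).injective (Fin.ext (Nat.cast_injective h))⟩
  obtain ⟨ch, hch⟩ : ∃ ch : 𝓞 K → Set ι, ∀ a b, b ∈ ch (enc (cl a)) ↔ cl b = cl a :=
    ⟨fun e => {b | enc (cl b) = e}, fun a b => henc.eq_iff⟩
  have hxx : ∀ (j : P × Nd D r) a a', cl a = cl a' → x (pl j) a = x (pl j) a' := by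
    intro j a a' h
    obtain ⟨p, n⟩ := j
    rcases n with _ | _ | ⟨δ, i, b⟩
    · rw [hx0, hx0, h]
    · rw [hx1, hx1]
    · rw [hx2, hx2, h]
  obtain ⟨W, hW⟩ := target_of hC pl hinj hZ (Set.range fun a => enc (cl a))
    (fun u d => if h : (ch d).Nonempty then x u h.choose else 0) W₀
    (by
      intro p hp
      have h4 := h1 p hp
      simp only [hh] at h4
      exact h4) h2 (by
      rintro _ ⟨a, rfl⟩ q hq hloc
      have hne : (ch (enc (cl a))).Nonempty := ⟨a, (hch a a).2 rfl⟩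
      have hcl : cl hne.choose = cl a := (hch a _).1 hne.choose_spec
      simp only [dif_pos hne] at hloc
      refine h3 (cl a) (fun j => x (pl j) a) (fun p => hx0 p a) (fun p => hx1 p a)
        (fun p δ i b => hx2 p δ i b a) q hq fun j => ?_
      have h6 := hloc j
      rw [hxx j _ a hcl] at h6
      refine ⟨h6.1, ?_⟩
      rw [hh]
      exact h6.2)
  refine ⟨W, hW.sing, hW.card, fun a p hp h => hW.zero (enc (cl a)) ⟨a, rfl⟩ p hp fun u => ?_⟩
  have hne : (ch (enc (cl a))).Nonempty := ⟨a, (hch a a).2 rfl⟩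
  have hcl : cl hne.choose = cl a := (hch a _).1 hne.choose_spec
  obtain ⟨u, hu⟩ := u
  obtain ⟨j, rfl⟩ := (hZ u).1 hu
  have h1 := h ⟨pl j, hu⟩
  simp only [dif_pos hne]
  rw [hxx j _ a hcl]
  exact h1

end H76AB

end S_H76_AB_Tg

section S_H76_AB_Gc

set_option autoImplicit false
set_option linter.unusedSectionVars false
open scoped Classical

open WithZero NumberField IsDedekindDomain H38RT
open H38T1 (SC sc scu rep eo la si Pri OddP tp unif ka)
open H76PP H36MX H76MQ H76MX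

namespace H76AB

/-- An abstract property of the pair and of the roots at `u`. -/
abbrev LPred (K : Type) [Field K] [NumberField K] : Type :=
  (u : HeightOneSpectrum (𝓞 K)) → 𝓞 K → 𝓞 K → (Fin 3 → Kv u) → Prop

/-- An abstract condition on the coordinates `δ` of the elements of `L = K(θ)` with respect to `1, θ, θ^2`, for the
index `i`, the pair `(A, B)` and a finite set of places. -/
abbrev SPred (K : Type) [Field K] [NumberField K] (ι : Type*) : Type _ :=
  Finset (HeightOneSpectrum (𝓞 K)) → ι → 𝓞 K → 𝓞 K → (Fin 3 → K) → Prop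

/-- The residue class: every member of the family in the class has the roots `e` with the property `Lp`. -/
structure ClassG {K : Type} [Field K] [NumberField K] (C : CfgX K) (Lp : LPred K)
    (m : Ideal (𝓞 K)) (E : ℕ) (A₀ B₀ : 𝓞 K) : Prop where
  bot : m ≠ ⊥
  two : 2 ≤ E
  inS : ∀ v ∈ C.S, m ≤ v.asIdeal ^ E ∧ dsc A₀ B₀ ∉ v.asIdeal ^ E
  out : ∀ v : HeightOneSpectrum (𝓞 K), v ∉ C.S → m ≤ v.asIdeal → dsc A₀ B₀ ∉ v.asIdeal
  res : ∀ A B : 𝓞 K, A - A₀ ∈ m → B - B₀ ∈ m → ∀ v ∈ C.R, ∀ t : 𝓞 K, t ^ 3 + A * t + B ∉ v.asIdeal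
  loc : ∀ A B : 𝓞 K, A - A₀ ∈ m → B - B₀ ∈ m → ∀ u ∈ C.Z, ∃ e : Fin 3 → Kv u,
    Spl (algebraMap K (Kv u) (A : K)) (algebraMap K (Kv u) (B : K)) e ∧ Lp u A B e

/-- The conditions `Sel` for the twist by `D` of a member `(A, B)` of the family imply that the class is in the group
`X J` of the base curve and satisfies the local conditions `LW (x u i)` at the places of `Z`. -/
structure SelHyp {K : Type} [Field K] [NumberField K] (C : CfgX K) {ι : Type*}
    (x : (u : HeightOneSpectrum (𝓞 K)) → ι → SC (Kv u)) (Lp : LPred K) (Sel : SPred K ι)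
    (Z : Set (HeightOneSpectrum (𝓞 K))) : Prop where
  main : ∀ (q₀ : HeightOneSpectrum (𝓞 K)) (T : Finset (HeightOneSpectrum (𝓞 K))) (A B : 𝓞 K)
    (e : (u : HeightOneSpectrum (𝓞 K)) → Fin 3 → Kv u), q₀ ∉ C.S → q₀ ∈ Z →
    (∀ v ∈ T, v ∉ C.S ∧ v ≠ q₀ ∧ v ∈ Z) → FamX C q₀ T A B e → (∀ u ∈ C.Z, Lp u A B (e u)) →
    ∀ (L : Type) [Field L] [NumberField L] [Algebra K L] (θ : L), HR2 K L A B θ →
    ∀ (Dt : XData C T A B e θ) (J : Finset (HeightOneSpectrum (𝓞 K))), J ⊆ T →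
    ∀ D : 𝓞 K, H36MT.TwS C.S q₀ J (D : K) →
    ∀ P : Finset (HeightOneSpectrum (𝓞 K)), C.S ⊆ P → T ⊆ P → q₀ ∈ P →
    ∀ (i : ι) (δ : Fin 3 → K), ev (algebraMap K L (D : K) * θ) δ ≠ 0 →
      IsSquare (Algebra.norm K (ev (algebraMap K L (D : K) * θ) δ)) →
      Sel P i (D ^ 2 * A) (D ^ 3 * B) δ →
      Dt.X J (sc (ev (algebraMap K L (D : K) * θ) δ)) ∧
        ∀ u : {u // u ∈ C.Z}, LW (x u.1 i) (Dt.loc (sc (ev (algebraMap K L (D : K) * θ) δ)) u).1
          (Dt.loc (sc (ev (algebraMap K L (D : K) * θ) δ)) u).2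

/-- The conclusion for one pair. -/
structure SelGood {K : Type} [Field K] [NumberField K] {ι : Type*} (Sel : SPred K ι)
    (P : Finset (HeightOneSpectrum (𝓞 K))) (A B : 𝓞 K) : Prop where
  two : ∀ v : HeightOneSpectrum (𝓞 K), v.valuation K 2 < 1 → v ∈ P
  ne : 4 * A ^ 3 + 27 * B ^ 2 ≠ 0
  irr : ∀ t : K, t ^ 3 + (A : K) * t + (B : K) ≠ 0
  nice : ∀ v : HeightOneSpectrum (𝓞 K), v ∉ P → H73P2.NiceAt v (A : K) (B : K)
  rel : ∀ (i : ι) (L : Type) [Field L] [NumberField L] [Algebra K L] (θ : L),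
    Cub K L (A : K) (B : K) θ → ∀ δ : Fin 3 → K, ev θ δ ≠ 0 → IsSquare (Algebra.norm K (ev θ δ)) →
      Sel P i A B δ → IsSquare (ev θ δ)

section Main

variable {K : Type} [Field K] [NumberField K]

theorem main_localG {C : CfgX K} (hC : C.Ok) (hH : Hilb K) (hcs : ConicSplit K) {ι : Type*}
    {x : (u : HeightOneSpectrum (𝓞 K)) → ι → SC (Kv u)}
    {W : Submodule (ZMod 2) C.V} (hW : TargetG C x W) {Lp : LPred K} {Sel : SPred K ι}
    {Z : Set (HeightOneSpectrum (𝓞 K))} (hSel : SelHyp C x Lp Sel Z)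
    {q₀ : HeightOneSpectrum (𝓞 K)} (hq : q₀ ∉ C.S) (hqZ : q₀ ∈ Z) {k : ℕ} (hk0 : 0 < k)
    (T : ℕ → Finset (HeightOneSpectrum (𝓞 K))) (b : ℕ → ℕ)
    (hdis : ∀ i < k, ∀ j < k, i ≠ j → Disjoint (T i) (T j))
    (hT : ∀ v ∈ (Finset.range k).biUnion T, v ∉ C.S ∧ v ≠ q₀ ∧ v ∈ Z) {A B : 𝓞 K} {E₀ : ℕ}
    (hF0 : H36MT.FamS C.S E₀ q₀ ((Finset.range k).biUnion T) A B)
    {e : (u : HeightOneSpectrum (𝓞 K)) → Fin 3 → Kv u}
    (hF : FamX C q₀ ((Finset.range k).biUnion T) A B e)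
    (hLp : ∀ u ∈ C.Z, Lp u A B (e u))
    (hG : ∀ l < k, GoodSt (C.S ∪ (Finset.range l).biUnion T) (T l) (b l) A B)
    (hk : b 0 * 2 ^ (Module.finrank ℚ K + 2 * C.Z.card) ≤ 2 ^ k) :
    ∃ J ⊆ (Finset.range k).biUnion T, ∀ D : 𝓞 K, H36MT.TwS C.S q₀ J (D : K) →
      ∀ Sg : Finset (HeightOneSpectrum (𝓞 K)),
      C.S ⊆ Sg → (Finset.range k).biUnion T ⊆ Sg → q₀ ∈ Sg →
      SelGood Sel Sg (D ^ 2 * A) (D ^ 3 * B) := by
  obtain ⟨L, _, _, _, θ, hL⟩ := H24PD.exists_cub (fun t => hF0.no_root t)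
  have hR : HR2 K L A B θ := hr2 hL hF0.dsc_ne
  have hT' : ∀ v ∈ (Finset.range k).biUnion T, v ∉ C.S ∧ v ≠ q₀ := fun v hv =>
    ⟨(hT v hv).1, (hT v hv).2.1⟩
  obtain ⟨Dt⟩ := exists_XData hC hT' hF hL
  have hrec : ∀ c : SC L, c ∈ (HH K (C.S ∪ (Finset.range k).biUnion T) : AddSubgroup (SC L)) →
      C.Q (Dt.loc c) + ∑ v ∈ (Finset.range k).biUnion T,
        eo (Dt.t₂ v) c * (la (Dt.t₁ v) c + Dt.nu v) = 0 := fun c hc =>
    conic_recX hC hH hT' hF hR Dt
      (fun u hu y hy hN ha hb => hcs L (A : K) (B : K) θ Dt.h u (e u) (Dt.hs u hu) y hy hN ha hb) hc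
  obtain ⟨J, hJ, hw⟩ := walk_appX hC hH.hf hW.target hq hk0 T b hdis hT' hF hG hk hR Dt hrec
  refine ⟨J, hJ, fun D hD Sg hCS hTS hqS => ?_⟩
  have hD0 : (D : K) ≠ 0 := hD.ne
  have e1 : ((D ^ 2 * A : 𝓞 K) : K) = (D : K) ^ 2 * (A : K) := by push_cast; rfl
  have e2 : ((D ^ 3 * B : 𝓞 K) : K) = (D : K) ^ 3 * (B : K) := by push_cast; rfl
  refine ⟨?_, ?_, ?_, ?_, ?_⟩
  · intro v hv
    apply hCS
    have h3 : (2 : 𝓞 K) ∈ v.asIdeal := by
      by_contra h
      have h4 := (v.valuation_eq_one_iff_notMem (K := K) (r := (2 : 𝓞 K))).2 h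
      have h5 : v.valuation K (2 : K) = 1 := by
        rw [← h4]
        congr 1
      exact absurd h5 hv.ne
    exact Finset.mem_union_left _ (hC.mem2 v h3)
  · intro h4
    have h5 : (4 * ((D : K) ^ 2 * (A : K)) ^ 3 + 27 * ((D : K) ^ 3 * (B : K)) ^ 2) = 0 := by
      rw [← e1, ← e2, ← H36MT.dsc_coe, h4, map_zero]
    have h6 : (D : K) ^ 6 * (4 * (A : K) ^ 3 + 27 * (B : K) ^ 2) = 0 := by
      linear_combination h5
    exact (mul_ne_zero (pow_ne_zero 6 hD0) hF0.dsc_ne) h6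
  · rw [e1, e2]
    intro t ht
    apply hF0.no_root (t / (D : K))
    have h7 : (D : K) ^ 3 * ((t / (D : K)) ^ 3 + (A : K) * (t / (D : K)) + (B : K)) = 0 := by
      field_simp
      linear_combination ht
    exact (mul_eq_zero.1 h7).resolve_left (pow_ne_zero 3 hD0)
  · rw [e1, e2]
    intro v hv
    have hvS : v ∉ C.S := fun h => hv (hCS h)
    have hvJ : v ∉ J := fun h => hv (hTS (hJ h))
    have hvq : v ≠ q₀ := fun h => hv (h ▸ hqS)
    exact Sc_nice (hF0.sqf v hvS) hD0 (hD.even v hvS hvJ hvq)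
  · rw [e1, e2]
    intro i L' _ _ _ θ' hL' δ hδ hsq hs
    obtain ⟨φ, hφ⟩ := H36MT.Eq_hom (Tg_twist hL hD0) hL'
    have hδ' : ev (algebraMap K L (D : K) * θ) δ ≠ 0 := by
      intro h0
      apply hδ
      rw [← hφ, h0, map_zero]
    have hnorm : Algebra.norm K (ev (algebraMap K L (D : K) * θ) δ) =
        Algebra.norm K (ev θ' δ) := by
      rw [← hφ]
      exact (Algebra.norm_eq_of_algEquiv φ _).symm
    obtain ⟨hX, hLW⟩ := hSel.main q₀ ((Finset.range k).biUnion T) A B e hq hqZ hT hF hLp L θ hR Dt J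
      hJ D hD Sg hCS hTS hqS i δ hδ' (by rw [hnorm]; exact hsq) hs
    obtain ⟨hc1, hc2⟩ := hw _ hX
    have h0 := hc2 (hW.zero i _ hc1 hLW)
    obtain ⟨y, hy⟩ := (H38T1.sc_eq_zero hδ').1 h0
    refine ⟨φ y, ?_⟩
    rw [← hφ, hy, map_mul]

end Main

/-- **The positive proportion theorem** for the abstract conditions `Sel`. -/
theorem final_countG (K : Type) [Field K] [NumberField K] {C : CfgX K} (hC : C.Ok) (hH : Hilb K)
    (hcs : ConicSplit K) {ι : Type*} {x : (u : HeightOneSpectrum (𝓞 K)) → ι → SC (Kv u)}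
    {W : Submodule (ZMod 2) C.V} (hW : TargetG C x W) {Lp : LPred K} {Sel : SPred K ι}
    {m : Ideal (𝓞 K)} {e : ℕ} {A₀ B₀ : 𝓞 K} (hcl : ClassG C Lp m e A₀ B₀)
    {Z : Set (HeightOneSpectrum (𝓞 K))} (hZ : Z.Infinite) (hSel : SelHyp C x Lp Sel Z) :
    ∃ (Sg : Finset (HeightOneSpectrum (𝓞 K))) (c X₀ : ℝ), C.S ⊆ Sg ∧
      (∀ v ∈ Sg, v ∈ C.S ∨ v ∈ Z) ∧ 0 < c ∧ ∀ X : ℝ, X₀ ≤ X →
      ∃ G : Finset (𝓞 K × 𝓞 K),
        (∀ p ∈ G, p ∈ Bx K X ∧ ((∀ s : K →+* ℝ, 0 < s (p.1 : K)) ∧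
          (∀ v ∈ C.R, ∀ t : 𝓞 K, t ^ 3 + p.1 * t + p.2 ∉ v.asIdeal) ∧
          ∀ P : Finset (HeightOneSpectrum (𝓞 K)), Sg ⊆ P → SelGood Sel P p.1 p.2)) ∧
        (∀ p ∈ G, ∀ q ∈ G, p.1 ^ 3 * q.2 ^ 2 = q.1 ^ 3 * p.2 ^ 2 → p = q) ∧
        c * ((Bx K X).ncard : ℝ) ≤ (G.card : ℝ) := by
  have H : Blocks K := blocks_of_HR2 K fun h hd => hr2 h hd
  have hm0 := hcl.bot
  have he := hcl.two
  have hmS := hcl.inS
  have hm := hcl.out
  have hSv : ∀ v : HeightOneSpectrum (𝓞 K), (2 : 𝓞 K) ∈ v.asIdeal → v ∈ C.S := fun v hv =>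
    Finset.mem_union_left _ (hC.mem2 v hv)
  obtain ⟨m', hm'0, hm't, hm'm, hm'S, -⟩ := H36MT.exists_mod hm0 C.S
  obtain ⟨Z', hZ'Z, hZ', hZ'm, hZr⟩ := H30CY.aux_set_in K hm'0 hZ
  have hmZ : ∀ v ∈ Z', ¬ m ≤ v.asIdeal ∧ (6 : 𝓞 K) ∉ v.asIdeal := fun v hv =>
    ⟨fun h => (hZ'm v hv).1 (hm'm.trans h), (hZ'm v hv).2⟩
  have hS6 : ∀ v : HeightOneSpectrum (𝓞 K), ¬ m ≤ v.asIdeal → v ∉ C.S := by
    intro v hv hvS
    exact hv ((hmS v hvS).1.trans (Ideal.pow_le_self (by omega)))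
  obtain ⟨q₀, T, b, k, c, X₀, hq₀, hT, hdis, hk0, hk, hc, hmain⟩ :=
    H36MX.count_main K hSv he hZ' hm0 hmZ hmS hm (Module.finrank ℚ K + 2 * C.Z.card)
  obtain ⟨Ta, hTa⟩ : ∃ Ta : Finset (HeightOneSpectrum (𝓞 K)), Ta = (Finset.range k).biUnion T :=
    ⟨_, rfl⟩
  rw [← hTa] at hmain
  have hTa' : ∀ v ∈ Ta, v ∈ Z' ∧ v ≠ q₀ := by
    intro v hv
    rw [hTa, Finset.mem_biUnion] at hv
    obtain ⟨l, -, hl⟩ := hv
    exact hT l v hl
  have hT0 : T 0 ⊆ Ta := by
    intro v hv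
    rw [hTa, Finset.mem_biUnion]
    exact ⟨0, Finset.mem_range.2 hk0, hv⟩
  obtain ⟨c', X₁, hc', h⟩ := H30CY.count_genS H (S := C.S) (e := e) (q₀ := q₀) (T := Ta) (m' := m')
    (fun J hJ => H36MT.exists_twistS hm'0 hm't hm'S (hZ'm q₀ hq₀).1 fun p hp =>
      hZr q₀ hq₀ p (hTa' p (hJ hp)).1 (hTa' p (hJ hp)).2)
    (fun p => (p.1 - A₀ ∈ m ∧ p.2 - B₀ ∈ m ∧ ∀ s : K →+* ℝ, 0 < s (p.1 : K)) ∧
      ∀ l < k, GoodSt (C.S ∪ (Finset.range l).biUnion T) (T l) (b l) p.1 p.2)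
    (fun p => (∀ s : K →+* ℝ, 0 < s (p.1 : K)) ∧
      (∀ v ∈ C.R, ∀ t : 𝓞 K, t ^ 3 + p.1 * t + p.2 ∉ v.asIdeal) ∧
      ∀ P : Finset (HeightOneSpectrum (𝓞 K)), C.S ∪ insert q₀ Ta ⊆ P →
        SelGood Sel P p.1 p.2) hc (by
      intro X hX
      refine (hmain X hX).trans ?_
      have hfin : {p : 𝓞 K × 𝓞 K | p ∈ Bx K X ∧ H36MT.FamS C.S e q₀ Ta p.1 p.2 ∧
          ((p.1 - A₀ ∈ m ∧ p.2 - B₀ ∈ m ∧ ∀ s : K →+* ℝ, 0 < s (p.1 : K)) ∧
          ∀ l < k, GoodSt (C.S ∪ (Finset.range l).biUnion T) (T l) (b l) p.1 p.2) ∧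
          ¬ H36MT.BadS C.S Ta p.1 p.2}.Finite := (H.fin X).subset fun p hp => hp.1
      refine Nat.cast_le.2 (Set.ncard_le_ncard ?_ hfin)
      rintro p ⟨h1, h2, h3, h4⟩
      refine ⟨h1, h2, ⟨h3, h4⟩, ?_⟩
      have h5 := h4 0 hk0
      rw [Finset.range_zero, Finset.biUnion_empty, Finset.union_empty] at h5
      exact good_not_bad hT0 h5)
    (by
      rintro p hF ⟨hP, hG⟩ -
      obtain ⟨hP1, hP2, hP3⟩ := hP
      have hloc : ∀ u : HeightOneSpectrum (𝓞 K), ∃ e : Fin 3 → Kv u, u ∈ C.Z →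
          Spl (algebraMap K (Kv u) (p.1 : K)) (algebraMap K (Kv u) (p.2 : K)) e ∧
            Lp u p.1 p.2 e := by
        intro u
        by_cases hu : u ∈ C.Z
        · obtain ⟨e, he⟩ := hcl.loc p.1 p.2 hP1 hP2 u hu
          exact ⟨e, fun _ => he⟩
        · exact ⟨fun _ => 0, fun h => absurd h hu⟩
      choose ee hee using hloc
      have hpos : ∀ s : K →+* ℝ, 0 < s ((dsc p.1 p.2 : 𝓞 K) : K) := by
        intro s
        have e1 : ((dsc p.1 p.2 : 𝓞 K) : K) = 4 * (p.1 : K) ^ 3 + 27 * (p.2 : K) ^ 2 := by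
          unfold dsc
          simp only [map_add, map_mul, map_pow, map_ofNat]
        rw [e1, map_add, map_mul, map_mul, map_pow, map_pow, map_ofNat, map_ofNat]
        have h1 := hP3 s
        positivity
      have hFX : FamX C q₀ Ta p.1 p.2 ee := ⟨fun u hu => (hee u hu).1,
        hcl.res p.1 p.2 hP1 hP2, hF.irr, hF.typ, hF.sqf, hpos⟩
      have hF' := hF
      rw [hTa] at hFX hF'
      obtain ⟨J, hJ, hg⟩ := main_localG hC hH hcs hW hSel (hS6 q₀ (hmZ q₀ hq₀).1) (hZ'Z hq₀) hk0 T b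
        (fun i _ j _ hij => hdis i j hij)
        (fun v hv => by
          rw [← hTa] at hv
          exact ⟨hS6 v (hmZ v (hTa' v hv).1).1, (hTa' v hv).2, hZ'Z (hTa' v hv).1⟩) hF' hFX
        (fun u hu => (hee u hu).2) hG hk
      rw [← hTa] at hJ hg
      refine ⟨J, hJ, fun D hDm hD => ⟨?_, ?_, ?_⟩⟩
      · intro s
        change 0 < s ((D ^ 2 * p.1 : 𝓞 K) : K)
        have e1 : ((D ^ 2 * p.1 : 𝓞 K) : K) = (D : K) ^ 2 * (p.1 : K) := by push_cast; rfl
        rw [e1, map_mul, map_pow]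
        exact mul_pos (pow_pos (hD.pos s) 2) (hP3 s)
      · have hDm' := hm'm hDm
        refine hcl.res (D ^ 2 * p.1) (D ^ 3 * p.2) ?_ ?_
        · have e1 : D ^ 2 * p.1 - A₀ = (p.1 - A₀) + (D - 1) * ((D + 1) * p.1) := by ring
          rw [e1]
          exact m.add_mem hP1 (m.mul_mem_right _ hDm')
        · have e1 : D ^ 3 * p.2 - B₀ = (p.2 - B₀) + (D - 1) * ((D ^ 2 + D + 1) * p.2) := by ring
          rw [e1]
          exact m.add_mem hP2 (m.mul_mem_right _ hDm')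
      · intro P hP
        exact hg D hD P (Finset.subset_union_left.trans hP)
          (((Finset.subset_insert _ _).trans Finset.subset_union_right).trans hP)
          (hP (Finset.mem_union_right _ (Finset.mem_insert_self _ _))))
  refine ⟨C.S ∪ insert q₀ Ta, c', X₁, Finset.subset_union_left, fun v hv => ?_, hc', h⟩
  rcases Finset.mem_union.1 hv with h1 | h1
  · exact Or.inl h1
  · right
    rcases Finset.mem_insert.1 h1 with h2 | h2
    · rw [h2]
      exact hZ'Z hq₀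
    · exact hZ'Z (hTa' v h2).1

end H76AB

end S_H76_AB_Gc

section S_H76_AB_Gz

set_option autoImplicit false

namespace H76AB

open scoped Classical
open H36MX

variable {D : Type} [Fintype D] {r : ℕ}

/-- The linear system on one component.  `s x y` are the weights, `on i δ` says that the nodes
`a δ i` and `b δ i` are on. -/
theorem comp_zeroW (hr : 0 < r) (on : Fin r → D → Prop) (δ₀ : D) (h0 : ∀ i, on i δ₀)
    (s : Nd D r → Nd D r → ZMod 2)
    (hsep : ∀ δ, δ ≠ δ₀ → (∃ i, ¬ on i δ) ∨ ∀ i : Fin r, i.val = 0 → s none (ndA δ i) = 0)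
    (κ : Nd D r → ZMod 2)
    (hA : ∀ δ i, on i δ → ∀ y, Ee (ndA δ i) y → s (ndA δ i) y = 1)
    (hB : ∀ δ i, on i δ → ∀ y, Ee (ndB δ i) y → s (ndB δ i) y = 1)
    (hA0 : ∀ δ i, ¬ on i δ → κ (ndA δ i) = 0)
    (hB0 : ∀ δ i, ¬ on i δ → κ (ndB δ i) = 0)
    (hw : ∀ y, Ee (some none) y → s (some none) y = 1)
    (hc : ∀ i : Fin r, i.val = 0 → s none (ndA δ₀ i) = 1)
    (hsys : ∀ x, ∑ y, (if Ee x y then s x y * s y x * κ y else 0) = 0) : ∀ x, κ x = 0 := by
  -- weights at `a` and `b` nodes may be dropped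
  have wA : ∀ δ i y, Ee (ndA δ i) y → s (ndA δ i) y * κ (ndA δ i) = κ (ndA δ i) := by
    intro δ i y hy
    by_cases h : on i δ
    · rw [hA δ i h y hy, one_mul]
    · rw [hA0 δ i h, mul_zero]
  have wB : ∀ δ i y, Ee (ndB δ i) y → s (ndB δ i) y * κ (ndB δ i) = κ (ndB δ i) := by
    intro δ i y hy
    by_cases h : on i δ
    · rw [hB δ i h y hy, one_mul]
    · rw [hB0 δ i h, mul_zero]
  have two : ∀ a b : ZMod 2, a + b = 0 → a = b := by decide
  -- edges
  have eAB : ∀ (δ : D) (i : Fin r), Ee (ndA δ i) (ndB δ i) := fun δ i => Or.inl ⟨rfl, rfl⟩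
  have eBA : ∀ (δ : D) (i i' : Fin r), i'.val = i.val + 1 → Ee (ndB δ i) (ndA δ i') :=
    fun δ i i' h => Or.inl ⟨rfl, h⟩
  have eBw : ∀ (δ : D) (i : Fin r), i.val + 1 = r → Ee (ndB δ i) (some none) :=
    fun δ i h => Or.inl h
  have ecA : ∀ (δ : D) (i : Fin r), i.val = 0 → Ee none (ndA δ i) := fun δ i h => Or.inl h
  -- equation at `b δ i`, `i + 1 < r`
  have qB : ∀ (δ : D) (i i' : Fin r), i'.val = i.val + 1 → on i δ →
      κ (ndA δ i) = κ (ndA δ i') := by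
    intro δ i i' hi h
    have h1 := hsys (ndB δ i)
    rw [sum_b δ i i' hi, hB δ i h _ (Ee_symm (eAB δ i)), hB δ i h _ (eBA δ i i' hi), one_mul,
      one_mul, wA δ i _ (eAB δ i), wA δ i' _ (Ee_symm (eBA δ i i' hi))] at h1
    exact two _ _ h1
  have qBl : ∀ (δ : D) (i : Fin r), i.val + 1 = r → on i δ → κ (ndA δ i) = κ (some none) := by
    intro δ i hi h
    have h1 := hsys (ndB δ i)
    rw [sum_bl δ i hi, hB δ i h _ (Ee_symm (eAB δ i)), hB δ i h _ (eBw δ i hi), one_mul,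
      one_mul, wA δ i _ (eAB δ i), hw _ (Ee_symm (eBw δ i hi)), one_mul] at h1
    exact two _ _ h1
  have qA : ∀ (δ : D) (i i' : Fin r), i'.val = i.val + 1 → on i' δ →
      κ (ndB δ i') = κ (ndB δ i) := by
    intro δ i i' hi h
    have h1 := hsys (ndA δ i')
    rw [sum_a δ i i' hi, hA δ i' h _ (eAB δ i'), hA δ i' h _ (Ee_symm (eBA δ i i' hi)), one_mul,
      one_mul, wB δ i' _ (Ee_symm (eAB δ i')), wB δ i _ (eBA δ i i' hi)] at h1
    exact two _ _ h1
  have qA0 : ∀ (δ : D) (i : Fin r), i.val = 0 → on i δ →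
      κ (ndB δ i) = s none (ndA δ i) * κ none := by
    intro δ i hi h
    have h1 := hsys (ndA δ i)
    rw [sum_a0 δ i hi, hA δ i h _ (eAB δ i), hA δ i h _ (Ee_symm (ecA δ i hi)), one_mul,
      one_mul, wB δ i _ (Ee_symm (eAB δ i))] at h1
    exact two _ _ h1
  -- first node `a δ 0` of a chain with an off node
  have a0 : ∀ δ, δ ≠ δ₀ → ∀ i : Fin r, i.val = 0 → s none (ndA δ i) * κ (ndA δ i) = 0 := by
    intro δ hδ i hi
    rcases hsep δ hδ with ⟨j, hj⟩ | hj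
    swap
    · rw [hj i hi, zero_mul]
    -- descending induction: all `a δ l` with `l ≤ j` vanish
    have key : ∀ n : ℕ, ∀ l : Fin r, l.val + n = j.val → κ (ndA δ l) = 0 := by
      intro n
      induction n with
      | zero =>
        intro l hl
        have : l = j := Fin.ext (by omega)
        rw [this]
        exact hA0 δ j hj
      | succ n ih =>
        intro l hl
        by_cases hon : on l δ
        · have hlt : l.val + 1 < r := by have := j.isLt; omega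
          rw [qB δ l ⟨l.val + 1, hlt⟩ rfl hon]
          exact ih _ (by simp only []; omega)
        · exact hA0 δ l hon
    rw [key j.val i (by omega), mul_zero]
  -- all `a δ₀ i` are equal to the value at the dummy
  have aw : ∀ i : Fin r, κ (ndA δ₀ i) = κ (some none) := by
    have key : ∀ n : ℕ, ∀ l : Fin r, l.val + n + 1 = r → κ (ndA δ₀ l) = κ (some none) := by
      intro n
      induction n with
      | zero =>
        intro l hl
        exact qBl δ₀ l (by omega) (h0 l)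
      | succ n ih =>
        intro l hl
        have hlt : l.val + 1 < r := by omega
        rw [qB δ₀ l ⟨l.val + 1, hlt⟩ rfl (h0 l)]
        exact ih _ (by simp only []; omega)
    intro i
    exact key (r - 1 - i.val) i (by have := i.isLt; omega)
  -- the equation at the centre
  have w0 : κ (some none) = 0 := by
    let z : Fin r := ⟨0, hr⟩
    have h1 := hsys none
    rw [sum_c z rfl] at h1
    rw [Finset.sum_eq_single δ₀] at h1
    · rw [hc z rfl, one_mul, wA δ₀ z _ (Ee_symm (ecA δ₀ z rfl)), aw z] at h1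
      exact h1
    · intro δ _ hδ
      rw [mul_assoc, mul_left_comm, a0 δ hδ z rfl, mul_zero]
    · intro h
      exact absurd (Finset.mem_univ δ₀) h
  -- all `a` nodes vanish
  have aall : ∀ δ i, κ (ndA δ i) = 0 := by
    intro δ
    have key : ∀ n : ℕ, ∀ l : Fin r, l.val + n + 1 = r → κ (ndA δ l) = 0 := by
      intro n
      induction n with
      | zero =>
        intro l hl
        by_cases hon : on l δ
        · rw [qBl δ l (by omega) hon, w0]
        · exact hA0 δ l hon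
      | succ n ih =>
        intro l hl
        by_cases hon : on l δ
        · have hlt : l.val + 1 < r := by omega
          rw [qB δ l ⟨l.val + 1, hlt⟩ rfl hon]
          exact ih _ (by simp only []; omega)
        · exact hA0 δ l hon
    intro i
    exact key (r - 1 - i.val) i (by have := i.isLt; omega)
  -- last node `b δ (r - 1)` of a chain with an off node
  have bl : ∀ δ, δ ≠ δ₀ → ∀ i : Fin r, i.val + 1 = r → κ (ndB δ i) = 0 := by
    intro δ hδ i hi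
    rcases hsep δ hδ with ⟨j, hj⟩ | hj
    swap
    · have key : ∀ n : ℕ, ∀ l : Fin r, l.val = n → κ (ndB δ l) = 0 := by
        intro n
        induction n with
        | zero =>
          intro l hl
          by_cases hon : on l δ
          · rw [qA0 δ l hl hon, hj l hl, zero_mul]
          · exact hB0 δ l hon
        | succ n ih =>
          intro l hl
          by_cases hon : on l δ
          · have hlt : n < r := by have := l.isLt; omega
            rw [qA δ ⟨n, hlt⟩ l (by simp only []; omega) hon]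
            exact ih _ rfl
          · exact hB0 δ l hon
      exact key i.val i rfl
    have key : ∀ n : ℕ, ∀ l : Fin r, l.val = j.val + n → κ (ndB δ l) = 0 := by
      intro n
      induction n with
      | zero =>
        intro l hl
        have : l = j := Fin.ext (by omega)
        rw [this]
        exact hB0 δ j hj
      | succ n ih =>
        intro l hl
        by_cases hon : on l δ
        · have hlt : j.val + n < r := by have := l.isLt; omega
          rw [qA δ ⟨j.val + n, hlt⟩ l (by simp only []; omega) hon]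
          exact ih _ rfl
        · exact hB0 δ l hon
    exact key (i.val - j.val) i (by have := j.isLt; omega)
  -- all `b δ₀ i` are equal to the value at the centre
  have bc : ∀ i : Fin r, κ (ndB δ₀ i) = κ none := by
    have key : ∀ n : ℕ, ∀ l : Fin r, l.val = n → κ (ndB δ₀ l) = κ none := by
      intro n
      induction n with
      | zero =>
        intro l hl
        rw [qA0 δ₀ l hl (h0 l), hc l hl, one_mul]
      | succ n ih =>
        intro l hl
        have hlt : n < r := by have := l.isLt; omega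
        rw [qA δ₀ ⟨n, hlt⟩ l (by simp only []; omega) (h0 l)]
        exact ih _ rfl
    intro i
    exact key i.val i rfl
  -- the equation at the dummy
  have c0 : κ none = 0 := by
    let z : Fin r := ⟨r - 1, by omega⟩
    have hz : z.val + 1 = r := by simp only [z]; omega
    have h1 := hsys (some none)
    rw [sum_w z hz] at h1
    rw [Finset.sum_eq_single δ₀] at h1
    · rw [hw _ (Ee_symm (eBw δ₀ z hz)), one_mul, wB δ₀ z _ (eBw δ₀ z hz), bc z] at h1
      exact h1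
    · intro δ _ hδ
      rw [bl δ hδ z hz, mul_zero]
    · intro h
      exact absurd (Finset.mem_univ δ₀) h
  -- all `b` nodes vanish
  have ball : ∀ δ i, κ (ndB δ i) = 0 := by
    intro δ
    have key : ∀ n : ℕ, ∀ l : Fin r, l.val = n → κ (ndB δ l) = 0 := by
      intro n
      induction n with
      | zero =>
        intro l hl
        by_cases hon : on l δ
        · rw [qA0 δ l hl hon, c0, mul_zero]
        · exact hB0 δ l hon
      | succ n ih =>
        intro l hl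
        by_cases hon : on l δ
        · have hlt : n < r := by have := l.isLt; omega
          rw [qA δ ⟨n, hlt⟩ l (by simp only []; omega) hon]
          exact ih _ rfl
        · exact hB0 δ l hon
    intro i
    exact key i.val i rfl
  intro x
  rcases x with _ | _ | ⟨δ, i, _ | _⟩
  · exact c0
  · exact w0
  · exact aall δ i
  · exact ball δ i

/-- A vector of the Lagrangian subspace attached to the graph which satisfies the local
conditions for the twist `δ₀` is zero. -/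
theorem graph_zeroW {P : Type} [Fintype P] {X : P × Nd D r → Type} [∀ j, AddCommGroup (X j)]
    [∀ j, Module (ZMod 2) (X j)] {h : ∀ j, X j →ₗ[ZMod 2] X j →ₗ[ZMod 2] ZMod 2}
    (hsy : ∀ j x y, h j x y = h j y x) (hnd : ∀ j x, x ≠ 0 → ∃ y, h j x y = 1)
    {m : ∀ j, X j} {lam : ∀ j, P × Nd D r → X j} (hr : 0 < r)
    (g : ∀ j, X j) (on : P → Fin r → D → Prop) (δ₀ : P → D)
    (h0 : ∀ p i, on p i (δ₀ p))
    (hsep : ∀ p δ, δ ≠ δ₀ p → (∃ i, ¬ on p i δ) ∨ ∀ i : Fin r, i.val = 0 →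
      h (p, none) (g (p, none)) (lam (p, none) (p, ndA δ i)) = 0)
    (hon : ∀ p δ i, on p i δ → ∀ y : Nd D r,
      (Ee (ndA δ i) y → h (p, ndA δ i) (g (p, ndA δ i)) (lam (p, ndA δ i) (p, y)) = 1) ∧
      (Ee (ndB δ i) y → h (p, ndB δ i) (g (p, ndB δ i)) (lam (p, ndB δ i) (p, y)) = 1))
    (hoff : ∀ p δ i, ¬ on p i δ → g (p, ndA δ i) = 0 ∧ g (p, ndB δ i) = 0)
    (hw : ∀ p (y : Nd D r), Ee (some none) y →
      h (p, some none) (g (p, some none)) (lam (p, some none) (p, y)) = 1)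
    (hc : ∀ p (i : Fin r), i.val = 0 → h (p, none) (g (p, none)) (lam (p, none) (p, ndA (δ₀ p) i)) = 1)
    {q : ∀ j, X j × X j} (hq : q ∈ Wst h m EJ lam)
    (hloc : ∀ j, LocE (h j) (m j) (g j) (q j)) : q = 0 := by
  refine elim hsy hnd hq g hloc ?_
  intro κ hκ hsys
  rintro ⟨p, x⟩
  refine comp_zeroW hr (on p) (δ₀ p) (h0 p)
    (fun x y => h (p, x) (g (p, x)) (lam (p, x) (p, y))) (hsep p) (fun x => κ (p, x))
    (fun δ i hi y => (hon p δ i hi y).1) (fun δ i hi y => (hon p δ i hi y).2)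
    (fun δ i hi => hκ _ (hoff p δ i hi).1) (fun δ i hi => hκ _ (hoff p δ i hi).2)
    (hw p) (hc p) ?_ x
  intro x
  have h1 := hsys (p, x)
  rw [Fintype.sum_prod_type, Finset.sum_eq_single p] at h1
  · refine Eq.trans (Finset.sum_congr rfl fun y _ => ?_) h1
    have h2 : EJ (p, x) (p, y) ↔ Ee x y := ⟨fun h3 => h3.2, fun h3 => ⟨rfl, h3⟩⟩
    by_cases h3 : Ee x y
    · rw [if_pos h3, if_pos (h2.2 h3)]
    · rw [if_neg h3, if_neg (fun h4 => h3 (h2.1 h4))]
  · intro p' _ hp'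
    refine Finset.sum_eq_zero fun y _ => ?_
    rw [if_neg]
    intro h2
    exact hp' h2.1.symm
  · intro h2
    exact absurd (Finset.mem_univ p) h2


/-- The case `m = 0`. -/
theorem graph_zeroW0 {P : Type} [Fintype P] {X : P × Nd D r → Type} [∀ j, AddCommGroup (X j)]
    [∀ j, Module (ZMod 2) (X j)] {h : ∀ j, X j →ₗ[ZMod 2] X j →ₗ[ZMod 2] ZMod 2}
    (hsy : ∀ j x y, h j x y = h j y x) (hnd : ∀ j x, x ≠ 0 → ∃ y, h j x y = 1)
    {lam : ∀ j, P × Nd D r → X j} (hr : 0 < r)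
    (g : ∀ j, X j) (on : P → Fin r → D → Prop) (δ₀ : P → D) (h0 : ∀ p i, on p i (δ₀ p))
    (hsep : ∀ p δ, δ ≠ δ₀ p → (∃ i, ¬ on p i δ) ∨ ∀ i : Fin r, i.val = 0 →
      h (p, none) (g (p, none)) (lam (p, none) (p, ndA δ i)) = 0)
    (hon : ∀ p δ i, on p i δ → ∀ y : Nd D r,
      (Ee (ndA δ i) y → h (p, ndA δ i) (g (p, ndA δ i)) (lam (p, ndA δ i) (p, y)) = 1) ∧
      (Ee (ndB δ i) y → h (p, ndB δ i) (g (p, ndB δ i)) (lam (p, ndB δ i) (p, y)) = 1))
    (hoff : ∀ p δ i, ¬ on p i δ → g (p, ndA δ i) = 0 ∧ g (p, ndB δ i) = 0)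
    (hw : ∀ p (y : Nd D r), Ee (some none) y →
      h (p, some none) (g (p, some none)) (lam (p, some none) (p, y)) = 1)
    (hc : ∀ p (i : Fin r), i.val = 0 →
      h (p, none) (g (p, none)) (lam (p, none) (p, ndA (δ₀ p) i)) = 1)
    {q : ∀ j, X j × X j} (hq : q ∈ Wst h 0 EJ lam)
    (hloc : ∀ j, ((q j).1 = 0 ∨ (q j).1 = g j) ∧ h j (q j).2 (g j) = 0) : q = 0 :=
  graph_zeroW hsy hnd hr g on δ₀ h0 hsep hon hoff hw hc hq fun j => (LocE_iff (hsy j)).2 (hloc j)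

end H76AB

end S_H76_AB_Gz

section S_H76_AB_Tw

set_option autoImplicit false
set_option linter.unusedSectionVars false
open scoped Classical

open WithZero NumberField IsDedekindDomain H38RT
open H38T1 (SC sc scu rep eo la si Pri OddP tp unif ka)
open H76PP H36MX H76MQ H76MX

namespace H76AB

theorem Tw_dual {V : Type} [AddCommGroup V] [Module (ZMod 2) V] (h : V →ₗ[ZMod 2] V →ₗ[ZMod 2] ZMod 2)
    (hnd : ∀ x, x ≠ 0 → ∃ y, h x y = 1) {y : V} (hy : y ≠ 0) (m : V) :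
    ∃ μ, h y μ = 1 ∧ (y ≠ m → h m μ = 0) := by
  obtain ⟨μ₁, h1⟩ := hnd y hy
  by_cases hym : y = m
  · exact ⟨μ₁, h1, fun h2 => absurd hym h2⟩
  have hc : ∀ a : ZMod 2, a = 0 ∨ a = 1 := by decide
  rcases hc (h m μ₁) with h2 | h2
  · exact ⟨μ₁, h1, fun _ => h2⟩
  have hne : y + m ≠ 0 := by
    intro h3
    apply hym
    have h4 : m + m = 0 := by
      rw [← two_smul (ZMod 2) m]
      have : (2 : ZMod 2) = 0 := by decide
      rw [this, zero_smul]
    have h5 : y + m = m + m := by rw [h3, h4]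
    exact add_right_cancel h5
  obtain ⟨μ₂, h3⟩ := hnd _ hne
  rw [map_add, LinearMap.add_apply] at h3
  rcases hc (h m μ₂) with h4 | h4
  · rw [h4, add_zero] at h3
    exact ⟨μ₂, h3, fun _ => h4⟩
  · have h5 : h y μ₂ = 0 := by
      rcases hc (h y μ₂) with h6 | h6
      · exact h6
      · rw [h4, h6] at h3
        exact absurd h3 (by decide)
    refine ⟨μ₁ + μ₂, ?_, fun _ => ?_⟩
    · rw [map_add, h1, h5, add_zero]
    · rw [map_add, h2, h4]
      decide

theorem Tw_abs {P D : Type} [Fintype P] [Fintype D] {r : ℕ} (hr : 0 < r)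
    {X : P × Nd D r → Type} [∀ j, AddCommGroup (X j)] [∀ j, Module (ZMod 2) (X j)]
    [∀ j, Finite (X j)] (h : ∀ j, X j →ₗ[ZMod 2] X j →ₗ[ZMod 2] ZMod 2)
    (hsy : ∀ j x y, h j x y = h j y x) (hnd : ∀ j x, x ≠ 0 → ∃ y, h j x y = 1)
    (η : ∀ j, X j) (hη : ∀ j, η j ≠ 0) (y : (p : P) → D → X (p, none))
    (hy : ∀ p δ, y p δ ≠ 0) (m : (p : P) → X (p, none)) :
    ∃ W₀ : Submodule (ZMod 2) (∀ j, X j × X j),
      (∀ p ∈ W₀, ∑ j, h j (p j).1 (p j).2 = 0) ∧
      Nat.card W₀ = ∏ j, Nat.card (X j) ∧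
      ∀ (δ₀ : P → D) (on : P → D → Fin r → Prop) (g : ∀ j, X j), (∀ p i, on p (δ₀ p) i) →
        (∀ p δ, δ ≠ δ₀ p → (∃ i, ¬ on p δ i) ∨ (y p (δ₀ p) = m p ∧ y p δ ≠ m p)) →
        (∀ p, g (p, none) = y p (δ₀ p)) →
        (∀ p, g (p, some none) = η (p, some none)) →
        (∀ p δ i b, g (p, some (some (δ, i, b))) =
          if on p δ i then η (p, some (some (δ, i, b))) else 0) →
        ∀ q ∈ W₀, (∀ j, ((q j).1 = 0 ∨ (q j).1 = g j) ∧ h j (q j).2 (g j) = 0) → q = 0 := by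
  choose μ hμ using fun j => hnd j (η j) (hη j)
  choose μ' hμ' hμ'' using fun p δ => Tw_dual (h (p, none)) (hnd (p, none)) (hy p δ) (m p)
  obtain ⟨lam, hl1, hl2⟩ : ∃ lam : (j : P × Nd D r) → (P × Nd D r) → X j,
      (∀ p n k, lam (p, some n) k = μ (p, some n)) ∧
      (∀ p δ i k, lam (p, none) (k, ndA δ i) = μ' p δ) :=
    ⟨fun j k => match j with
      | (p, some n) => μ (p, some n)
      | (p, none) => match k.2 with
        | some (some (δ, _, false)) => μ' p δ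
        | _ => 0, fun _ _ _ => rfl, fun _ _ _ _ => rfl⟩
  refine ⟨Wst h 0 EJ lam, fun p hp => Q_W0 (Ed := EJ) hsy (fun _ _ e => EJ_symm e) EJ_irr hp,
    card_W hnd 0 EJ lam, ?_⟩
  intro δ₀ on g hon hoff g0 g1 g2 q hq hloc
  refine graph_zeroW0 hsy hnd hr g (fun p i δ => on p δ i) δ₀ hon ?_ ?_ ?_ ?_ ?_ hq hloc
  · intro p δ hδ
    rcases hoff p δ hδ with h1 | ⟨h1, h2⟩
    · exact Or.inl h1
    · right
      intro i _
      rw [hl2, g0, h1]
      exact hμ'' p δ h2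
  · intro p δ i hon z
    refine ⟨fun _ => ?_, fun _ => ?_⟩
    · rw [hl1, g2 p δ i false, if_pos hon]
      exact hμ _
    · rw [hl1, g2 p δ i true, if_pos hon]
      exact hμ _
  · intro p δ i hon
    refine ⟨?_, ?_⟩
    · rw [g2 p δ i false, if_neg hon]
    · rw [g2 p δ i true, if_neg hon]
  · intro p z _
    rw [hl1, g1]
    exact hμ _
  · intro p i _
    rw [hl2, g0]
    exact hμ' _ _

variable {K : Type} [Field K] [NumberField K]

/-- **The target subgroup.** `P`: the places above two, `cl p a`: the type at `p` of the index `a`; at the places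
`pl (p, ndA δ i)`, `pl (p, ndB δ i)` the class of `a` is `η` if `on p δ i a` and `0` otherwise.  A type `δ` must be
separated from the type of `a` by a test, except if the class of `a` at `p` is `m p` and the class of `δ` is not. -/
theorem exists_targetW {C : CfgX K} (hC : C.Ok) (hH : ∀ v : HeightOneSpectrum (𝓞 K), HF (Kv v))
    {P D : Type} [Fintype P] [Fintype D] {r : ℕ} (hr : 0 < r)
    (pl : P × Nd D r → HeightOneSpectrum (𝓞 K)) (hinj : Function.Injective pl)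
    (hZ : ∀ u, u ∈ C.Z ↔ ∃ j, pl j = u) {ι : Type*}
    (x : (u : HeightOneSpectrum (𝓞 K)) → ι → SC (Kv u))
    (η : (u : HeightOneSpectrum (𝓞 K)) → SC (Kv u)) (hη : ∀ u, η u ≠ 0)
    (cl : P → ι → D) (on : P → D → Fin r → ι → Prop) (hon : ∀ p a i, on p (cl p a) i a)
    (y : (p : P) → D → SC (Kv (pl (p, none)))) (hy : ∀ p δ, y p δ ≠ 0)
    (m : (p : P) → SC (Kv (pl (p, none))))
    (hoff : ∀ p δ a, δ ≠ cl p a → (∃ i, ¬ on p δ i a) ∨ (y p (cl p a) = m p ∧ y p δ ≠ m p))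
    (hx0 : ∀ p a, x (pl (p, none)) a = y p (cl p a))
    (hx1 : ∀ p a, x (pl (p, some none)) a = η (pl (p, some none)))
    (hx2 : ∀ p δ i b a, x (pl (p, some (some (δ, i, b)))) a =
      if on p δ i a then η (pl (p, some (some (δ, i, b)))) else 0) :
    ∃ W : Submodule (ZMod 2) C.V, TargetG C x W := by
  choose h hh using fun j => exists_hscL (hH (pl j))
  have hsy : ∀ j x y, h j x y = h j y x := fun j x y => by rw [hh, hh, H76MX.hsc_comm]
  have hnd : ∀ j x, x ≠ 0 → ∃ y, h j x y = 1 := by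
    intro j x hx
    obtain ⟨y, hy⟩ := H76MX.hsc_nd (hH (pl j)) hx
    exact ⟨y, by rw [hh]; exact hy⟩
  have hfin : ∀ j, Finite (SC (Kv (pl j))) := fun j => fin_scv _
  obtain ⟨W₀, h1, h2, h3⟩ := @Tw_abs P D _ _ r hr (fun j => SC (Kv (pl j)))
    (fun j => inferInstance) (fun j => inferInstance) hfin h hsy hnd (fun j => η (pl j))
    (fun j => hη _) y hy m
  -- the patterns are encoded by elements of `𝓞 K`
  have hPat : Finite (∀ j, SC (Kv (pl j))) := Pi.finite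
  have hFt := Fintype.ofFinite (∀ j, SC (Kv (pl j)))
  obtain ⟨enc, henc⟩ : ∃ enc : (∀ j, SC (Kv (pl j))) → 𝓞 K, Function.Injective enc :=
    ⟨fun δ => ((Fintype.equivFin _ δ : ℕ) : 𝓞 K), fun δ δ' h =>
      (Fintype.equivFin _).injective (Fin.ext (Nat.cast_injective h))⟩
  obtain ⟨pat, hpat⟩ : ∃ pat : ι → (∀ j, SC (Kv (pl j))), ∀ a j, pat a j = x (pl j) a :=
    ⟨fun a j => x (pl j) a, fun _ _ => rfl⟩
  obtain ⟨ch, hch⟩ : ∃ ch : 𝓞 K → Set ι, ∀ a b, b ∈ ch (enc (pat a)) ↔ pat b = pat a :=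
    ⟨fun e => {b | enc (pat b) = e}, fun a b => henc.eq_iff⟩
  obtain ⟨W, hW⟩ := target_of hC pl hinj hZ (Set.range fun a => enc (pat a))
    (fun u d => if h : (ch d).Nonempty then x u h.choose else 0) W₀
    (by
      intro p hp
      have h4 := h1 p hp
      simp only [hh] at h4
      exact h4) h2 (by
      rintro _ ⟨a, rfl⟩ q hq hloc
      have hne : (ch (enc (pat a))).Nonempty := ⟨a, (hch a a).2 rfl⟩
      have hcl : pat hne.choose = pat a := (hch a _).1 hne.choose_spec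
      simp only [dif_pos hne] at hloc
      refine h3 (fun p => cl p a) (fun p δ i => on p δ i a) (fun j => x (pl j) a)
        (fun p i => hon p a i) (fun p δ hδ => hoff p δ a hδ) (fun p => hx0 p a)
        (fun p => hx1 p a) (fun p δ i b => hx2 p δ i b a) q hq fun j => ?_
      have h6 := hloc j
      rw [← hpat, hcl, hpat] at h6
      refine ⟨h6.1, ?_⟩
      rw [hh]
      exact h6.2)
  refine ⟨W, hW.sing, hW.card, fun a p hp h => hW.zero (enc (pat a)) ⟨a, rfl⟩ p hp fun u => ?_⟩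
  have hne : (ch (enc (pat a))).Nonempty := ⟨a, (hch a a).2 rfl⟩
  have hcl : pat hne.choose = pat a := (hch a _).1 hne.choose_spec
  obtain ⟨u, hu⟩ := u
  obtain ⟨j, rfl⟩ := (hZ u).1 hu
  have h1 := h ⟨pl j, hu⟩
  simp only [dif_pos hne]
  rw [← hpat, hcl, hpat]
  exact h1

end H76AB

end S_H76_AB_Tw

section S_H76_AB_Cg

set_option autoImplicit false
set_option linter.unusedSectionVars false
open scoped Classical

open WithZero NumberField IsDedekindDomain H38RT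
open H38T1 (SC sc scu rep eo la si Pri OddP tp unif ka)
open H76PP H36MX H76MQ H76MX

namespace H76AB

variable {K : Type} [Field K] [NumberField K]

/-- There is a residue class modulo a power of `u` for `(A, B)` which gives roots with the property `Lp`. -/
def LocClass (Lp : LPred K) (u : HeightOneSpectrum (𝓞 K)) (a b : 𝓞 K) (N : ℕ) : Prop :=
  dsc a b ∉ u.asIdeal ^ N ∧ ∀ A B : 𝓞 K, A - a ∈ u.asIdeal ^ N → B - b ∈ u.asIdeal ^ N →
    ∃ e : Fin 3 → Kv u, Spl (algebraMap K (Kv u) (A : K)) (algebraMap K (Kv u) (B : K)) e ∧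
      Lp u A B e

theorem exists_classG {C : CfgX K} (hC : C.Ok) {Lp : LPred K}
    (hdy : ∀ u : HeightOneSpectrum (𝓞 K), (2 : 𝓞 K) ∈ u.asIdeal →
      ∃ N : ℕ, LocClass Lp u (-91) (-330) N)
    (hax : ∀ u ∈ C.Z, (2 : 𝓞 K) ∉ u.asIdeal → ∃ (a b : 𝓞 K) (N : ℕ), LocClass Lp u a b N)
    (hZR : ∀ v ∈ C.Z, v ∉ C.R) :
    ∃ (m : Ideal (𝓞 K)) (E : ℕ) (A₀ B₀ : 𝓞 K), ClassG C Lp m E A₀ B₀ := by
  choose b hb using fun v : HeightOneSpectrum (𝓞 K) => H30PN.Rm_noroot v
  obtain ⟨N, hN⟩ : ∃ N : HeightOneSpectrum (𝓞 K) → ℕ, ∀ u : HeightOneSpectrum (𝓞 K),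
      (2 : 𝓞 K) ∈ u.asIdeal → LocClass Lp u (-91) (-330) (N u) := by
    refine ⟨fun u => if h : (2 : 𝓞 K) ∈ u.asIdeal then (hdy u h).choose else 0, ?_⟩
    intro u h
    simp only [dif_pos h]
    exact (hdy u h).choose_spec
  obtain ⟨p, hp⟩ : ∃ p : HeightOneSpectrum (𝓞 K) → 𝓞 K × 𝓞 K × ℕ,
      ∀ u ∈ C.Z, (2 : 𝓞 K) ∉ u.asIdeal → LocClass Lp u (p u).1 (p u).2.1 (p u).2.2 := by
    have h : ∀ u : HeightOneSpectrum (𝓞 K), ∃ p : 𝓞 K × 𝓞 K × ℕ, u ∈ C.Z →
        (2 : 𝓞 K) ∉ u.asIdeal → LocClass Lp u p.1 p.2.1 p.2.2 := by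
      intro u
      by_cases h6 : u ∈ C.Z ∧ (2 : 𝓞 K) ∉ u.asIdeal
      · obtain ⟨a, c, M, hM⟩ := hax u h6.1 h6.2
        exact ⟨(a, c, M), fun _ _ => hM⟩
      · exact ⟨(0, 0, 0), fun h h' => absurd ⟨h, h'⟩ h6⟩
    exact ⟨fun u => (h u).choose, fun u => (h u).choose_spec⟩
  obtain ⟨e, he⟩ : ∃ e : HeightOneSpectrum (𝓞 K) → ℕ,
      e = fun v => if (2 : 𝓞 K) ∈ v.asIdeal then N v else if v ∈ C.R then 1 else (p v).2.2 :=
    ⟨_, rfl⟩
  obtain ⟨Av, hAv⟩ : ∃ Av : HeightOneSpectrum (𝓞 K) → 𝓞 K,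
      Av = fun v => if (2 : 𝓞 K) ∈ v.asIdeal then -91 else if v ∈ C.R then -1 else (p v).1 :=
    ⟨_, rfl⟩
  obtain ⟨Bv, hBv⟩ : ∃ Bv : HeightOneSpectrum (𝓞 K) → 𝓞 K,
      Bv = fun v => if (2 : 𝓞 K) ∈ v.asIdeal then -330 else if v ∈ C.R then b v else (p v).2.1 :=
    ⟨_, rfl⟩
  have hP3 : ∀ v : HeightOneSpectrum (𝓞 K), (2 : 𝓞 K) ∈ v.asIdeal →
      e v = N v ∧ Av v = -91 ∧ Bv v = -330 := by
    intro v hv
    rw [he, hAv, hBv]
    exact ⟨if_pos hv, if_pos hv, if_pos hv⟩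
  have hR3 : ∀ v ∈ C.R, e v = 1 ∧ Av v = -1 ∧ Bv v = b v := by
    intro v hv
    have h2 := hC.R2 v hv
    rw [he, hAv, hBv]
    exact ⟨(if_neg h2).trans (if_pos hv), (if_neg h2).trans (if_pos hv),
      (if_neg h2).trans (if_pos hv)⟩
  have hZ3 : ∀ v ∈ C.Z, (2 : 𝓞 K) ∉ v.asIdeal →
      e v = (p v).2.2 ∧ Av v = (p v).1 ∧ Bv v = (p v).2.1 := by
    intro v hv h2
    have hR := hZR v hv
    rw [he, hAv, hBv]
    exact ⟨(if_neg h2).trans (if_neg hR), (if_neg h2).trans (if_neg hR),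
      (if_neg h2).trans (if_neg hR)⟩
  have hmemZ : ∀ v ∈ C.Z, v ∈ C.S := fun v hv => Finset.mem_union_left _ hv
  have hmemR : ∀ v ∈ C.R, v ∈ C.S := fun v hv => Finset.mem_union_right _ hv
  have hcl : ∀ v ∈ C.S, dsc (Av v) (Bv v) ∉ v.asIdeal ^ e v := by
    intro v hv
    have hpr := v.isPrime
    by_cases h2 : (2 : 𝓞 K) ∈ v.asIdeal
    · obtain ⟨e1, e2, e3⟩ := hP3 v h2
      rw [e1, e2, e3]
      exact (hN v h2).1
    · rcases Finset.mem_union.1 hv with hv | hv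
      · obtain ⟨e1, e2, e3⟩ := hZ3 v hv h2
        rw [e1, e2, e3]
        exact (hp v hv h2).1
      · obtain ⟨e1, e2, e3⟩ := hR3 v hv
        rw [e1, e2, e3, pow_one]
        by_cases h6 : (6 : 𝓞 K) ∈ v.asIdeal
        · have h3 : (3 : 𝓞 K) ∈ v.asIdeal := by
            have h7 : (2 : 𝓞 K) * 3 ∈ v.asIdeal := by
              rw [show (2 : 𝓞 K) * 3 = 6 by norm_num]
              exact h6
            exact (hpr.mem_or_mem h7).resolve_left h2
          intro h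
          have h8 : (2 : 𝓞 K) ^ 2 ∈ v.asIdeal := by
            have e8 : (2 : 𝓞 K) ^ 2 = 3 * (9 * b v ^ 2) - dsc (-1) (b v) := by
              unfold dsc
              ring
            rw [e8]
            exact sub_mem (v.asIdeal.mul_mem_right _ h3) h
          exact h2 (hpr.mem_of_pow_mem 2 h8)
        · refine H30PN.nort_dsc' h6 ?_
          intro t ht
          apply hb v t
          have e9 : t ^ 3 - t + b v = t ^ 3 + -1 * t + b v := by ring
          rw [e9]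
          exact ht
  obtain ⟨m, E, A₀, B₀, hm, hE, h1, h2, h3⟩ := H76MQ.Fq_cls (S := C.S) (R := ∅)
    (fun v hv => hmemZ v (hC.mem2 v hv)) (fun v hv => absurd hv (Finset.notMem_empty v))
    e Av Bv hcl
  have h2nu : ∃ v : HeightOneSpectrum (𝓞 K), (2 : 𝓞 K) ∈ v.asIdeal := by
    obtain ⟨M, hM, h2⟩ := exists_max_ideal_of_mem_nonunits
      (show (2 : 𝓞 K) ∈ nonunits (𝓞 K) by
        intro h
        obtain ⟨u, hu⟩ := h.exists_right_inv
        have h1 : IsIntegral ℤ ((u : 𝓞 K) : K) := RingOfIntegers.isIntegral_coe u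
        have h2 : ((u : 𝓞 K) : K) = algebraMap ℚ K (1 / 2) := by
          have h3 := congrArg (algebraMap (𝓞 K) K) hu
          rw [map_mul, map_ofNat, map_one] at h3
          rw [map_div₀, map_one, map_ofNat, eq_div_iff (two_ne_zero)]
          rw [mul_comm]
          exact h3
        rw [h2] at h1
        have h3 : IsIntegral ℤ (1 / 2 : ℚ) :=
          (isIntegral_algebraMap_iff (algebraMap ℚ K).injective).1 h1
        obtain ⟨n, hn⟩ := IsIntegrallyClosed.isIntegral_iff.1 h3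
        have h4 : (2 * n : ℤ) = 1 := by
          have h5 : ((2 * n : ℤ) : ℚ) = ((1 : ℤ) : ℚ) := by
            push_cast
            have : (n : ℚ) = 1 / 2 := hn
            rw [this]
            norm_num
          exact_mod_cast h5
        omega)
    refine ⟨⟨M, hM.isPrime, ?_⟩, h2⟩
    rintro rfl
    exact two_ne_zero (Ideal.mem_bot.1 h2)
  have hE2 : 2 ≤ E := by
    by_contra hcon
    have hE1 : E = 1 := by omega
    obtain ⟨v, hv⟩ := h2nu
    have hvS : v ∈ C.S := hmemZ v (hC.mem2 v hv)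
    obtain ⟨e1, e2, e3⟩ := hP3 v hv
    have h4 := (h3 A₀ B₀ (by rw [sub_self]; exact Ideal.zero_mem _)
      (by rw [sub_self]; exact Ideal.zero_mem _)).1 v hvS
    rw [e1, e2, e3] at h4
    have hN0 : N v ≠ 0 := by
      intro h0
      apply (hN v hv).1
      rw [h0, pow_zero, Ideal.one_eq_top]
      exact Submodule.mem_top
    have hA : A₀ - (-91) ∈ v.asIdeal := Ideal.pow_le_self hN0 h4.1
    have hB : B₀ - (-330) ∈ v.asIdeal := Ideal.pow_le_self hN0 h4.2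
    apply (h1 v hvS).2
    rw [hE1, pow_one]
    have e6 : dsc A₀ B₀ = (4 * (A₀ ^ 2 - 91 * A₀ + 91 ^ 2)) * (A₀ - (-91)) +
        (27 * (B₀ - 330)) * (B₀ - (-330)) + (-36992) * 2 := by
      unfold dsc
      ring
    rw [e6]
    exact add_mem (add_mem (Ideal.mul_mem_left _ _ hA) (Ideal.mul_mem_left _ _ hB))
      (Ideal.mul_mem_left _ _ hv)
  refine ⟨m, E, A₀, B₀, hm, hE2, h1, h2, ?_, ?_⟩
  · intro A B hA hB v hv t ht
    have h6 := (h3 A B hA hB).1 v (hmemR v hv)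
    obtain ⟨e1, e2, e3⟩ := hR3 v hv
    rw [e1, e2, e3, pow_one] at h6
    apply hb v t
    have e7 : t ^ 3 - t + b v = (t ^ 3 + A * t + B) - t * (A - (-1)) - (B - b v) := by ring
    rw [e7]
    exact sub_mem (sub_mem ht (Ideal.mul_mem_left _ _ h6.1)) h6.2
  · intro A B hA hB u hu
    have h6 := (h3 A B hA hB).1 u (hmemZ u hu)
    by_cases h2u : (2 : 𝓞 K) ∈ u.asIdeal
    · obtain ⟨e1, e2, e3⟩ := hP3 u h2u
      rw [e1, e2, e3] at h6
      exact (hN u h2u).2 A B h6.1 h6.2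
    · obtain ⟨e1, e2, e3⟩ := hZ3 u hu h2u
      rw [e1, e2, e3] at h6
      exact (hp u hu h2u).2 A B h6.1 h6.2

/-- The test `τ` is realised with the sign `s` at infinitely many places of `Aux`: the class of the index `a` is `η u`
if `τ a` and `0` otherwise. -/
def Real {ι : Type*} (η : (u : HeightOneSpectrum (𝓞 K)) → SC (Kv u))
    (xs : ZMod 2 → (u : HeightOneSpectrum (𝓞 K)) → ι → SC (Kv u))
    (Aux : Set (HeightOneSpectrum (𝓞 K))) (t : ZMod 2 × (ι → Prop)) : Prop :=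
  {u : HeightOneSpectrum (𝓞 K) | u ∈ Aux ∧ ∀ a, xs t.1 u a = if t.2 a then η u else 0}.Infinite

/-- **The abstract configuration.**  `cl u a`: the type of the index `a` at the place `u` above two; it determines the class
`xs 0 u a`.  For every `a₀` there are tests which are on for all indices of the type of `a₀` and which separate `a₀` from
all other indices `a`, except if the class of `a` is `m u` and the class of `a₀` is not. -/
theorem exists_configG (K : Type) [Field K] [NumberField K]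
    (hH : ∀ v : HeightOneSpectrum (𝓞 K), HF (Kv v)) {ι : Type*}
    {η : (u : HeightOneSpectrum (𝓞 K)) → SC (Kv u)} (hη : ∀ u, η u ≠ 0)
    (xs : ZMod 2 → (u : HeightOneSpectrum (𝓞 K)) → ι → SC (Kv u)) (Lp : ZMod 2 → LPred K)
    (Aux : Set (HeightOneSpectrum (𝓞 K))) (hAux : ∀ u ∈ Aux, (6 : 𝓞 K) ∉ u.asIdeal)
    (R₀ : Finset (HeightOneSpectrum (𝓞 K))) (hR₀ : ∀ v ∈ R₀, (2 : 𝓞 K) ∉ v.asIdeal)
    (hne : ∀ u : HeightOneSpectrum (𝓞 K), (2 : 𝓞 K) ∈ u.asIdeal → ∀ a, xs 0 u a ≠ 0)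
    (hdy : ∀ u : HeightOneSpectrum (𝓞 K), (2 : 𝓞 K) ∈ u.asIdeal →
      ∃ N : ℕ, LocClass (Lp 0) u (-91) (-330) N)
    (hax : ∀ u ∈ Aux, ∀ s : ZMod 2, ∃ (a b : 𝓞 K) (N : ℕ), LocClass (Lp s) u a b N)
    (hon : Real η xs Aux (1, fun _ => True)) (hoff : Real η xs Aux (0, fun _ => False))
    {D : Type} [Finite D] (cl : HeightOneSpectrum (𝓞 K) → ι → D)
    (hcl : ∀ u : HeightOneSpectrum (𝓞 K), (2 : 𝓞 K) ∈ u.asIdeal → ∀ a a', cl u a = cl u a' →
      xs 0 u a = xs 0 u a')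
    (m : (u : HeightOneSpectrum (𝓞 K)) → SC (Kv u))
    (hsep : ∀ u : HeightOneSpectrum (𝓞 K), (2 : 𝓞 K) ∈ u.asIdeal → ∀ a₀ : ι,
      ∃ T : List (ZMod 2 × (ι → Prop)), (∀ t ∈ T, Real η xs Aux t) ∧
        (∀ t ∈ T, ∀ a, cl u a = cl u a₀ → t.2 a) ∧
        ∀ a, cl u a ≠ cl u a₀ → (∃ t ∈ T, ¬ t.2 a) ∨ (xs 0 u a = m u ∧ xs 0 u a₀ ≠ m u)) :
    ∃ (C : CfgX K) (s : HeightOneSpectrum (𝓞 K) → ZMod 2) (W : Submodule (ZMod 2) C.V)
      (n : Ideal (𝓞 K)) (E : ℕ) (A₀ B₀ : 𝓞 K), C.Ok ∧ R₀ ⊆ C.R ∧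
      (∀ v ∈ C.Z, ((2 : 𝓞 K) ∈ v.asIdeal ∧ s v = 0) ∨ (v ∈ Aux ∧ v ∉ R₀)) ∧
      TargetG C (fun u a => xs (s u) u a) W ∧ ClassG C (fun u => Lp (s u) u) n E A₀ B₀ := by
  have hPf : {v : HeightOneSpectrum (𝓞 K) | (2 : 𝓞 K) ∈ v.asIdeal}.Finite :=
    H30MQ.fin_mem two_ne_zero
  have _ : Finite {v : HeightOneSpectrum (𝓞 K) // (2 : 𝓞 K) ∈ v.asIdeal} := hPf.to_subtype
  have _ : Fintype {v : HeightOneSpectrum (𝓞 K) // (2 : 𝓞 K) ∈ v.asIdeal} := Fintype.ofFinite _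
  have _ : Fintype D := Fintype.ofFinite D
  let P := {v : HeightOneSpectrum (𝓞 K) // (2 : 𝓞 K) ∈ v.asIdeal}
  -- the tests
  obtain ⟨T, hT⟩ : ∃ T : P → D → List (ZMod 2 × (ι → Prop)), ∀ p δ,
      (∀ t ∈ T p δ, Real η xs Aux t) ∧ (∀ t ∈ T p δ, ∀ a, cl p.1 a = δ → t.2 a) ∧
        ∀ a, cl p.1 a ≠ δ → (∃ t ∈ T p δ, ¬ t.2 a) ∨
          (xs 0 p.1 a = m p.1 ∧ ∃ a₀, cl p.1 a₀ = δ ∧ xs 0 p.1 a₀ ≠ m p.1) := by
    have h : ∀ (p : P) (δ : D), ∃ T : List (ZMod 2 × (ι → Prop)),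
      (∀ t ∈ T, Real η xs Aux t) ∧ (∀ t ∈ T, ∀ a, cl p.1 a = δ → t.2 a) ∧
        ∀ a, cl p.1 a ≠ δ → (∃ t ∈ T, ¬ t.2 a) ∨
          (xs 0 p.1 a = m p.1 ∧ ∃ a₀, cl p.1 a₀ = δ ∧ xs 0 p.1 a₀ ≠ m p.1) := by
      intro p δ
      by_cases hδ : ∃ a₀, cl p.1 a₀ = δ
      · obtain ⟨a₀, rfl⟩ := hδ
        obtain ⟨T, h1, h2, h3⟩ := hsep p.1 p.2 a₀
        refine ⟨T, h1, h2, fun a ha => ?_⟩
        rcases h3 a ha with h4 | ⟨h4, h5⟩
        · exact Or.inl h4
        · exact Or.inr ⟨h4, a₀, rfl, h5⟩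
      · refine ⟨[(0, fun _ => False)], ?_, ?_, ?_⟩
        · intro t ht
          rw [List.mem_singleton.1 ht]
          exact hoff
        · intro t _ a ha
          exact absurd ⟨a, ha⟩ hδ
        · intro a _
          exact Or.inl ⟨_, List.mem_singleton.2 rfl, fun h => h⟩
    exact ⟨fun p δ => (h p δ).choose, fun p δ => (h p δ).choose_spec⟩
  -- the classes of the types
  obtain ⟨yy, hyy0, hyy⟩ : ∃ yy : (p : P) → D → SC (Kv p.1), (∀ p δ, yy p δ ≠ 0) ∧
      ∀ p a, yy p (cl p.1 a) = xs 0 p.1 a := by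
    refine ⟨fun p δ => if h : ∃ a, cl p.1 a = δ then xs 0 p.1 h.choose else η p.1, ?_, ?_⟩
    · intro p δ
      by_cases h : ∃ a, cl p.1 a = δ
      · simp only [dif_pos h]
        exact hne p.1 p.2 _
      · simp only [dif_neg h]
        exact hη _
    · intro p a
      have h : ∃ a', cl p.1 a' = cl p.1 a := ⟨a, rfl⟩
      simp only [dif_pos h]
      exact hcl p.1 p.2 _ _ h.choose_spec
  obtain ⟨r, hr, hTr⟩ : ∃ r : ℕ, 0 < r ∧ ∀ p δ, (T p δ).length ≤ r := by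
    refine ⟨1 + ∑ p : P, ∑ δ : D, (T p δ).length, by omega, fun p δ => ?_⟩
    have h1 : (T p δ).length ≤ ∑ δ : D, (T p δ).length :=
      Finset.single_le_sum (f := fun δ => (T p δ).length) (fun _ _ => Nat.zero_le _)
        (Finset.mem_univ δ)
    have h2 : ∑ δ : D, (T p δ).length ≤ ∑ p : P, ∑ δ : D, (T p δ).length :=
      Finset.single_le_sum (f := fun p => ∑ δ : D, (T p δ).length) (fun _ _ => Nat.zero_le _)
        (Finset.mem_univ p)
    omega
  obtain ⟨tt, htt⟩ : ∃ tt : P → Nd D r → ZMod 2 × (ι → Prop),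
      (∀ p, tt p (some none) = (1, fun _ => True)) ∧
      (∀ p δ i b, tt p (some (some (δ, i, b))) = (T p δ).getD i.val (1, fun _ => True)) :=
    ⟨fun p n => match n with
      | some (some (δ, i, _)) => (T p δ).getD i.val (1, fun _ => True)
      | _ => (1, fun _ => True), fun _ => rfl, fun _ _ _ _ => rfl⟩
  have hgetD : ∀ (l : List (ZMod 2 × (ι → Prop))) (i : ℕ), l.getD i (1, fun _ => True) ∈ l ∨
      l.getD i (1, fun _ => True) = (1, fun _ => True) := by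
    intro l i
    by_cases hi : i < l.length
    · left
      rw [List.getD_eq_getElem _ _ hi]
      exact List.getElem_mem hi
    · right
      exact List.getD_eq_default _ _ (not_lt.1 hi)
  have hreal : ∀ p n, Real η xs Aux (tt p (some n)) := by
    intro p n
    rcases n with _ | ⟨δ, i, b⟩
    · rw [htt.1]
      exact hon
    · rw [htt.2]
      rcases hgetD (T p δ) i.val with h | h
      · exact (hT p δ).1 _ h
      · rw [h]
        exact hon
  -- the places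
  obtain ⟨f, hfi, hf⟩ := exists_inj_choice (α := HeightOneSpectrum (𝓞 K))
    (J := P × Option (D × Fin r × Bool))
    (fun j => {u : HeightOneSpectrum (𝓞 K) | u ∈ Aux ∧
      ∀ a, xs (tt j.1 (some j.2)).1 u a = if (tt j.1 (some j.2)).2 a then η u else 0})
    (fun j => hreal j.1 j.2) (R₀ : Set (HeightOneSpectrum (𝓞 K))) R₀.finite_toSet
  have hf2 : ∀ j, (2 : 𝓞 K) ∉ (f j).asIdeal := by
    intro j h
    apply hAux _ (hf j).1.1
    have e1 : (6 : 𝓞 K) = 2 * 3 := by norm_num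
    rw [e1]
    exact Ideal.mul_mem_right _ _ h
  let pl : P × Nd D r → HeightOneSpectrum (𝓞 K) := fun j => match j.2 with
    | none => j.1.1
    | some n => f (j.1, n)
  have hpl0 : ∀ p : P, pl (p, none) = p.1 := fun _ => rfl
  have hpl1 : ∀ (p : P) n, pl (p, some n) = f (p, n) := fun _ _ => rfl
  have hinj : Function.Injective pl := by
    rintro ⟨p, n⟩ ⟨p', n'⟩ h
    rcases n with _ | n <;> rcases n' with _ | n'
    · rw [hpl0, hpl0] at h
      rw [Subtype.ext h]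
    · rw [hpl0, hpl1] at h
      exact absurd (h ▸ p.2) (hf2 _)
    · rw [hpl0, hpl1] at h
      exact absurd (h ▸ p'.2) (hf2 _)
    · rw [hpl1, hpl1] at h
      have h1 := hfi h
      rw [Prod.mk.injEq] at h1
      rw [h1.1, h1.2]
  -- the configuration
  have hRf : {v : HeightOneSpectrum (𝓞 K) | (2 : 𝓞 K) ∉ v.asIdeal ∧
      (v ∈ R₀ ∨ (3 : 𝓞 K) ∈ v.asIdeal)}.Finite := by
    have h3f : {v : HeightOneSpectrum (𝓞 K) | (3 : 𝓞 K) ∈ v.asIdeal}.Finite := H30MQ.fin_mem (by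
      intro h
      have h1 : algebraMap (𝓞 K) K 3 = 0 := by rw [h, map_zero]
      rw [map_ofNat] at h1
      exact three_ne_zero h1)
    refine (R₀.finite_toSet.union h3f).subset ?_
    rintro v ⟨-, h | h⟩
    · exact Or.inl h
    · exact Or.inr h
  obtain ⟨C, hCZ, hCR⟩ : ∃ C : CfgX K, C.Z = Finset.univ.image pl ∧ C.R = hRf.toFinset :=
    ⟨⟨_, _⟩, rfl, rfl⟩
  have hZ : ∀ u, u ∈ C.Z ↔ ∃ j, pl j = u := by
    intro u
    rw [hCZ, Finset.mem_image]
    exact ⟨fun ⟨j, _, h⟩ => ⟨j, h⟩, fun ⟨j, h⟩ => ⟨j, Finset.mem_univ _, h⟩⟩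
  have hR : ∀ v, v ∈ C.R ↔ (2 : 𝓞 K) ∉ v.asIdeal ∧ (v ∈ R₀ ∨ (3 : 𝓞 K) ∈ v.asIdeal) := by
    intro v
    rw [hCR, Set.Finite.mem_toFinset]
    rfl
  have hmem2 : ∀ v : HeightOneSpectrum (𝓞 K), (2 : 𝓞 K) ∈ v.asIdeal → v ∈ C.Z := fun v hv =>
    (hZ v).2 ⟨(⟨v, hv⟩, none), rfl⟩
  have hC : C.Ok := by
    refine ⟨hmem2, fun v hv => ((hR v).1 hv).1, fun v hv => (hR v).2 ⟨fun h2 => ?_, Or.inr hv⟩⟩
    apply v.isPrime.ne_top
    rw [Ideal.eq_top_iff_one]
    have e1 : (1 : 𝓞 K) = 3 - 2 := by norm_num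
    rw [e1]
    exact v.asIdeal.sub_mem hv h2
  have hZR : ∀ v ∈ C.Z, v ∉ C.R := by
    intro v hv hvR
    obtain ⟨j, rfl⟩ := (hZ v).1 hv
    obtain ⟨h2, h3⟩ := (hR _).1 hvR
    obtain ⟨p, n⟩ := j
    rcases n with _ | n
    · exact h2 p.2
    · rw [hpl1] at h2 h3
      rcases h3 with h3 | h3
      · exact (hf (p, n)).2 h3
      · apply hAux _ (hf (p, n)).1.1
        have e1 : (6 : 𝓞 K) = 2 * 3 := by norm_num
        rw [e1]
        exact Ideal.mul_mem_left _ _ h3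
  -- the signs
  let S' : P × Nd D r → ZMod 2 := fun j => match j.2 with
    | none => 0
    | some n => (tt j.1 (some n)).1
  obtain ⟨s, hs⟩ : ∃ s : HeightOneSpectrum (𝓞 K) → ZMod 2, ∀ j, s (pl j) = S' j :=
    ⟨Function.extend pl S' 0, fun j => hinj.extend_apply S' 0 j⟩
  have hs0 : ∀ p : P, s p.1 = 0 := fun p => hs (p, none)
  have hs1 : ∀ (p : P) n, s (f (p, n)) = (tt p (some n)).1 := fun p n => hs (p, some n)
  obtain ⟨n, E, A₀, B₀, hcls⟩ := exists_classG hC (Lp := fun u => Lp (s u) u)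
    (fun u hu => by
      obtain ⟨N, hN⟩ := hdy u hu
      refine ⟨N, hN.1, ?_⟩
      have h0 : s u = 0 := hs0 ⟨u, hu⟩
      simp only [h0]
      exact hN.2)
    (fun u hu h2 => by
      obtain ⟨⟨p, n⟩, rfl⟩ := (hZ u).1 hu
      rcases n with _ | n
      · exact absurd p.2 h2
      · exact hax _ (hf (p, n)).1.1 _) hZR
  obtain ⟨W, hW⟩ := exists_targetW hC hH hr pl hinj hZ (fun u a => xs (s u) u a) η hη
    (fun p a => cl p.1 a) (fun p δ i a => ((T p δ).getD i.val (1, fun _ => True)).2 a)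
    (by
      intro p a i
      rcases hgetD (T p (cl p.1 a)) i.val with h | h
      · exact (hT p (cl p.1 a)).2.1 _ h a rfl
      · rw [h]
        trivial)
    yy hyy0 (fun p => m p.1)
    (by
      intro p δ a hδ
      rcases (hT p δ).2.2 a (fun h => hδ h.symm) with ⟨t, ht, hta⟩ | ⟨h1, a₀, h2, h3⟩
      · left
        obtain ⟨i, hi, hit⟩ := List.mem_iff_getElem.1 ht
        refine ⟨⟨i, lt_of_lt_of_le hi (hTr p δ)⟩, ?_⟩
        rw [List.getD_eq_getElem _ _ hi, hit]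
        exact hta
      · right
        rw [← h2]
        refine ⟨(hyy p a).trans h1, ?_⟩
        rw [hyy p a₀]
        exact h3)
    (by
      intro p a
      show xs (s p.1) p.1 a = yy p (cl p.1 a)
      rw [hyy, hs0])
    (by
      intro p a
      show xs (s (f (p, none))) (f (p, none)) a = η (f (p, none))
      have h1 := (hf (p, none)).1.2 a
      rw [hs1]
      rw [htt.1] at h1 ⊢
      rw [h1]
      exact if_pos trivial)
    (by
      intro p δ i b a
      show xs (s (f (p, some (δ, i, b)))) (f (p, some (δ, i, b))) a = _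
      have h1 := (hf (p, some (δ, i, b))).1.2 a
      rw [hs1]
      rw [htt.2] at h1 ⊢
      exact h1)
  refine ⟨C, s, W, n, E, A₀, B₀, hC, fun v hv => (hR v).2 ⟨hR₀ v hv, Or.inl hv⟩, ?_, hW, hcls⟩
  intro v hv
  obtain ⟨⟨p, n⟩, rfl⟩ := (hZ v).1 hv
  rcases n with _ | n
  · exact Or.inl ⟨p.2, hs0 p⟩
  · exact Or.inr ⟨(hf (p, n)).1.1, (hf (p, n)).2⟩

end H76AB

end S_H76_AB_Cg
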