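import Mathlib
import Pool.Agent.H11.Ramif
import Pool.Agent.H76.MP.M11
import Pool.Agent.H76.PN.P2

/-! This file joins several modules to save build time (Y4). -/

set_option autoImplicit false

section S_H36_AB_Ur

set_option autoImplicit false
set_option linter.unusedSectionVars false
open scoped Classical

open WithZero NumberField IsDedekindDomain H38RT
open H38T1 (SC sc scu rep eo la si Pri OddP tp unif)
open H76PP H73P2

namespace H36AB

section Ram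

variable {K N : Type} [Field K] [NumberField K] [Field N] [NumberField N] [Algebra K N]

private lemma Ur_V {F : Type} [Field F] {V : Valuation F (WithZero (Multiplicative ℤ))} {x : F}
    (hx : x ≠ 0) : V x = exp (- ord V x) := by
  unfold ord
  rw [neg_neg, exp_log ((Valuation.ne_zero_iff V).2 hx)]

/-- An integral uniformizer. -/
private lemma Ur_unif {F : Type} [Field F] [NumberField F] (v : HeightOneSpectrum (𝓞 F)) :
    ∃ p : 𝓞 F, p ∈ v.asIdeal ∧ (p : F) ≠ 0 ∧ v.valuation F (p : F) = exp (-1 : ℤ) := by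
  obtain ⟨p, hp⟩ := v.intValuation_exists_uniformizer
  have h1 : v.valuation F (p : F) = exp (-1 : ℤ) := by
    have h2 : v.valuation F (algebraMap (𝓞 F) F p) = v.intValuation p :=
      v.valuation_of_algebraMap p
    rw [← hp, ← h2]
  refine ⟨p, ?_, ?_, h1⟩
  · rw [← v.valuation_lt_one_iff_mem (K := F)]
    change v.valuation F (p : F) < 1
    rw [h1, ← exp_zero, exp_lt_exp]
    norm_num
  · intro h0
    rw [h0, map_zero] at h1
    exact exp_ne_zero h1.symm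

theorem not_ram_of_val {V : HeightOneSpectrum (𝓞 N)}
    (h : ∀ x : K, V.valuation N (algebraMap K N x) = (dn K V).valuation K x) : ¬ Ram K V := by
  intro hR
  obtain ⟨p, hp, hp0, hpv⟩ := Ur_unif (dn K V)
  have h1 : algebraMap (𝓞 K) (𝓞 N) p ∈ V.asIdeal ^ 2 := hR (Ideal.mem_map_of_mem _ hp)
  rw [← V.intValuation_le_pow_iff_mem, ← HeightOneSpectrum.valuation_of_algebraMap (K := N)] at h1
  change V.valuation N (algebraMap K N (p : K)) ≤ _ at h1
  rw [h, hpv, exp_le_exp] at h1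
  norm_num at h1

theorem not_ram_of_ord {V : HeightOneSpectrum (𝓞 N)} (h : ∀ x : K, x ≠ 0 →
    ord (V.valuation N) (algebraMap K N x) = ord ((dn K V).valuation K) x) : ¬ Ram K V := by
  apply not_ram_of_val
  intro x
  by_cases hx : x = 0
  · rw [hx, map_zero, map_zero, map_zero]
  · rw [Ur_V hx, Ur_V ((map_ne_zero (algebraMap K N)).2 hx), h x hx]

/-- Unramified means that the inertia group is trivial. -/
theorem inertia_iff [IsGalois K N] {V : HeightOneSpectrum (𝓞 N)} :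
    ¬ Ram K V ↔ V.asIdeal.inertia (N ≃ₐ[K] N) = ⊥ := by
  have hfd : FiniteDimensional K N := Module.Finite.of_restrictScalars_finite ℚ K N
  have hG : IsGaloisGroup (N ≃ₐ[K] N) (𝓞 K) (𝓞 N) := IsGaloisGroup.of_isFractionRing _ _ _ K N
  have hlo : V.asIdeal.LiesOver (dn K V).asIdeal := ⟨rfl⟩
  have hf : Finite (𝓞 K ⧸ (dn K V).asIdeal) := by
    apply Nat.finite_of_card_ne_zero
    exact (Ideal.absNorm_eq_zero_iff.not).2 (dn K V).ne_bot
  have key := fun x : K => Pool.Agent.H11.valuation_pow_card_inertia N (dn K V) V (N ≃ₐ[K] N) hf x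
  constructor
  · intro h
    obtain ⟨p, hp, hp0, hpv⟩ := Ur_unif (dn K V)
    have h1 := key (p : K)
    have h2 := unram_ord h hp0
    have h3 : V.valuation N (algebraMap K N (p : K)) = exp (-1 : ℤ) := by
      rw [Ur_V ((map_ne_zero (algebraMap K N)).2 hp0), h2, ← Ur_V hp0, hpv]
    rw [h3, hpv, ← exp_nsmul, exp_inj] at h1
    have h4 : Nat.card (V.asIdeal.inertia (N ≃ₐ[K] N)) = 1 := by
      simp only [nsmul_eq_mul, mul_neg, mul_one] at h1
      omega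
    exact Subgroup.card_eq_one.1 h4
  · intro h
    apply not_ram_of_val
    intro x
    have h4 : Nat.card (V.asIdeal.inertia (N ≃ₐ[K] N)) = 1 := by
      rw [h]
      exact Subgroup.card_bot
    have h1 := key x
    rw [h4, pow_one] at h1
    exact h1.symm

end Ram

section Comp

variable {K L F N : Type} [Field K] [NumberField K] [Field L] [NumberField L] [Field F]
  [NumberField F] [Field N] [NumberField N] [Algebra K L] [Algebra K F] [Algebra K N]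
  [Algebra L N] [Algebra F N] [IsScalarTower K L N] [IsScalarTower K F N] [IsGalois K L]
  [IsGalois K F] [IsGalois K N]

private theorem Ur_res {V : HeightOneSpectrum (𝓞 N)} {σ : N ≃ₐ[K] N}
    (hσ : σ ∈ V.asIdeal.inertia (N ≃ₐ[K] N)) (h : ¬ Ram K (dn L V)) (x : L) :
    σ (algebraMap L N x) = algebraMap L N x := by
  have h1 : σ.restrictNormal L ∈ (dn L V).asIdeal.inertia (L ≃ₐ[K] L) := by
    intro y
    change algebraMap (𝓞 L) (𝓞 N) (σ.restrictNormal L • y - y) ∈ V.asIdeal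
    have h2 : algebraMap (𝓞 L) (𝓞 N) (σ.restrictNormal L • y - y) =
        σ • (algebraMap (𝓞 L) (𝓞 N) y) - algebraMap (𝓞 L) (𝓞 N) y := by
      rw [map_sub]
      congr 1
      apply RingOfIntegers.coe_injective
      exact AlgEquiv.restrictNormal_commutes σ L (y : L)
    rw [h2]
    exact hσ _
  rw [inertia_iff.1 h] at h1
  have h3 : σ.restrictNormal L = 1 := Subgroup.mem_bot.1 h1
  rw [← AlgEquiv.restrictNormal_commutes σ L x, h3]
  rfl

/-- **The compositum of two extensions which are unramified at `V` is unramified at `V`.** -/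
theorem unram_comp (hgen : ∀ g : N ≃ₐ[K] N, (∀ x : L, g (algebraMap L N x) = algebraMap L N x) →
    (∀ x : F, g (algebraMap F N x) = algebraMap F N x) → g = 1) {V : HeightOneSpectrum (𝓞 N)}
    (h1 : ¬ Ram K (dn L V)) (h2 : ¬ Ram K (dn F V)) : ¬ Ram K V := by
  rw [inertia_iff, eq_bot_iff]
  intro σ hσ
  rw [Subgroup.mem_bot]
  exact hgen σ (Ur_res hσ h1) (Ur_res hσ h2)

/-- **Splitting in a compositum.** -/
theorem split_comp (hgen : ∀ g : N ≃ₐ[K] N, (∀ x : L, g (algebraMap L N x) = algebraMap L N x) →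
    (∀ x : F, g (algebraMap F N x) = algebraMap F N x) → g = 1) {C : Type} [Field C]
    (i : K →+* C) (h1 : ∃ ι : L →+* C, ∀ x : K, ι (algebraMap K L x) = i x)
    (h2 : ∃ ι : F →+* C, ∀ x : K, ι (algebraMap K F x) = i x) :
    ∃ ι : N →+* C, ∀ x : K, ι (algebraMap K N x) = i x := by
  have hfd : FiniteDimensional K N := Module.Finite.of_restrictScalars_finite ℚ K N
  let _ : Algebra K C := i.toAlgebra
  obtain ⟨ι₁, hι₁⟩ := h1
  obtain ⟨ι₂, hι₂⟩ := h2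
  have hKC : ∀ x : K, algebraMap K C x = i x := fun _ => rfl
  obtain ⟨j⟩ : Nonempty (N →ₐ[K] AlgebraicClosure C) :=
    ⟨IsAlgClosed.lift (R := K) (S := N) (M := AlgebraicClosure C)⟩
  have hj : ∀ x : K, j (algebraMap K N x) = algebraMap C (AlgebraicClosure C) (i x) := by
    intro x
    rw [AlgHom.commutes, IsScalarTower.algebraMap_apply K C (AlgebraicClosure C), hKC]
  -- images of normal subfields
  have key : ∀ (L : Type) [Field L] [NumberField L] [Algebra K L] [Algebra L N]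
      [IsScalarTower K L N] [IsGalois K L] (ι : L →+* C), (∀ x : K, ι (algebraMap K L x) = i x) →
      ∀ x : L, j (algebraMap L N x) ∈ (algebraMap C (AlgebraicClosure C)).range := by
    intro L _ _ _ _ _ _ ι hι x
    let _ : Algebra L (AlgebraicClosure C) := ((algebraMap C (AlgebraicClosure C)).comp ι).toAlgebra
    have _ : IsScalarTower K L (AlgebraicClosure C) := IsScalarTower.of_algebraMap_eq fun x => by
      rw [IsScalarTower.algebraMap_apply K C (AlgebraicClosure C), hKC, ← hι]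
      rfl
    have h3 := AlgHom.restrictNormal_commutes j L x
    rw [← h3]
    exact ⟨ι (j.restrictNormal L x), rfl⟩
  let E : IntermediateField K N :=
    { carrier := {x | j x ∈ (algebraMap C (AlgebraicClosure C)).range}
      mul_mem' := fun {a b} ha hb => by
        rw [Set.mem_setOf_eq, map_mul]
        exact mul_mem ha hb
      add_mem' := fun {a b} ha hb => by
        rw [Set.mem_setOf_eq, map_add]
        exact add_mem ha hb
      algebraMap_mem' := fun x => ⟨i x, (hj x).symm⟩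
      inv_mem' := fun a ha => by
        obtain ⟨c, hc⟩ := ha
        exact ⟨c⁻¹, by rw [map_inv₀, map_inv₀, hc]⟩ }
  have hE : ∀ x, x ∈ E ↔ j x ∈ (algebraMap C (AlgebraicClosure C)).range := fun _ => Iff.rfl
  have hfix : E.fixingSubgroup = ⊥ := by
    rw [eq_bot_iff]
    intro g hg
    rw [IntermediateField.mem_fixingSubgroup_iff] at hg
    rw [Subgroup.mem_bot]
    exact hgen g (fun x => hg _ ((hE _).2 (key L ι₁ hι₁ x)))
      (fun x => hg _ ((hE _).2 (key F ι₂ hι₂ x)))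
  have htop : ∀ x : N, x ∈ E := by
    intro x
    rw [← IsGalois.fixedField_fixingSubgroup E, hfix, IntermediateField.mem_fixedField_iff]
    intro g hg
    rw [Subgroup.mem_bot.1 hg]
    rfl
  obtain ⟨e, he⟩ : ∃ e : C ≃+* (algebraMap C (AlgebraicClosure C)).range,
      ∀ c, ((e c : (algebraMap C (AlgebraicClosure C)).range) : AlgebraicClosure C) =
        algebraMap C (AlgebraicClosure C) c :=
    ⟨RingEquiv.ofBijective (algebraMap C (AlgebraicClosure C)).rangeRestrict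
      ⟨fun a b hab => (algebraMap C (AlgebraicClosure C)).injective (congrArg Subtype.val hab),
        (algebraMap C (AlgebraicClosure C)).rangeRestrict_surjective⟩, fun _ => rfl⟩
  refine ⟨(e.symm : (algebraMap C (AlgebraicClosure C)).range →+* C).comp
    ((j : N →+* AlgebraicClosure C).codRestrict _ fun x => (hE x).1 (htop x)), fun x => ?_⟩
  apply e.injective
  have h5 : ∀ y : (algebraMap C (AlgebraicClosure C)).range,
      e ((e.symm : (algebraMap C (AlgebraicClosure C)).range →+* C) y) = y := fun y =>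
    e.apply_symm_apply y
  rw [RingHom.comp_apply, h5]
  apply Subtype.ext
  rw [he]
  exact hj x

end Comp

section Down

variable {K M N : Type} [Field K] [NumberField K] [Field M] [NumberField M] [Field N]
  [NumberField N] [Algebra K M] [Algebra K N] [Algebra M N] [IsScalarTower K M N]

/-- **Subextensions are unramified.** -/
theorem unram_down {V : HeightOneSpectrum (𝓞 N)} (h : ¬ Ram K V) : ¬ Ram K (dn M V) := by
  obtain ⟨-, h2⟩ := unram_mid (k := M) h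
  apply not_ram_of_ord
  intro x hx
  have h3 : dn K (dn M V) = dn K V := dn_dn V
  rw [h3]
  exact h2 x hx

/-- **The class of an element which becomes a square has even order.** -/
theorem eo_of_sq {V : HeightOneSpectrum (𝓞 N)} (h : ¬ Ram K V) {μ : M} (hμ : μ ≠ 0)
    (hsq : IsSquare (algebraMap M N μ)) : eo (dn M V) (sc μ) = 0 := by
  obtain ⟨h1, -⟩ := unram_mid (k := M) h
  obtain ⟨s, hs⟩ := hsq
  have hs0 : s ≠ 0 := by
    rintro rfl
    rw [mul_zero] at hs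
    exact hμ ((map_eq_zero _).1 hs)
  rw [H38T1.eo_sc hμ, ← h1 μ hμ, hs, ord_mul hs0 hs0, Int.cast_add]
  exact CharTwo.add_self_eq_zero _

/-- Both statements for all places of `M` above `v`. -/
theorem unram_all {v : HeightOneSpectrum (𝓞 K)}
    (h : ∀ V : HeightOneSpectrum (𝓞 N), dn K V = v → ¬ Ram K V) {μ : M} (hμ : μ ≠ 0)
    (hsq : IsSquare (algebraMap M N μ)) (W : HeightOneSpectrum (𝓞 M)) (hW : dn K W = v) :
    ¬ Ram K W ∧ eo W (sc μ) = 0 := by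
  obtain ⟨V, rfl⟩ := exists_above (L := N) W
  have h1 : dn K V = v := by
    rw [← hW]
    exact (dn_dn V).symm
  exact ⟨unram_down (h V h1), eo_of_sq (h V h1) hμ hsq⟩

end Down

end H36AB

end S_H36_AB_Ur

section S_H36_MG_Gp

set_option autoImplicit false
set_option linter.unusedSectionVars false

namespace H36MG

section Two

variable {G : Type*} [Group G]

/-- In a two-group a power of `x` has order two modulo `U`. -/
theorem exists_pow_two (hp : IsPGroup 2 G) (U : Subgroup G) {x : G} (hx : x ∉ U) :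
    ∃ k : ℕ, x ^ 2 ^ k ∉ U ∧ (x ^ 2 ^ k) ^ 2 ∈ U := by
  obtain ⟨n, hn⟩ := hp x
  have hex : ∃ n : ℕ, x ^ 2 ^ n ∈ U := ⟨n, by rw [hn]; exact U.one_mem⟩
  classical
  have h1 := Nat.find_spec hex
  have h0 : Nat.find hex ≠ 0 := by
    intro h0
    rw [h0, pow_zero, pow_one] at h1
    exact hx h1
  obtain ⟨k, hk⟩ := Nat.exists_eq_succ_of_ne_zero h0
  refine ⟨k, Nat.find_min hex (by omega), ?_⟩
  rw [← pow_mul, ← pow_succ]
  rw [hk] at h1
  exact h1

/-- An odd power of an element of a two-group generates it. -/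
theorem mem_of_odd_pow (hp : IsPGroup 2 G) (U : Subgroup G) {x : G} {n : ℤ} (hn : ¬ Even n)
    (h : x ^ n ∈ U) : x ∈ U := by
  obtain ⟨k, hk⟩ := hp x
  have hn' : Odd n := Int.not_even_iff_odd.1 hn
  have hco : IsCoprime n ((2 : ℤ) ^ k) := by
    apply IsCoprime.pow_right
    rw [Int.isCoprime_iff_gcd_eq_one]
    have h1 : IsCoprime n 2 := by
      obtain ⟨m, hm⟩ := hn'
      exact ⟨1, -m, by rw [hm]; ring⟩
    exact Int.isCoprime_iff_gcd_eq_one.1 h1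
  obtain ⟨a, b, hab⟩ := hco
  have h2 : x ^ ((2 : ℤ) ^ k) = 1 := by
    have h3 : ((2 : ℤ) ^ k) = ((2 ^ k : ℕ) : ℤ) := by push_cast; rfl
    rw [h3, zpow_natCast, hk]
  have h4 : x = (x ^ n) ^ a := by
    rw [← zpow_mul]
    have h5 : x = x ^ (a * n + b * 2 ^ k) := by rw [hab, zpow_one]
    have h6 : b * (2 : ℤ) ^ k = 2 ^ k * b := by ring
    rw [zpow_add, h6, zpow_mul x ((2 : ℤ) ^ k) b, h2, one_zpow, mul_one] at h5
    have h7 : a * n = n * a := by ring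
    rw [← h7]
    exact h5
  rw [h4]
  exact U.zpow_mem h a

/-- A commutative two-group with one involution is cyclic. -/
theorem cyc_of_unique [Finite G] (hp : IsPGroup 2 G) (H : Subgroup G)
    (hc : ∀ x ∈ H, ∀ y ∈ H, x * y = y * x) {ζ : G} (hζ1 : ζ ≠ 1) (hζ2 : ζ ^ 2 = 1)
    (hu : ∀ x ∈ H, x ≠ 1 → ∃ k : ℕ, x ^ 2 ^ k = ζ) (hH : H ≠ ⊥) :
    ∃ g ∈ H, (∀ h ∈ H, h ∈ Subgroup.zpowers g) ∧ ∃ r : ℕ, g ^ 2 ^ r = ζ := by
  obtain ⟨⟨g, hg⟩, hmax⟩ := Finite.exists_max (fun x : H => orderOf (x : G))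
  have hmax' : ∀ y ∈ H, orderOf y ≤ orderOf g := fun y hy => hmax ⟨y, hy⟩
  have hg1 : g ≠ 1 := by
    rintro rfl
    apply hH
    rw [eq_bot_iff]
    intro y hy
    have h1 := hmax' y hy
    rw [orderOf_one] at h1
    have h2 : orderOf y = 1 := le_antisymm h1 (orderOf_pos y)
    rw [Subgroup.mem_bot]
    exact orderOf_eq_one_iff.1 h2
  obtain ⟨r, hr⟩ := hu g hg hg1
  refine ⟨g, hg, fun h hh => ?_, r, hr⟩
  by_contra hcon
  obtain ⟨j, hj1, hj2⟩ := exists_pow_two hp (Subgroup.zpowers g) hcon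
  obtain ⟨x, hx⟩ : ∃ x, x = h ^ 2 ^ j := ⟨_, rfl⟩
  rw [← hx] at hj1 hj2
  have hxH : x ∈ H := by
    rw [hx]
    exact H.pow_mem hh _
  obtain ⟨k, hk⟩ := Subgroup.mem_zpowers_iff.1 hj2
  have hzp : ∀ l : ℤ, (x * g ^ (-l)) ^ 2 = g ^ (k - 2 * l) := by
    intro l
    have hcg : Commute x (g ^ (-l)) := hc x hxH _ (H.zpow_mem hg _)
    rw [hcg.mul_pow, ← hk, ← zpow_natCast (g ^ (-l)) 2, ← zpow_mul, ← zpow_add]
    congr 1
    push_cast
    ring
  rcases Int.even_or_odd' k with ⟨l, hl | hl⟩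
  · have h1 := hzp l
    rw [hl, sub_self, zpow_zero] at h1
    have hy1 : x * g ^ (-l) ≠ 1 := by
      intro h2
      apply hj1
      have h3 : x = g ^ l := by
        rw [zpow_neg, mul_inv_eq_one] at h2
        exact h2
      rw [h3]
      exact Subgroup.zpow_mem_zpowers g l
    obtain ⟨k', hk'⟩ := hu _ (H.mul_mem hxH (H.zpow_mem hg _)) hy1
    have h4 : k' = 0 := by
      by_contra h5
      obtain ⟨m, rfl⟩ := Nat.exists_eq_succ_of_ne_zero h5
      rw [pow_succ', pow_mul, h1, one_pow] at hk'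
      exact hζ1 hk'.symm
    rw [h4, pow_zero, pow_one] at hk'
    apply hj1
    have h6 : x = g ^ (2 ^ r : ℕ) * g ^ l := by
      rw [hr, ← hk', zpow_neg]
      group
    rw [h6]
    exact mul_mem (Subgroup.npow_mem_zpowers g _) (Subgroup.zpow_mem_zpowers g l)
  · have h1 := hzp l
    rw [hl] at h1
    have h2 : 2 * l + 1 - 2 * l = 1 := by ring
    rw [h2, zpow_one] at h1
    have h3 := hmax' _ (H.mul_mem hxH (H.zpow_mem hg (-l)))
    obtain ⟨n, hn⟩ := hp (x * g ^ (-l))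
    have hy1 : orderOf (x * g ^ (-l)) ≠ 1 := by
      intro h4
      rw [orderOf_eq_one_iff] at h4
      rw [h4, one_pow] at h1
      exact hg1 h1.symm
    have h5 : 2 ∣ orderOf (x * g ^ (-l)) := by
      have h6 := orderOf_dvd_of_pow_eq_one hn
      obtain ⟨m, -, hm⟩ := (Nat.dvd_prime_pow Nat.prime_two).1 h6
      rw [hm] at hy1 ⊢
      apply dvd_pow_self
      rintro rfl
      exact hy1 (pow_zero 2)
    have h7 : orderOf g = orderOf (x * g ^ (-l)) / 2 := by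
      have h9 := orderOf_pow (x * g ^ (-l)) (n := 2)
      rw [h1, Nat.gcd_eq_right h5] at h9
      exact h9
    have h8 : 0 < orderOf (x * g ^ (-l)) := orderOf_pos _
    omega

/-- **Gp1.** -/
theorem cyc_or [Finite G] (hp : IsPGroup 2 G) (U : Subgroup G) [U.Normal] {z : G}
    (hmono : ∀ x : G, x ∉ U → (∀ y, x * y * x⁻¹ * y⁻¹ ∈ U) → x ^ 2 ∈ U → x * z⁻¹ ∈ U)
    (D : Subgroup G) (hD : ∀ x ∈ D, ∀ y ∈ D, x * y = y * x)
    (hn : ∀ x ∈ D, ∀ y, y * x * y⁻¹ ∈ Subgroup.zpowers x) :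
    D ≤ U ∨ ∃ g ∈ D, ∃ r : ℕ, (∀ h ∈ D, ∃ i : ℕ, ∃ c ∈ U, h = g ^ i * c) ∧
      g ^ 2 ^ r * z⁻¹ ∈ U := by
  by_cases hDU : D ≤ U
  · exact Or.inl hDU
  right
  have hU : U.Normal := inferInstance
  -- powers reach `z`
  have key : ∀ x ∈ D, x ∉ U → ∃ k : ℕ, x ^ 2 ^ k ∉ U ∧ (x ^ 2 ^ k) ^ 2 ∈ U ∧
      x ^ 2 ^ k * z⁻¹ ∈ U := by
    intro x hx hxU
    obtain ⟨k, h1, h2⟩ := exists_pow_two hp U hxU
    refine ⟨k, h1, h2, hmono _ h1 (fun y => ?_) h2⟩
    obtain ⟨x', hx'⟩ : ∃ x', x' = x ^ 2 ^ k := ⟨_, rfl⟩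
    rw [← hx'] at h1 h2 ⊢
    have hx'D : x' ∈ D := by
      rw [hx']
      exact D.pow_mem hx _
    obtain ⟨n, hn'⟩ := Subgroup.mem_zpowers_iff.1 (hn x' hx'D y)
    have hsq : ∀ m : ℤ, x' ^ (2 * m) ∈ U := by
      intro m
      rw [zpow_mul]
      apply U.zpow_mem
      have h3 : x' ^ (2 : ℤ) = x' ^ 2 := by norm_cast
      rw [h3]
      exact h2
    rcases Int.even_or_odd' n with ⟨m, hm | hm⟩
    · exfalso
      apply h1
      have h3 : y * x' * y⁻¹ ∈ U := by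
        rw [← hn', hm]
        exact hsq m
      have h4 := hU.conj_mem _ h3 y⁻¹
      have h5 : y⁻¹ * (y * x' * y⁻¹) * y⁻¹⁻¹ = x' := by group
      rwa [h5] at h4
    · have h3 : x' * y * x'⁻¹ * y⁻¹ = x' * (y * x' * y⁻¹)⁻¹ := by group
      rw [h3, ← hn', hm]
      have h4 : x' * (x' ^ (2 * m + 1))⁻¹ = (x' ^ (2 * m))⁻¹ := by
        rw [zpow_add, zpow_one]
        group
      rw [h4]
      exact U.inv_mem (hsq m)
  obtain ⟨x₀, hx₀, hx₀U⟩ := SetLike.not_le_iff_exists.1 hDU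
  obtain ⟨k₀, h1, h2, h3⟩ := key x₀ hx₀ hx₀U
  have hmk : ∀ x : G, QuotientGroup.mk' U x = 1 ↔ x ∈ U := fun x => by
    rw [← MonoidHom.mem_ker, QuotientGroup.ker_mk']
  have hzz : QuotientGroup.mk' U (x₀ ^ 2 ^ k₀) = QuotientGroup.mk' U z := by
    have h4 := (hmk _).2 h3
    rw [map_mul, map_inv, mul_inv_eq_one] at h4
    exact h4
  have hζ1 : QuotientGroup.mk' U z ≠ 1 := by
    rw [← hzz]
    exact fun h => h1 ((hmk _).1 h)
  have hζ2 : (QuotientGroup.mk' U z) ^ 2 = 1 := by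
    rw [← hzz, ← map_pow]
    exact (hmk _).2 h2
  have hpQ : IsPGroup 2 (G ⧸ U) := hp.to_quotient U
  obtain ⟨γ, ⟨g, hg, rfl⟩, hgen, r, hr⟩ := cyc_of_unique hpQ (D.map (QuotientGroup.mk' U)) (by
      rintro _ ⟨x, hx, rfl⟩ _ ⟨y, hy, rfl⟩
      rw [← map_mul, ← map_mul, hD x hx y hy]) hζ1 hζ2 (by
      rintro _ ⟨x, hx, rfl⟩ hx1
      obtain ⟨k, -, -, h6⟩ := key x hx (fun h => hx1 ((hmk x).2 h))
      refine ⟨k, ?_⟩
      have h4 := (hmk _).2 h6
      rw [map_mul, map_inv, mul_inv_eq_one, map_pow] at h4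
      exact h4) (by
      intro h
      apply hx₀U
      rw [← hmk]
      have h5 : QuotientGroup.mk' U x₀ ∈ D.map (QuotientGroup.mk' U) := ⟨x₀, hx₀, rfl⟩
      rw [h] at h5
      exact h5)
  refine ⟨g, hg, r, fun h hh => ?_, ?_⟩
  · have h4 := hgen _ ⟨h, hh, rfl⟩
    rw [← mem_powers_iff_mem_zpowers] at h4
    obtain ⟨i, hi⟩ := h4
    refine ⟨i, (g ^ i)⁻¹ * h, ?_, by group⟩
    rw [← hmk, map_mul, map_inv, map_pow, inv_mul_eq_one]
    exact hi
  · rw [← hmk, map_mul, map_inv, mul_inv_eq_one, map_pow]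
    exact hr

end Two

section Cl

variable {G : Type*} [Group G]

/-- The elements of `D` which generate `D` modulo `T`, not in `T`. -/
def clS (D T : Subgroup G) : Set G := {h | h ∈ D ∧ h ∉ T ∧ ∀ h' ∈ D, ∃ i : ℕ, h ^ i * h'⁻¹ ∈ T}

theorem cl_empty {D T : Subgroup G} (h : D ≤ T) : clS D T = ∅ := by
  rw [Set.eq_empty_iff_forall_notMem]
  rintro x ⟨hx, hxT, -⟩
  exact hxT (h hx)

theorem cl_nonempty {D T : Subgroup G} (hD : ∀ x ∈ D, ∀ y ∈ D, x * y = y * x)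
    (hcyc : ∃ g ∈ D, ∀ h ∈ D, ∃ i : ℕ, ∃ c ∈ T, h = g ^ i * c) (h : ¬ D ≤ T) :
    (clS D T).Nonempty := by
  obtain ⟨g, hg, hgen⟩ := hcyc
  refine ⟨g, hg, fun hgT => h fun x hx => ?_, fun x hx => ?_⟩
  · obtain ⟨i, c, hc, rfl⟩ := hgen x hx
    exact T.mul_mem (T.pow_mem hgT i) hc
  · obtain ⟨i, c, hc, rfl⟩ := hgen x hx
    refine ⟨i, ?_⟩
    have h1 : c ∈ D := by
      have h2 := D.mul_mem (D.inv_mem (D.pow_mem hg i)) hx
      have h3 : (g ^ i)⁻¹ * (g ^ i * c) = c := by group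
      rwa [h3] at h2
    have h2 : g ^ i * (g ^ i * c)⁻¹ = c⁻¹ := by
      rw [mul_inv_rev, ← mul_assoc, hD _ (D.pow_mem hg i) _ (D.inv_mem h1)]
      group
    rw [h2]
    exact T.inv_mem hc

theorem cl_notMem {D T : Subgroup G} {g : G} (h : g ∈ clS D T) : g ∉ T := h.2.1

/-- The elements of `cl` are the elements of `D` which are not squares modulo `T`. -/
theorem mem_cl {D T : Subgroup G} (hp : IsPGroup 2 G) (hD : ∀ x ∈ D, ∀ y ∈ D, x * y = y * x)
    (hcyc : ∃ g ∈ D, ∀ h ∈ D, ∃ i : ℕ, ∃ c ∈ T, h = g ^ i * c) {h : G} :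
    h ∈ clS D T ↔ h ∈ D ∧ ∀ x ∈ D, h * (x ^ 2)⁻¹ ∉ T := by
  obtain ⟨g, hg, hgen⟩ := hcyc
  have hcom : ∀ x ∈ D, ∀ y ∈ D, Commute x y := fun x hx y hy => hD x hx y hy
  constructor
  · rintro ⟨h1, h2, h3⟩
    refine ⟨h1, fun x hx hT => h2 ?_⟩
    obtain ⟨i, hi⟩ := h3 x hx
    have h4 : h ^ (2 * (i : ℤ) - 1) ∈ T := by
      have e : h ^ (2 * (i : ℤ) - 1) = (h * (x ^ 2)⁻¹)⁻¹ * ((h ^ i * x⁻¹) ^ 2) := by
        have c1 : Commute (h ^ i) x⁻¹ := hcom _ (D.pow_mem h1 i) _ (D.inv_mem hx)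
        have c2 : Commute h (x ^ 2)⁻¹ := hcom _ h1 _ (D.inv_mem (D.pow_mem hx 2))
        have c3 : Commute (x ^ 2) (h ^ (i * 2)) := hcom _ (D.pow_mem hx 2) _ (D.pow_mem h1 _)
        rw [c1.mul_pow, c2.mul_inv, inv_inv, ← pow_mul, inv_pow]
        have e2 : h ^ (2 * (i : ℤ) - 1) = h⁻¹ * h ^ (i * 2) := by
          rw [← zpow_natCast h (i * 2), ← zpow_neg_one, ← zpow_add]
          congr 1
          push_cast
          ring
        rw [e2, mul_assoc, ← mul_assoc (x ^ 2), c3.eq, mul_assoc, mul_inv_cancel, mul_one]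
      rw [e]
      exact T.mul_mem (T.inv_mem hT) (T.pow_mem hi 2)
    refine mem_of_odd_pow hp T ?_ h4
    rw [Int.not_even_iff_odd]
    exact ⟨(i : ℤ) - 1, by ring⟩
  · rintro ⟨h1, h2⟩
    obtain ⟨i, c, hc, hic⟩ := hgen h h1
    have hcD : c ∈ D := by
      have h3 := D.mul_mem (D.inv_mem (D.pow_mem hg i)) h1
      rw [hic] at h3
      have h4 : (g ^ i)⁻¹ * (g ^ i * c) = c := by group
      rwa [h4] at h3
    have hodd : Odd i := by
      rw [← Nat.not_even_iff_odd]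
      rintro ⟨m, hm⟩
      apply h2 (g ^ m) (D.pow_mem hg m)
      rw [hic, hm, hD _ (D.pow_mem hg _) _ hcD]
      have h5 : c * g ^ (m + m) * ((g ^ m) ^ 2)⁻¹ = c := by
        rw [← pow_mul, mul_two, mul_assoc, mul_inv_cancel, mul_one]
      rw [h5]
      exact hc
    refine ⟨h1, fun hT => ?_, fun y hy => ?_⟩
    · apply h2 1 D.one_mem
      rw [one_pow, inv_one, mul_one]
      exact hT
    · obtain ⟨j, c', hc', hjc⟩ := hgen y hy
      have hc'D : c' ∈ D := by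
        have h3 := D.mul_mem (D.inv_mem (D.pow_mem hg j)) hy
        rw [hjc] at h3
        have h4 : (g ^ j)⁻¹ * (g ^ j * c') = c' := by group
        rwa [h4] at h3
      -- the inverse of `i` modulo the order of `g`
      obtain ⟨n, hn⟩ := hp g
      have hco : IsCoprime (i : ℤ) ((2 : ℤ) ^ n) := by
        apply IsCoprime.pow_right
        obtain ⟨m, hm⟩ := hodd
        exact ⟨1, -m, by rw [hm]; push_cast; ring⟩
      obtain ⟨a, b, hab⟩ := hco
      have h2n : g ^ ((2 : ℤ) ^ n) = 1 := by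
        have h3 : ((2 : ℤ) ^ n) = ((2 ^ n : ℕ) : ℤ) := by push_cast; rfl
        rw [h3, zpow_natCast, hn]
      have h5 : h ^ (a * (j : ℤ)) = g ^ j * c ^ (a * (j : ℤ)) := by
        have c1 : Commute (g ^ i) c := hcom _ (D.pow_mem hg i) _ hcD
        rw [hic, c1.mul_zpow]
        congr 1
        rw [← zpow_natCast g i, ← zpow_natCast g j, ← zpow_mul]
        have h6 : (i : ℤ) * (a * (j : ℤ)) = (j : ℤ) + (2 : ℤ) ^ n * (-(b * j)) := by
          linear_combination (j : ℤ) * hab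
        rw [h6, zpow_add, zpow_mul g ((2 : ℤ) ^ n), h2n, one_zpow, mul_one]
      obtain ⟨n', hn'⟩ := hp h
      have hfin : IsOfFinOrder h := isOfFinOrder_iff_pow_eq_one.2 ⟨2 ^ n', by positivity, hn'⟩
      have h7 : h ^ (a * (j : ℤ)) ∈ Submonoid.powers h := by
        rw [hfin.mem_powers_iff_mem_zpowers]
        exact Subgroup.zpow_mem_zpowers h _
      obtain ⟨m, hm⟩ := h7
      refine ⟨m, ?_⟩
      have h8 : h ^ m = h ^ (a * (j : ℤ)) := hm
      have c2 : Commute (c ^ (a * (j : ℤ))) (c'⁻¹) :=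
        hcom _ (D.zpow_mem hcD _) _ (D.inv_mem hc'D)
      have c3 : Commute (g ^ j) (c ^ (a * (j : ℤ)) * c'⁻¹) :=
        hcom _ (D.pow_mem hg j) _ (D.mul_mem (D.zpow_mem hcD _) (D.inv_mem hc'D))
      rw [h8, h5, hjc, mul_inv_rev]
      have h9 : g ^ j * c ^ (a * (j : ℤ)) * (c'⁻¹ * (g ^ j)⁻¹) =
          (g ^ j * (c ^ (a * (j : ℤ)) * c'⁻¹)) * (g ^ j)⁻¹ := by group
      rw [h9, c3.eq, mul_assoc, mul_inv_cancel, mul_one]
      exact T.mul_mem (T.zpow_mem hc _) (T.inv_mem hc')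

/-- Squares times `T`. -/
private def sqS (D T : Subgroup G) (hD : ∀ x ∈ D, ∀ y ∈ D, x * y = y * x) : Subgroup G where
  carrier := {h | h ∈ D ∧ ∃ x ∈ D, h * (x ^ 2)⁻¹ ∈ T}
  mul_mem' := by
    rintro a b ⟨ha, x, hx, hxa⟩ ⟨hb, y, hy, hyb⟩
    refine ⟨D.mul_mem ha hb, x * y, D.mul_mem hx hy, ?_⟩
    have c1 : Commute x y := hD x hx y hy
    have c2 : Commute b (x ^ 2)⁻¹ := hD _ hb _ (D.inv_mem (D.pow_mem hx 2))
    have c3 : Commute (x ^ 2)⁻¹ (y ^ 2)⁻¹ :=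
      hD _ (D.inv_mem (D.pow_mem hx 2)) _ (D.inv_mem (D.pow_mem hy 2))
    have e : a * b * ((x * y) ^ 2)⁻¹ = (a * (x ^ 2)⁻¹) * (b * (y ^ 2)⁻¹) := by
      rw [c1.mul_pow, mul_inv_rev, ← c3.eq, mul_assoc, mul_assoc, ← mul_assoc b, c2.eq, mul_assoc]
    rw [e]
    exact T.mul_mem hxa hyb
  one_mem' := ⟨D.one_mem, 1, D.one_mem, by simpa using T.one_mem⟩
  inv_mem' := by
    rintro a ⟨ha, x, hx, hxa⟩
    refine ⟨D.inv_mem ha, x⁻¹, D.inv_mem hx, ?_⟩
    have c2 : Commute a (x ^ 2)⁻¹ := hD _ ha _ (D.inv_mem (D.pow_mem hx 2))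
    have e : a⁻¹ * ((x⁻¹) ^ 2)⁻¹ = (a * (x ^ 2)⁻¹)⁻¹ := by
      rw [c2.mul_inv, inv_pow]
    rw [e]
    exact T.inv_mem hxa

/-- **Gp2 (c), first case**: a type which is not empty is separated by a test `(g, 0)`. -/
theorem cl_sep1 {D T T' : Subgroup G} (hp : IsPGroup 2 G)
    (hD : ∀ x ∈ D, ∀ y ∈ D, x * y = y * x)
    (hcyc : ∃ g ∈ D, ∀ h ∈ D, ∃ i : ℕ, ∃ c ∈ T, h = g ^ i * c)
    (hcyc' : ∃ g ∈ D, ∀ h ∈ D, ∃ i : ℕ, ∃ c ∈ T', h = g ^ i * c)
    (hne : (clS D T).Nonempty) (h : clS D T' ≠ clS D T) : ∃ g ∈ clS D T, g ∈ T' := by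
  by_contra hcon
  have hcon' : ∀ g ∈ clS D T, g ∉ T' := fun g hg hgT => hcon ⟨g, hg, hgT⟩
  apply h
  -- elements of `D` in `T'` are squares modulo `T`
  have h1 : ∀ c ∈ D, c ∈ T' → ∃ x ∈ D, c * (x ^ 2)⁻¹ ∈ T := by
    intro c hc hcT
    by_contra h2
    refine hcon' c ((mem_cl hp hD hcyc).2 ⟨hc, fun x hx hxT => h2 ⟨x, hx, hxT⟩⟩) hcT
  -- squares modulo `T'` are squares modulo `T`
  have h2 : ∀ y ∈ D, (∃ x ∈ D, y * (x ^ 2)⁻¹ ∈ T') → ∃ x ∈ D, y * (x ^ 2)⁻¹ ∈ T := by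
    rintro y hy ⟨x, hx, hxT⟩
    have h3 := D.mul_mem hy (D.inv_mem (D.pow_mem hx 2))
    have h4 : y * (x ^ 2)⁻¹ ∈ sqS D T hD := ⟨h3, h1 _ h3 hxT⟩
    have h5 : x ^ 2 ∈ sqS D T hD :=
      ⟨D.pow_mem hx 2, x, hx, by rw [mul_inv_cancel]; exact T.one_mem⟩
    have h6 := (sqS D T hD).mul_mem h4 h5
    rw [inv_mul_cancel_right] at h6
    exact h6.2
  ext y
  rw [mem_cl hp hD hcyc, mem_cl hp hD hcyc']
  constructor
  · rintro ⟨hy, hyn⟩
    refine ⟨hy, fun x hx hxT => ?_⟩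
    -- `y` is a generator modulo `T'`; if it is a square modulo `T` then everything is
    obtain ⟨g, hg⟩ := hne
    obtain ⟨hgD, hgn⟩ := (mem_cl hp hD hcyc).1 hg
    have hy' : y ∈ clS D T' := (mem_cl hp hD hcyc').2 ⟨hy, hyn⟩
    obtain ⟨i, hi⟩ := hy'.2.2 g hgD
    have h3 : y ^ i * g⁻¹ ∈ sqS D T hD := by
      have h4 := D.mul_mem (D.pow_mem hy i) (D.inv_mem hgD)
      exact ⟨h4, h1 _ h4 hi⟩
    have h5 : y ∈ sqS D T hD := ⟨hy, x, hx, hxT⟩
    have h6 := (sqS D T hD).mul_mem ((sqS D T hD).inv_mem h3) ((sqS D T hD).pow_mem h5 i)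
    have h7 : (y ^ i * g⁻¹)⁻¹ * y ^ i = g := by group
    rw [h7] at h6
    obtain ⟨-, x', hx', hxT'⟩ := h6
    exact hgn x' hx' hxT'
  · rintro ⟨hy, hyn⟩
    refine ⟨hy, fun x hx hxT => ?_⟩
    obtain ⟨x', hx', hxT'⟩ := h2 y hy ⟨x, hx, hxT⟩
    exact hyn x' hx' hxT'

/-- **Gp2 (c), second case**: the empty type is separated by a test `(g, 1)`. -/
theorem cl_sep2 {D T T' : Subgroup G} (hp : IsPGroup 2 G) (h0 : clS D T = ∅)
    (h : clS D T' ≠ clS D T) : ∃ g ∈ D, g ∉ T' ∧ g ^ 2 ∈ T' := by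
  have h1 : ¬ D ≤ T' := by
    intro h2
    apply h
    rw [h0, cl_empty h2]
  obtain ⟨x, hx, hxT⟩ := SetLike.not_le_iff_exists.1 h1
  obtain ⟨k, h2, h3⟩ := exists_pow_two hp T' hxT
  exact ⟨x ^ 2 ^ k, D.pow_mem hx _, h2, h3⟩

end Cl

end H36MG

end S_H36_MG_Gp

section S_H36_MG_Gt

set_option autoImplicit false
set_option linter.style.haveILetI false
set_option linter.unusedSectionVars false
open scoped Classical

open NumberField IsDedekindDomain WeierstrassCurve Pool.Agent.H10 Pool.Agent.H11 Pool.Agent.H93.MQ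

namespace H36MG

/-- The twist of `y^2 = x^3 + A x + B` by an element `μ` of the extension `M` of `K`. -/
def twM (K : Type*) {M : Type*} [Field K] [Field M] [Algebra K M] (A B : K) (μ : M) :
    WeierstrassCurve M :=
  ⟨0, 0, 0, μ ^ 2 * algebraMap K M A, μ ^ 3 * algebraMap K M B⟩

lemma twM_map (K : Type*) {M M' : Type*} [Field K] [Field M] [Algebra K M] [Field M'] [Algebra K M']
    [Algebra M M'] [IsScalarTower K M M'] (A B : K) (μ : M) :
    (twM K A B μ).map (algebraMap M M') = twM K A B (algebraMap M M' μ) := by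
  ext <;> simp [twM, IsScalarTower.algebraMap_apply K M M']

lemma twM_ell {K M : Type*} [Field K] [Field M] [CharZero M] [Algebra K M] {A B : K}
    (hAB : 4 * A ^ 3 + 27 * B ^ 2 ≠ 0) {μ : M} (hμ : μ ≠ 0) : (twM K A B μ).IsElliptic := by
  refine ⟨?_⟩
  have h1 : (twM K A B μ).Δ = -16 * (μ ^ 6 * algebraMap K M (4 * A ^ 3 + 27 * B ^ 2)) := by
    rw [WeierstrassCurve.Δ, WeierstrassCurve.b₂, WeierstrassCurve.b₄, WeierstrassCurve.b₆,
      WeierstrassCurve.b₈]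
    simp only [twM, map_mul, map_add, map_pow, map_ofNat]
    ring
  rw [h1, isUnit_iff_ne_zero]
  refine mul_ne_zero (by norm_num) (mul_ne_zero (pow_ne_zero 6 hμ) ((map_ne_zero _).2 hAB))

/-- The twist by `μ` has bounded two-primary part and finitely many points. -/
def PG (K : Type) {M : Type} [Field K] [Field M] [NumberField M] [Algebra K M] (A B : K) (μ : M) :
    Prop :=
  Bdd M (twM K A B μ) ∧ Finite (twM K A B μ).toAffine.Point

section Step

variable {K : Type} [Field K]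

lemma rsc_tw {M : Type} [Field M] [Algebra K M] (A B : K) {s d d' : M} (hs : s ≠ 0)
    (h : d' = s ^ 2 * d) : Rsc s (twM K A B d) (twM K A B d') := by
  refine ⟨hs, ?_, ?_, ?_, ?_, ?_⟩
  · show (0 : M) = s * 0
    rw [mul_zero]
  · show (0 : M) = s ^ 2 * 0
    rw [mul_zero]
  · show (0 : M) = s ^ 3 * 0
    rw [mul_zero]
  · show d' ^ 2 * algebraMap K M A = s ^ 4 * (d ^ 2 * algebraMap K M A)
    rw [h]
    ring
  · show d' ^ 3 * algebraMap K M B = s ^ 6 * (d ^ 3 * algebraMap K M B)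
    rw [h]
    ring

/-- **Gt1.** -/
theorem pair_step {A B : K} (hAB : 4 * A ^ 3 + 27 * B ^ 2 ≠ 0)
    {M M' : Type} [Field M] [NumberField M] [Field M'] [NumberField M'] [Algebra K M] [Algebra K M']
    [Algebra M M'] [IsScalarTower K M M'] {d m : M} (hd : d ≠ 0) (hm : m ≠ 0)
    {s : M'} (hs : s ^ 2 = algebraMap M M' m)
    (hgen : ∀ x : M', ∃ a b : M, x = algebraMap M M' a + algebraMap M M' b * s)
    (H1 : PG K A B d) (H2 : PG K A B (d * m)) : PG K A B (algebraMap M M' d) := by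
  have hm0 : algebraMap M M' m ≠ 0 := (map_ne_zero _).2 hm
  have hnorm : Normal M M' := H14T1.normal_quad (c := m) hs hgen
  have hs0 : s ≠ 0 := by
    intro h0
    rw [h0, zero_pow two_ne_zero] at hs
    exact hm0 hs.symm
  have hsig : ∀ σ : M' ≃ₐ[M] M', σ s = s ∨ σ s = -s := by
    intro σ
    have h1 : (σ s) ^ 2 = s ^ 2 := by
      rw [← map_pow, hs, AlgEquiv.commutes]
    exact sq_eq_sq_iff_eq_or_eq_neg.1 h1
  have hfix : ∀ σ : M' ≃ₐ[M] M', σ s = s → σ = 1 := by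
    intro σ h1
    ext x
    obtain ⟨a, b, hx⟩ := hgen x
    rw [hx, map_add, map_mul, AlgEquiv.commutes, AlgEquiv.commutes, h1]
    simp
  have hR : Rsc s (twM K A B (algebraMap M M' d)) (twM K A B (algebraMap M M' (d * m))) :=
    rsc_tw A B hs0 (by rw [map_mul, hs, mul_comm])
  have hσ : ∀ σ : M' ≃ₐ[M] M', σ = 1 ∨ σ s = -s := fun σ => (hsig σ).imp_left (hfix σ)
  have huniq : ∀ σ τ : M' ≃ₐ[M] M', σ s = -s → τ s = -s → σ = τ := by
    intro σ τ h1 h2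
    ext x
    obtain ⟨a, b, hx⟩ := hgen x
    rw [hx, map_add, map_mul, map_add, map_mul, AlgEquiv.commutes, AlgEquiv.commutes,
      AlgEquiv.commutes, AlgEquiv.commutes, h1, h2]
  have hell : (twM K A B (algebraMap M M' d)).IsElliptic := twM_ell hAB ((map_ne_zero _).2 hd)
  exact ⟨bdd_step (twM_map K (M := M) (M' := M') A B d) (twM_map K (M := M) (M' := M') A B (d * m))
      hR hσ huniq H1.1 H2.1,
    fin_step (twM_map K (M := M) (M' := M') A B d) (twM_map K (M := M) (M' := M') A B (d * m))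
      hR hσ huniq H1.2 H2.2⟩

theorem pg_triv {A B : K} (hAB : 4 * A ^ 3 + 27 * B ^ 2 ≠ 0)
    {M M' : Type} [Field M] [NumberField M] [Field M'] [NumberField M'] [Algebra K M] [Algebra K M']
    [Algebra M M'] [IsScalarTower K M M'] (hs : Function.Surjective (algebraMap M M')) {d : M}
    (hd : d ≠ 0) (H : PG K A B d) : PG K A B (algebraMap M M' d) := by
  refine pair_step hAB hd one_ne_zero (s := 1) (by simp) (fun x => ?_) H (by rw [mul_one]; exact H)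
  obtain ⟨a, ha⟩ := hs x
  exact ⟨a, 0, by simp [ha]⟩

/-- **Gt2.** -/
theorem pg_scale {A B : K} {M : Type} [Field M] [NumberField M] [Algebra K M] {c d d' : M}
    (hc : c ≠ 0) (h : d' = c ^ 2 * d) (H : PG K A B d) : PG K A B d' := by
  have hR : Rsc c (twM K A B d) (twM K A B d') := rsc_tw A B hc h
  obtain ⟨⟨N, hN⟩, hfin⟩ := H
  refine ⟨⟨N, fun x hx => ?_⟩, ?_⟩
  · obtain ⟨m, hm⟩ := hx
    have h1 : 2 ^ N • shaRsc hR.symm x = 0 := by
      refine hN _ ⟨m, ?_⟩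
      rw [← map_nsmul, hm, map_zero]
    have h2 := congrArg (shaRsc hR.symm.symm) h1
    rw [map_nsmul, map_zero, shaRsc_symm] at h2
    exact h2
  · refine Finite.of_injective (rsc hR.symm) ?_
    intro P Q hPQ
    have h2 := congrArg (rsc hR.symm.symm) hPQ
    rw [rsc_symm, rsc_symm] at h2
    exact h2

end Step

section Join

variable {G : Type*} [Group G]

/-- The subgroup generated by `U` and `z`, if `z ^ 2 ∈ U`. -/
def jn (U : Subgroup G) [hU : U.Normal] (z : G) (hz2 : z ^ 2 ∈ U) : Subgroup G where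
  carrier := {x | x ∈ U ∨ x * z⁻¹ ∈ U}
  mul_mem' := by
    rintro a b (ha | ha) (hb | hb)
    · exact Or.inl (U.mul_mem ha hb)
    · right
      rw [mul_assoc]
      exact U.mul_mem ha hb
    · right
      have e : a * b * z⁻¹ = (a * z⁻¹) * (z * b * z⁻¹) := by group
      rw [e]
      exact U.mul_mem ha (hU.conj_mem _ hb z)
    · left
      have e : a * b = (a * z⁻¹) * (z * (b * z⁻¹) * z⁻¹) * z ^ 2 := by group
      rw [e]
      exact U.mul_mem (U.mul_mem ha (hU.conj_mem _ hb z)) hz2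
  one_mem' := Or.inl U.one_mem
  inv_mem' := by
    rintro a (ha | ha)
    · exact Or.inl (U.inv_mem ha)
    · right
      have e : a⁻¹ * z⁻¹ = ((z * (a * z⁻¹) * z⁻¹) * z ^ 2)⁻¹ := by group
      rw [e]
      exact U.inv_mem (U.mul_mem (hU.conj_mem _ ha z) hz2)

theorem mem_jn {U : Subgroup G} [U.Normal] {z : G} {hz2 : z ^ 2 ∈ U} {x : G} :
    x ∈ jn U z hz2 ↔ x ∈ U ∨ x * z⁻¹ ∈ U := Iff.rfl

theorem jn_normal {U : Subgroup G} [hU : U.Normal] {z : G} (hz2 : z ^ 2 ∈ U)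
    (hzc : ∀ y, z * y * z⁻¹ * y⁻¹ ∈ U) : (jn U z hz2).Normal := by
  refine ⟨fun x hx y => ?_⟩
  rcases mem_jn.1 hx with h | h
  · exact mem_jn.2 (Or.inl (hU.conj_mem _ h y))
  · refine mem_jn.2 (Or.inr ?_)
    have e : y * x * y⁻¹ * z⁻¹ = (y * (x * z⁻¹) * y⁻¹) * (z * y * z⁻¹ * y⁻¹)⁻¹ := by group
    rw [e]
    exact U.mul_mem (hU.conj_mem _ h y) (U.inv_mem (hzc y))

theorem lt_jn {U : Subgroup G} [U.Normal] {z : G} (hz2 : z ^ 2 ∈ U) (hz : z ∉ U) :
    U < jn U z hz2 := by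
  refine SetLike.lt_iff_le_and_exists.2 ⟨fun x hx => mem_jn.2 (Or.inl hx), z, mem_jn.2 (Or.inr ?_), hz⟩
  rw [mul_inv_cancel]
  exact U.one_mem

end Join

section Gal

variable {K N : Type} [Field K] [NumberField K] [Field N] [NumberField N] [Algebra K N]
  [IsGalois K N]

open IntermediateField

/-- An element on which `z` acts by `-1`. -/
theorem ex_anti [FiniteDimensional K N] (H : Subgroup (N ≃ₐ[K] N)) {z : N ≃ₐ[K] N} (hz : z ∉ H)
    (hz2 : z ^ 2 ∈ H) (hn : ∀ h ∈ H, z⁻¹ * h * z ∈ H) :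
    ∃ t : N, t ≠ 0 ∧ (∀ h ∈ H, h t = t) ∧ z t = -t := by
  have h1 : z ∉ (fixedField H).fixingSubgroup := by
    rw [fixingSubgroup_fixedField]
    exact hz
  rw [IntermediateField.mem_fixingSubgroup_iff] at h1
  push Not at h1
  obtain ⟨x, hx, hzx⟩ := h1
  have hx' : ∀ h ∈ H, h x = x := (mem_fixedField_iff H x).1 hx
  have hzz : z (z x) = x := by
    have h2 := hx' _ hz2
    rwa [pow_two] at h2
  refine ⟨x - z x, fun h0 => hzx (sub_eq_zero.1 h0).symm, fun h hh => ?_, ?_⟩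
  · have h3 := hx' _ (hn h hh)
    have h4 : h (z x) = z x := by
      have h5 : h (z x) = z ((z⁻¹ * h * z) x) := by
        have h6 : h * z = z * (z⁻¹ * h * z) := by group
        exact congrArg (fun g : N ≃ₐ[K] N => g x) h6
      rw [h5, h3]
    rw [map_sub, hx' h hh, h4]
  · rw [map_sub, hzz]
    ring

/-- The quadratic step in terms of subfields. -/
theorem step_aux {A B : K} (hAB : 4 * A ^ 3 + 27 * B ^ 2 ≠ 0) {M₀ M : IntermediateField K N}
    [NumberField M₀] [NumberField M] {z : N ≃ₐ[K] N} (hz : ∀ x ∈ M, z x ∈ M)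
    (hz2 : ∀ x ∈ M, z (z x) = x) (hM₀ : ∀ x, x ∈ M₀ ↔ x ∈ M ∧ z x = x) {s : N} (hs : s ∈ M)
    (hs0 : s ≠ 0) (hzs : z s = -s) {d m : M₀} (hd : d ≠ 0) (hm : (m : N) = s ^ 2)
    (H1 : PG K A B d) (H2 : PG K A B (d * m)) {d' : M} (hd' : (d' : N) = d) : PG K A B d' := by
  have hle : M₀ ≤ M := fun x hx => ((hM₀ x).1 hx).1
  letI : Algebra M₀ M := (IntermediateField.inclusion hle).toRingHom.toAlgebra
  have hsc : IsScalarTower K M₀ M := IsScalarTower.of_algebraMap_eq fun x => rfl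
  have hco : ∀ x : M₀, ((algebraMap M₀ M x : M) : N) = x := fun _ => rfl
  have hm0 : m ≠ 0 := by
    rintro rfl
    exact hs0 (pow_eq_zero_iff two_ne_zero |>.1 hm.symm)
  have e : d' = algebraMap M₀ M d := Subtype.ext (by rw [hd', hco])
  rw [e]
  refine pair_step hAB hd hm0 (s := ⟨s, hs⟩) (Subtype.ext (by rw [hco, hm]; rfl)) ?_ H1 H2
  rintro ⟨x, hx⟩
  have h2 : (2 : N) ≠ 0 := two_ne_zero
  have ha : (x + z x) / 2 ∈ M₀ := by
    rw [hM₀]
    refine ⟨div_mem (add_mem hx (hz x hx)) (ofNat_mem M 2), ?_⟩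
    rw [map_div₀, map_add, hz2 x hx, map_ofNat, add_comm]
  have hb : (x - z x) / (2 * s) ∈ M₀ := by
    rw [hM₀]
    refine ⟨div_mem (sub_mem hx (hz x hx)) (mul_mem (ofNat_mem M 2) hs), ?_⟩
    rw [map_div₀, map_sub, map_mul, hz2 x hx, map_ofNat, hzs]
    field_simp
    ring
  refine ⟨⟨_, ha⟩, ⟨_, hb⟩, Subtype.ext ?_⟩
  show x = (x + z x) / 2 + (x - z x) / (2 * s) * s
  field_simp
  ring

/-- **Gt3.** -/
theorem gt_all {r : ℕ} (hr : Module.finrank K N = 2 ^ r) {A B : K}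
    (hAB : 4 * A ^ 3 + 27 * B ^ 2 ≠ 0) (h1 : PG K A B (1 : K))
    (H : ∀ (U : Subgroup (N ≃ₐ[K] N)) [U.Normal] (z : N ≃ₐ[K] N), z ∉ U → z ^ 2 ∈ U →
      (∀ y, z * y * z⁻¹ * y⁻¹ ∈ U) →
      (∀ x, x ∉ U → (∀ y, x * y * x⁻¹ * y⁻¹ ∈ U) → x ^ 2 ∈ U → x * z⁻¹ ∈ U) →
      ∀ (M : IntermediateField K N) [NumberField M],
        (∀ x, x ∈ M ↔ (∀ u ∈ U, u x = x) ∧ z x = x) → ∀ ρ : N, ρ ≠ 0 → (∀ u ∈ U, u ρ = ρ) →
        z ρ = -ρ → ∀ μ : M, (μ : N) = ρ ^ 2 → PG K A B μ) : PG K A B (1 : N) := by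
  have hfd : FiniteDimensional K N := Module.Finite.of_restrictScalars_finite ℚ K N
  have hnf : ∀ M : IntermediateField K N, NumberField M := fun M =>
    NumberField.of_module_finite K M
  have hp : IsPGroup 2 (N ≃ₐ[K] N) := IsPGroup.of_card (n := r) (by
    rw [IsGalois.card_aut_eq_finrank, hr])
  -- both statements by induction
  have key : ∀ U : Subgroup (N ≃ₐ[K] N), U.Normal →
      (∀ z : N ≃ₐ[K] N, z ∉ U → z ^ 2 ∈ U → (∀ y, z * y * z⁻¹ * y⁻¹ ∈ U) →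
        ∀ (M : IntermediateField K N) [NumberField M],
        (∀ x, x ∈ M ↔ (∀ u ∈ U, u x = x) ∧ z x = x) → ∀ ρ : N, ρ ≠ 0 → (∀ u ∈ U, u ρ = ρ) →
        z ρ = -ρ → ∀ μ : M, (μ : N) = ρ ^ 2 → PG K A B μ) ∧
      ∀ (M : IntermediateField K N) [NumberField M], (∀ x, x ∈ M ↔ ∀ u ∈ U, u x = x) →
        PG K A B (1 : M) := by
    intro U
    induction U using WellFoundedGT.induction with
    | ind U ih =>
      intro hU
      have hQ : ∀ z : N ≃ₐ[K] N, z ∉ U → z ^ 2 ∈ U → (∀ y, z * y * z⁻¹ * y⁻¹ ∈ U) →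
          ∀ (M : IntermediateField K N) [NumberField M],
          (∀ x, x ∈ M ↔ (∀ u ∈ U, u x = x) ∧ z x = x) → ∀ ρ : N, ρ ≠ 0 → (∀ u ∈ U, u ρ = ρ) →
          z ρ = -ρ → ∀ μ : M, (μ : N) = ρ ^ 2 → PG K A B μ := by
        intro z hzU hz2 hzc M _ hM ρ hρ0 hρU hρz μ hμ
        by_cases hmono : ∀ x, x ∉ U → (∀ y, x * y * x⁻¹ * y⁻¹ ∈ U) → x ^ 2 ∈ U → x * z⁻¹ ∈ U
        · exact H U z hzU hz2 hzc hmono M hM ρ hρ0 hρU hρz μ hμ
        · push Not at hmono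
          obtain ⟨z', hz'U, hz'c, hz'2, hzz'⟩ := hmono
          -- the two larger subgroups
          have hn1 := jn_normal hz'2 hz'c
          have hnz := jn_normal hz2 hzc
          have hzz2 : (z * z') ^ 2 ∈ U := by
            have e : (z * z') ^ 2 = (z * z' * z⁻¹ * z'⁻¹) * (z' * z ^ 2 * z'⁻¹) * z' ^ 2 := by
              rw [pow_two (z * z')]
              group
            rw [e]
            exact U.mul_mem (U.mul_mem (hzc z') (hU.conj_mem _ hz2 z')) hz'2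
          have hzzc : ∀ y, (z * z') * y * (z * z')⁻¹ * y⁻¹ ∈ U := by
            intro y
            have e : (z * z') * y * (z * z')⁻¹ * y⁻¹ =
                (z * (z' * y * z'⁻¹ * y⁻¹) * z⁻¹) * (z * y * z⁻¹ * y⁻¹) := by group
            rw [e]
            exact U.mul_mem (hU.conj_mem _ (hz'c y) z) (hzc y)
          have hn2 := jn_normal hzz2 hzzc
          have hzzU : z * z' ∉ U := by
            intro h
            apply hzz'
            have e : z' * z⁻¹ = z⁻¹ * ((z * z') * (z ^ 2)⁻¹) * z := by group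
            rw [e]
            have h2 := hU.conj_mem _ (U.mul_mem h (U.inv_mem hz2)) z⁻¹
            rwa [inv_inv] at h2
          have hz1 : z ∉ jn U z' hz'2 := by
            rw [mem_jn]
            rintro (h | h)
            · exact hzU h
            · apply hzz'
              have h2 := U.inv_mem h
              rwa [mul_inv_rev, inv_inv] at h2
          have hz'z : z' ∉ jn U z hz2 := by
            rw [mem_jn]
            rintro (h | h)
            · exact hz'U h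
            · exact hzz' h
          have hzz3 : z ∉ jn U (z * z') hzz2 := by
            rw [mem_jn]
            rintro (h | h)
            · exact hzU h
            · apply hz'U
              have e : z * (z * z')⁻¹ = z * z'⁻¹ * z⁻¹ := by group
              rw [e] at h
              have h2 := hU.conj_mem _ h z⁻¹
              have e2 : z⁻¹ * (z * z'⁻¹ * z⁻¹) * z⁻¹⁻¹ = z'⁻¹ := by group
              rw [e2] at h2
              exact (U.inv_mem_iff).1 h2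
          have hcj : ∀ (V : Subgroup (N ≃ₐ[K] N)), V.Normal → ∀ (g : N ≃ₐ[K] N), ∀ h ∈ V,
              g⁻¹ * h * g ∈ V := by
            intro V hV g h hh
            have h2 := hV.conj_mem _ hh g⁻¹
            rwa [inv_inv] at h2
          obtain ⟨t, ht0, htf, htz⟩ := ex_anti (jn U z hz2) hz'z (mem_jn.2 (Or.inl hz'2))
            (hcj _ hnz z')
          obtain ⟨ρ', hρ'0, hρ'f, hρ'z⟩ := ex_anti (jn U z' hz'2) hz1 (mem_jn.2 (Or.inl hz2))
            (hcj _ hn1 z)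
          have hself : ∀ g : N ≃ₐ[K] N, g * g⁻¹ ∈ U := fun g => by
            rw [mul_inv_cancel]
            exact U.one_mem
          have htU : ∀ u ∈ U, u t = t := fun u hu => htf u (mem_jn.2 (Or.inl hu))
          have htz' : z t = t := htf z (mem_jn.2 (Or.inr (hself z)))
          have hρ'U : ∀ u ∈ U, u ρ' = ρ' := fun u hu => hρ'f u (mem_jn.2 (Or.inl hu))
          have hρ'z' : z' ρ' = ρ' := hρ'f z' (mem_jn.2 (Or.inr (hself z')))
          -- the field `M₁`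
          have hnf1 := hnf (fixedField (jn (jn U z' hz'2) z (mem_jn.2 (Or.inl hz2))))
          obtain ⟨M₁, hM₁, _⟩ : ∃ (M₁ : IntermediateField K N), (∀ x, x ∈ M₁ ↔
              ((∀ u ∈ U, u x = x) ∧ z x = x) ∧ z' x = x) ∧ NumberField M₁ := by
            refine ⟨fixedField (jn (jn U z' hz'2) z (mem_jn.2 (Or.inl hz2))), fun x => ?_, hnf1⟩
            rw [mem_fixedField_iff]
            constructor
            · intro h
              refine ⟨⟨fun u hu => h u (mem_jn.2 (Or.inl (mem_jn.2 (Or.inl hu)))),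
                h z (mem_jn.2 (Or.inr (mem_jn.2 (Or.inl (hself z)))))⟩,
                h z' (mem_jn.2 (Or.inl (mem_jn.2 (Or.inr (hself z')))))⟩
            · rintro ⟨⟨h1, h2⟩, h3⟩ g hg
              have h4 : ∀ g ∈ jn U z' hz'2, g x = x := by
                intro g hg
                rcases mem_jn.1 hg with h | h
                · exact h1 g h
                · have e : g = (g * z'⁻¹) * z' := by group
                  rw [e, AlgEquiv.mul_apply, h3]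
                  exact h1 _ h
              rcases mem_jn.1 hg with h | h
              · exact h4 g h
              · have e : g = (g * z⁻¹) * z := by group
                rw [e, AlgEquiv.mul_apply, h2]
                exact h4 _ h
          have hcomm : ∀ x ∈ M, ∀ u ∈ U, u (z' x) = z' x := by
            intro x hx u hu
            have h5 := ((hM x).1 hx).1 _ (hcj U hU z' u hu)
            have h6 : u * z' = z' * (z'⁻¹ * u * z') := by group
            have h7 : u (z' x) = z' ((z'⁻¹ * u * z') x) :=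
              congrArg (fun g : N ≃ₐ[K] N => g x) h6
            rw [h7, h5]
          have hstab : ∀ x ∈ M, z' x ∈ M := by
            intro x hx
            rw [hM]
            refine ⟨hcomm x hx, ?_⟩
            have h6 : z * z' = z' * (z'⁻¹ * (z * z' * z⁻¹ * z'⁻¹) * z') * z := by group
            have h7 : z (z' x) = z' ((z'⁻¹ * (z * z' * z⁻¹ * z'⁻¹) * z') (z x)) :=
              congrArg (fun g : N ≃ₐ[K] N => g x) h6
            rw [h7, ((hM x).1 hx).2, ((hM x).1 hx).1 _ (hcj U hU z' _ (hzc z'))]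
          have hinv : ∀ x ∈ M, z' (z' x) = x := by
            intro x hx
            have h5 := ((hM x).1 hx).1 _ hz'2
            rwa [pow_two] at h5
          have hM₁' : ∀ x, x ∈ M₁ ↔ x ∈ M ∧ z' x = x := fun x => by rw [hM₁, hM]
          have htM : t ∈ M := (hM t).2 ⟨htU, htz'⟩
          have hd1 : ρ' ^ 2 ∈ M₁ := by
            rw [hM₁]
            refine ⟨⟨fun u hu => by rw [map_pow, hρ'U u hu], ?_⟩, ?_⟩
            · rw [map_pow, hρ'z, neg_sq]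
            · rw [map_pow, hρ'z']
          have hm1 : t ^ 2 ∈ M₁ := by
            rw [hM₁]
            refine ⟨⟨fun u hu => by rw [map_pow, htU u hu], ?_⟩, ?_⟩
            · rw [map_pow, htz']
            · rw [map_pow, htz, neg_sq]
          obtain ⟨ihQ1, -⟩ := ih (jn U z' hz'2) (lt_jn hz'2 hz'U) hn1
          obtain ⟨ihQ2, -⟩ := ih (jn U (z * z') hzz2) (lt_jn hzz2 hzzU) hn2
          have H1 : PG K A B (⟨ρ' ^ 2, hd1⟩ : M₁) := by
            refine ihQ1 z hz1 (mem_jn.2 (Or.inl hz2)) (fun y => mem_jn.2 (Or.inl (hzc y))) M₁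
              (fun x => ?_) ρ' hρ'0 hρ'f hρ'z _ rfl
            rw [hM₁]
            constructor
            · rintro ⟨⟨h1, h2⟩, h3⟩
              refine ⟨fun g hg => ?_, h2⟩
              rcases mem_jn.1 hg with h | h
              · exact h1 g h
              · have e : g = (g * z'⁻¹) * z' := by group
                rw [e, AlgEquiv.mul_apply, h3]
                exact h1 _ h
            · rintro ⟨h1, h2⟩
              exact ⟨⟨fun u hu => h1 u (mem_jn.2 (Or.inl hu)), h2⟩,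
                h1 z' (mem_jn.2 (Or.inr (hself z')))⟩
          have H2 : PG K A B ((⟨ρ' ^ 2, hd1⟩ : M₁) * ⟨t ^ 2, hm1⟩) := by
            refine ihQ2 z hzz3 (mem_jn.2 (Or.inl hz2)) (fun y => mem_jn.2 (Or.inl (hzc y))) M₁
              (fun x => ?_) (ρ' * t) (mul_ne_zero hρ'0 ht0) ?_ ?_ _ ?_
            · rw [hM₁]
              constructor
              · rintro ⟨⟨h1, h2⟩, h3⟩
                refine ⟨fun g hg => ?_, h2⟩
                rcases mem_jn.1 hg with h | h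
                · exact h1 g h
                · have e : g = (g * (z * z')⁻¹) * (z * z') := by group
                  have e' : g x = (g * (z * z')⁻¹) (z (z' x)) :=
                    congrArg (fun g : N ≃ₐ[K] N => g x) e
                  rw [e', h3, h2]
                  exact h1 _ h
              · rintro ⟨h1, h2⟩
                refine ⟨⟨fun u hu => h1 u (mem_jn.2 (Or.inl hu)), h2⟩, ?_⟩
                have h3 := h1 (z * z') (mem_jn.2 (Or.inr (hself (z * z'))))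
                rw [AlgEquiv.mul_apply] at h3
                exact z.injective (by rw [h3, h2])
            · intro g hg
              rcases mem_jn.1 hg with h | h
              · rw [map_mul, hρ'U g h, htU g h]
              · have e : g = (g * (z * z')⁻¹) * (z * z') := by group
                have e' : g (ρ' * t) = (g * (z * z')⁻¹) (z (z' (ρ' * t))) :=
                  congrArg (fun g : N ≃ₐ[K] N => g (ρ' * t)) e
                rw [e']
                have e1 : z (z' (ρ' * t)) = ρ' * t := by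
                  rw [map_mul, hρ'z', htz, map_mul, hρ'z, map_neg, htz']
                  ring
                rw [e1, map_mul, hρ'U _ h, htU _ h]
            · rw [map_mul, hρ'z, htz']
              ring
            · show ρ' ^ 2 * t ^ 2 = (ρ' * t) ^ 2
              ring
          have hdM : ρ' ^ 2 ∈ M := ((hM₁' _).1 hd1).1
          have H3 : PG K A B (⟨ρ' ^ 2, hdM⟩ : M) :=
            step_aux hAB hstab hinv hM₁' htM ht0 htz (d := ⟨ρ' ^ 2, hd1⟩) (m := ⟨t ^ 2, hm1⟩)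
              (fun h0 => pow_ne_zero 2 hρ'0 (congrArg Subtype.val h0)) rfl H1 H2 rfl
          have hcM : ρ / ρ' ∈ M := by
            rw [hM]
            refine ⟨fun u hu => by rw [map_div₀, hρU u hu, hρ'U u hu], ?_⟩
            rw [map_div₀, hρz, hρ'z, neg_div_neg_eq]
          refine pg_scale (c := ⟨ρ / ρ', hcM⟩) (fun h0 => div_ne_zero hρ0 hρ'0
            (congrArg Subtype.val h0)) (Subtype.ext ?_) H3
          rw [hμ]
          show ρ ^ 2 = (ρ / ρ') ^ 2 * ρ' ^ 2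
          field_simp
      refine ⟨hQ, ?_⟩
      intro M _ hM
      by_cases htop : U = ⊤
      · -- `M = K`
        have hsurj : Function.Surjective (algebraMap K M) := by
          rintro ⟨x, hx⟩
          have h2 : x ∈ (⊥ : IntermediateField K N) := by
            rw [IsGalois.mem_bot_iff_fixed]
            intro g
            exact (hM x).1 hx g (by rw [htop]; exact Subgroup.mem_top g)
          obtain ⟨y, hy⟩ := IntermediateField.mem_bot.1 h2
          exact ⟨y, Subtype.ext hy⟩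
        have h3 := pg_triv hAB (M := K) (M' := M) hsurj one_ne_zero h1
        rwa [map_one] at h3
      · -- a central element of order two
        have hnt : Nontrivial ((N ≃ₐ[K] N) ⧸ U) := by
          rw [QuotientGroup.nontrivial_iff]
          exact htop
        have hpQ : IsPGroup 2 ((N ≃ₐ[K] N) ⧸ U) := hp.to_quotient U
        have hcn := hpQ.center_nontrivial
        obtain ⟨⟨c, hc⟩, hc1⟩ := exists_ne (1 : Subgroup.center ((N ≃ₐ[K] N) ⧸ U))
        obtain ⟨z₀, rfl⟩ := QuotientGroup.mk'_surjective U c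
        have hmk : ∀ x : N ≃ₐ[K] N, QuotientGroup.mk' U x = 1 ↔ x ∈ U := fun x => by
          rw [← MonoidHom.mem_ker, QuotientGroup.ker_mk']
        have hz₀ : z₀ ∉ U := fun h => hc1 (Subtype.ext ((hmk z₀).2 h))
        obtain ⟨k, hz1, hz2⟩ := exists_pow_two hp U hz₀
        obtain ⟨z, hz⟩ : ∃ z, z = z₀ ^ 2 ^ k := ⟨_, rfl⟩
        rw [← hz] at hz1 hz2
        have hzc : ∀ y, z * y * z⁻¹ * y⁻¹ ∈ U := by
          intro y
          have h5 : QuotientGroup.mk' U z ∈ Subgroup.center ((N ≃ₐ[K] N) ⧸ U) := by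
            rw [hz, map_pow]
            exact Subgroup.pow_mem _ hc _
          have h6 := Subgroup.mem_center_iff.1 h5 (QuotientGroup.mk' U y)
          rw [← hmk, map_mul, map_mul, map_mul, map_inv, map_inv, ← h6]
          group
        have hn1 := jn_normal hz2 hzc
        have hcj : ∀ h ∈ U, z⁻¹ * h * z ∈ U := by
          intro h hh
          have h2 := hU.conj_mem _ hh z⁻¹
          rwa [inv_inv] at h2
        obtain ⟨ρ, hρ0, hρU, hρz⟩ := ex_anti U hz1 hz2 hcj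
        have hnf0 := hnf (fixedField (jn U z hz2))
        obtain ⟨M₀, hM₀, _⟩ : ∃ (M₀ : IntermediateField K N), (∀ x, x ∈ M₀ ↔
            (∀ u ∈ U, u x = x) ∧ z x = x) ∧ NumberField M₀ := by
          refine ⟨fixedField (jn U z hz2), fun x => ?_, hnf0⟩
          rw [mem_fixedField_iff]
          constructor
          · intro h
            exact ⟨fun u hu => h u (mem_jn.2 (Or.inl hu)), h z (mem_jn.2 (Or.inr (by
              rw [mul_inv_cancel]
              exact U.one_mem)))⟩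
          · rintro ⟨h1, h2⟩ g hg
            rcases mem_jn.1 hg with h | h
            · exact h1 g h
            · have e : g = (g * z⁻¹) * z := by group
              rw [e, AlgEquiv.mul_apply, h2]
              exact h1 _ h
        have hm1 : ρ ^ 2 ∈ M₀ := by
          rw [hM₀]
          exact ⟨fun u hu => by rw [map_pow, hρU u hu], by rw [map_pow, hρz, neg_sq]⟩
        obtain ⟨-, ihR⟩ := ih (jn U z hz2) (lt_jn hz2 hz1) hn1
        have H1 : PG K A B (1 : M₀) := by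
          refine ihR M₀ fun x => ?_
          rw [hM₀]
          constructor
          · rintro ⟨h1, h2⟩ g hg
            rcases mem_jn.1 hg with h | h
            · exact h1 g h
            · have e : g = (g * z⁻¹) * z := by group
              rw [e, AlgEquiv.mul_apply, h2]
              exact h1 _ h
          · intro h
            exact ⟨fun u hu => h u (mem_jn.2 (Or.inl hu)), h z (mem_jn.2 (Or.inr (by
              rw [mul_inv_cancel]
              exact U.one_mem)))⟩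
        have H2 : PG K A B ((1 : M₀) * ⟨ρ ^ 2, hm1⟩) := by
          rw [one_mul]
          exact hQ z hz1 hz2 hzc M₀ hM₀ ρ hρ0 hρU hρz _ rfl
        refine step_aux hAB (M₀ := M₀) (M := M) (z := z) (fun x hx => ?_) (fun x hx => ?_)
          (fun x => by rw [hM₀, hM]) ((hM ρ).2 hρU) hρ0 hρz (d := 1) (m := ⟨ρ ^ 2, hm1⟩)
          one_ne_zero rfl H1 H2 rfl
        · rw [hM]
          intro u hu
          have h5 := (hM x).1 hx _ (hcj u hu)
          have h6 : u * z = z * (z⁻¹ * u * z) := by group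
          have h7 : u (z x) = z ((z⁻¹ * u * z) x) := congrArg (fun g : N ≃ₐ[K] N => g x) h6
          rw [h7, h5]
        · have h5 := (hM x).1 hx _ hz2
          rwa [pow_two] at h5
  have hnt := hnf (⊤ : IntermediateField K N)
  have h5 : PG K A B (1 : (⊤ : IntermediateField K N)) := (key ⊥ inferInstance).2 ⊤ fun x => by
    refine ⟨fun _ u hu => ?_, fun _ => IntermediateField.mem_top⟩
    rw [Subgroup.mem_bot.1 hu]
    rfl
  have h6 := pg_triv hAB (M := (⊤ : IntermediateField K N)) (M' := N)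
    (fun x => ⟨⟨x, IntermediateField.mem_top⟩, rfl⟩) one_ne_zero h5
  rwa [map_one] at h6

/-- **Gt4.** -/
theorem pg_down {A B : K} (hAB : 4 * A ^ 3 + 27 * B ^ 2 ≠ 0) (H : PG K A B (1 : N))
    (M : Type) [Field M] [NumberField M] [Algebra K M] [Algebra M N] [IsScalarTower K M N] {d : M}
    (hd : d ≠ 0) (hsq : IsSquare (algebraMap M N d)) :
    Finite (twM K A B d).toAffine.Point ∧ H14T1.TwoPartFinite M (twM K A B d) := by
  obtain ⟨s, hs⟩ := hsq
  have hs0 : s ≠ 0 := by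
    rintro rfl
    rw [mul_zero] at hs
    exact hd ((map_eq_zero _).1 hs)
  have hN : PG K A B (algebraMap M N d) := pg_scale hs0 (by rw [hs]; ring) H
  have _ : FiniteDimensional M N := Module.Finite.of_restrictScalars_finite ℚ M N
  obtain ⟨⟨n, hNb⟩, hfinF⟩ := hN
  have hV : (twM K A B d).map (algebraMap M N) = twM K A B (algebraMap M N d) := twM_map K A B d
  have hfr : Module.finrank M N ≠ 0 := Module.finrank_pos.ne'
  haveI : (twM K A B d).IsElliptic := twM_ell hAB hd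
  constructor
  · exact Finite.of_injective (pm (algebraMap M N) hV) (pm_injective _ hV)
  · refine H14T1.twoPartFinite_of ((sha_finite_torsion (twM K A B d)
      (2 ^ n * Module.finrank M N) (mul_ne_zero (by positivity) hfr)).subset ?_)
    rintro x ⟨m, hm⟩
    have h1 : 2 ^ n • Sha.res hV x = 0 := by
      refine hNb _ ⟨m, ?_⟩
      rw [← map_nsmul, hm, map_zero]
    have h2 := congrArg (Sha.cor hV) h1
    rw [map_nsmul, map_zero, Sha.cor_res, ← mul_nsmul'] at h2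
    exact h2

end Gal

end H36MG

end S_H36_MG_Gt

section S_H36_IN_Hi

set_option autoImplicit false
set_option linter.unusedSectionVars false

namespace H36IN

open H36MG

variable {G : Type*} [Group G]

/-- The high type: elements whose `2 ^ k`-th power is not a square of a `2 ^ k`-th power. -/
def hiS (D : Subgroup G) (k : ℕ) : Set G := {h | h ∈ D ∧ ∀ x ∈ D, h ^ 2 ^ k ≠ (x ^ 2 ^ k) ^ 2}

/-- Proper subgroups of the cyclic group of the `2 ^ k`-th powers consist of squares. -/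
theorem pow_sq {D T : Subgroup G} (hp : IsPGroup 2 G) {k : ℕ}
    (hC : ∃ c ∈ D, ∀ y ∈ D, ∃ i : ℕ, y ^ 2 ^ k = (c ^ 2 ^ k) ^ i)
    (hT : ∃ y ∈ D, y ^ 2 ^ k ∉ T) {y : G} (hy : y ∈ D) (hyT : y ^ 2 ^ k ∈ T) :
    ∃ x ∈ D, y ^ 2 ^ k = (x ^ 2 ^ k) ^ 2 := by
  obtain ⟨c, hc, hgen⟩ := hC
  obtain ⟨i, hi⟩ := hgen y hy
  rcases Nat.even_or_odd' i with ⟨j, hj | hj⟩
  · refine ⟨c ^ j, D.pow_mem hc j, ?_⟩
    rw [hi, hj, ← pow_mul, ← pow_mul, ← pow_mul]
    congr 1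
    ring
  · exfalso
    obtain ⟨y₀, hy₀, hy₀T⟩ := hT
    obtain ⟨i₀, hi₀⟩ := hgen y₀ hy₀
    apply hy₀T
    rw [hi₀]
    apply T.pow_mem
    refine mem_of_odd_pow hp T (n := (i : ℤ)) ?_ ?_
    · rw [Int.not_even_iff_odd]
      exact ⟨j, by rw [hj]; push_cast; ring⟩
    · rw [zpow_natCast, ← hi]
      exact hyT

/-- Multiplication by an element of `T` or by a square does not change the type. -/
theorem cl_mul {D T : Subgroup G} (hp : IsPGroup 2 G) (hD : ∀ x ∈ D, ∀ y ∈ D, x * y = y * x)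
    (hcyc : ∃ g ∈ D, ∀ h ∈ D, ∃ i : ℕ, ∃ c ∈ T, h = g ^ i * c) {h y : G} (hh : h ∈ clS D T)
    (hy : y ∈ D) : h * y ^ 2 ∈ clS D T := by
  rw [mem_cl hp hD hcyc] at hh ⊢
  refine ⟨D.mul_mem hh.1 (D.pow_mem hy 2), fun x hx => ?_⟩
  have h1 := hh.2 (y⁻¹ * x) (D.mul_mem (D.inv_mem hy) hx)
  have h2 : h * y ^ 2 * (x ^ 2)⁻¹ = h * ((y⁻¹ * x) ^ 2)⁻¹ := by
    have c1 : Commute y⁻¹ x := hD _ (D.inv_mem hy) _ hx
    rw [c1.mul_pow, inv_pow, mul_inv_rev, inv_inv, mul_assoc,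
      (show Commute (y ^ 2) (x ^ 2)⁻¹ from hD _ (D.pow_mem hy 2) _ (D.inv_mem (D.pow_mem hx 2))).eq]
  rw [h2]
  exact h1

theorem cl_mulT {D T : Subgroup G} (hp : IsPGroup 2 G) (hD : ∀ x ∈ D, ∀ y ∈ D, x * y = y * x)
    (hcyc : ∃ g ∈ D, ∀ h ∈ D, ∃ i : ℕ, ∃ c ∈ T, h = g ^ i * c) {h t : G} (hh : h ∈ clS D T)
    (ht : t ∈ D) (htT : t ∈ T) : h * t ∈ clS D T := by
  rw [mem_cl hp hD hcyc] at hh ⊢
  refine ⟨D.mul_mem hh.1 ht, fun x hx hcon => hh.2 x hx ?_⟩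
  have h2 : h * (x ^ 2)⁻¹ = h * t * (x ^ 2)⁻¹ * t⁻¹ := by
    rw [mul_assoc h t, (show Commute t (x ^ 2)⁻¹ from hD _ ht _ (D.inv_mem (D.pow_mem hx 2))).eq,
      mul_assoc, mul_assoc, mul_inv_cancel, mul_one]
  rw [h2]
  exact T.mul_mem hcon (T.inv_mem htT)

/-- **(a)** For a high index the type does not depend on `T`. -/
theorem cl_high {D T : Subgroup G} (hp : IsPGroup 2 G) (hD : ∀ x ∈ D, ∀ y ∈ D, x * y = y * x)
    {k : ℕ} (hC : ∃ c ∈ D, ∀ y ∈ D, ∃ i : ℕ, y ^ 2 ^ k = (c ^ 2 ^ k) ^ i)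
    (hcyc : ∃ g ∈ D, ∀ h ∈ D, ∃ i : ℕ, ∃ c ∈ T, h = g ^ i * c)
    (hT : ∃ y ∈ D, y ^ 2 ^ k ∉ T) {h : G} :
    h ∈ clS D T ↔ h ∈ D ∧ ∀ x ∈ D, h ^ 2 ^ k ≠ (x ^ 2 ^ k) ^ 2 := by
  have hcom : ∀ x ∈ D, ∀ y ∈ D, Commute x y := fun x hx y hy => hD x hx y hy
  constructor
  · intro hh
    refine ⟨hh.1, fun x hx hcon => ?_⟩
    have h1 : h * (x⁻¹) ^ 2 ∈ clS D T := cl_mul hp hD hcyc hh (D.inv_mem hx)
    obtain ⟨t, ht⟩ : ∃ t, t = h * (x⁻¹) ^ 2 := ⟨_, rfl⟩
    rw [← ht] at h1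
    have ht1 : t ^ 2 ^ k = 1 := by
      have c1 : Commute h ((x⁻¹) ^ 2) := hcom _ hh.1 _ (D.pow_mem (D.inv_mem hx) 2)
      rw [ht, c1.mul_pow, hcon, inv_pow, inv_pow, ← pow_mul, ← pow_mul, mul_comm (2 ^ k) 2,
        mul_inv_cancel]
    obtain ⟨y, hy, hyT⟩ := hT
    apply hyT
    obtain ⟨i, hi⟩ := h1.2.2 y hy
    have h2 : y ^ 2 ^ k = ((t ^ i * y⁻¹) ^ 2 ^ k)⁻¹ := by
      have c1 : Commute (t ^ i) y⁻¹ := hcom _ (D.pow_mem h1.1 i) _ (D.inv_mem hy)
      rw [c1.mul_pow, ← pow_mul, mul_comm i, pow_mul, ht1, one_pow, one_mul, inv_pow, inv_inv]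
    rw [h2]
    exact T.inv_mem (T.pow_mem hi _)
  · rintro ⟨hh, hn⟩
    rw [mem_cl hp hD hcyc]
    refine ⟨hh, fun x hx hxT => ?_⟩
    have h1 : h * (x ^ 2)⁻¹ ∈ D := D.mul_mem hh (D.inv_mem (D.pow_mem hx 2))
    obtain ⟨x', hx', h2⟩ := pow_sq hp hC hT h1 (T.pow_mem hxT _)
    apply hn (x' * x) (D.mul_mem hx' hx)
    have c1 : Commute h (x ^ 2)⁻¹ := hcom _ hh _ (D.inv_mem (D.pow_mem hx 2))
    have c2 : Commute x' x := hcom _ hx' _ hx
    have c3 : Commute (x' ^ 2 ^ k) (x ^ 2 ^ k) := hcom _ (D.pow_mem hx' _) _ (D.pow_mem hx _)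
    rw [c1.mul_pow] at h2
    rw [c2.mul_pow, c3.mul_pow, ← h2, inv_pow, ← pow_mul, ← pow_mul, mul_comm (2 ^ k) 2, mul_assoc,
      inv_mul_cancel, mul_one]

theorem cl_high' {D T : Subgroup G} (hp : IsPGroup 2 G) (hD : ∀ x ∈ D, ∀ y ∈ D, x * y = y * x)
    {k : ℕ} (hC : ∃ c ∈ D, ∀ y ∈ D, ∃ i : ℕ, y ^ 2 ^ k = (c ^ 2 ^ k) ^ i)
    (hcyc : ∃ g ∈ D, ∀ h ∈ D, ∃ i : ℕ, ∃ c ∈ T, h = g ^ i * c)
    (hT : ∃ y ∈ D, y ^ 2 ^ k ∉ T) : clS D T = hiS D k :=
  Set.ext fun _ => cl_high hp hD hC hcyc hT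

section Layer

variable {G₁ : Type*} [Group G₁] {r : G →* G₁}

/-- **(b1)** Types are unions of fibres. -/
theorem cl_fib {D T : Subgroup G} (hp : IsPGroup 2 G) (hD : ∀ x ∈ D, ∀ y ∈ D, x * y = y * x)
    {k : ℕ} (hk : 1 ≤ k) (hker : ∀ z, r z = 1 → ∃ y ∈ D, y ^ 2 ^ k = z)
    (hcyc : ∃ g ∈ D, ∀ h ∈ D, ∃ i : ℕ, ∃ c ∈ T, h = g ^ i * c) {h : G} :
    h ∈ clS D T ↔ r h ∈ r '' clS D T := by
  refine ⟨fun hh => ⟨h, hh, rfl⟩, ?_⟩
  rintro ⟨h', hh', he⟩
  obtain ⟨y, hy, hyz⟩ := hker (h'⁻¹ * h) (by rw [map_mul, map_inv, he, inv_mul_cancel])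
  have h1 : h = h' * (y ^ 2 ^ (k - 1)) ^ 2 := by
    have h2 : (y ^ 2 ^ (k - 1)) ^ 2 = y ^ 2 ^ k := by
      rw [← pow_mul, ← pow_succ]
      congr 2
      omega
    rw [h2, hyz, mul_inv_cancel_left]
  rw [h1]
  exact cl_mul hp hD hcyc hh' (D.pow_mem hy _)

/-- **(b2)** The high type in a layer. -/
theorem map_high {D T : Subgroup G} (hp : IsPGroup 2 G) (hD : ∀ x ∈ D, ∀ y ∈ D, x * y = y * x)
    {k : ℕ} (hC : ∃ c ∈ D, ∀ y ∈ D, ∃ i : ℕ, y ^ 2 ^ k = (c ^ 2 ^ k) ^ i)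
    (hker : ∀ z, r z = 1 → ∃ y ∈ D, y ^ 2 ^ k = z) (h1 : ∃ y ∈ D.map r, y ^ 2 ^ k ≠ 1)
    (hcyc : ∃ g ∈ D, ∀ h ∈ D, ∃ i : ℕ, ∃ c ∈ T, h = g ^ i * c)
    (hT : ∃ y ∈ D, y ^ 2 ^ k ∉ T) : r '' clS D T = hiS (D.map r) k := by
  have hcom : ∀ x ∈ D, ∀ y ∈ D, Commute x y := fun x hx y hy => hD x hx y hy
  have h2 : ∃ y ∈ D, y ^ 2 ^ k ∉ r.ker := by
    obtain ⟨_, ⟨y, hy, rfl⟩, h3⟩ := h1
    refine ⟨y, hy, fun h4 => h3 ?_⟩
    rw [← map_pow]
    exact h4
  ext g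
  constructor
  · rintro ⟨h, hh, rfl⟩
    obtain ⟨hhD, hn⟩ := (cl_high hp hD hC hcyc hT).1 hh
    refine ⟨⟨h, hhD, rfl⟩, ?_⟩
    rintro _ ⟨x, hx, rfl⟩ hcon
    obtain ⟨y, hy, hyz⟩ := hker (((x ^ 2 ^ k) ^ 2)⁻¹ * h ^ 2 ^ k) (by
      rw [map_mul, map_inv, map_pow, map_pow, map_pow, hcon, inv_mul_cancel])
    obtain ⟨x', hx', h4⟩ := pow_sq hp hC h2 hy (by
      rw [hyz, MonoidHom.mem_ker, map_mul, map_inv, map_pow, map_pow, map_pow, hcon,
        inv_mul_cancel])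
    apply hn (x * x') (D.mul_mem hx hx')
    have c2 : Commute x x' := hcom _ hx _ hx'
    have c3 : Commute (x ^ 2 ^ k) (x' ^ 2 ^ k) := hcom _ (D.pow_mem hx _) _ (D.pow_mem hx' _)
    rw [c2.mul_pow, c3.mul_pow, ← h4, hyz, mul_inv_cancel_left]
  · rintro ⟨⟨h, hh, rfl⟩, hn⟩
    refine ⟨h, (cl_high hp hD hC hcyc hT).2 ⟨hh, fun x hx hcon => ?_⟩, rfl⟩
    apply hn (r x) ⟨x, hx, rfl⟩
    have h3 := congrArg r hcon
    rw [map_pow, map_pow, map_pow] at h3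
    exact h3

/-- **(b3)** Low indices in a layer. -/
theorem low_mem {D T : Subgroup G} {k : ℕ} (hker : ∀ z, r z = 1 → ∃ y ∈ D, y ^ 2 ^ k = z)
    (hT : ∀ y ∈ D, y ^ 2 ^ k ∈ T) {h : G} (hh : h ∈ D) : h ∈ T ↔ r h ∈ (T ⊓ D).map r := by
  refine ⟨fun h1 => ⟨h, ⟨h1, hh⟩, rfl⟩, ?_⟩
  rintro ⟨h', ⟨h1, -⟩, he⟩
  obtain ⟨y, hy, hyz⟩ := hker (h'⁻¹ * h) (by rw [map_mul, map_inv, he, inv_mul_cancel])
  have h2 : h = h' * (h'⁻¹ * h) := (mul_inv_cancel_left _ _).symm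
  rw [h2, ← hyz]
  exact T.mul_mem h1 (hT y hy)

theorem low_cyc {D T : Subgroup G} (r : G →* G₁)
    (hcyc : ∃ g ∈ D, ∀ h ∈ D, ∃ i : ℕ, ∃ c ∈ T, h = g ^ i * c) :
    ∃ g ∈ D.map r, ∀ h ∈ D.map r, ∃ i : ℕ, ∃ c ∈ (T ⊓ D).map r, h = g ^ i * c := by
  obtain ⟨g, hg, hgen⟩ := hcyc
  refine ⟨r g, ⟨g, hg, rfl⟩, ?_⟩
  rintro _ ⟨h, hh, rfl⟩
  obtain ⟨i, c, hc, he⟩ := hgen h hh
  have hcD : c ∈ D := by
    have h3 := D.mul_mem (D.inv_mem (D.pow_mem hg i)) hh
    rwa [he, inv_mul_cancel_left] at h3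
  refine ⟨i, r c, ⟨c, ⟨hc, hcD⟩, rfl⟩, ?_⟩
  rw [he, map_mul, map_pow]

theorem map_low {D T : Subgroup G} {k : ℕ} (hker : ∀ z, r z = 1 → ∃ y ∈ D, y ^ 2 ^ k = z)
    (hT : ∀ y ∈ D, y ^ 2 ^ k ∈ T) : r '' clS D T = clS (D.map r) ((T ⊓ D).map r) := by
  ext g
  constructor
  · rintro ⟨h, ⟨h1, h2, h3⟩, rfl⟩
    refine ⟨⟨h, h1, rfl⟩, fun h4 => h2 ((low_mem hker hT h1).2 h4), ?_⟩
    rintro _ ⟨y, hy, rfl⟩
    obtain ⟨i, hi⟩ := h3 y hy
    refine ⟨i, h ^ i * y⁻¹, ⟨hi, D.mul_mem (D.pow_mem h1 i) (D.inv_mem hy)⟩, ?_⟩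
    rw [map_mul, map_pow, map_inv]
  · rintro ⟨⟨h, h1, rfl⟩, h2, h3⟩
    refine ⟨h, ⟨h1, fun h4 => h2 ((low_mem hker hT h1).1 h4), fun y hy => ?_⟩, rfl⟩
    obtain ⟨i, hi⟩ := h3 (r y) ⟨y, hy, rfl⟩
    refine ⟨i, (low_mem hker hT (D.mul_mem (D.pow_mem h1 i) (D.inv_mem hy))).2 ?_⟩
    rw [map_mul, map_pow, map_inv]
    exact hi

/-- **(c)** Preimages of the powers of `g₁`. -/
theorem mem_of_zp {D : Subgroup G} {k : ℕ} (hker : ∀ z, r z = 1 → ∃ y ∈ D, y ^ 2 ^ k = z)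
    {g₁ : G₁} (hg₁ : g₁ ∈ D.map r) {g : G} (hg : r g ∈ Subgroup.zpowers g₁) : g ∈ D := by
  obtain ⟨d, hd, rfl⟩ := hg₁
  obtain ⟨n, hn⟩ := Subgroup.mem_zpowers_iff.1 hg
  obtain ⟨y, hy, hyz⟩ := hker ((d ^ n)⁻¹ * g) (by
    rw [map_mul, map_inv, map_zpow, hn, inv_mul_cancel])
  have h2 : g = d ^ n * ((d ^ n)⁻¹ * g) := (mul_inv_cancel_left _ _).symm
  rw [h2, ← hyz]
  exact D.mul_mem (D.zpow_mem hd n) (D.pow_mem hy _)

theorem ker_zp {D : Subgroup G} (hp : IsPGroup 2 G) {k : ℕ}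
    (hC : ∃ c ∈ D, ∀ y ∈ D, ∃ i : ℕ, y ^ 2 ^ k = (c ^ 2 ^ k) ^ i)
    (hker : ∀ z, r z = 1 → ∃ y ∈ D, y ^ 2 ^ k = z) {g₁ : G₁} (hg₁ : g₁ ∈ D.map r)
    (hne : g₁ ^ 2 ^ (k + 1) ≠ 1) {h : G} (hh : r h = g₁) {z : G} (hz : r z = 1) :
    z ∈ Subgroup.zpowers (h ^ 2 ^ (k + 1)) := by
  have hhD : h ∈ D := mem_of_zp hker hg₁ (by rw [hh]; exact Subgroup.mem_zpowers _)
  obtain ⟨c, hc, hgen⟩ := hC
  obtain ⟨y, hy, hyz⟩ := hker z hz
  obtain ⟨a, ha⟩ := hgen y hy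
  obtain ⟨b, hb⟩ := hgen (h ^ 2) (D.pow_mem hhD 2)
  obtain ⟨γ, hγ⟩ : ∃ γ, γ = c ^ 2 ^ k := ⟨_, rfl⟩
  rw [← hγ] at ha hb
  have hb' : h ^ 2 ^ (k + 1) = γ ^ b := by
    rw [← hb, ← pow_mul, ← pow_succ']
  rw [hyz] at ha
  -- two elements of a cyclic two-group
  have key : z ∈ Subgroup.zpowers (γ ^ b) ∨ γ ^ b ∈ Subgroup.zpowers z := by
    obtain ⟨n, hn⟩ := hp γ
    -- compare the two-adic valuations
    by_cases ha0 : a = 0
    · left
      rw [ha, ha0, pow_zero]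
      exact Subgroup.one_mem _
    by_cases hb0 : b = 0
    · right
      rw [hb0, pow_zero]
      exact Subgroup.one_mem _
    obtain ⟨s, a', ha', rfl⟩ := Nat.exists_eq_two_pow_mul_odd ha0
    obtain ⟨t, b', hb'', rfl⟩ := Nat.exists_eq_two_pow_mul_odd hb0
    have hodd : ∀ (m u : ℕ), Odd u → γ ^ 2 ^ m ∈ Subgroup.zpowers (γ ^ (2 ^ m * u)) := by
      intro m u hu
      refine mem_of_odd_pow hp _ (n := (u : ℤ)) ?_ ?_
      · rw [Int.not_even_iff_odd]
        exact_mod_cast hu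
      · rw [zpow_natCast, ← pow_mul]
        exact Subgroup.mem_zpowers _
    rcases le_total s t with hst | hst
    · right
      rw [ha]
      obtain ⟨d, rfl⟩ := Nat.exists_eq_add_of_le hst
      have h3 : γ ^ (2 ^ (s + d) * b') = (γ ^ 2 ^ s) ^ (2 ^ d * b') := by
        rw [← pow_mul]
        congr 1
        rw [pow_add]
        ring
      rw [h3]
      exact Subgroup.pow_mem _ (hodd s a' ha') _
    · left
      rw [ha]
      obtain ⟨d, rfl⟩ := Nat.exists_eq_add_of_le hst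
      have h3 : γ ^ (2 ^ (t + d) * a') = (γ ^ 2 ^ t) ^ (2 ^ d * a') := by
        rw [← pow_mul]
        congr 1
        rw [pow_add]
        ring
      rw [h3]
      exact Subgroup.pow_mem _ (hodd t b' hb'') _
  rcases key with h1 | h1
  · rw [hb']
    exact h1
  · exfalso
    apply hne
    obtain ⟨n, hn⟩ := Subgroup.mem_zpowers_iff.1 h1
    rw [← hh, ← map_pow, hb', ← hn, map_zpow, hz, one_zpow]

theorem comap_zp {D : Subgroup G} (hp : IsPGroup 2 G) {k : ℕ}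
    (hC : ∃ c ∈ D, ∀ y ∈ D, ∃ i : ℕ, y ^ 2 ^ k = (c ^ 2 ^ k) ^ i)
    (hker : ∀ z, r z = 1 → ∃ y ∈ D, y ^ 2 ^ k = z) {g₁ : G₁} (hg₁ : g₁ ∈ D.map r)
    (hne : g₁ ^ 2 ^ (k + 1) ≠ 1) {h : G} (hh : r h = g₁) :
    (Subgroup.zpowers g₁).comap r = Subgroup.zpowers h := by
  apply le_antisymm
  · intro g hg
    obtain ⟨n, hn⟩ := Subgroup.mem_zpowers_iff.1 (Subgroup.mem_comap.1 hg)
    have h1 := ker_zp hp hC hker hg₁ hne hh (z := (h ^ n)⁻¹ * g) (by
      rw [map_mul, map_inv, map_zpow, hh, hn, inv_mul_cancel])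
    have h2 : g = h ^ n * ((h ^ n)⁻¹ * g) := (mul_inv_cancel_left _ _).symm
    rw [h2]
    exact Subgroup.mul_mem _ (Subgroup.zpow_mem_zpowers h n)
      ((Subgroup.zpowers_le.2 (Subgroup.npow_mem_zpowers h _)) h1)
  · rw [Subgroup.zpowers_le, Subgroup.mem_comap, hh]
    exact Subgroup.mem_zpowers _

theorem comap_zp2 {D : Subgroup G} (hp : IsPGroup 2 G) {k : ℕ}
    (hC : ∃ c ∈ D, ∀ y ∈ D, ∃ i : ℕ, y ^ 2 ^ k = (c ^ 2 ^ k) ^ i)
    (hker : ∀ z, r z = 1 → ∃ y ∈ D, y ^ 2 ^ k = z) {g₁ : G₁} (hg₁ : g₁ ∈ D.map r)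
    (hne : g₁ ^ 2 ^ (k + 1) ≠ 1) {h : G} (hh : r h = g₁) :
    (Subgroup.zpowers (g₁ ^ 2)).comap r = Subgroup.zpowers (h ^ 2) := by
  apply le_antisymm
  · intro g hg
    obtain ⟨n, hn⟩ := Subgroup.mem_zpowers_iff.1 (Subgroup.mem_comap.1 hg)
    have h1 := ker_zp hp hC hker hg₁ hne hh (z := ((h ^ 2) ^ n)⁻¹ * g) (by
      rw [map_mul, map_inv, map_zpow, map_pow, hh, hn, inv_mul_cancel])
    have h2 : g = (h ^ 2) ^ n * (((h ^ 2) ^ n)⁻¹ * g) := (mul_inv_cancel_left _ _).symm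
    rw [h2]
    refine Subgroup.mul_mem _ (Subgroup.zpow_mem_zpowers _ n)
      ((Subgroup.zpowers_le.2 ?_) h1)
    have h3 : h ^ 2 ^ (k + 1) = (h ^ 2) ^ 2 ^ k := by
      rw [← pow_mul, ← pow_succ']
    rw [h3]
    exact Subgroup.npow_mem_zpowers _ _
  · rw [Subgroup.zpowers_le, Subgroup.mem_comap, map_pow, hh]
    exact Subgroup.mem_zpowers _

end Layer



/-- Cosets of the `2 ^ k`-th powers contain elements of large order. -/
theorem exists_big {D : Subgroup G} (hD : ∀ x ∈ D, ∀ y ∈ D, x * y = y * x) {k : ℕ}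
    (hbig : ∃ c ∈ D, c ^ 2 ^ (2 * k + 1) ≠ 1) {g : G} (hg : g ∈ D) :
    ∃ y ∈ D, (g * y ^ 2 ^ k) ^ 2 ^ (k + 1) ≠ 1 := by
  obtain ⟨c, hc, hne⟩ := hbig
  by_cases h1 : g ^ 2 ^ (k + 1) = 1
  · refine ⟨c, hc, ?_⟩
    have c1 : Commute g (c ^ 2 ^ k) := hD _ hg _ (D.pow_mem hc _)
    rw [c1.mul_pow, h1, one_mul, ← pow_mul, ← pow_add]
    have h2 : k + (k + 1) = 2 * k + 1 := by ring
    rw [h2]
    exact hne
  · refine ⟨1, D.one_mem, ?_⟩
    rw [one_pow, mul_one]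
    exact h1

/-- **(d1)** -/
theorem low_sep1 {D T T' : Subgroup G} (hp : IsPGroup 2 G) (hD : ∀ x ∈ D, ∀ y ∈ D, x * y = y * x)
    {k : ℕ} (hbig : ∃ c ∈ D, c ^ 2 ^ (2 * k + 1) ≠ 1)
    (hcyc : ∃ g ∈ D, ∀ h ∈ D, ∃ i : ℕ, ∃ c ∈ T, h = g ^ i * c)
    (hcyc' : ∃ g ∈ D, ∀ h ∈ D, ∃ i : ℕ, ∃ c ∈ T', h = g ^ i * c)
    (hT : ∀ y ∈ D, y ^ 2 ^ k ∈ T) (hT' : ∀ y ∈ D, y ^ 2 ^ k ∈ T')
    (hne : (clS D T).Nonempty) (h : clS D T' ≠ clS D T) :
    ∃ g ∈ clS D T, g ∈ T' ∧ g ^ 2 ^ (k + 1) ≠ 1 := by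
  obtain ⟨g, hg, hgT⟩ := cl_sep1 hp hD hcyc hcyc' hne h
  obtain ⟨y, hy, hyn⟩ := exists_big hD hbig hg.1
  exact ⟨g * y ^ 2 ^ k, cl_mulT hp hD hcyc hg (D.pow_mem hy _) (hT y hy),
    T'.mul_mem hgT (hT' y hy), hyn⟩

/-- **(d2)** -/
theorem low_sep2 {D T T' : Subgroup G} (hp : IsPGroup 2 G) (hD : ∀ x ∈ D, ∀ y ∈ D, x * y = y * x)
    {k : ℕ} (hbig : ∃ c ∈ D, c ^ 2 ^ (2 * k + 1) ≠ 1) (hT' : ∀ y ∈ D, y ^ 2 ^ k ∈ T')
    (h0 : clS D T = ∅) (h : clS D T' ≠ clS D T) :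
    ∃ g ∈ D, g ∉ T' ∧ g ^ 2 ∈ T' ∧ g ^ 2 ^ (k + 1) ≠ 1 := by
  obtain ⟨g, hg, hgT, hg2⟩ := cl_sep2 hp h0 h
  obtain ⟨y, hy, hyn⟩ := exists_big hD hbig hg
  refine ⟨g * y ^ 2 ^ k, D.mul_mem hg (D.pow_mem hy _), fun h1 => hgT ?_, ?_, hyn⟩
  · have h2 := T'.mul_mem h1 (T'.inv_mem (hT' y hy))
    rwa [mul_inv_cancel_right] at h2
  · have c1 : Commute g (y ^ 2 ^ k) := hD _ hg _ (D.pow_mem hy _)
    rw [c1.mul_pow]
    exact T'.mul_mem hg2 (T'.pow_mem (hT' y hy) 2)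

/-- Elements of the high type have large order. -/
theorem hi_big {D : Subgroup G} {k : ℕ}
    (hC : ∃ c ∈ D, ∀ y ∈ D, ∃ i : ℕ, y ^ 2 ^ k = (c ^ 2 ^ k) ^ i) (hp : IsPGroup 2 G)
    (hbig : ∃ c ∈ D, c ^ 2 ^ (2 * k + 1) ≠ 1) {g : G} (hg : g ∈ hiS D k) :
    g ^ 2 ^ (k + 1) ≠ 1 := by
  obtain ⟨c, hc, hgen⟩ := hC
  obtain ⟨y, hy, hyn⟩ := hbig
  obtain ⟨i, hi⟩ := hgen g hg.1
  have hodd : Odd i := by
    rw [← Nat.not_even_iff_odd]
    rintro ⟨j, hj⟩
    apply hg.2 (c ^ j) (D.pow_mem hc j)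
    rw [hi, hj, ← pow_mul, ← pow_mul, ← pow_mul]
    congr 1
    ring
  intro h1
  -- the powers `γ ^ 2` are trivial
  have h2 : c ^ 2 ^ k * c ^ 2 ^ k ∈ (⊥ : Subgroup G) := by
    rw [← sq]
    refine mem_of_odd_pow hp ⊥ (n := (i : ℤ)) ?_ ?_
    · rw [Int.not_even_iff_odd]
      exact_mod_cast hodd
    · rw [Subgroup.mem_bot, zpow_natCast, ← pow_mul, mul_comm 2 i, pow_mul, ← hi, ← pow_mul,
        ← pow_succ]
      exact h1
  rw [Subgroup.mem_bot, ← sq] at h2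
  apply hyn
  obtain ⟨j, hj⟩ := hgen y hy
  have h3 : 2 * k + 1 = k + 1 + k := by ring
  rw [h3, pow_add, pow_add, pow_one, mul_assoc, pow_mul, hj, ← pow_mul (c ^ 2 ^ k), mul_comm j,
    mul_assoc, pow_mul, h2, one_pow]

theorem hi_nonempty {D : Subgroup G} (hp : IsPGroup 2 G) {k : ℕ}
    (hC : ∃ c ∈ D, ∀ y ∈ D, ∃ i : ℕ, y ^ 2 ^ k = (c ^ 2 ^ k) ^ i)
    (h1 : ∃ y ∈ D, y ^ 2 ^ k ≠ 1) : (hiS D k).Nonempty := by
  obtain ⟨c, hc, hgen⟩ := hC
  obtain ⟨y, hy, hyn⟩ := h1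
  refine ⟨c, hc, fun x hx hcon => ?_⟩
  obtain ⟨i, hi⟩ := hgen x hx
  rw [hi, ← pow_mul] at hcon
  have h2 : (c ^ 2 ^ k) ^ (2 * (i : ℤ) - 1) = 1 := by
    have h3 : (c ^ 2 ^ k) ^ (2 * (i : ℤ) - 1) = (c ^ 2 ^ k) ^ (i * 2) * (c ^ 2 ^ k)⁻¹ := by
      rw [← zpow_natCast _ (i * 2), ← zpow_neg_one, ← zpow_add]
      congr 1
      push_cast
      ring
    rw [h3, ← hcon, mul_inv_cancel]
  have h3 := mem_of_odd_pow hp (⊥ : Subgroup G) (n := 2 * (i : ℤ) - 1) (by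
    rw [Int.not_even_iff_odd]
    exact ⟨(i : ℤ) - 1, by ring⟩) (Subgroup.mem_bot.2 h2)
  rw [Subgroup.mem_bot] at h3
  apply hyn
  obtain ⟨j, hj⟩ := hgen y hy
  rw [hj, h3, one_pow]

/-- **(d1')** The high type against a low index of another type. -/
theorem hi_sep {D T' : Subgroup G} (hp : IsPGroup 2 G) (hD : ∀ x ∈ D, ∀ y ∈ D, x * y = y * x)
    {k : ℕ} (hC : ∃ c ∈ D, ∀ y ∈ D, ∃ i : ℕ, y ^ 2 ^ k = (c ^ 2 ^ k) ^ i)
    (hbig : ∃ c ∈ D, c ^ 2 ^ (2 * k + 1) ≠ 1)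
    (hcyc' : ∃ g ∈ D, ∀ h ∈ D, ∃ i : ℕ, ∃ c ∈ T', h = g ^ i * c)
    (h : clS D T' ≠ hiS D k) : ∃ g ∈ hiS D k, g ∈ T' ∧ g ^ 2 ^ (k + 1) ≠ 1 := by
  have hcom : ∀ x ∈ D, ∀ y ∈ D, Commute x y := fun x hx y hy => hD x hx y hy
  have h1 : ∃ y ∈ D, y ^ 2 ^ k ≠ 1 := by
    obtain ⟨c, hc, hcn⟩ := hbig
    refine ⟨c, hc, fun h2 => hcn ?_⟩
    have h3 : 2 * k + 1 = k + (k + 1) := by ring
    rw [h3, pow_add, pow_mul, h2, one_pow]
  suffices hs : ∃ g ∈ hiS D k, g ∈ T' by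
    obtain ⟨g, hg, hgT⟩ := hs
    exact ⟨g, hg, hgT, hi_big hC hp hbig hg⟩
  by_contra hcon
  have hcon' : ∀ g ∈ hiS D k, g ∉ T' := fun g hg hgT => hcon ⟨g, hg, hgT⟩
  obtain ⟨g₀, hg₀⟩ := hi_nonempty hp hC h1
  have hDT : ¬ D ≤ T' := fun h2 => hcon' g₀ hg₀ (h2 hg₀.1)
  -- not of the high type: products
  have hlo : ∀ g ∈ D, g ∉ hiS D k → ∃ x ∈ D, g ^ 2 ^ k = (x ^ 2 ^ k) ^ 2 := by
    intro g hg hgn
    by_contra h2
    exact hgn ⟨hg, fun x hx hx2 => h2 ⟨x, hx, hx2⟩⟩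
  have hT'' : ∀ t ∈ D, t ∈ T' → ∃ x ∈ D, t ^ 2 ^ k = (x ^ 2 ^ k) ^ 2 := fun t ht htT =>
    hlo t ht fun h2 => hcon' t h2 htT
  -- squares modulo `T'` are not of the high type
  have hsq : ∀ g ∈ D, (∃ x ∈ D, g * (x ^ 2)⁻¹ ∈ T') → ∃ x ∈ D, g ^ 2 ^ k = (x ^ 2 ^ k) ^ 2 := by
    rintro g hg ⟨x, hx, hxT⟩
    obtain ⟨x', hx', h2⟩ := hT'' _ (D.mul_mem hg (D.inv_mem (D.pow_mem hx 2))) hxT
    refine ⟨x' * x, D.mul_mem hx' hx, ?_⟩
    have c1 : Commute g (x ^ 2)⁻¹ := hcom _ hg _ (D.inv_mem (D.pow_mem hx 2))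
    have c2 : Commute x' x := hcom _ hx' _ hx
    have c3 : Commute (x' ^ 2 ^ k) (x ^ 2 ^ k) := hcom _ (D.pow_mem hx' _) _ (D.pow_mem hx _)
    rw [c1.mul_pow] at h2
    rw [c2.mul_pow, c3.mul_pow, ← h2, inv_pow, ← pow_mul, ← pow_mul, mul_comm (2 ^ k) 2, mul_assoc,
      inv_mul_cancel, mul_one]
  apply h
  ext g
  rw [mem_cl hp hD hcyc']
  constructor
  · rintro ⟨hg, hgn⟩
    by_contra hgh
    obtain ⟨x, hx, hgx⟩ := hlo g hg hgh
    -- `g` generates `D` modulo `T'`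
    have hg' : g ∈ clS D T' := (mem_cl hp hD hcyc').2 ⟨hg, hgn⟩
    obtain ⟨i, hi⟩ := hg'.2.2 g₀ hg₀.1
    obtain ⟨x', hx', hx2⟩ := hT'' _ (D.mul_mem (D.pow_mem hg i) (D.inv_mem hg₀.1)) hi
    apply hg₀.2 (x ^ i * x'⁻¹) (D.mul_mem (D.pow_mem hx i) (D.inv_mem hx'))
    have c1 : Commute (g ^ i) g₀⁻¹ := hcom _ (D.pow_mem hg i) _ (D.inv_mem hg₀.1)
    rw [c1.mul_pow, inv_pow] at hx2
    have h2 : g₀ ^ 2 ^ k = ((x' ^ 2 ^ k) ^ 2)⁻¹ * (g ^ i) ^ 2 ^ k := by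
      rw [← hx2, mul_inv_rev, inv_inv, inv_mul_cancel_right]
    have c2 : Commute (x ^ i) x'⁻¹ := hcom _ (D.pow_mem hx i) _ (D.inv_mem hx')
    have c3 : Commute ((x ^ i) ^ 2 ^ k) (x'⁻¹ ^ 2 ^ k) :=
      hcom _ (D.pow_mem (D.pow_mem hx i) _) _ (D.pow_mem (D.inv_mem hx') _)
    have c4 : Commute (((x' ^ 2 ^ k) ^ 2)⁻¹) ((g ^ i) ^ 2 ^ k) :=
      hcom _ (D.inv_mem (D.pow_mem (D.pow_mem hx' _) _)) _ (D.pow_mem (D.pow_mem hg i) _)
    have h4 : (g ^ i) ^ 2 ^ k = (((x ^ i) ^ 2 ^ k)) ^ 2 := by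
      rw [← pow_mul g, mul_comm i, pow_mul, hgx, ← pow_mul, ← pow_mul, ← pow_mul, ← pow_mul]
      congr 1
      ring
    rw [h2, c4.eq, c2.mul_pow, c3.mul_pow, h4, inv_pow, inv_pow]
  · rintro hgh
    refine ⟨hgh.1, fun x hx hxT => ?_⟩
    obtain ⟨x', hx', h2⟩ := hsq g hgh.1 ⟨x, hx, hxT⟩
    exact hgh.2 x' hx' h2

end H36IN

end S_H36_IN_Hi
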