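import Mathlib
import Pool.Agent.H73.IS.Cnj
import Pool.Agent.H76.MP.M5
import Pool.Agent.H76.PN.N3
import Pool.Agent.H76.PN.N4
import Pool.Agent.H76.PN.P1
import Pool.Agent.H76.PN.P2
import Pool.Agent.H76.PN.P3
import Pool.Agent.H76.XP.X4
import Pool.Agent.H76.YP.Y1

/-! This file joins several modules to save build time (Y2). -/

set_option autoImplicit false

section S_H88_AB_Fd

set_option autoImplicit false
set_option linter.unusedSectionVars false
open scoped Classical

open WithZero NumberField IsDedekindDomain H38RT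
open H38T1 (SC sc scu rep eo la si Pri OddP tp unif)
open H76PP H73P2

namespace H88AB

section Step

variable {K k k' M : Type} [Field K] [NumberField K] [Field k] [NumberField k] [Field k']
  [NumberField k'] [Field M] [NumberField M] [Algebra K k] [Algebra K k'] [Algebra k k']
  [IsScalarTower K k k'] [Algebra K M] [Algebra k M] [Algebra k' M] [IsScalarTower K k M]
  [IsScalarTower K k' M] [IsScalarTower k k' M] [IsGalois K M]

/-- An automorphism of the intermediate field extends. -/
theorem ext_aut (τ : k' ≃ₐ[k] k') : ∃ g : M ≃ₐ[K] M, ∀ x : k', g (algebraMap k' M x) =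
    algebraMap k' M (τ x) := by
  have _ : FiniteDimensional K M := Module.Finite.of_restrictScalars_finite ℚ K M
  obtain ⟨J, hJ⟩ := exists_ext (K := K) (N := M) (F := M) (k := k') (AlgHom.id K M)
    ((IsScalarTower.toAlgHom K k' M).comp ((τ.restrictScalars K : k' ≃ₐ[K] k') : k' →ₐ[K] k'))
  exact ⟨AlgEquiv.ofBijective J (Algebra.IsAlgebraic.algHom_bijective J), hJ⟩

theorem fd_step (two : Module.finrank k k' = 2) {a b : K} (P : (Fin 3 → M) → Prop)
    (hmul : ∀ d₁ d₂, P d₁ → P d₂ → P (m3 (algebraMap K M a) (algebraMap K M b) d₁ d₂))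
    (hsq : ∀ d z, P d → P (m3 (algebraMap K M a) (algebraMap K M b) d
      (m3 (algebraMap K M a) (algebraMap K M b) z z)))
    (hgal : ∀ (g : M ≃ₐ[K] M) (d : Fin 3 → M), P d → P (fun i => g (d i)))
    (hT : ∀ (L : Type) [Field L] [NumberField L] [Algebra k L] (θ : L),
      Cub k L (algebraMap K k a) (algebraMap K k b) θ → ∀ d : Fin 3 → k, ev θ d ≠ 0 →
      IsSquare (Algebra.norm k (ev θ d)) → P (fun i => algebraMap k M (d i)) → IsSquare (ev θ d))
    (L' : Type) [Field L'] [NumberField L'] [Algebra k' L'] (θ' : L')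
    (h' : Cub k' L' (algebraMap K k' a) (algebraMap K k' b) θ') (d : Fin 3 → k')
    (hd0 : ev θ' d ≠ 0) (hN : IsSquare (Algebra.norm k' (ev θ' d)))
    (hP : P (fun i => algebraMap k' M (d i))) : IsSquare (ev θ' d) := by
  have hab : ∀ x : K, algebraMap K k' x = algebraMap k k' (algebraMap K k x) :=
    IsScalarTower.algebraMap_apply K k k'
  have hM : ∀ x : k, algebraMap k' M (algebraMap k k' x) = algebraMap k M x := fun x =>
    (IsScalarTower.algebraMap_apply k k' M x).symm
  have hMK : ∀ x : K, algebraMap k' M (algebraMap K k' x) = algebraMap K M x := fun x =>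
    (IsScalarTower.algebraMap_apply K k' M x).symm
  let _ : Algebra k L' := ((algebraMap k' L').comp (algebraMap k k')).toAlgebra
  have _ : IsScalarTower k k' L' := IsScalarTower.of_algebraMap_eq fun _ => rfl
  have h'' : Cub k' L' (algebraMap k k' (algebraMap K k a)) (algebraMap k k' (algebraMap K k b)) θ' := by
    rw [← hab, ← hab]
    exact h'
  obtain ⟨L, _, _, _, _, _, θ, hc, hθ⟩ := exists_sub h''
  have Q : QS k L k' L' (algebraMap K k a) (algebraMap K k b) θ θ' := ⟨two, hc, h'', hθ⟩
  have f2 := Q.fin2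
  obtain ⟨τ, σ, hσ, hτ⟩ := Q.sigma f2
  obtain ⟨g, hg⟩ := ext_aut (K := K) (M := M) τ
  set x : L' := ev θ' d with hx
  have hn0 : Algebra.norm L x ≠ 0 := by
    rw [Ne, Algebra.norm_eq_zero_iff]
    exact hd0
  -- multiplication of coordinates
  have hm3 : ∀ d₁ d₂ : Fin 3 → k', (fun i => algebraMap k' M (m3 (algebraMap K k' a)
      (algebraMap K k' b) d₁ d₂ i)) = m3 (algebraMap K M a) (algebraMap K M b)
      (fun i => algebraMap k' M (d₁ i)) (fun i => algebraMap k' M (d₂ i)) := by
    intro d₁ d₂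
    funext i
    have h1 := Te_m3_map (algebraMap k' M) (algebraMap K k' a) (algebraMap K k' b) d₁ d₂ i
    rw [hMK, hMK] at h1
    exact h1.symm
  -- first descent
  have hsq1 : IsSquare (Algebra.norm L x) := by
    obtain ⟨e, he⟩ : ∃ e : Fin 3 → k, ev θ e = Algebra.norm L x :=
      ⟨fun i => hc.co i (Algebra.norm L x), (hc.eq_co _).symm⟩
    have he2 := hτ d e he
    rw [← he]
    refine hT L θ hc e (by rw [he]; exact hn0) (by rw [he]; exact Q.norm_sq f2 hN) ?_
    have h1 : (fun i => algebraMap k M (e i)) = m3 (algebraMap K M a) (algebraMap K M b)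
        (fun i => algebraMap k' M (d i)) (fun i => g (algebraMap k' M (d i))) := by
      have h2 : (fun i => algebraMap k M (e i)) = fun i => algebraMap k' M
          ((fun i => algebraMap k k' (e i)) i) := by
        funext i
        rw [hM]
      rw [h2, he2, ← hab, ← hab, hm3]
      congr 1
      funext i
      exact (hg (d i)).symm
    rw [h1]
    exact hmul _ _ hP (hgal g _ hP)
  -- second descent
  obtain ⟨t, z, ht, hz, hxt, hNt⟩ := Q.core f2 hd0 hN hsq1
  have hsq2 : IsSquare t := by
    obtain ⟨e, he⟩ : ∃ e : Fin 3 → k, ev θ e = t := ⟨fun i => hc.co i t, (hc.eq_co _).symm⟩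
    obtain ⟨u, hu⟩ : ∃ u : Fin 3 → k', ev θ' u = z⁻¹ := ⟨fun i => h''.co i z⁻¹, (h''.eq_co z⁻¹).symm⟩
    have he2 : (fun i => algebraMap k k' (e i)) = m3 (algebraMap K k' a) (algebraMap K k' b) d
        (m3 (algebraMap K k' a) (algebraMap K k' b) u u) := by
      have h1 : ev θ' (fun i => algebraMap k k' (e i)) = ev θ' (m3 (algebraMap K k' a)
        (algebraMap K k' b) d (m3 (algebraMap K k' a) (algebraMap K k' b) u u)) := by
        rw [← Q.coord, he, ← Te_ev_mul h', ← Te_ev_mul h', hu, ← hx, hxt]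
        field_simp
      funext i
      have h2 := h'.co_mk (fun i => algebraMap k k' (e i)) i
      have h3 := h'.co_mk (m3 (algebraMap K k' a) (algebraMap K k' b) d
        (m3 (algebraMap K k' a) (algebraMap K k' b) u u)) i
      unfold ev at h1
      rw [← h2, ← h3, h1]
    rw [← he]
    refine hT L θ hc e (by rw [he]; exact ht) (by rw [he]; exact hNt) ?_
    have h1 : (fun i => algebraMap k M (e i)) = m3 (algebraMap K M a) (algebraMap K M b)
        (fun i => algebraMap k' M (d i)) (m3 (algebraMap K M a) (algebraMap K M b)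
          (fun i => algebraMap k' M (u i)) (fun i => algebraMap k' M (u i))) := by
      have h2 : (fun i => algebraMap k M (e i)) = fun i => algebraMap k' M
          ((fun i => algebraMap k k' (e i)) i) := by
        funext i
        rw [hM]
      rw [h2, he2, hm3, hm3]
    rw [h1]
    exact hsq _ _ hP
  rw [hxt]
  obtain ⟨c, rfl⟩ := hsq2
  exact ⟨algebraMap L L' c * z, by rw [map_mul]; ring⟩

end Step

/-- If no class over `K` which satisfies the stable condition `P` over `M` is nontrivial, then no class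
over `M` is. -/
theorem fixed_class {K M : Type} [Field K] [NumberField K] [Field M] [NumberField M] [Algebra K M]
    [IsGalois K M] {r : ℕ} (hr : Module.finrank K M = 2 ^ r) {a b : K} (P : (Fin 3 → M) → Prop)
    (hmul : ∀ d₁ d₂, P d₁ → P d₂ → P (m3 (algebraMap K M a) (algebraMap K M b) d₁ d₂))
    (hsq : ∀ d z, P d → P (m3 (algebraMap K M a) (algebraMap K M b) d
      (m3 (algebraMap K M a) (algebraMap K M b) z z)))
    (hgal : ∀ (g : M ≃ₐ[K] M) (d : Fin 3 → M), P d → P (fun i => g (d i)))
    (hT : ∀ (L : Type) [Field L] [NumberField L] [Algebra K L] (θ : L), Cub K L a b θ →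
      ∀ d : Fin 3 → K, ev θ d ≠ 0 → IsSquare (Algebra.norm K (ev θ d)) →
      P (fun i => algebraMap K M (d i)) → IsSquare (ev θ d))
    (L : Type) [Field L] [NumberField L] [Algebra M L] (θ : L)
    (h : Cub M L (algebraMap K M a) (algebraMap K M b) θ) (d : Fin 3 → M)
    (hd0 : ev θ d ≠ 0) (hN : IsSquare (Algebra.norm M (ev θ d))) (hP : P d) :
    IsSquare (ev θ d) := by
  have _ : FiniteDimensional K M := Module.Finite.of_restrictScalars_finite ℚ K M
  have key : ∀ (n : ℕ) (k : Type) [Field k] [NumberField k] [Algebra K k] [Algebra k M]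
      [IsScalarTower K k M], Module.finrank K k = n →
      ∀ (L : Type) [Field L] [NumberField L] [Algebra k L] (θ : L),
      Cub k L (algebraMap K k a) (algebraMap K k b) θ → ∀ d : Fin 3 → k, ev θ d ≠ 0 →
      IsSquare (Algebra.norm k (ev θ d)) → P (fun i => algebraMap k M (d i)) →
      IsSquare (ev θ d) := by
    intro n
    induction n using Nat.strong_induction_on with
    | _ n ih =>
      intro k _ _ _ _ _ hn
      by_cases h1 : Module.finrank K k = 1
      · -- `K → k` is bijective
        intro L _ _ _ θ h d hd0 hN hP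
        have hbij : Function.Surjective (algebraMap K k) := by
          have h2 := (finrank_eq_one_iff_of_nonzero' (1 : k) one_ne_zero).1 h1
          intro y
          obtain ⟨c, hc⟩ := h2 y
          exact ⟨c, by rw [← hc, Algebra.smul_def, mul_one]⟩
        have hinj : Function.Injective (algebraMap K k) := (algebraMap K k).injective
        obtain ⟨e, he⟩ : ∃ e : Fin 3 → K, ∀ i, algebraMap K k (e i) = d i :=
          ⟨fun i => (hbij (d i)).choose, fun i => (hbij (d i)).choose_spec⟩
        let _ : Algebra K L := ((algebraMap k L).comp (algebraMap K k)).toAlgebra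
        have _ : IsScalarTower K k L := IsScalarTower.of_algebraMap_eq fun _ => rfl
        have hev : ev θ e = ev θ d := by
          unfold ev
          rw [← he, ← he, ← he, ← IsScalarTower.algebraMap_apply, ← IsScalarTower.algebraMap_apply,
            ← IsScalarTower.algebraMap_apply]
        have hcub : Cub K L a b θ := by
          refine ⟨?_, ?_, ?_⟩
          · rw [IsScalarTower.algebraMap_apply K k L, IsScalarTower.algebraMap_apply K k L b]
            exact h.root
          · intro c₀ c₁ c₂ hc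
            rw [IsScalarTower.algebraMap_apply K k L, IsScalarTower.algebraMap_apply K k L c₁,
              IsScalarTower.algebraMap_apply K k L c₂] at hc
            obtain ⟨e0, e1, e2⟩ := h.li _ _ _ hc
            exact ⟨(map_eq_zero _).1 e0, (map_eq_zero _).1 e1, (map_eq_zero _).1 e2⟩
          · intro x
            obtain ⟨c₀, c₁, c₂, hx⟩ := h.sp x
            obtain ⟨d₀, rfl⟩ := hbij c₀
            obtain ⟨d₁, rfl⟩ := hbij c₁
            obtain ⟨d₂, rfl⟩ := hbij c₂
            refine ⟨d₀, d₁, d₂, ?_⟩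
            rw [IsScalarTower.algebraMap_apply K k L, IsScalarTower.algebraMap_apply K k L d₁,
              IsScalarTower.algebraMap_apply K k L d₂]
            exact hx
        rw [← hev]
        refine hT L θ hcub e (by rw [hev]; exact hd0) ?_ ?_
        · rw [Te_norm hcub]
          obtain rfl : d = fun i => algebraMap K k (e i) := funext fun i => (he i).symm
          rw [Te_norm h, Te_nf_map] at hN
          obtain ⟨r, hr⟩ := hN
          obtain ⟨r₀, rfl⟩ := hbij r
          refine ⟨r₀, hinj ?_⟩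
          rw [hr, map_mul]
        · have h2 : (fun i => algebraMap K M (e i)) = fun i => algebraMap k M (d i) := by
            funext i
            rw [← he, ← IsScalarTower.algebraMap_apply]
          rw [h2]
          exact hP
      · obtain ⟨k₀, hk₀⟩ := exists_half (K := K) (N := M) (k' := k) hr h1
        have _ : FiniteDimensional K k := Module.Finite.of_restrictScalars_finite ℚ K k
        have _ : NumberField k₀ := NumberField.of_module_finite K k₀
        have _ : IsScalarTower k₀ k M := inferInstance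
        have _ : IsScalarTower K k₀ M := IsScalarTower.of_algebraMap_eq fun x => by
          rw [IsScalarTower.algebraMap_apply K k M, IsScalarTower.algebraMap_apply K k₀ k]
          rfl
        have hmul' := Module.finrank_mul_finrank K k₀ k
        rw [hk₀] at hmul'
        have hpos : 0 < Module.finrank K k₀ := Module.finrank_pos
        intro L _ _ _ θ h d hd0 hN hP
        exact fd_step hk₀ P hmul hsq hgal (ih (Module.finrank K k₀) (by omega) k₀ rfl) L θ h d hd0
          hN hP
  exact key (Module.finrank K M) M rfl L θ h d hd0 hN hP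

end H88AB

end S_H88_AB_Fd

section S_H88_AB_Gs

set_option autoImplicit false
set_option linter.unusedSectionVars false
open scoped Classical

open WithZero NumberField IsDedekindDomain H38RT
open H38T1 (SC sc scu rep eo la si Pri OddP tp unif ka)
open H76PP H73P2

namespace H88AB

/-- Change of variables in the local condition. -/
theorem LC_sc {k k' F : Type} [Field k] [Field k'] [Field F] (i : k →+* F) (i' : k' →+* F) {a b : k}
    {a' b' : k'} {δ : Fin 3 → k} {δ' : Fin 3 → k'} {c : F} (hc : c ≠ 0) (ha : i' a' = c ^ 4 * i a)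
    (hb : i' b' = c ^ 6 * i b) (hδ : ∀ j : Fin 3, i' (δ' j) = i (δ j) / c ^ (2 * (j : ℕ)))
    (h : LC i a b δ) : LC i' a' b' δ' := by
  obtain ⟨x, y, z, hy, h1, h2⟩ := h
  refine ⟨c ^ 2 * x, c ^ 3 * y, fun j => c * z j / c ^ (2 * (j : ℕ)), mul_ne_zero (pow_ne_zero 3 hc) hy,
    ?_, ?_⟩
  · rw [ha, hb]
    linear_combination c ^ 6 * h1
  · have e0 := congrFun h2 0
    have e1 := congrFun h2 1
    have e2 := congrFun h2 2
    simp only [m3, Matrix.cons_val_zero, Matrix.cons_val_one, Matrix.cons_val_two, Matrix.head_cons,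
      Matrix.tail_cons, Matrix.cons_val] at e0 e1 e2
    have hδ0 := hδ 0
    have hδ1 := hδ 1
    have hδ2 := hδ 2
    simp only [Fin.val_zero, Fin.val_one, Fin.val_two, mul_zero, pow_zero, div_one, mul_one] at hδ0 hδ1 hδ2
    funext j
    fin_cases j
    · simp only [m3, ha, hb, hδ0, hδ1, hδ2, Fin.zero_eta, Matrix.cons_val_zero, Matrix.cons_val_one,
        Matrix.cons_val_two, Matrix.head_cons, Matrix.tail_cons, Matrix.cons_val, Fin.val_zero,
        Fin.val_one, Fin.val_two, mul_zero, pow_zero, div_one, mul_one]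
      field_simp
      linear_combination c ^ 4 * e0
    · simp only [m3, ha, hb, hδ0, hδ1, hδ2, Fin.mk_one, Matrix.cons_val_zero, Matrix.cons_val_one,
        Matrix.cons_val_two, Matrix.head_cons, Matrix.tail_cons, Matrix.cons_val, Fin.val_zero,
        Fin.val_one, Fin.val_two, mul_zero, pow_zero, div_one, mul_one]
      field_simp
      linear_combination c ^ 8 * e1
    · simp only [m3, ha, hb, hδ0, hδ1, hδ2, Fin.reduceFinMk, Matrix.cons_val_zero, Matrix.cons_val_one,
        Matrix.cons_val_two, Matrix.head_cons, Matrix.tail_cons, Matrix.cons_val, Fin.val_zero,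
        Fin.val_one, Fin.val_two, mul_zero, pow_zero, div_one, mul_one]
      field_simp
      linear_combination c ^ 8 * e2

/-- Products in twisted coordinates. -/
theorem m3_tw {M : Type} [Field M] {A B E : M} (hE : E ≠ 0) (δ₁ δ₂ : Fin 3 → M) :
    m3 (E ^ 2 * A) (E ^ 3 * B) (fun i => δ₁ i / E ^ (i : ℕ)) (fun i => δ₂ i / E ^ (i : ℕ)) =
      fun i => m3 A B δ₁ δ₂ i / E ^ (i : ℕ) := by
  funext j
  fin_cases j
  · simp only [m3, Fin.zero_eta, Matrix.cons_val_zero, Matrix.cons_val_one,
      Matrix.cons_val_two, Matrix.head_cons, Matrix.tail_cons, Matrix.cons_val, Fin.val_zero,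
      Fin.val_one, Fin.val_two, pow_zero, div_one, pow_one]
    field_simp
  · simp only [m3, Fin.mk_one, Matrix.cons_val_zero, Matrix.cons_val_one,
      Matrix.cons_val_two, Matrix.head_cons, Matrix.tail_cons, Matrix.cons_val, Fin.val_zero,
      Fin.val_one, Fin.val_two, pow_zero, div_one, pow_one]
    field_simp
  · simp only [m3, Fin.reduceFinMk, Matrix.cons_val_zero, Matrix.cons_val_one,
      Matrix.cons_val_two, Matrix.head_cons, Matrix.tail_cons, Matrix.cons_val, Fin.val_zero,
      Fin.val_one, Fin.val_two, pow_zero, div_one, pow_one]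
    field_simp

section Lce

variable {M : Type} [Field M] [NumberField M] {A B E : M}

theorem disc_tw (hE : E ≠ 0) (hd : 4 * A ^ 3 + 27 * B ^ 2 ≠ 0) :
    4 * (E ^ 2 * A) ^ 3 + 27 * (E ^ 3 * B) ^ 2 ≠ 0 := by
  have e : 4 * (E ^ 2 * A) ^ 3 + 27 * (E ^ 3 * B) ^ 2 = E ^ 6 * (4 * A ^ 3 + 27 * B ^ 2) := by ring
  rw [e]
  exact mul_ne_zero (pow_ne_zero 6 hE) hd

theorem lce_mul (hE : E ≠ 0) (hd : 4 * A ^ 3 + 27 * B ^ 2 ≠ 0) {δ₁ δ₂ : Fin 3 → M}
    (h₁ : LCE M A B E δ₁) (h₂ : LCE M A B E δ₂) : LCE M A B E (m3 A B δ₁ δ₂) := by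
  have hd' := disc_tw hE hd
  refine ⟨fun W => ?_, fun s => ?_⟩
  · have hc : CharZero (W.adicCompletion M) :=
      charZero_of_injective_algebraMap (algebraMap M (W.adicCompletion M)).injective
    rw [← m3_tw hE]
    refine LC_mul _ ?_ ?_ (h₁.1 W) (h₂.1 W)
    · have h1 := (map_ne_zero (algebraMap M (W.adicCompletion M))).2 hd'
      simpa only [map_add, map_mul, map_pow, map_ofNat] using h1
    · exact H24PD.inf_fin W _ _
  · rw [← m3_tw hE]
    refine LC_mul _ ?_ ?_ (h₁.2 s) (h₂.2 s)
    · have h1 := (map_ne_zero s).2 hd'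
      simpa only [map_add, map_mul, map_pow, map_ofNat] using h1
    · exact H24PD.inf_real _ _

theorem lce_sq (hE : E ≠ 0) {δ : Fin 3 → M} (u : Fin 3 → M) (h : LCE M A B E δ) :
    LCE M A B E (m3 A B δ (m3 A B u u)) := by
  refine ⟨fun W => ?_, fun s => ?_⟩
  · rw [← m3_tw hE, ← m3_tw hE]
    exact LC_sq _ _ (h.1 W)
  · rw [← m3_tw hE, ← m3_tw hE]
    exact LC_sq _ _ (h.2 s)

theorem lce_gal {K : Type} [Field K] [Algebra K M] {a b : K} (hE : E ≠ 0) (hst : Stw K E)
    (g : M ≃ₐ[K] M) {δ : Fin 3 → M} (h : LCE M (algebraMap K M a) (algebraMap K M b) E δ) :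
    LCE M (algebraMap K M a) (algebraMap K M b) E (fun i => g (δ i)) := by
  obtain ⟨z, hz, hgz⟩ := hst g
  have hzi : ∀ {F : Type} [Field F] (i : M →+* F), i z ≠ 0 := fun i => (map_ne_zero i).2 hz
  have key : ∀ {F : Type} [Field F] (i i' : M →+* F), (∀ x, i' x = i (g x)) →
      LC i' (E ^ 2 * algebraMap K M a) (E ^ 3 * algebraMap K M b) (fun j => δ j / E ^ (j : ℕ)) →
      LC i (E ^ 2 * algebraMap K M a) (E ^ 3 * algebraMap K M b) (fun j => g (δ j) / E ^ (j : ℕ)) := by
    intro F _ i i' hi hL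
    have hz0 : i z ≠ 0 := (map_ne_zero i).2 hz
    have hE0 : i E ≠ 0 := (map_ne_zero i).2 hE
    refine LC_sc i' i (c := (i z)⁻¹) (inv_ne_zero hz0) ?_ ?_ ?_ hL
    · rw [hi, map_mul g, map_pow g, hgz, g.commutes]
      simp only [map_mul, map_pow]
      field_simp
    · rw [hi, map_mul g, map_pow g, hgz, g.commutes]
      simp only [map_mul, map_pow]
      field_simp
    · intro j
      rw [hi, map_div₀ g, map_pow g, hgz]
      simp only [map_div₀, map_mul, map_pow, inv_pow]
      field_simp
      ring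
  refine ⟨fun W => ?_, fun s => ?_⟩
  · obtain ⟨v, ψ, hψ⟩ := H73IS.place_conj (g : M →+* M) W
    refine key (algebraMap M (W.adicCompletion M)) (ψ.comp (algebraMap M (v.adicCompletion M)))
      (fun x => hψ x) ?_
    obtain ⟨x, y, w, hy, h1, h2⟩ := h.1 v
    refine ⟨ψ x, ψ y, fun i => ψ (w i), (map_ne_zero ψ).2 hy, ?_, ?_⟩
    · simp only [RingHom.comp_apply]
      rw [← map_pow, h1]
      simp only [map_add, map_mul, map_pow]
    · have e1 : (fun i => ψ ((![x, -1, 0] : Fin 3 → v.adicCompletion M) i)) = ![ψ x, -1, 0] := by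
        funext i
        fin_cases i <;> simp
      funext i
      have h3 := Te_m3_map ψ (algebraMap M (v.adicCompletion M) (E ^ 2 * algebraMap K M a))
        (algebraMap M (v.adicCompletion M) (E ^ 3 * algebraMap K M b))
        (fun i => algebraMap M (v.adicCompletion M) (δ i / E ^ (i : ℕ))) ![x, -1, 0] i
      have h4 := Te_m3_map ψ (algebraMap M (v.adicCompletion M) (E ^ 2 * algebraMap K M a))
        (algebraMap M (v.adicCompletion M) (E ^ 3 * algebraMap K M b)) w w i
      rw [e1] at h3
      simp only [RingHom.comp_apply]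
      rw [h3, h4, h2]
  · exact key s (s.comp (g : M →+* M)) (fun x => rfl) (h.2 (s.comp (g : M →+* M)))

end Lce

/-- Reduction to the classes over `K`. -/
theorem selTriv_of {K M : Type} [Field K] [NumberField K] [Field M] [NumberField M] [Algebra K M]
    [IsGalois K M] {r : ℕ} (hr : Module.finrank K M = 2 ^ r) {a b : K}
    (hd : 4 * a ^ 3 + 27 * b ^ 2 ≠ 0) {μ : M} (hμ : μ ≠ 0) (hst : Stw K μ)
    (hT : ∀ (L : Type) [Field L] [NumberField L] [Algebra K L] (θ : L), Cub K L a b θ →
      ∀ δ : Fin 3 → K, ev θ δ ≠ 0 → IsSquare (Algebra.norm K (ev θ δ)) →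
      LCE M (algebraMap K M a) (algebraMap K M b) μ (fun i => algebraMap K M (δ i)) →
      IsSquare (ev θ δ))
    (L' : Type) [Field L'] [NumberField L'] [Algebra M L'] (θ' : L')
    (h' : Cub M L' (μ ^ 2 * algebraMap K M a) (μ ^ 3 * algebraMap K M b) θ') :
    SelTriv M L' (μ ^ 2 * algebraMap K M a) (μ ^ 3 * algebraMap K M b) θ' := by
  have hdM : 4 * (algebraMap K M a) ^ 3 + 27 * (algebraMap K M b) ^ 2 ≠ 0 := by
    have h1 := (map_ne_zero (algebraMap K M)).2 hd
    simpa only [map_add, map_mul, map_pow, map_ofNat] using h1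
  have hμL : algebraMap M L' μ ≠ 0 := (map_ne_zero _).2 hμ
  -- the root of the untwisted cubic
  have h0 : Cub M L' (algebraMap K M a) (algebraMap K M b) (θ' / algebraMap M L' μ) := by
    have h1 := h'.twist (D := μ⁻¹) (inv_ne_zero hμ)
    have e1 : μ⁻¹ ^ 2 * (μ ^ 2 * algebraMap K M a) = algebraMap K M a := by field_simp
    have e2 : μ⁻¹ ^ 3 * (μ ^ 3 * algebraMap K M b) = algebraMap K M b := by field_simp
    have e3 : algebraMap M L' μ⁻¹ * θ' = θ' / algebraMap M L' μ := by
      rw [map_inv₀, div_eq_inv_mul]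
    rw [e1, e2, e3] at h1
    exact h1
  intro d hd0 hN hfin hre
  have hev : ev (θ' / algebraMap M L' μ) (fun i => d i * μ ^ (i : ℕ)) = ev θ' d := by
    unfold ev
    simp only [Fin.val_zero, Fin.val_one, Fin.val_two, pow_zero, mul_one, pow_one, map_mul, map_pow]
    field_simp
  have hco : ∀ i : Fin 3, d i * μ ^ (i : ℕ) / μ ^ (i : ℕ) = d i := fun i => by
    rw [mul_div_cancel_right₀ _ (pow_ne_zero _ hμ)]
  rw [← hev]
  refine fixed_class hr (LCE M (algebraMap K M a) (algebraMap K M b) μ)
    (fun d₁ d₂ => lce_mul hμ hdM) (fun d z h => lce_sq hμ z h) (fun g d h => lce_gal hμ hst g h) hT L' _ h0 _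
    (by rw [hev]; exact hd0) (by rw [hev]; exact hN) ⟨fun W => ?_, fun s => ?_⟩
  · simp only [hco]
    exact hfin W
  · simp only [hco]
    exact hre s

end H88AB

end S_H88_AB_Gs

section S_H73_P2_Os

set_option autoImplicit false
set_option linter.unusedSectionVars false
open scoped Classical

open WithZero NumberField IsDedekindDomain H38RT
open H76PP

namespace H73P2

theorem ordSub : OrdSub := fun h _ ha hb hd _ hx hfx => H36MT.ord_sub_loc h ha hb hd hx hfx

end H73P2

end S_H73_P2_Os

section S_H36_AB_Ev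

set_option autoImplicit false
set_option linter.unusedSectionVars false
open scoped Classical

open WithZero NumberField IsDedekindDomain H38RT
open H38T1 (SC sc scu rep eo la si Pri OddP tp unif)
open H76PP H73P2

namespace H88AB

private lemma Ev_surj {K k : Type} [Field K] [NumberField K] [Field k] [NumberField k] [Algebra K k]
    (h1 : Module.finrank K k = 1) : Function.Surjective (algebraMap K k) := by
  rw [Algebra.surjective_algebraMap_iff]
  exact (Subalgebra.bot_eq_top_iff_finrank_eq_one.2 h1).symm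

/-- The base of the induction: `k / K` of degree one. -/
private theorem Ev_base {K k : Type} [Field K] [NumberField K] [Field k] [NumberField k]
    [Algebra K k] (h1 : Module.finrank K k = 1) {a b : K} {v : HeightOneSpectrum (𝓞 K)}
    {L : Type} [Field L] [NumberField L] [Algebra K L] {θ : L} (h : Cub K L a b θ)
    {δ : Fin 3 → K} (hδ : ev θ δ ≠ 0) {w : HeightOneSpectrum (𝓞 L)} (hw : dn K w = v)
    (L' : Type) [Field L'] [NumberField L'] [Algebra k L'] (θ' : L')
    (h' : Cub k L' (algebraMap K k a) (algebraMap K k b) θ')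
    (he : ∀ W' : HeightOneSpectrum (𝓞 L'), dn K (dn k W') = v →
      eo W' (sc (ev θ' (fun i => algebraMap K k (δ i)))) = 0) : eo w (sc (ev θ δ)) = 0 := by
  have hs := Ev_surj h1
  let _ : Algebra K L' := ((algebraMap k L').comp (algebraMap K k)).toAlgebra
  have _ : IsScalarTower K k L' := IsScalarTower.of_algebraMap_eq fun _ => rfl
  have hal : ∀ x : K, algebraMap K L' x = algebraMap k L' (algebraMap K k x) := fun _ => rfl
  have hcub : Cub K L' a b θ' := by
    refine ⟨?_, ?_, ?_⟩
    · rw [hal, hal]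
      exact h'.root
    · intro c₀ c₁ c₂ hc
      rw [hal, hal, hal] at hc
      obtain ⟨e0, e1, e2⟩ := h'.li _ _ _ hc
      exact ⟨(map_eq_zero _).1 e0, (map_eq_zero _).1 e1, (map_eq_zero _).1 e2⟩
    · intro x
      obtain ⟨c₀, c₁, c₂, hx⟩ := h'.sp x
      obtain ⟨d₀, rfl⟩ := hs c₀
      obtain ⟨d₁, rfl⟩ := hs c₁
      obtain ⟨d₂, rfl⟩ := hs c₂
      exact ⟨d₀, d₁, d₂, hx⟩
  obtain ⟨φ, hφ⟩ := H36MT.Eq_hom h hcub
  have hev : ev θ' δ = ev θ' (fun i => algebraMap K k (δ i)) := rfl
  have h2 := he (H36MT.Eq_mv φ.symm w) (by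
    have h3 : dn K (dn k (H36MT.Eq_mv φ.symm w)) = dn K (H36MT.Eq_mv φ.symm w) := dn_dn _
    rw [h3, H36MT.Eq_dn]
    exact hw)
  rw [← hev] at h2
  have hδ' : ev θ' δ ≠ 0 := by
    rw [← hφ]
    exact (map_ne_zero φ).2 hδ
  rw [H38T1.eo_sc hδ'] at h2
  rw [H38T1.eo_sc hδ]
  unfold ord at h2 ⊢
  rw [H36MT.Eq_val, ← hφ, AlgEquiv.symm_apply_apply] at h2
  exact h2

theorem even_down {K M : Type} [Field K] [NumberField K] [Field M] [NumberField M] [Algebra K M]
    [IsGalois K M] {r : ℕ} (hr : Module.finrank K M = 2 ^ r) {a b : K}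
    (hirr : ∀ t : K, t ^ 3 + a * t + b ≠ 0) {v : HeightOneSpectrum (𝓞 K)} (hodd : OddP v)
    (hnr : ∀ V : HeightOneSpectrum (𝓞 M), dn K V = v → ¬ H73P2.Ram K V) {L : Type} [Field L]
    [NumberField L] [Algebra K L] {θ : L} (h : Cub K L a b θ) {LM : Type} [Field LM]
    [NumberField LM] [Algebra M LM] {θM : LM}
    (hM : Cub M LM (algebraMap K M a) (algebraMap K M b) θM) {δ : Fin 3 → K} (hδ : ev θ δ ≠ 0)
    (he : ∀ W' : HeightOneSpectrum (𝓞 LM), dn K (dn M W') = v →
      eo W' (sc (ev θM (fun i => algebraMap K M (δ i)))) = 0)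
    (w : HeightOneSpectrum (𝓞 L)) (hw : dn K w = v) : eo w (sc (ev θ δ)) = 0 := by
  have _ : FiniteDimensional K M := Module.Finite.of_restrictScalars_finite ℚ K M
  have hδ0 : δ ≠ 0 := by
    rintro rfl
    apply hδ
    simp [ev]
  have key : ∀ n : ℕ, ∀ (k : Type) [Field k] [NumberField k] [Algebra K k] [Algebra k M]
      [IsScalarTower K k M], Module.finrank K k = n → ∀ (L' : Type) [Field L'] [NumberField L']
      [Algebra k L'] (θ' : L'), Cub k L' (algebraMap K k a) (algebraMap K k b) θ' →
      (∀ W' : HeightOneSpectrum (𝓞 L'), dn K (dn k W') = v →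
        eo W' (sc (ev θ' (fun i => algebraMap K k (δ i)))) = 0) → eo w (sc (ev θ δ)) = 0 := by
    intro n
    induction n using Nat.strong_induction_on with
    | _ n ih =>
      intro k _ _ _ _ _ hn L' _ _ _ θ' h' he'
      by_cases h1 : Module.finrank K k = 1
      · exact Ev_base h1 h hδ hw L' θ' h' he'
      · obtain ⟨k₀, hk₀⟩ := exists_half (K := K) (N := M) (k' := k) hr h1
        have _ : FiniteDimensional K k := Module.Finite.of_restrictScalars_finite ℚ K k
        have _ : NumberField k₀ := NumberField.of_module_finite K k₀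
        have _ : IsScalarTower k₀ k M := inferInstance
        have _ : IsScalarTower K k₀ M := IsScalarTower.of_algebraMap_eq fun x => by
          rw [IsScalarTower.algebraMap_apply K k M, IsScalarTower.algebraMap_apply K k₀ k]
          rfl
        have hmul := Module.finrank_mul_finrank K k₀ k
        rw [hk₀] at hmul
        have hpos : 0 < Module.finrank K k₀ := Module.finrank_pos
        have hab : ∀ x : K, algebraMap K k x = algebraMap k₀ k (algebraMap K k₀ x) :=
          IsScalarTower.algebraMap_apply K k₀ k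
        have _ : IsScalarTower k₀ k L' := inferInstance
        have h'' : Cub k L' (algebraMap k₀ k (algebraMap K k₀ a))
            (algebraMap k₀ k (algebraMap K k₀ b)) θ' := by
          rw [← hab, ← hab]
          exact h'
        obtain ⟨L₀, _, _, _, _, _, θ₀, hc, hθ⟩ := exists_sub h''
        have Q : QS k₀ L₀ k L' (algebraMap K k₀ a) (algebraMap K k₀ b) θ₀ θ' :=
          ⟨hk₀, hc, h'', hθ⟩
        have f2 := Q.fin2
        have hne : ev θ₀ (fun i => algebraMap K k₀ (δ i)) ≠ 0 := by
          intro h0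
          obtain ⟨e0, e1, e2⟩ := hc.li _ _ _ h0
          apply hδ0
          funext i
          fin_cases i
          · exact (map_eq_zero _).1 e0
          · exact (map_eq_zero _).1 e1
          · exact (map_eq_zero _).1 e2
        refine ih (Module.finrank K k₀) (by omega) k₀ rfl L₀ θ₀ hc fun w₀ hw₀ => ?_
        obtain ⟨V, hV⟩ := exists_above (L := M) (dn k₀ w₀)
        have hKV : dn K V = v := by
          rw [← hw₀, ← hV]
          exact (dn_dn V).symm
        obtain ⟨h2, -⟩ := unram_mid (k := k₀) (hnr V hKV)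
        obtain ⟨D, ρ, hρ, hρk, hD⟩ := exists_gen (k' := k) hk₀ h2
        rw [hV] at hD
        have hodd' : OddP w₀ := by
          rw [oddP_dn (K := k₀), oddP_dn (K := K), hw₀]
          exact hodd
        refine even_unram Q f2 w₀ hodd' hρ hρk hD hne fun w' hw' => ?_
        have h3 := Q.coord (fun i => algebraMap K k₀ (δ i))
        rw [h3]
        have h4 := he' w' (by
          rw [← dn_sq (K := K) (k := k₀) (L := L₀), hw']
          exact hw₀)
        have h5 : (fun i => algebraMap k₀ k (algebraMap K k₀ (δ i))) =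
            fun i => algebraMap K k (δ i) := funext fun i => (hab _).symm
        rw [h5]
        exact h4
  exact key _ M rfl LM θM hM he

end H88AB

end S_H36_AB_Ev

section S_H88_AB_Sx

set_option autoImplicit false
set_option linter.unusedSectionVars false
open scoped Classical

open WithZero NumberField IsDedekindDomain H38RT
open H38T1 (SC sc scu rep eo la si Pri OddP tp unif ka)
open H76PP H36MX H76MQ H76MX H73P2

namespace H88AB

/-- `NiceAt` for the twist by an element of even order. -/
theorem nice_mul {K : Type} [Field K] [NumberField K] {a b : K} {v : HeightOneSpectrum (𝓞 K)}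
    (h : NiceAt v a b) {D : K} (hDne : D ≠ 0) (he : Even (ord (v.valuation K) D)) :
    NiceAt v (D ^ 2 * a) (D ^ 3 * b) := by
  obtain ⟨c₁, a', b', hc₁, ha, hb, ha', hb', hΔ⟩ := h
  obtain ⟨j, hj⟩ := he
  have hvD : v.valuation K D = exp (-(j + j)) := by
    rw [Ta_V_eq (V := v.valuation K) hDne, hj]
  have hπ := H38T1.unif_spec (K := K) v
  have hπ0 : H38T1.unif (K := K) v ≠ 0 := by
    intro h
    rw [h, map_zero] at hπ
    exact exp_ne_zero hπ.symm
  have hc0 : (H38T1.unif (K := K) v) ^ j ≠ 0 := zpow_ne_zero _ hπ0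
  have hvc : v.valuation K ((H38T1.unif (K := K) v) ^ j) = exp (-j) := by
    rw [map_zpow₀, hπ, ← exp_zsmul]
    congr 1
    simp
  obtain ⟨c, hc⟩ : ∃ c : K, c = (H38T1.unif (K := K) v) ^ j := ⟨_, rfl⟩
  rw [← hc] at hc0 hvc
  obtain ⟨u, hu⟩ : ∃ u : K, u = D / c ^ 2 := ⟨_, rfl⟩
  have hDu : D = c ^ 2 * u := by
    rw [hu]
    field_simp
  have hvu : v.valuation K u = 1 := by
    rw [hu, map_div₀, map_pow, hvD, hvc, ← exp_nsmul, ← exp_sub, ← exp_zero]
    congr 1
    simp
    ring
  refine ⟨c * c₁, u ^ 2 * a', u ^ 3 * b', mul_ne_zero hc0 hc₁, ?_, ?_, ?_, ?_, ?_⟩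
  · rw [hDu, ha]; ring
  · rw [hDu, hb]; ring
  · rw [map_mul, map_pow, hvu, one_pow, one_mul]; exact ha'
  · rw [map_mul, map_pow, hvu, one_pow, one_mul]; exact hb'
  · have h1 : 4 * (u ^ 2 * a') ^ 3 + 27 * (u ^ 3 * b') ^ 2 =
        u ^ 6 * (4 * a' ^ 3 + 27 * b' ^ 2) := by
      ring
    rw [h1, map_mul, map_pow, hvu, one_pow, one_mul]
    exact hΔ

/-- Evenness over `M` at an unramified place at which the order of `μ` is even. -/
theorem even_M {K M LM : Type} [Field K] [NumberField K] [Field M] [NumberField M] [Algebra K M]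
    [Field LM] [NumberField LM] [Algebra M LM] {a b : K} {θM : LM}
    (hM : Cub M LM (algebraMap K M a) (algebraMap K M b) θM) (W' : HeightOneSpectrum (𝓞 LM))
    (hnr : ¬ H73P2.Ram K (dn M W')) (hN : NiceAt (dn K (dn M W')) a b) {μ : M} (hμ : μ ≠ 0)
    (hμe : Even (ord ((dn M W').valuation M) μ)) {δ : Fin 3 → M} (hδ : ev θM δ ≠ 0)
    (hLC : LC (algebraMap M ((dn M W').adicCompletion M)) (μ ^ 2 * algebraMap K M a)
      (μ ^ 3 * algebraMap K M b) (fun i => δ i / μ ^ (i : ℕ))) : eo W' (sc (ev θM δ)) = 0 := by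
  have hμL : algebraMap M LM μ ≠ 0 := (map_ne_zero _).2 hμ
  have h1 := hM.twist (D := μ) hμ
  have h2 : NiceAt (dn M W') (algebraMap K M a) (algebraMap K M b) :=
    NiceAt.up (fun x hx => unram_ord hnr hx) hN
  have hev : ev (algebraMap M LM μ * θM) (fun i => δ i / μ ^ (i : ℕ)) = ev θM δ := by
    unfold ev
    simp only [Fin.val_zero, Fin.val_one, Fin.val_two, pow_zero, div_one, pow_one, map_div₀, map_pow]
    field_simp
  rw [← hev]
  exact even_nice ordSub h1 W' (nice_mul h2 hμ hμe) (by rw [hev]; exact hδ) hLC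

/-- The local condition at a place of `K` at which `M` splits and `μ` becomes a square. -/
theorem lc_T {K M : Type} [Field K] [NumberField K] [Field M] [NumberField M] [Algebra K M] {a b : K}
    {μ : M} (hμ : μ ≠ 0) {δ : Fin 3 → K}
    (hL : LCE M (algebraMap K M a) (algebraMap K M b) μ (fun i => algebraMap K M (δ i)))
    (v : HeightOneSpectrum (𝓞 K)) {ι : M →+* v.adicCompletion K}
    (hι : ∀ x : K, ι (algebraMap K M x) = algebraMap K (v.adicCompletion K) x)
    (hsq : IsSquare (ι μ)) : LC (algebraMap K (v.adicCompletion K)) a b δ := by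
  obtain ⟨s, hs⟩ := hsq
  have hs0 : s ≠ 0 := by
    rintro rfl
    rw [mul_zero] at hs
    exact ((map_ne_zero ι).2 hμ) hs
  have h1 := LC_of_places hL.1 v ι hι
  refine LC_sc ι (algebraMap K (v.adicCompletion K)) (c := s⁻¹) (inv_ne_zero hs0) ?_ ?_ ?_ h1
  · rw [map_mul, map_pow, hι, hs]
    field_simp
  · rw [map_mul, map_pow, hι, hs]
    field_simp
  · intro j
    rw [map_div₀, map_pow, hι, hs, inv_pow]
    field_simp
    ring

theorem Cub_irr {K L : Type} [Field K] [Field L] [Algebra K L] {a b : K} {θ : L}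
    (h : Cub K L a b θ) (t : K) : t ^ 3 + a * t + b ≠ 0 := by
  intro ht
  have h1 : (θ - algebraMap K L t) * (algebraMap K L (a + t ^ 2) + algebraMap K L t * θ +
      algebraMap K L 1 * θ ^ 2) = 0 := by
    have h2 := congrArg (algebraMap K L) ht
    simp only [map_add, map_mul, map_pow, map_zero, map_one] at h2 ⊢
    linear_combination h.root - h2
  rcases mul_eq_zero.1 h1 with h2 | h2
  · have h3 := h.li (-t) 1 0 (by
      simp only [map_neg, map_one, map_zero]
      linear_combination h2)
    exact one_ne_zero h3.2.1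
  · exact one_ne_zero (h.li _ _ _ h2).2.2

/-- **The conditions of a pair `(M, μ)`** (`SelHyp.main`). -/
theorem selX {K M : Type} [Field K] [NumberField K] [Field M] [NumberField M] [Algebra K M]
    [IsGalois K M] {r : ℕ} (hr : Module.finrank K M = 2 ^ r) {μ : 𝓞 M} (hμ : μ ≠ 0)
    {C : CfgX K} (hC : C.Ok) {q₀ : HeightOneSpectrum (𝓞 K)} (hq : q₀ ∉ C.S)
    {T : Finset (HeightOneSpectrum (𝓞 K))} (hT : ∀ v ∈ T, v ∉ C.S ∧ v ≠ q₀)
    {A B : 𝓞 K} {e : (u : HeightOneSpectrum (𝓞 K)) → Fin 3 → Kv u} (hF : FamX C q₀ T A B e)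
    {L : Type} [Field L] [NumberField L] [Algebra K L] {θ : L} (hR : HR2 K L A B θ)
    (Dt : XData C T A B e θ) {J : Finset (HeightOneSpectrum (𝓞 K))} (hJT : J ⊆ T) {D : 𝓞 K}
    (hD : H36MT.TwS C.S q₀ J (D : K))
    (hbad : ∀ V : HeightOneSpectrum (𝓞 M), dn K V ∉ C.S → (Ram K V ∨ eo V (sc (μ : M)) ≠ 0) →
      NoRootAt (dn K V) ((D : K) ^ 2 * A) ((D : K) ^ 3 * B))
    (hJs : ∀ v ∈ J, ∃ ι : M →+* v.adicCompletion K,
      (∀ x : K, ι (algebraMap K M x) = algebraMap K (v.adicCompletion K) x) ∧ IsSquare (ι (μ : M)))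
    {x : (u : HeightOneSpectrum (𝓞 K)) → SC (Kv u)} (hx : ∀ u ∈ C.Z, CondX K M u A B (e u) μ (x u))
    {δ : Fin 3 → K} (hδ : ev (algebraMap K L (D : K) * θ) δ ≠ 0)
    (hsq : IsSquare (Algebra.norm K (ev (algebraMap K L (D : K) * θ) δ)))
    (hL : LCE M (algebraMap K M ((D : K) ^ 2 * A)) (algebraMap K M ((D : K) ^ 3 * B)) (μ : M)
      (fun i => algebraMap K M (δ i))) :
    Dt.X J (sc (ev (algebraMap K L (D : K) * θ) δ)) ∧
      ∀ u : {u // u ∈ C.Z}, LW (x u.1) (Dt.loc (sc (ev (algebraMap K L (D : K) * θ) δ)) u).1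
        (Dt.loc (sc (ev (algebraMap K L (D : K) * θ) δ)) u).2 := by
  have h := Dt.h
  have hDK : (D : K) ≠ 0 := hD.ne
  have hDd : D ≠ 0 := fun h0 => hDK (RingOfIntegers.coe_eq_zero_iff.2 h0)
  have hμM : (μ : M) ≠ 0 := fun h0 => hμ (RingOfIntegers.coe_eq_zero_iff.1 h0)
  have hDL : algebraMap K L (D : K) ≠ 0 := (map_ne_zero _).2 hDK
  have hDM : algebraMap K M (D : K) ≠ 0 := (map_ne_zero _).2 hDK
  have hDh : Cub K L ((D : K) ^ 2 * A) ((D : K) ^ 3 * B) (algebraMap K L (D : K) * θ) :=
    Cub.twist h hDK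
  have hirr : ∀ t : K, t ^ 3 + ((D : K) ^ 2 * (A : K)) * t + (D : K) ^ 3 * (B : K) ≠ 0 :=
    Cub_irr hDh
  refine ⟨⟨mem_HH.2 ⟨?_, ?_⟩, ?_⟩, ?_⟩
  · rw [scm_sc _ hδ]
    exact (H38T1.sc_eq_zero (scm_ne _ hδ)).2 hsq
  · intro w hw
    have hwS : dn K w ∉ C.S := fun h1 => hw (Finset.mem_union_left _ h1)
    have hwJ : dn K w ∉ J := fun h1 => hw (Finset.mem_union_right _ h1)
    by_cases hwq : dn K w = q₀
    · refine even_unique h w (noRootAt_of ?_) hδ hsq
      rw [hwq]
      exact hF.irr
    · by_cases hb : ∃ V : HeightOneSpectrum (𝓞 M), dn K V = dn K w ∧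
        (Ram K V ∨ eo V (sc (μ : M)) ≠ 0)
      · obtain ⟨V, hV, hVb⟩ := hb
        refine even_unique hDh w ?_ hδ hsq
        rw [← hV]
        exact hbad V (by rw [hV]; exact hwS) hVb
      · push Not at hb
        obtain ⟨LM, _, _, _, θM, hM⟩ := H24PD.exists_cub (K := M)
          (noroot (K := K) (N := M) (k := M) hr hirr)
        refine even_down hr hirr (v := dn K w) (Sb_odd (Rl_six hC hwS)) (fun V hV => (hb V hV).1) hDh
          hM hδ (fun W' hW' => ?_) w rfl
        refine even_M hM W' (hb _ hW').1 ?_ hμM ?_ ?_ (hL.1 _)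
        · rw [hW']
          exact Sc_nice (hF.sqf _ hwS) hDK (hD.even _ hwS hwJ hwq)
        · have h1 := (hb _ hW').2
          rw [H38T1.eo_sc hμM] at h1
          exact (ZMod.intCast_eq_zero_iff_even).1 h1
        · intro h0
          apply hδ
          obtain ⟨e0, e1, e2⟩ := hM.li _ _ _ h0
          have hinj : ∀ y : K, algebraMap K M y = 0 → y = 0 := fun y hy =>
            (map_eq_zero (algebraMap K M)).1 hy
          unfold ev
          rw [hinj _ e0, hinj _ e1, hinj _ e2]
          simp
  · intro v hv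
    obtain ⟨hvS, hvq⟩ := hT v (hJT hv)
    obtain ⟨ι, hι, hιs⟩ := hJs v hv
    refine kum_T h hR (Sb_odd (Rl_six hC hvS)) (hF.sqf v hvS) (Dt.hT v (hJT hv)) hDd ?_
      hδ hsq (lc_T hμM hL v hι hιs)
    exact Sb_eo_odd hDK (hD.odd v hv)
  · intro u
    rw [Dt.loc_apply]
    have hev : ev θ (fun i => δ i * (D : K) ^ (i : ℕ)) = ev (algebraMap K L (D : K) * θ) δ := by
      unfold ev
      simp only [Fin.val_zero, Fin.val_one, Fin.val_two, pow_zero, mul_one, pow_one, map_mul, map_pow]
      ring
    have h1 := hx u.1 u.2 (Dt.hs u.1 u.2) L θ Dt.h D hDd (hD.loc u.1 (Finset.mem_union_left _ u.2))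
      (algebraMap K M (D : K) * (μ : M)) rfl (fun i => δ i * (D : K) ^ (i : ℕ))
      (by rw [hev]; exact hδ) (by rw [hev]; exact hsq) (fun W _ => ?_)
    · rw [hev] at h1
      exact h1
    · have h2 := hL.1 W
      have e1 : (algebraMap K M (D : K) * (μ : M)) ^ 2 * algebraMap K M (A : K) =
          (μ : M) ^ 2 * algebraMap K M ((D : K) ^ 2 * A) := by
        rw [map_mul, map_pow]
        ring
      have e2 : (algebraMap K M (D : K) * (μ : M)) ^ 3 * algebraMap K M (B : K) =
          (μ : M) ^ 3 * algebraMap K M ((D : K) ^ 3 * B) := by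
        rw [map_mul, map_pow]
        ring
      have e3 : (fun i : Fin 3 => algebraMap K M (δ i * (D : K) ^ (i : ℕ)) /
          (algebraMap K M (D : K) * (μ : M)) ^ (i : ℕ)) =
          fun i : Fin 3 => algebraMap K M (δ i) / (μ : M) ^ (i : ℕ) := by
        funext i
        rw [map_mul, map_pow, mul_pow]
        field_simp
      rw [e1, e2, e3]
      exact h2

end H88AB

end S_H88_AB_Sx
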