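import Mathlib
import Pool.Agent.H42.PC.BDeg
import Pool.Agent.H76.CQ.Qf
import Pool.Agent.H76.MP.M8
import Pool.Agent.H76.PN.P2
import Pool.Agent.H76.YP.Y1
import Pool.Agent.H76.YP.Y4

/-! This file joins several modules to save build time (Y6). -/

set_option autoImplicit false

section S_H76_AB_Fr

set_option autoImplicit false
set_option linter.unusedSectionVars false
open scoped Classical

open WithZero NumberField IsDedekindDomain H76PP H36CY H30MG H30CY Pool.Agent.H42.PC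

namespace H76AB

section One

theorem v_coe {K : Type} [Field K] [NumberField K] (v : HeightOneSpectrum (𝓞 K)) (x : K) :
    Valued.v (algebraMap K (v.adicCompletion K) x) = v.valuation K x :=
  HeightOneSpectrum.valuedAdicCompletion_eq_valuation' v x

variable {K N : Type} [Field K] [NumberField K] [Field N] [NumberField N] [Algebra K N]

theorem stb_of_mem {W : HeightOneSpectrum (𝓞 N)} {g : N ≃ₐ[K] N}
    (h : ∀ x : 𝓞 N, x ∈ W.asIdeal ↔ g • x ∈ W.asIdeal) : g ∈ Dec K W := by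
  obtain ⟨W2, hW2, -⟩ := Pool.Agent.H10.exists_conj g W
  have hWW : W2 = W := by
    apply HeightOneSpectrum.ext
    ext x
    have e1 : x ∈ W2.asIdeal ↔ W2.valuation N (algebraMap (𝓞 N) N x) < 1 :=
      (W2.valuation_lt_one_iff_mem x).symm
    have e2 : W.valuation N (algebraMap (𝓞 N) N (g • x)) < 1 ↔ g • x ∈ W.asIdeal :=
      W.valuation_lt_one_iff_mem (g • x)
    have e3 : algebraMap (𝓞 N) N (g • x) = g (algebraMap (𝓞 N) N x) := rfl
    rw [e1, ← hW2, ← e3, e2]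
    exact (h x).symm
  rw [mem_dec]
  intro y
  rw [hW2, hWW]

theorem mem_of_dec {W : HeightOneSpectrum (𝓞 N)} {g : N ≃ₐ[K] N} (hg : g ∈ Dec K W) (x : 𝓞 N) :
    x ∈ W.asIdeal ↔ g • x ∈ W.asIdeal := by
  rw [← W.valuation_lt_one_iff_mem (K := N), ← W.valuation_lt_one_iff_mem (K := N)]
  have e4 := mem_dec.1 hg (algebraMap (𝓞 N) N x)
  have e3 : algebraMap (𝓞 N) N (g • x) = g (algebraMap (𝓞 N) N x) := rfl
  rw [← e3] at e4
  exact iff_of_eq (congrArg (fun t => t < 1) e4.symm)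

open scoped Pointwise in
theorem stab_of_dec {W : HeightOneSpectrum (𝓞 N)} {g : N ≃ₐ[K] N} (hg : g ∈ Dec K W) :
    g ∈ MulAction.stabilizer (N ≃ₐ[K] N) W.asIdeal := by
  rw [MulAction.mem_stabilizer_iff]
  ext x
  rw [Ideal.mem_pointwise_smul_iff_inv_smul_mem, mem_of_dec hg, smul_inv_smul]

open scoped Pointwise in
/-- The decomposition group of an unramified prime is generated by a Frobenius element. -/
theorem dec_frob [IsGalois K N] {W : HeightOneSpectrum (𝓞 N)} (hv : Un K N (dn K W))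
    {g : N ≃ₐ[K] N} (hg : IsArithFrobAt (𝓞 K) g W.asIdeal) : Dec K W = Subgroup.zpowers g := by
  have hwp := W.isPrime
  have hvp := (dn K W).isPrime
  have hov : W.asIdeal.LiesOver (dn K W).asIdeal := ⟨rfl⟩
  have : Finite (𝓞 K ⧸ (dn K W).asIdeal) := Ideal.finiteQuotientOfFreeOfNeBot _ (dn K W).ne_bot
  have : Finite (𝓞 N ⧸ W.asIdeal) := Ideal.finiteQuotientOfFreeOfNeBot _ W.ne_bot
  have hgD : g ∈ Dec K W := by
    apply stb_of_mem
    intro x
    have h1 := hg.mem_stabilizer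
    rw [MulAction.mem_stabilizer_iff] at h1
    constructor
    · intro hx
      rw [← h1]
      exact Ideal.smul_mem_pointwise_smul _ _ _ hx
    · intro hx
      rw [← h1] at hx
      exact Ideal.smul_mem_pointwise_smul_iff.1 hx
  have hle : Subgroup.zpowers g ≤ Dec K W := by
    rw [Subgroup.zpowers_le]
    exact hgD
  refine (SetLike.coe_injective (Set.eq_of_subset_of_ncard_le (s := (Subgroup.zpowers g : Set (N ≃ₐ[K] N)))
    (t := (Dec K W : Set (N ≃ₐ[K] N))) hle ?_ (Set.toFinite _))).symm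
  -- inertia is trivial
  have hin : Nat.card (Ideal.inertia (N ≃ₐ[K] N) W.asIdeal) = 1 := by
    rw [Nat.card_eq_one_iff_unique]
    refine ⟨⟨fun a b => ?_⟩, ⟨1⟩⟩
    rw [Subtype.ext_iff, hv W hov a.1 (fun x => a.2 x), hv W hov b.1 (fun x => b.2 x)]
  have hst := Ideal.card_stabilizer_eq_card_inertia_mul_finrank (G := N ≃ₐ[K] N)
    (dn K W).asIdeal W.asIdeal
  rw [hin, one_mul] at hst
  have h1 : (Dec K W : Set (N ≃ₐ[K] N)).ncard ≤ W.asIdeal.inertiaDeg (𝓞 K) := by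
    rw [← hst]
    exact Set.ncard_le_ncard (fun h hh => stab_of_dec hh) (Set.toFinite _)
  refine h1.trans ?_
  -- the order of `g` is at least the residue degree
  have h2 : (Subgroup.zpowers g : Set (N ≃ₐ[K] N)).ncard = orderOf g := by
    rw [← Nat.card_zpowers]
    rfl
  rw [h2]
  obtain ⟨q, hq⟩ : ∃ q : ℕ, q = Nat.card (𝓞 K ⧸ W.asIdeal.under (𝓞 K)) := ⟨_, rfl⟩
  have hq2 : 2 ≤ q := by
    rw [hq]
    exact BDeg_two_le (dn K W)
  have hpow : ∀ n : ℕ, ∀ x : 𝓞 N, (g ^ n) • x - x ^ q ^ n ∈ W.asIdeal := by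
    intro n
    induction n with
    | zero =>
      intro x
      rw [pow_zero, one_smul, pow_zero, pow_one, sub_self]
      exact Ideal.zero_mem _
    | succ n ih =>
      intro x
      have h3 := ih (g • x)
      have h4 : g • x - x ^ q ∈ W.asIdeal := by
        have h5 := hg x
        rw [← hq] at h5
        exact h5
      rw [pow_succ, mul_smul, pow_succ, pow_mul']
      have h6 : (g • x) ^ q ^ n - (x ^ q) ^ q ^ n ∈ W.asIdeal :=
        W.asIdeal.mem_of_dvd (sub_dvd_pow_sub_pow _ _ _) h4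
      have h7 := Ideal.add_mem _ h3 h6
      rw [sub_add_sub_cancel] at h7
      exact h7
  have hcard : Nat.card (𝓞 N ⧸ W.asIdeal) ≤ q ^ orderOf g := by
    let _ : Field (𝓞 N ⧸ W.asIdeal) := @Ideal.Quotient.field _ _ W.asIdeal W.isMaximal
    refine BDeg_card_le (F := 𝓞 N ⧸ W.asIdeal) (Nat.one_lt_pow (orderOf_pos g).ne' (by omega)) ?_
    intro y
    obtain ⟨x, rfl⟩ := Ideal.Quotient.mk_surjective y
    have h8 := hpow (orderOf g) x
    rw [pow_orderOf_eq_one, one_smul] at h8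
    have h9 := Ideal.Quotient.eq_zero_iff_mem.2 h8
    rw [map_sub, map_pow] at h9
    exact h9
  have habs := Ideal.absNorm_pow_inertiaDeg (dn K W).asIdeal W.asIdeal
  have e1 : Ideal.absNorm (dn K W).asIdeal = q := by
    rw [hq]
    rfl
  have e2 : Ideal.absNorm W.asIdeal = Nat.card (𝓞 N ⧸ W.asIdeal) := rfl
  rw [e1, e2] at habs
  rw [← habs] at hcard
  exact (Nat.pow_le_pow_iff_right (by omega)).1 hcard

/-- Infinitely many places with given decomposition group `⟨g⟩`. -/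
theorem exists_dec [IsGalois K N] (g : N ≃ₐ[K] N) (F : Set (HeightOneSpectrum (𝓞 K)))
    (hF : F.Finite) : {u : HeightOneSpectrum (𝓞 K) | u ∉ F ∧ Un K N u ∧
      ∃ W : HeightOneSpectrum (𝓞 N), dn K W = u ∧ Dec K W = Subgroup.zpowers g}.Infinite := by
  have h1 := ((H30MQ.frob_infK (K := K) g).sdiff hF).sdiff (un_finite (K := K) (L := N))
  refine h1.mono ?_
  rintro u ⟨⟨⟨g', hg', W, hW, hfr⟩, hu⟩, hun⟩
  have hun' : Un K N u := not_not.1 hun
  have hdn : dn K W = u := HeightOneSpectrum.ext hW.over.symm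
  refine ⟨hu, hun', W, hdn, ?_⟩
  rw [← hg']
  rw [← hdn] at hun'
  exact dec_frob hun' hfr

theorem dec_conj [IsGalois K N] {W W' : HeightOneSpectrum (𝓞 N)} (h : dn K W' = dn K W) :
    ∃ τ : N ≃ₐ[K] N, ∀ s : N ≃ₐ[K] N, s ∈ Dec K W' ↔ τ * s * τ⁻¹ ∈ Dec K W := by
  obtain ⟨g, hg⟩ := conj_exists h
  refine ⟨g, fun s => ?_⟩
  rw [mem_dec, mem_dec]
  constructor
  · intro h z
    have h1 := h (g⁻¹ z)
    rw [hg, hg] at h1
    have h2 : g (g⁻¹ z) = z := g.apply_symm_apply z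
    rw [h2] at h1
    exact h1
  · intro h y
    rw [hg, hg]
    have h1 := h (g y)
    have h2 : (g * s * g⁻¹) (g y) = g (s y) := by
      have h3 : g⁻¹ (g y) = y := g.symm_apply_apply y
      rw [AlgEquiv.mul_apply, AlgEquiv.mul_apply, h3]
    rw [h2] at h1
    exact h1

/-- If one decomposition group above `u` is normal then all are equal. -/
theorem dec_eq [IsGalois K N] {W W' : HeightOneSpectrum (𝓞 N)} (h : dn K W' = dn K W)
    (hn : (Dec K W).Normal) : Dec K W' = Dec K W := by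
  obtain ⟨τ, hτ⟩ := dec_conj h
  ext s
  rw [hτ]
  constructor
  · intro h1
    have h2 := hn.conj_mem _ h1 τ⁻¹
    rw [inv_inv] at h2
    have h3 : τ⁻¹ * (τ * s * τ⁻¹) * τ = s := by group
    rw [h3] at h2
    exact h2
  · intro h1
    exact hn.conj_mem _ h1 τ

/-- The decomposition groups of a place which splits completely are trivial. -/
theorem dec_split [IsGalois K N] {v : HeightOneSpectrum (𝓞 K)} (ι : N →+* v.adicCompletion K)
    (hι : ∀ x : K, ι (algebraMap K N x) = algebraMap K (v.adicCompletion K) x)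
    {W : HeightOneSpectrum (𝓞 N)} (hW : dn K W = v) : Dec K W = ⊥ := by
  obtain ⟨W₁, hW₁⟩ : ∃ W₁, W₁ = H73P2.Cm_pl v ι hι := ⟨_, rfl⟩
  have hmem : ∀ x : 𝓞 N, x ∈ W₁.asIdeal ↔ Valued.v (ι (algebraMap (𝓞 N) N x)) < 1 := by
    intro x
    rw [hW₁]
    exact H73P2.Cm_mem v ι hι x
  have hdn : dn K W₁ = v := by
    apply HeightOneSpectrum.ext
    ext x
    have e1 : x ∈ (dn K W₁).asIdeal ↔ algebraMap (𝓞 K) (𝓞 N) x ∈ W₁.asIdeal := Iff.rfl
    rw [e1, hmem, ← IsScalarTower.algebraMap_apply (𝓞 K) (𝓞 N) N,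
      IsScalarTower.algebraMap_apply (𝓞 K) K N, hι,
      v_coe, v.valuation_lt_one_iff_mem]
  -- the valuation of `W₁` is comparable with the valuation of `K_v`
  have hlt : ∀ z : N, W₁.valuation N z < 1 → Valued.v (ι z) < 1 := by
    intro z hz
    obtain ⟨n, ⟨d, hd⟩, hnd⟩ := HeightOneSpectrum.exists_primeCompl_mul_eq_of_integer W₁ z hz.le
    have hd' : d ∉ W₁.asIdeal := hd
    have hnd' : z * algebraMap (𝓞 N) N d = algebraMap (𝓞 N) N n := hnd
    have hWd : W₁.valuation N (algebraMap (𝓞 N) N d) = 1 :=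
      (W₁.valuation_eq_one_iff_notMem (K := N) (r := d)).2 hd'
    have hn : n ∈ W₁.asIdeal := by
      rw [← W₁.valuation_lt_one_iff_mem (K := N)]
      have h0 : W₁.valuation N (algebraMap (𝓞 N) N n) < 1 := by
        rw [← hnd', map_mul, hWd, mul_one]
        exact hz
      exact h0
    have hvd : Valued.v (ι (algebraMap (𝓞 N) N d)) = 1 := by
      have h1 : ¬ Valued.v (ι (algebraMap (𝓞 N) N d)) < 1 := fun h => hd' ((hmem d).2 h)
      have h2 : Valued.v (ι (algebraMap (𝓞 N) N d)) ≤ 1 := by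
        refine H73P2.Cm_pl_le v ι hι _ ?_
        exact HeightOneSpectrum.valuation_le_one _ _
      exact le_antisymm h2 (not_lt.1 h1)
    have h3 := congrArg (fun t => Valued.v (ι t)) hnd'
    simp only [map_mul, hvd, mul_one] at h3
    rw [h3]
    exact (hmem n).1 hn
  have hle : ∀ z : N, Valued.v (ι z) ≤ 1 → W₁.valuation N z ≤ 1 := by
    intro z hz
    by_contra hcon
    rw [not_le] at hcon
    have hz0 : z ≠ 0 := by
      rintro rfl
      rw [map_zero] at hcon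
      exact absurd hcon (not_lt.2 zero_le_one)
    have h1 : W₁.valuation N z⁻¹ < 1 := by
      rw [map_inv₀]
      exact inv_lt_one_of_one_lt₀ hcon
    have h2 := hlt _ h1
    rw [map_inv₀, map_inv₀] at h2
    have h3 : 0 < Valued.v (ι z) := by
      rw [zero_lt_iff, Valuation.ne_zero_iff, map_ne_zero]
      exact hz0
    exact absurd ((inv_lt_one₀ h3).1 h2) (not_lt.2 hz)
  have h₁ : ∀ g : N ≃ₐ[K] N, Stb K W₁ g → g = 1 := by
    intro g hg
    apply AlgEquiv.ext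
    intro x
    show g x = x
    by_contra hne
    have hne' : g x - x ≠ 0 := sub_ne_zero.2 hne
    -- a small element of `K`
    obtain ⟨π, hπ⟩ := v.valuation_exists_uniformizer K
    have hπ0 : π ≠ 0 := by
      rintro rfl
      rw [map_zero] at hπ
      exact absurd hπ.symm (by simp)
    have hπ1 : W₁.valuation N (algebraMap K N π) < 1 := by
      obtain ⟨e, he, hv⟩ := val_dn_pow (N₀ := K) W₁
      rw [hv, hdn, hπ]
      refine pow_lt_one₀ zero_le ?_ he.ne'
      exact (WithZero.exp_lt_exp.2 (by norm_num : (-1 : ℤ) < 0)).trans_eq WithZero.exp_zero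
    obtain ⟨n, hn⟩ := exists_pow_lt₀ hπ1 (Units.mk0 (W₁.valuation N (g x - x))
      ((Valuation.ne_zero_iff _).2 hne'))
    rw [Units.val_mk0] at hn
    have hιπ : ι (algebraMap K N (π ^ n)) ≠ 0 :=
      (map_ne_zero _).2 ((map_ne_zero _).2 (pow_ne_zero _ hπ0))
    obtain ⟨t, ht⟩ := (HeightOneSpectrum.denseRange_algebraMap (K := K) v).mem_nhds
      (Te_nhd (ι x) hιπ)
    have ht' : Valued.v (algebraMap K (v.adicCompletion K) t - ι x) <
        Valued.v (ι (algebraMap K N (π ^ n))) := ht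
    have h4 : Valued.v (ι ((x - algebraMap K N t) / algebraMap K N (π ^ n))) ≤ 1 := by
      rw [map_div₀, map_div₀, map_sub, hι, Valuation.map_sub_swap]
      refine (div_le_one₀ ?_).2 ht'.le
      rw [zero_lt_iff, Valuation.ne_zero_iff]
      exact hιπ
    have h5 := hle _ h4
    rw [map_div₀] at h5
    have h6 : W₁.valuation N (x - algebraMap K N t) ≤ W₁.valuation N (algebraMap K N (π ^ n)) := by
      refine (div_le_one₀ ?_).1 h5
      rw [zero_lt_iff, Valuation.ne_zero_iff, map_ne_zero]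
      exact pow_ne_zero _ hπ0
    have h7 : g x - x = g (x - algebraMap K N t) - (x - algebraMap K N t) := by
      rw [map_sub, g.commutes]
      ring
    have h8 : W₁.valuation N (g x - x) ≤ W₁.valuation N (x - algebraMap K N t) := by
      rw [h7]
      refine (Valuation.map_sub _ _ _).trans ?_
      rw [hg, max_self]
    rw [map_pow, map_pow] at h6
    exact absurd (h8.trans h6) (not_le.2 hn)
  rw [eq_bot_iff]
  intro g hg
  rw [Subgroup.mem_bot]
  exact triv_conj (W := W₁) (W' := W) (hW.trans hdn.symm) h₁ g hg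

end One

section Two

variable {K N₀ N : Type} [Field K] [NumberField K] [Field N₀] [NumberField N₀] [Field N] [NumberField N]
  [Algebra K N₀] [Algebra N₀ N] [Algebra K N] [IsScalarTower K N₀ N]

/-- The decomposition group maps onto the decomposition group. -/
theorem dec_map [IsGalois K N₀] [IsGalois K N] (W : HeightOneSpectrum (𝓞 N)) :
    (Dec K W).map (AlgEquiv.restrictNormalHom N₀) = Dec K (dn N₀ W) := by
  ext g
  rw [Subgroup.mem_map]
  constructor
  · rintro ⟨h, hh, rfl⟩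
    exact stb_down hh
  · intro hg
    obtain ⟨h, hh, e⟩ := stb_lift (W := W) hg
    exact ⟨h, hh, e⟩

/-- Elements of the decomposition group are trivial on an extension in which the place splits completely. -/
theorem dec_triv [IsGalois K N₀] [IsGalois K N] {W : HeightOneSpectrum (𝓞 N)}
    (ι : N₀ →+* (dn K W).adicCompletion K)
    (hι : ∀ x : K, ι (algebraMap K N₀ x) = algebraMap K ((dn K W).adicCompletion K) x)
    {g : N ≃ₐ[K] N} (hg : g ∈ Dec K W) (x : N₀) : g (algebraMap N₀ N x) = algebraMap N₀ N x := by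
  have hdn : dn K (dn N₀ W) = dn K W := dn_tower W
  have h1 : AlgEquiv.restrictNormalHom N₀ g ∈ Dec K (dn N₀ W) := stb_down hg
  rw [dec_split ι hι hdn, Subgroup.mem_bot] at h1
  have h2 : algebraMap N₀ N (AlgEquiv.restrictNormalHom N₀ g x) = g (algebraMap N₀ N x) :=
    AlgEquiv.restrictNormal_commutes g N₀ x
  rw [h1] at h2
  exact h2.symm

end Two

end H76AB

end S_H76_AB_Fr

section S_H30_MG_Cx

set_option autoImplicit false
set_option linter.unusedSectionVars false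
open scoped Classical

open WithZero NumberField IsDedekindDomain H76PP H36CY H36MX H38RT H36MG H73P2 H76AB
open H38T1 (SC sc scu rep rep_ne sc_rep sc_mul sc_eq_zero sc_surj OddP eo la)
open H76MX (Kv)

namespace H30MG

section Grp

variable {G : Type*} [Group G]

/-- Commutative, and the cyclic subgroups are normal. -/
def NC (D : Subgroup G) : Prop :=
  (∀ x ∈ D, ∀ y ∈ D, x * y = y * x) ∧ ∀ x ∈ D, ∀ y : G, y * x * y⁻¹ ∈ Subgroup.zpowers x

theorem NC.mono {D D' : Subgroup G} (h : NC D) (hle : D' ≤ D) : NC D' :=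
  ⟨fun x hx y hy => h.1 x (hle hx) y (hle hy), fun x hx y => h.2 x (hle hx) y⟩

theorem NC.normal {D : Subgroup G} (h : NC D) : D.Normal := by
  refine ⟨fun x hx y => ?_⟩
  exact (Subgroup.zpowers_le.2 hx) (h.2 x hx y)

/-- `D` is cyclic modulo `T`. -/
def CyT (D T : Subgroup G) : Prop := ∃ g ∈ D, ∀ h ∈ D, ∃ i : ℕ, ∃ c ∈ T, h = g ^ i * c

/-- The elements of `D` which are squares modulo `T`. -/
def sqs (D T : Subgroup G) (hD : ∀ x ∈ D, ∀ y ∈ D, x * y = y * x) : Subgroup G where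
  carrier := {h | h ∈ D ∧ ∃ x ∈ D, h * (x ^ 2)⁻¹ ∈ T}
  mul_mem' := by
    rintro a b ⟨ha, x, hx, hxa⟩ ⟨hb, y, hy, hyb⟩
    refine ⟨D.mul_mem ha hb, x * y, D.mul_mem hx hy, ?_⟩
    have c1 : Commute x y := hD x hx y hy
    have c2 : Commute b (x ^ 2)⁻¹ := hD _ hb _ (D.inv_mem (D.pow_mem hx 2))
    have c3 : Commute (x ^ 2)⁻¹ (y ^ 2)⁻¹ :=
      hD _ (D.inv_mem (D.pow_mem hx 2)) _ (D.inv_mem (D.pow_mem hy 2))
    have e : a * b * ((x * y) ^ 2)⁻¹ = (a * (x ^ 2)⁻¹) * (b * (y ^ 2)⁻¹) := by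
      rw [c1.mul_pow, mul_inv_rev, ← c3.eq, mul_assoc, mul_assoc, ← mul_assoc b, c2.eq, mul_assoc]
    rw [e]
    exact T.mul_mem hxa hyb
  one_mem' := ⟨D.one_mem, 1, D.one_mem, by simp⟩
  inv_mem' := by
    rintro a ⟨ha, x, hx, hxa⟩
    refine ⟨D.inv_mem ha, x⁻¹, D.inv_mem hx, ?_⟩
    have c2 : Commute a (x ^ 2)⁻¹ := hD _ ha _ (D.inv_mem (D.pow_mem hx 2))
    have e : a⁻¹ * ((x⁻¹) ^ 2)⁻¹ = (a * (x ^ 2)⁻¹)⁻¹ := by
      rw [c2.mul_inv, inv_pow]
    rw [e]
    exact T.inv_mem hxa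

end Grp

section Anti

variable {K F : Type} [Field K] [NumberField K] [Field F] [NumberField F] [Algebra K F]

/-- The group `D` acts on `t` by the sign which is `-1` on `S`. -/
def Anti (D : Subgroup (F ≃ₐ[K] F)) (S : Set (F ≃ₐ[K] F)) (t : F) : Prop :=
  t ≠ 0 ∧ (∀ h ∈ D, h ∈ S → h t = -t) ∧ ∀ h ∈ D, h ∉ S → h t = t

theorem exists_anti [IsGalois K F] (hp : IsPGroup 2 (F ≃ₐ[K] F)) {D T : Subgroup (F ≃ₐ[K] F)}
    (hD : ∀ x ∈ D, ∀ y ∈ D, x * y = y * x) (hcyc : CyT D T) (hDT : ¬ D ≤ T) :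
    ∃ t : F, Anti D (clS D T) t := by
  have hfd : FiniteDimensional K F := Module.Finite.of_restrictScalars_finite ℚ K F
  obtain ⟨g, hg⟩ := cl_nonempty hD hcyc hDT
  have hg' := (mem_cl hp hD hcyc).1 hg
  have hmem : ∀ h, h ∈ sqs D T hD ↔ h ∈ D ∧ ∃ x ∈ D, h * (x ^ 2)⁻¹ ∈ T := fun _ => Iff.rfl
  have hgH : g ∉ sqs D T hD := by
    rintro ⟨-, x, hx, hxT⟩
    exact hg'.2 x hx hxT
  have hg2 : g ^ 2 ∈ sqs D T hD :=
    (hmem _).2 ⟨D.pow_mem hg.1 2, g, hg.1, by rw [mul_inv_cancel]; exact T.one_mem⟩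
  obtain ⟨t, ht0, htH, htg⟩ := ex_anti (sqs D T hD) hgH hg2 (by
    intro h hh
    have h1 : h * g = g * h := hD h hh.1 g hg.1
    have h2 : g⁻¹ * h * g = h := by
      rw [mul_assoc, h1, ← mul_assoc, inv_mul_cancel, one_mul]
    rw [h2]
    exact hh)
  refine ⟨t, ht0, fun h hh hS => ?_, fun h hh hS => ?_⟩
  · obtain ⟨i, hi⟩ := hg.2.2 h hh
    have hi' : h * (g ^ i)⁻¹ ∈ T := by
      have h1 := T.inv_mem hi
      rwa [mul_inv_rev, inv_inv] at h1
    rcases Nat.even_or_odd' i with ⟨k, rfl | rfl⟩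
    · exfalso
      apply ((mem_cl hp hD hcyc).1 hS).2 (g ^ k) (D.pow_mem hg.1 k)
      rw [← pow_mul, mul_comm k 2]
      exact hi'
    · have h2 : h * g⁻¹ ∈ sqs D T hD := by
        refine (hmem _).2 ⟨D.mul_mem hh (D.inv_mem hg.1), g ^ k, D.pow_mem hg.1 k, ?_⟩
        have e : h * g⁻¹ * ((g ^ k) ^ 2)⁻¹ = h * (g ^ (2 * k + 1))⁻¹ := by
          rw [← pow_mul, mul_comm k 2, pow_succ, mul_inv_rev, mul_assoc]
        rw [e]
        exact hi'
      have h3 : h t = (h * g⁻¹) (g t) := by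
        have h4 : h = h * g⁻¹ * g := by group
        exact congrArg (fun σ : F ≃ₐ[K] F => σ t) h4
      rw [h3, htg, map_neg, htH _ h2]
  · apply htH
    by_contra hcon
    apply hS
    refine (mem_cl hp hD hcyc).2 ⟨hh, fun x hx hxT => hcon ?_⟩
    exact (hmem _).2 ⟨hh, x, hx, hxT⟩

/-- `m` is the square of an element of `F` on which the decomposition group acts by the sign of `S`. -/
def IsM {u : HeightOneSpectrum (𝓞 K)} {w₀ : HeightOneSpectrum (𝓞 F)}
    (ho : Pool.Agent.H10.Over u w₀) (S : Set (F ≃ₐ[K] F)) (m : u.adicCompletion K) : Prop :=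
  ∃ t : F, Anti (Dec K w₀) S t ∧ ho.map m = algebraMap F (w₀.adicCompletion F) t ^ 2

theorem exists_isM [IsGalois K F] {u : HeightOneSpectrum (𝓞 K)} {w₀ : HeightOneSpectrum (𝓞 F)}
    (hu : dn K w₀ = u) (ho : Pool.Agent.H10.Over u w₀) {S : Set (F ≃ₐ[K] F)} {t : F}
    (ht : Anti (Dec K w₀) S t) : ∃ m : u.adicCompletion K,
      ho.map m = algebraMap F (w₀.adicCompletion F) t ^ 2 := by
  subst hu
  refine fixed_range (K := K) fun g hg => ?_
  rw [map_pow, ac_coe hg]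
  by_cases hS : g ∈ S
  · rw [ht.2.1 g hg hS, map_neg, neg_sq]
  · rw [ht.2.2 g hg hS]

/-- An element is not a square of the completion of `K` if some element of the decomposition group changes
the sign of its square root. -/
theorem nsq_of {w₀ : HeightOneSpectrum (𝓞 F)} {t : F} (ht0 : t ≠ 0) {g : F ≃ₐ[K] F}
    (hg : g ∈ Dec K w₀) (hgt : g t = -t) {m : (dn K w₀).adicCompletion K}
    (hm : (over_dn (K := K) w₀).map m = algebraMap F (w₀.adicCompletion F) t ^ 2) :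
    ¬ IsSquare m := by
  rintro ⟨c, hc⟩
  have _ := char_zero w₀
  have h1 : (algebraMap F (w₀.adicCompletion F) t) ^ 2 = (over_dn (K := K) w₀).map c ^ 2 := by
    rw [← hm, hc, map_mul, sq]
  have hfix : ac w₀ g ((over_dn (K := K) w₀).map c) = (over_dn (K := K) w₀).map c :=
    ac_fix (M := K) hg (fun x => g.commutes x) c
  have h2 : ac w₀ g (algebraMap F (w₀.adicCompletion F) t) =
      algebraMap F (w₀.adicCompletion F) t := by
    rcases sq_eq_sq_iff_eq_or_eq_neg.1 h1 with h | h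
    · rw [h, hfix]
    · rw [h, map_neg, hfix]
  rw [ac_coe hg, hgt, map_neg] at h2
  have h3 : algebraMap F (w₀.adicCompletion F) t ≠ 0 := (map_ne_zero _).2 ht0
  have h4 : 2 * algebraMap F (w₀.adicCompletion F) t = 0 := by linear_combination -h2
  exact (mul_ne_zero two_ne_zero h3) h4

theorem isM_ns {u : HeightOneSpectrum (𝓞 K)} {w₀ : HeightOneSpectrum (𝓞 F)}
    (hu : dn K w₀ = u) {ho : Pool.Agent.H10.Over u w₀} {S : Set (F ≃ₐ[K] F)}
    {m : u.adicCompletion K} (hm : IsM ho S m) {g : F ≃ₐ[K] F} (hg : g ∈ Dec K w₀) (hgS : g ∈ S) :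
    m ≠ 0 ∧ ¬ IsSquare m := by
  subst hu
  obtain ⟨t, ht, hmt⟩ := hm
  have h1 := nsq_of ht.1 hg (ht.2.1 g hg hgS) hmt
  refine ⟨?_, h1⟩
  rintro rfl
  exact h1 (IsSquare.zero)

end Anti

section Val

variable {K N : Type} [Field K] [NumberField K] [Field N] [NumberField N] [Algebra K N]

/-- The valuations at an unramified place. -/
theorem val_unr {W : HeightOneSpectrum (𝓞 N)} (h : ¬ Ram K W) (x : (dn K W).adicCompletion K) :
    Valued.v ((over_dn (K := K) W).map x) = Valued.v x := by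
  by_cases hx : x = 0
  · rw [hx, map_zero, map_zero, map_zero]
  obtain ⟨y, hy⟩ := near_coe (dn K W) x hx
  have h1 : Valued.v (algebraMap K ((dn K W).adicCompletion K) y) = Valued.v x :=
    Valuation.map_eq_of_sub_lt _ hy
  have h2 : Valued.v ((over_dn (K := K) W).map (algebraMap K ((dn K W).adicCompletion K) y)) =
      Valued.v ((over_dn (K := K) W).map x) := by
    apply Valuation.map_eq_of_sub_lt
    rw [← map_sub]
    exact map_lt _ hy
  rw [← h2, ← h1, Pool.Agent.H10.Over.map_algebraMap, val_coe, val_coe]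
  have hy0 : y ≠ 0 := by
    rintro rfl
    rw [map_zero, map_zero] at h1
    exact hx ((Valuation.zero_iff _).1 h1.symm)
  have h3 := unram_ord h hy0
  unfold ord at h3
  have h4 : W.valuation N (algebraMap K N y) ≠ 0 :=
    (Valuation.ne_zero_iff _).2 ((map_ne_zero _).2 hy0)
  have h5 : (dn K W).valuation K y ≠ 0 := (Valuation.ne_zero_iff _).2 hy0
  rw [← exp_log h4, ← exp_log h5]
  congr 1
  linarith

end Val

end H30MG

end S_H30_MG_Cx

section S_H30_MG_Cy

set_option autoImplicit false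
set_option linter.unusedSectionVars false
open scoped Classical

open WithZero NumberField IsDedekindDomain H76PP H36CY H36MX H38RT H36MG H73P2 H76AB
open H38T1 (SC sc scu rep rep_ne sc_rep sc_mul sc_eq_zero sc_surj OddP eo la)
open H76MX (Kv)

namespace H30MG

variable {K F M N : Type} [Field K] [NumberField K] [Field F] [NumberField F] [Field M]
  [NumberField M] [Field N] [NumberField N] [Algebra K F] [Algebra K M] [Algebra K N] [Algebra M N]
  [Algebra F N] [IsScalarTower K M N] [IsScalarTower K F N] [IsGalois K F] [IsGalois K N]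

/-- The decomposition at `W` with respect to `U`. -/
def DCase {K N : Type} [Field K] [NumberField K] [Field N] [NumberField N] [Algebra K N]
    (W : HeightOneSpectrum (𝓞 N)) (U : Subgroup (N ≃ₐ[K] N)) (M : Type) [Field M] [Algebra M N]
    (ρ : N) : Prop :=
  Dec K W ≤ U ∨ ∃ g ∈ Dec K W, ∃ r : ℕ, (∀ h ∈ Dec K W, ∃ i : ℕ, ∃ c ∈ U, h = g ^ i * c) ∧
    (∀ x : M, (g ^ 2 ^ r) (algebraMap M N x) = algebraMap M N x) ∧ (g ^ 2 ^ r) ρ = -ρ ∧
    (g ^ 2 ^ r) ^ 2 ∈ U

theorem res_apply (h : N ≃ₐ[K] N) (t : F) :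
    algebraMap F N (AlgEquiv.restrictNormalHom F h t) = h (algebraMap F N t) :=
  AlgEquiv.restrictNormal_commutes h F t

section Two

variable {W : HeightOneSpectrum (𝓞 N)} {U : Subgroup (N ≃ₐ[K] N)} {T : Subgroup (F ≃ₐ[K] F)}

/-- The first case. -/
theorem dec_le_T (hT : ∀ h ∈ Dec K W, AlgEquiv.restrictNormalHom F h ∈ T ↔ h ∈ U)
    (h : Dec K W ≤ U) : Dec K (dn F W) ≤ T := by
  rw [← dec_map (N₀ := F) W]
  rintro _ ⟨g, hg, rfl⟩
  exact (hT g hg).2 (h hg)

theorem dec_le_U (hT : ∀ h ∈ Dec K W, AlgEquiv.restrictNormalHom F h ∈ T ↔ h ∈ U)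
    (h : Dec K (dn F W) ≤ T) : Dec K W ≤ U := by
  intro g hg
  refine (hT g hg).1 (h ?_)
  rw [← dec_map (N₀ := F) W]
  exact ⟨g, hg, rfl⟩

theorem pow_U {g : N ≃ₐ[K] N} (hU : U.Normal) {i : ℕ} {c : N ≃ₐ[K] N} (hc : c ∈ U) :
    g ^ i * (g ^ i * c)⁻¹ ∈ U := by
  have e : g ^ i * (g ^ i * c)⁻¹ = g ^ i * c⁻¹ * (g ^ i)⁻¹ := by group
  rw [e]
  exact hU.conj_mem _ (U.inv_mem hc) _

/-- A generator of the decomposition group modulo `U` is in the set `clS`. -/
theorem gen_cl (hU : U.Normal) (hT : ∀ h ∈ Dec K W, AlgEquiv.restrictNormalHom F h ∈ T ↔ h ∈ U)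
    {g : N ≃ₐ[K] N} (hg : g ∈ Dec K W) (hgU : g ∉ U)
    (hgen : ∀ h ∈ Dec K W, ∃ i : ℕ, ∃ c ∈ U, h = g ^ i * c) :
    AlgEquiv.restrictNormalHom F g ∈ clS (Dec K (dn F W)) T := by
  refine ⟨?_, fun h => hgU ((hT g hg).1 h), fun h' hh' => ?_⟩
  · rw [← dec_map (N₀ := F) W]
    exact ⟨g, hg, rfl⟩
  · rw [← dec_map (N₀ := F) W] at hh'
    obtain ⟨h, hh, rfl⟩ := hh'
    obtain ⟨i, c, hc, rfl⟩ := hgen h hh
    refine ⟨i, ?_⟩
    rw [← map_pow, ← map_inv, ← map_mul]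
    exact (hT _ ((Dec K W).mul_mem ((Dec K W).pow_mem hg i) ((Dec K W).inv_mem hh))).2
      (pow_U hU hc)

/-- The element which is used at `W`. -/
theorem anti_up {t : F} {S : Set (F ≃ₐ[K] F)} (ht : Anti (Dec K (dn F W)) S t) {h : N ≃ₐ[K] N}
    (hh : h ∈ Dec K W) :
    (AlgEquiv.restrictNormalHom F h ∈ S → h (algebraMap F N t) = -algebraMap F N t) ∧
    (AlgEquiv.restrictNormalHom F h ∉ S → h (algebraMap F N t) = algebraMap F N t) := by
  have h1 : AlgEquiv.restrictNormalHom F h ∈ Dec K (dn F W) := by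
    rw [← dec_map (N₀ := F) W]
    exact ⟨h, hh, rfl⟩
  constructor
  · intro hS
    rw [← res_apply, ht.2.1 _ h1 hS, map_neg]
  · intro hS
    rw [← res_apply, ht.2.2 _ h1 hS]

theorem m_up (ho : Pool.Agent.H10.Over (dn K W) (dn F W)) {m : (dn K W).adicCompletion K} {t : F}
    (hm : ho.map m = algebraMap F ((dn F W).adicCompletion F) t ^ 2) :
    (over_dn (K := K) W).map m = algebraMap N (W.adicCompletion N) (algebraMap F N t) ^ 2 := by
  have h1 := map_map (K := K) (M := F) W m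
  have h2 : (over_mid (k := K) (k' := F) W).map m =
      algebraMap F ((dn F W).adicCompletion F) t ^ 2 := hm
  rw [h2, map_pow, Pool.Agent.H10.Over.map_algebraMap] at h1
  exact h1.symm

theorem gU_of {μρ : N} (hρ0 : μρ ≠ 0) (hUρ : ∀ h ∈ U, h μρ = μρ) {g : N ≃ₐ[K] N} {r : ℕ}
    (hgρ : (g ^ 2 ^ r) μρ = -μρ) : g ∉ U := by
  intro hgU
  have h1 := hUρ _ (U.pow_mem hgU (2 ^ r))
  rw [hgρ] at h1
  have h2 : 2 * μρ = 0 := by linear_combination -h1
  exact (mul_ne_zero two_ne_zero hρ0) h2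

/-- **The class at a place above two.** -/
theorem loc_two {u : HeightOneSpectrum (𝓞 K)} {w₀ : HeightOneSpectrum (𝓞 F)} (hW : dn F W = w₀)
    (hu : dn K w₀ = u) (ho : Pool.Agent.H10.Over u w₀) (h2 : u.valuation K 2 < 1) {a b : Kv u}
    {e : Fin 3 → Kv u} (hs : Spl a b e) (hδ : IsSquare (e 1 - e 0))
    (h1 : Valued.v (e 1 - e 0) = 1) (h16 : Valued.v (e 2 - e 1) = Valued.v (16 : Kv u))
    {μ : M} {ρ : N} (hρ0 : ρ ≠ 0) (hρ : ρ ^ 2 = algebraMap M N μ) (hU : U.Normal)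
    (hUM : ∀ h ∈ U, ∀ x : M, h (algebraMap M N x) = algebraMap M N x) (hUρ : ∀ h ∈ U, h ρ = ρ)
    (hT : ∀ h ∈ Dec K W, AlgEquiv.restrictNormalHom F h ∈ T ↔ h ∈ U) (hcase : DCase W U M ρ)
    {g0 : Kv u} (hg0 : Unr g0) {m : Kv u} (hm : ¬ Dec K w₀ ≤ T → IsM ho (clS (Dec K w₀) T) m) :
    LocCl u e μ (if Dec K w₀ ≤ T then sc g0 else sc m) := by
  subst hW
  have hKW : dn K (dn F W) = dn K W := H30CY.dn_tower W
  rw [hKW] at hu
  subst hu
  rcases hcase with h | ⟨g, hg, r, hgen, hgM, hgρ, -⟩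
  · rw [if_pos (dec_le_T hT h)]
    exact locCl_two_triv h2 hs hδ h1 h16 hρ0 hρ (fun g hg => hUM g (h hg))
      (fun g hg => hUρ g (h hg)) hg0
  · have hgU : g ∉ U := gU_of hρ0 hUρ hgρ
    have hnT : ¬ Dec K (dn F W) ≤ T := fun h => hgU (dec_le_U hT h hg)
    rw [if_neg hnT]
    obtain ⟨t, ht, hmt⟩ := hm hnT
    refine locCl_two_cyc h2 hs hδ h1 h16 hρ0 hρ U hUM hUρ hg hgen hgM hgρ
      (ρ₀ := algebraMap F N t) ((map_ne_zero _).2 ht.1) (fun h hh hhU => ?_) ?_ (m_up ho hmt)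
    · exact (anti_up ht hh).2 fun hS => cl_notMem hS ((hT h hh).2 hhU)
    · exact (anti_up ht hg).1 (gen_cl hU hT hg hgU hgen)

/-- Valuations of elements with a square root in `N`. -/
theorem val_even {V : HeightOneSpectrum (𝓞 N)} {ρ : N} (hρ0 : ρ ≠ 0) {L : Type} [Field L]
    {c : Valuation L (WithZero (Multiplicative ℤ))} {x : L}
    (h : c x = V.valuation N ρ ^ 2) : ∃ n : ℤ, c x = exp (2 * n) := by
  have h1 : V.valuation N ρ ≠ 0 := (Valuation.ne_zero_iff _).2 hρ0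
  refine ⟨log (V.valuation N ρ), ?_⟩
  rw [h]
  conv_lhs => rw [← exp_log h1]
  rw [← exp_nsmul, nsmul_eq_mul]
  norm_num

/-- **The class at an auxiliary place.** -/
theorem loc_odd {u : HeightOneSpectrum (𝓞 K)} {w₀ : HeightOneSpectrum (𝓞 F)} (hW : dn F W = w₀)
    (hu : dn K w₀ = u) (hp : IsPGroup 2 (F ≃ₐ[K] F))
    (hD : ∀ x ∈ Dec K w₀, ∀ y ∈ Dec K w₀, x * y = y * x) (hcyc : CyT (Dec K w₀) T)
    (hunr : ¬ Ram K W) (hodd : OddP u) {a b : Kv u} {e : Fin 3 → Kv u} (hs : Spl a b e)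
    (h1 : Valued.v (e 1 - e 0) = 1) (hτ : Valued.v (e 2 - e 1) < 1) {η : SC (Kv u)}
    (hη : ∀ m : Kv u, ¬ IsSquare m → (∃ n : ℤ, Valued.v m = exp (2 * n)) → sc m = η)
    {s : ZMod 2} (hsig : sc (e 1 - e 0) = if s = 0 then 0 else η)
    {μ : M} {ρ : N} (hρ0 : ρ ≠ 0) (hρ : ρ ^ 2 = algebraMap M N μ) (hU : U.Normal)
    (hUM : ∀ h ∈ U, ∀ x : M, h (algebraMap M N x) = algebraMap M N x) (hUρ : ∀ h ∈ U, h ρ = ρ)
    (hT : ∀ h ∈ Dec K W, AlgEquiv.restrictNormalHom F h ∈ T ↔ h ∈ U) (hcase : DCase W U M ρ) :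
    LocCl u e μ (if Dec K w₀ ≤ T then (if s = 0 then 0 else η) else
      if ∀ x ∈ Dec K w₀, x ^ 2 ∈ T then (if s = 0 then η else 0) else η) := by
  subst hW
  have hKW : dn K (dn F W) = dn K W := H30CY.dn_tower W
  rw [hKW] at hu
  subst hu
  have he0 : e 1 - e 0 ≠ 0 := sub_ne_zero.2 hs.ne01.symm
  have hμ0 : μ ≠ 0 := by
    rintro rfl
    rw [map_zero] at hρ
    exact hρ0 (pow_eq_zero_iff two_ne_zero |>.1 hρ)
  obtain ⟨n, hμv⟩ : ∃ n : ℤ, (dn M W).valuation M μ = exp (2 * n) := by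
    refine val_even (V := W) hρ0 ?_
    have h3 := (unram_mid (k := M) hunr).1 μ hμ0
    unfold ord at h3
    have h4 : W.valuation N (algebraMap M N μ) ≠ 0 :=
      (Valuation.ne_zero_iff _).2 ((map_ne_zero _).2 hμ0)
    have h5 : (dn M W).valuation M μ ≠ 0 := (Valuation.ne_zero_iff _).2 hμ0
    rw [← map_pow, hρ, ← exp_log h4, ← exp_log h5]
    congr 1
    linarith
  have hηη : η + η = 0 := by
    have h2 := H38T1.SC.two_smul η
    rwa [two_nsmul] at h2
  rcases hcase with h | ⟨g, hg, r, hgen, hgM, hgρ, hg2⟩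
  · -- the decomposition group is in `U`
    rw [if_pos (dec_le_T hT h), ← hsig]
    obtain ⟨c, hc⟩ := fixed_range (K := K) (W := W) (y := algebraMap N (W.adicCompletion N) ρ)
      fun g hg => by rw [ac_coe hg, hUρ g (h hg)]
    have hc0 : c ≠ 0 := by
      rintro rfl
      rw [map_zero] at hc
      exact hρ0 ((map_eq_zero _).1 hc.symm)
    have h3 := locCl_odd_one hodd hs h1 hτ hρ0 hρ hμv (fun g hg => hUM g (h hg)) (m := c ^ 2)
      (by rw [map_pow, hc])
    have h4 : sc (c ^ 2 * (e 1 - e 0)) = sc (e 1 - e 0) := by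
      rw [sc_mul (pow_ne_zero 2 hc0) he0, (sc_eq_zero (pow_ne_zero 2 hc0)).2 ⟨c, sq c⟩, zero_add]
    rw [h4] at h3
    exact h3
  · have hgU : g ∉ U := gU_of hρ0 hUρ hgρ
    have hnT : ¬ Dec K (dn F W) ≤ T := fun h => hgU (dec_le_U hT h hg)
    rw [if_neg hnT]
    rcases r with _ | r
    · -- the decomposition group fixes `M`
      rw [pow_zero, pow_one] at hgρ hg2
      have hgM' : ∀ x : M, g (algebraMap M N x) = algebraMap M N x := fun x => by
        have h3 := hgM x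
        rwa [pow_zero, pow_one] at h3
      have hDM : ∀ h ∈ Dec K W, ∀ x : M, h (algebraMap M N x) = algebraMap M N x := by
        intro h hh x
        obtain ⟨i, c, hc, rfl⟩ := hgen h hh
        rw [AlgEquiv.mul_apply, hUM c hc]
        clear hh
        induction i with
        | zero => rfl
        | succ i ih => rw [pow_succ, AlgEquiv.mul_apply, hgM', ih]
      have hsq : ∀ x ∈ Dec K (dn F W), x ^ 2 ∈ T := by
        intro x hx
        rw [← dec_map (N₀ := F) W] at hx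
        obtain ⟨h, hh, rfl⟩ := hx
        rw [← map_pow]
        refine (hT _ ((Dec K W).pow_mem hh 2)).2 ?_
        obtain ⟨i, c, hc, rfl⟩ := hgen h hh
        have h3 : (g ^ i * c) ^ 2 = (g ^ i * c * (g ^ i)⁻¹) * (g ^ 2) ^ i * c := by
          rw [sq (g ^ i * c), ← pow_mul, mul_comm 2 i, pow_mul, sq (g ^ i)]
          group
        rw [h3]
        exact U.mul_mem (U.mul_mem (hU.conj_mem _ hc _) (U.pow_mem hg2 i)) hc
      rw [if_pos hsq]
      obtain ⟨m, hm⟩ := fixed_range (K := K) (W := W)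
        (y := algebraMap N (W.adicCompletion N) ρ ^ 2) fun h hh => by
          rw [← map_pow, ac_coe hh, hρ, hDM h hh]
      have hns : ¬ IsSquare m := nsq_of hρ0 hg hgρ hm
      have hm0 : m ≠ 0 := by
        rintro rfl
        exact hns IsSquare.zero
      have hmη : sc m = η := by
        refine hη m hns (val_even (V := W) hρ0 ?_)
        rw [← val_unr hunr, hm, map_pow, val_coe]
      have h3 := locCl_odd_one hodd hs h1 hτ hρ0 hρ hμv hDM hm
      rw [sc_mul hm0 he0, hmη, hsig] at h3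
      by_cases hs0 : s = 0
      · rw [if_pos hs0]
        rw [if_pos hs0, add_zero] at h3
        exact h3
      · rw [if_neg hs0]
        rw [if_neg hs0, hηη] at h3
        exact h3
    · have hnsq : ¬ ∀ x ∈ Dec K (dn F W), x ^ 2 ∈ T := by
        intro hall
        have h3 : AlgEquiv.restrictNormalHom F g ∈ Dec K (dn F W) := by
          rw [← dec_map (N₀ := F) W]
          exact ⟨g, hg, rfl⟩
        have h4 := hall _ h3
        rw [← map_pow] at h4
        have h5 := (hT _ ((Dec K W).pow_mem hg 2)).1 h4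
        have h6 := hUρ _ (U.pow_mem h5 (2 ^ r))
        rw [← pow_mul, ← pow_succ', hgρ] at h6
        have h2 : 2 * ρ = 0 := by linear_combination -h6
        exact (mul_ne_zero two_ne_zero hρ0) h2
      rw [if_neg hnsq]
      obtain ⟨t, ht⟩ := exists_anti hp hD hcyc hnT
      obtain ⟨m, hm⟩ := exists_isM (K := K) (w₀ := dn F W) hKW (over_mid W) ht
      have hm' := m_up (F := F) (over_mid W) hm
      have hgt : g (algebraMap F N t) = -algebraMap F N t :=
        (anti_up ht hg).1 (gen_cl hU hT hg hgU hgen)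
      have ht0 : algebraMap F N t ≠ 0 := (map_ne_zero _).2 ht.1
      have hns : ¬ IsSquare m := nsq_of ht0 hg hgt hm'
      have hm0 : m ≠ 0 := by
        rintro rfl
        exact hns IsSquare.zero
      have hmη : sc m = η := by
        refine hη m hns (val_even (V := W) ht0 ?_)
        rw [← val_unr hunr, hm', map_pow, val_coe]
      rw [← hmη]
      refine locCl_odd_cyc hodd hs h1 hτ hρ0 hρ hμv U hUM hUρ hg hgen hgM hgρ ht0
        (fun h hh hhU => (anti_up ht hh).2 fun hS => cl_notMem hS ((hT h hh).2 hhU)) hgt hm' ?_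
      by_cases hs0 : s = 0
      · left
        rw [if_pos hs0] at hsig
        exact (sc_eq_zero he0).1 hsig
      · right
        rw [if_neg hs0] at hsig
        refine (sc_eq_zero (mul_ne_zero he0 hm0)).1 ?_
        rw [sc_mul he0 hm0, hmη, hsig, hηη]

end Two

end H30MG

end S_H30_MG_Cy

section S_H76_IN_La

set_option autoImplicit false
set_option linter.unusedSectionVars false
open scoped Classical

open WithZero NumberField IsDedekindDomain H76PP H36CY H30MG H30CY Pool.Agent.H42.PC H76AB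

namespace H76IN

section One

/-- The conditions at the place `u` for the Galois extension `N / K`. -/
structure DOk (K N : Type) [Field K] [NumberField K] [Field N] [NumberField N] [Algebra K N]
    (u : HeightOneSpectrum (𝓞 K)) (n : ℕ) : Prop where
  comm : ∀ W : HeightOneSpectrum (𝓞 N), dn K W = u → ∀ x ∈ Dec K W, ∀ y ∈ Dec K W, x * y = y * x
  conj : ∀ W : HeightOneSpectrum (𝓞 N), dn K W = u → ∀ x ∈ Dec K W, ∀ y,
    y * x * y⁻¹ ∈ Subgroup.zpowers x
  idx : ∀ W : HeightOneSpectrum (𝓞 N), dn K W = u →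
    ∃ g ∈ Dec K W, (Subgroup.zpowers g).index ≤ n

/-- The decomposition group of some place above `u`. -/
noncomputable def Dc (K N : Type) [Field K] [NumberField K] [Field N] [NumberField N] [Algebra K N]
    (u : HeightOneSpectrum (𝓞 K)) : Subgroup (N ≃ₐ[K] N) :=
  Dec K (exists_above (L := N) u).choose

/-- The `2^k`-th powers of the elements of the decomposition group. -/
noncomputable def Cs (K N : Type) [Field K] [NumberField K] [Field N] [NumberField N] [Algebra K N]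
    (u : HeightOneSpectrum (𝓞 K)) (k : ℕ) : Subgroup (N ≃ₐ[K] N) :=
  Subgroup.closure ((fun y => y ^ 2 ^ k) '' (Dc K N u : Set (N ≃ₐ[K] N)))

variable {K N : Type} [Field K] [NumberField K] [Field N] [NumberField N] [Algebra K N]
  {u : HeightOneSpectrum (𝓞 K)} {n : ℕ}

theorem dc_spec : ∃ W : HeightOneSpectrum (𝓞 N), dn K W = u ∧ Dc K N u = Dec K W :=
  ⟨_, (exists_above (L := N) u).choose_spec, rfl⟩

theorem norm_of_conj {D : Subgroup (N ≃ₐ[K] N)}
    (h : ∀ x ∈ D, ∀ y : N ≃ₐ[K] N, y * x * y⁻¹ ∈ Subgroup.zpowers x) : D.Normal :=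
  ⟨fun x hx y => (Subgroup.zpowers_le.2 hx) (h x hx y)⟩

theorem DOk.dec [IsGalois K N] (h : DOk K N u n) {W : HeightOneSpectrum (𝓞 N)} (hW : dn K W = u) :
    Dec K W = Dc K N u := by
  obtain ⟨W', hW', e⟩ := dc_spec (K := K) (N := N) (u := u)
  rw [e]
  exact dec_eq (hW.trans hW'.symm) (norm_of_conj (h.conj W' hW'))

theorem DOk.comm' (h : DOk K N u n) : ∀ x ∈ Dc K N u, ∀ y ∈ Dc K N u, x * y = y * x := by
  obtain ⟨W', hW', e⟩ := dc_spec (K := K) (N := N) (u := u)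
  rw [e]
  exact h.comm W' hW'

theorem DOk.conj' (h : DOk K N u n) : ∀ x ∈ Dc K N u, ∀ y, y * x * y⁻¹ ∈ Subgroup.zpowers x := by
  obtain ⟨W', hW', e⟩ := dc_spec (K := K) (N := N) (u := u)
  rw [e]
  exact h.conj W' hW'

theorem mem_cs (h : DOk K N u n) {k : ℕ} {z : N ≃ₐ[K] N} :
    z ∈ Cs K N u k ↔ ∃ y ∈ Dc K N u, y ^ 2 ^ k = z := by
  constructor
  · intro hz
    refine Subgroup.closure_induction (fun x hx => ?_) ?_ (fun x y _ _ hx hy => ?_)
      (fun x _ hx => ?_) hz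
    · obtain ⟨y, hy, rfl⟩ := hx
      exact ⟨y, hy, rfl⟩
    · exact ⟨1, (Dc K N u).one_mem, one_pow _⟩
    · obtain ⟨a, ha, rfl⟩ := hx
      obtain ⟨b, hb, rfl⟩ := hy
      refine ⟨a * b, (Dc K N u).mul_mem ha hb, ?_⟩
      have hc : Commute a b := h.comm' a ha b hb
      exact hc.mul_pow _
    · obtain ⟨a, ha, rfl⟩ := hx
      exact ⟨a⁻¹, (Dc K N u).inv_mem ha, inv_pow _ _⟩
  · rintro ⟨y, hy, rfl⟩
    exact Subgroup.subset_closure ⟨y, hy, rfl⟩

/-- The `2^k`-th powers form a cyclic subgroup of small index. -/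
theorem cs_cyc [IsGalois K N] (h : DOk K N u n) {r : ℕ} (hr : Module.finrank K N = 2 ^ r) {k : ℕ}
    (hk : n ≤ 2 ^ k) : (∃ c ∈ Dc K N u, ∀ y ∈ Dc K N u, ∃ i : ℕ, y ^ 2 ^ k = (c ^ 2 ^ k) ^ i) ∧
      (Cs K N u k).index ≤ n * 2 ^ k := by
  have _ : FiniteDimensional K N := Module.Finite.of_restrictScalars_finite ℚ K N
  obtain ⟨W, hW, e⟩ := dc_spec (K := K) (N := N) (u := u)
  obtain ⟨g, hg, hgi⟩ := h.idx W hW
  rw [← e] at hg
  have hcard : Nat.card (N ≃ₐ[K] N) = 2 ^ r := by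
    rw [IsGalois.card_aut_eq_finrank, hr]
  have hnorm : (Subgroup.zpowers g).Normal := by
    refine ⟨fun x hx y => ?_⟩
    obtain ⟨j, rfl⟩ := Subgroup.mem_zpowers_iff.1 hx
    have h1 : y * g ^ j * y⁻¹ = (y * g * y⁻¹) ^ j := by
      rw [conj_zpow]
    rw [h1]
    exact Subgroup.zpow_mem _ (h.conj' g hg y) j
  have hidx : (Subgroup.zpowers g).index ∣ 2 ^ k := by
    have h1 : (Subgroup.zpowers g).index ∣ 2 ^ r := by
      rw [← hcard]
      exact Subgroup.index_dvd_card _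
    obtain ⟨j, -, hj⟩ := (Nat.dvd_prime_pow Nat.prime_two).1 h1
    rw [hj] at hgi ⊢
    apply pow_dvd_pow
    exact (Nat.pow_le_pow_iff_right (by norm_num : 1 < 2)).1 (hgi.trans hk)
  have hpow : ∀ y : N ≃ₐ[K] N, y ^ 2 ^ k ∈ Subgroup.zpowers g := by
    intro y
    obtain ⟨m, hm⟩ := hidx
    rw [hm, pow_mul]
    exact Subgroup.pow_mem _ (Subgroup.pow_index_mem _ y) m
  constructor
  · -- the powers form a subgroup of a cyclic group
    have hle : Cs K N u k ≤ Subgroup.zpowers g := by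
      intro z hz
      obtain ⟨y, -, rfl⟩ := (mem_cs h).1 hz
      exact hpow y
    have hcyc : IsCyclic (Cs K N u k) :=
      isCyclic_of_injective (Subgroup.inclusion hle) (Subgroup.inclusion_injective hle)
    obtain ⟨⟨z, hz⟩, hgen⟩ := hcyc.exists_generator
    obtain ⟨c, hc, rfl⟩ := (mem_cs h).1 hz
    refine ⟨c, hc, fun y hy => ?_⟩
    have h1 := hgen ⟨y ^ 2 ^ k, (mem_cs h).2 ⟨y, hy, rfl⟩⟩
    rw [← mem_powers_iff_mem_zpowers] at h1
    obtain ⟨i, hi⟩ := h1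
    exact ⟨i, (congrArg Subtype.val hi).symm⟩
  · have hle : Subgroup.zpowers (g ^ 2 ^ k) ≤ Cs K N u k := by
      rw [Subgroup.zpowers_le]
      exact (mem_cs h).2 ⟨g, hg, rfl⟩
    have h1 : (Cs K N u k).index ≤ (Subgroup.zpowers (g ^ 2 ^ k)).index :=
      Nat.le_of_dvd (Nat.pos_of_ne_zero Subgroup.index_ne_zero_of_finite)
        (Subgroup.index_dvd_of_le hle)
    refine h1.trans ?_
    have h2 := (Subgroup.zpowers (g ^ 2 ^ k)).index_mul_card
    have h3 := (Subgroup.zpowers g).index_mul_card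
    rw [Nat.card_zpowers] at h2 h3
    have h4 : orderOf g ≤ orderOf (g ^ 2 ^ k) * 2 ^ k := by
      apply Nat.le_of_dvd (Nat.mul_pos (orderOf_pos _) (by positivity))
      apply orderOf_dvd_of_pow_eq_one
      rw [mul_comm, pow_mul, pow_orderOf_eq_one]
    have h5 : (Subgroup.zpowers (g ^ 2 ^ k)).index * orderOf (g ^ 2 ^ k) ≤
        (n * 2 ^ k) * orderOf (g ^ 2 ^ k) := by
      rw [h2, ← h3]
      calc (Subgroup.zpowers g).index * orderOf g ≤ n * (orderOf (g ^ 2 ^ k) * 2 ^ k) :=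
            Nat.mul_le_mul hgi h4
        _ = (n * 2 ^ k) * orderOf (g ^ 2 ^ k) := by ring
    exact Nat.le_of_mul_le_mul_right h5 (orderOf_pos _)

end One

section Two

variable {K N₀ N : Type} [Field K] [NumberField K] [Field N₀] [NumberField N₀] [Field N] [NumberField N]
  [Algebra K N₀] [Algebra N₀ N] [Algebra K N] [IsScalarTower K N₀ N] [IsGalois K N₀] [IsGalois K N]
  {u : HeightOneSpectrum (𝓞 K)} {n : ℕ}

theorem dc_map (h₀ : DOk K N₀ u n) : (Dc K N u).map (AlgEquiv.restrictNormalHom N₀) = Dc K N₀ u := by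
  obtain ⟨W, hW, e⟩ := dc_spec (K := K) (N := N) (u := u)
  rw [e, dec_map W]
  exact h₀.dec ((dn_tower W).trans hW)

theorem cs_map (h₀ : DOk K N₀ u n) {k : ℕ} :
    (Cs K N u k).map (AlgEquiv.restrictNormalHom N₀) = Cs K N₀ u k := by
  unfold Cs
  rw [MonoidHom.map_closure]
  congr 1
  ext z
  constructor
  · rintro ⟨_, ⟨y, hy, rfl⟩, rfl⟩
    refine ⟨AlgEquiv.restrictNormalHom N₀ y, ?_, ?_⟩
    · have h1 : AlgEquiv.restrictNormalHom N₀ y ∈ (Dc K N u).map (AlgEquiv.restrictNormalHom N₀) :=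
        ⟨y, hy, rfl⟩
      rw [dc_map h₀] at h1
      exact h1
    · exact (map_pow _ _ _).symm
  · rintro ⟨y, hy, rfl⟩
    have h1 : y ∈ Dc K N₀ u := hy
    rw [← dc_map (N := N) h₀] at h1
    obtain ⟨x, hx, rfl⟩ := h1
    exact ⟨x ^ 2 ^ k, ⟨x, hx, rfl⟩, map_pow _ _ _⟩

/-- The index increases; if it does not then the kernel is contained in the group of the `2^k`-th powers. -/
theorem cs_idx (h₀ : DOk K N₀ u n) {k : ℕ} : (Cs K N₀ u k).index ≤ (Cs K N u k).index ∧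
    ((Cs K N u k).index ≤ (Cs K N₀ u k).index →
      ∀ z : N ≃ₐ[K] N, AlgEquiv.restrictNormalHom N₀ z = 1 → z ∈ Cs K N u k) := by
  have _ : FiniteDimensional K N := Module.Finite.of_restrictScalars_finite ℚ K N
  have hs : Function.Surjective (AlgEquiv.restrictNormalHom (F := K) (K₁ := N) N₀) :=
    AlgEquiv.restrictNormalHom_surjective N
  have h1 : ((Cs K N₀ u k).comap (AlgEquiv.restrictNormalHom (F := K) (K₁ := N) N₀)).index =
      (Cs K N₀ u k).index := Subgroup.index_comap_of_surjective _ hs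
  have hle : Cs K N u k ≤ (Cs K N₀ u k).comap (AlgEquiv.restrictNormalHom (F := K) (K₁ := N) N₀) := by
    rw [← cs_map (N := N) h₀]
    exact Subgroup.le_comap_map _ _
  have h2 := Subgroup.relIndex_mul_index hle
  rw [h1] at h2
  have h0 : (Cs K N₀ u k).index ≠ 0 := by
    rw [← h1]
    exact Subgroup.index_ne_zero_of_finite
  have h3 : (Cs K N u k).relIndex
      ((Cs K N₀ u k).comap (AlgEquiv.restrictNormalHom (F := K) (K₁ := N) N₀)) ≠ 0 := by
    intro h4
    rw [h4, zero_mul] at h2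
    exact Subgroup.index_ne_zero_of_finite h2.symm
  constructor
  · rw [← h2]
    exact Nat.le_mul_of_pos_left _ (Nat.pos_of_ne_zero h3)
  · intro h4 z hz
    have h5 : (Cs K N u k).relIndex
        ((Cs K N₀ u k).comap (AlgEquiv.restrictNormalHom (F := K) (K₁ := N) N₀)) = 1 := by
      rw [← h2] at h4
      have h6 := Nat.le_of_mul_le_mul_right (h4.trans (one_mul _).ge) (Nat.pos_of_ne_zero h0)
      omega
    apply Subgroup.relIndex_eq_one.1 h5
    rw [Subgroup.mem_comap, hz]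
    exact Subgroup.one_mem _

end Two

end H76IN

end S_H76_IN_La

section S_H76_IN_Lb

set_option autoImplicit false
set_option linter.unusedSectionVars false
open scoped Classical

open WithZero NumberField IsDedekindDomain H76PP H36CY H30MG H30CY H76AB

namespace H76IN

section Lay

variable {K F : Type} [Field K] [NumberField K] [Field F] [Algebra K F]

theorem res_eq_one {M₁ M : Type} [Field M₁] [Field M] [Algebra K M₁] [Algebra K M] [Algebra M₁ M]
    [IsScalarTower K M₁ M] [Normal K M₁] {z : M ≃ₐ[K] M}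
    (hz : ∀ x : M₁, z (algebraMap M₁ M x) = algebraMap M₁ M x) :
    AlgEquiv.restrictNormalHom M₁ z = 1 := by
  apply AlgEquiv.ext
  intro x
  apply (algebraMap M₁ M).injective
  have h1 : algebraMap M₁ M (AlgEquiv.restrictNormalHom M₁ z x) = z (algebraMap M₁ M x) :=
    AlgEquiv.restrictNormal_commutes z M₁ x
  rw [h1, hz]
  rfl

/-- The conditions at `u` in all layers. -/
def DAll (K F : Type) [Field K] [NumberField K] [Field F] [Algebra K F]
    (u : HeightOneSpectrum (𝓞 K)) (n : ℕ) : Prop :=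
  ∀ (M : IntermediateField K F) [NumberField M], IsGalois K M → DOk K M u n

/-- The kernel of the restriction to `F₁` consists of `2^k`-th powers, in all layers. -/
def KerOk (k : ℕ) (F₁ : IntermediateField K F) (u : HeightOneSpectrum (𝓞 K)) : Prop :=
  ∀ (M : IntermediateField K F) [NumberField M], IsGalois K M → F₁ ≤ M →
    ∀ z : M ≃ₐ[K] M, (∀ x : M, (x : F) ∈ F₁ → z x = x) → z ∈ Cs K M u k

theorem KerOk.mono {k : ℕ} {F₁ F₂ : IntermediateField K F} {u : HeightOneSpectrum (𝓞 K)}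
    (h : KerOk k F₁ u) (hle : F₁ ≤ F₂) : KerOk k F₂ u := by
  intro M _ hM hM2 z hz
  exact h M hM (hle.trans hM2) z fun x hx => hz x (hle hx)

theorem exists_F1_one {u : HeightOneSpectrum (𝓞 K)} {n k : ℕ} (hD : DAll K F u n) (hk : n ≤ 2 ^ k)
    (hdeg : ∀ (M : IntermediateField K F) [NumberField M], IsGalois K M →
      ∃ r : ℕ, Module.finrank K M = 2 ^ r) :
    ∃ F₁ : IntermediateField K F, FiniteDimensional K F₁ ∧ Normal K F₁ ∧ KerOk k F₁ u := by
  obtain ⟨S, hS⟩ : ∃ S : Set ℕ, S = {m | ∃ (M : IntermediateField K F) (_ : NumberField M),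
      IsGalois K M ∧ (Cs K M u k).index = m} := ⟨_, rfl⟩
  have hne : S.Nonempty := by
    have _ : FiniteDimensional K (⊥ : IntermediateField K F) := inferInstance
    have h1 : NumberField (⊥ : IntermediateField K F) := NumberField.of_module_finite K _
    refine ⟨(Cs K (⊥ : IntermediateField K F) u k).index, ?_⟩
    rw [hS]
    exact ⟨⊥, h1, inferInstance, rfl⟩
  have hbd : BddAbove S := by
    refine ⟨n * 2 ^ k, ?_⟩
    rw [hS]
    rintro _ ⟨M, _, hM, rfl⟩
    obtain ⟨r, hr⟩ := hdeg M hM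
    exact (cs_cyc (hD M hM) hr hk).2
  have hmem := Nat.sSup_mem hne hbd
  have hmax : ∀ m ∈ S, m ≤ sSup S := fun m hm => le_csSup hbd hm
  obtain ⟨m, hm⟩ : ∃ m, m = sSup S := ⟨_, rfl⟩
  rw [← hm] at hmem hmax
  rw [hS] at hmem hmax
  obtain ⟨F₁, hnf, hgal, he⟩ := hmem
  refine ⟨F₁, Module.Finite.of_restrictScalars_finite ℚ K F₁, hgal.to_normal, ?_⟩
  intro M _ hM hle z hz
  let _ : Algebra F₁ M := (IntermediateField.inclusion hle).toRingHom.toAlgebra
  have _ : IsScalarTower K F₁ M := IsScalarTower.of_algebraMap_eq fun y => rfl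
  refine (cs_idx (N₀ := F₁) (N := M) (hD F₁ hgal)).2 ?_ z ?_
  · rw [he]
    exact hmax _ ⟨M, inferInstance, hM, rfl⟩
  · exact res_eq_one fun x => hz _ x.2

theorem lay_sup {M₁ M₂ : IntermediateField K F} (h₁ : FiniteDimensional K M₁ ∧ Normal K M₁)
    (h₂ : FiniteDimensional K M₂ ∧ Normal K M₂) :
    FiniteDimensional K (M₁ ⊔ M₂ : IntermediateField K F) ∧
      Normal K (M₁ ⊔ M₂ : IntermediateField K F) := by
  have _ := h₁.1
  have _ := h₁.2
  have _ := h₂.1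
  have _ := h₂.2
  exact ⟨inferInstance, inferInstance⟩

theorem lay_big [Normal K F] (hinf : ¬ FiniteDimensional K F) (B : ℕ) :
    ∃ M : IntermediateField K F, (FiniteDimensional K M ∧ Normal K M) ∧ B ≤ Module.finrank K M := by
  induction B with
  | zero =>
    have _ : FiniteDimensional K (⊥ : IntermediateField K F) := inferInstance
    exact ⟨⊥, ⟨inferInstance, inferInstance⟩, Nat.zero_le _⟩
  | succ B ih =>
    obtain ⟨M, hM, hB⟩ := ih
    have _ := hM.1
    have _ := hM.2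
    have hne : M ≠ ⊤ := by
      rintro rfl
      apply hinf
      exact (IntermediateField.topEquiv (F := K) (E := F)).toLinearEquiv.finiteDimensional
    obtain ⟨x, hx⟩ : ∃ x : F, x ∉ M := by
      by_contra h
      exact hne (eq_top_iff.2 fun x _ => by_contra fun h2 => h ⟨x, h2⟩)
    obtain ⟨Kx, hKx⟩ : ∃ Kx, Kx = IntermediateField.adjoin K {x} := ⟨_, rfl⟩
    have hfx : FiniteDimensional K Kx := by
      rw [hKx]
      exact IntermediateField.adjoin.finiteDimensional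
        (Algebra.IsIntegral.isIntegral x)
    have hnc : FiniteDimensional K (IntermediateField.normalClosure K Kx F) ∧
        Normal K (IntermediateField.normalClosure K Kx F) := ⟨inferInstance, inferInstance⟩
    obtain ⟨N, hN⟩ : ∃ N, N = M ⊔ IntermediateField.normalClosure K Kx F := ⟨_, rfl⟩
    have hNl := lay_sup hM hnc
    rw [← hN] at hNl
    have _ := hNl.1
    refine ⟨N, hNl, ?_⟩
    have hle : M ≤ N := by
      rw [hN]
      exact le_sup_left
    have hxN : x ∈ N := by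
      rw [hN]
      apply (le_sup_right : _ ≤ M ⊔ IntermediateField.normalClosure K Kx F)
      apply IntermediateField.le_normalClosure
      rw [hKx]
      exact IntermediateField.mem_adjoin_simple_self K x
    have h1 : Module.finrank K M ≠ Module.finrank K N := by
      intro h2
      apply hx
      rw [IntermediateField.eq_of_le_of_finrank_eq hle h2]
      exact hxN
    have h2 : Module.finrank K M ≤ Module.finrank K N :=
      IntermediateField.finrank_le_of_le_right hle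
    omega

/-- **The first layer.** -/
theorem exists_F1 [IsGalois K F] (hinf : ¬ FiniteDimensional K F)
    (P : Finset (HeightOneSpectrum (𝓞 K))) {n k : ℕ} (hk : n ≤ 2 ^ k)
    (hdeg : ∀ (M : IntermediateField K F) [NumberField M], IsGalois K M →
      ∃ r : ℕ, Module.finrank K M = 2 ^ r) (hD : ∀ u ∈ P, DAll K F u n) (B : ℕ)
    (F₀ : IntermediateField K F) (hF₀ : FiniteDimensional K F₀ ∧ Normal K F₀) :
    ∃ F₁ : IntermediateField K F, (FiniteDimensional K F₁ ∧ Normal K F₁) ∧ F₀ ≤ F₁ ∧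
      B ≤ Module.finrank K F₁ ∧ ∀ u ∈ P, KerOk k F₁ u := by
  have h1 : ∀ Q : Finset (HeightOneSpectrum (𝓞 K)), Q ⊆ P →
      ∃ F₁ : IntermediateField K F, (FiniteDimensional K F₁ ∧ Normal K F₁) ∧
        ∀ u ∈ Q, KerOk k F₁ u := by
    intro Q
    induction Q using Finset.induction_on with
    | empty =>
      intro _
      have _ : FiniteDimensional K (⊥ : IntermediateField K F) := inferInstance
      exact ⟨⊥, ⟨inferInstance, inferInstance⟩, fun u hu => absurd hu (Finset.notMem_empty u)⟩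
    | insert a Q ha ih =>
      intro hQ
      obtain ⟨F₁, hl, h⟩ := ih ((Finset.subset_insert _ _).trans hQ)
      obtain ⟨F₂, hf₂, hn₂, h₂⟩ := exists_F1_one (hD a (hQ (Finset.mem_insert_self _ _))) hk hdeg
      refine ⟨F₁ ⊔ F₂, lay_sup hl ⟨hf₂, hn₂⟩, fun u hu => ?_⟩
      rcases Finset.mem_insert.1 hu with rfl | hu
      · exact h₂.mono le_sup_right
      · exact (h u hu).mono le_sup_left
  obtain ⟨F₁, hl, h⟩ := h1 P subset_rfl
  obtain ⟨M, hM, hB⟩ := lay_big (K := K) (F := F) hinf B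
  have hl2 := lay_sup (lay_sup hl hM) hF₀
  refine ⟨F₁ ⊔ M ⊔ F₀, hl2, le_sup_right, ?_, fun u hu => (h u hu).mono
    (le_sup_left.trans le_sup_left)⟩
  have _ := hl2.1
  exact hB.trans (IntermediateField.finrank_le_of_le_right (le_sup_right.trans le_sup_left))

/-- The group of the `2^k`-th powers is large if the degree is. -/
theorem cs_big {K N : Type} [Field K] [NumberField K] [Field N] [NumberField N] [Algebra K N]
    [IsGalois K N] {u : HeightOneSpectrum (𝓞 K)} {n k : ℕ} (h : DOk K N u n) {r : ℕ}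
    (hr : Module.finrank K N = 2 ^ r) (hk : n ≤ 2 ^ k)
    (hB : n * 2 ^ k * 2 ^ (k + 1) < Module.finrank K N) :
    ∃ c ∈ Dc K N u, (c ^ 2 ^ k) ^ 2 ^ (k + 1) ≠ 1 := by
  have _ : FiniteDimensional K N := Module.Finite.of_restrictScalars_finite ℚ K N
  obtain ⟨⟨c, hc, hgen⟩, hidx⟩ := cs_cyc h hr hk
  refine ⟨c, hc, fun h1 => ?_⟩
  have h2 : Cs K N u k ≤ Subgroup.zpowers (c ^ 2 ^ k) := by
    intro z hz
    obtain ⟨y, hy, rfl⟩ := (mem_cs h).1 hz
    obtain ⟨i, hi⟩ := hgen y hy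
    rw [hi]
    exact Subgroup.npow_mem_zpowers _ _
  have h3 : Nat.card (Cs K N u k) ≤ 2 ^ (k + 1) := by
    have h4 := Subgroup.card_le_of_le h2
    rw [Nat.card_zpowers] at h4
    exact h4.trans (Nat.le_of_dvd (by positivity) (orderOf_dvd_of_pow_eq_one h1))
  have h5 := (Cs K N u k).index_mul_card
  rw [IsGalois.card_aut_eq_finrank] at h5
  have h6 : (Cs K N u k).index * Nat.card (Cs K N u k) ≤ n * 2 ^ k * 2 ^ (k + 1) :=
    Nat.mul_le_mul hidx h3
  omega

end Lay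

end H76IN

end S_H76_IN_Lb

section S_H76_IN_Cl

set_option autoImplicit false
set_option linter.unusedSectionVars false
open scoped Classical

open WithZero NumberField IsDedekindDomain H76PP H36CY H30MG H30CY H76AB H36MX H38RT
open H38T1 (SC sc)

namespace H76IN

variable {K N : Type} [Field K] [NumberField K] [Field N] [NumberField N] [Algebra K N]

/-- `m` is the class of the quadratic character of the decomposition group with the value `-1` on `δ`. -/
def Rho (W : HeightOneSpectrum (𝓞 N)) (δ : Set (N ≃ₐ[K] N)) (m : (dn K W).adicCompletion K) : Prop :=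
  ∃ ρ : N, ρ ≠ 0 ∧ (∀ g ∈ Dec K W, g ∈ δ → g ρ = -ρ) ∧ (∀ g ∈ Dec K W, g ∉ δ → g ρ = ρ) ∧
    (over_dn (K := K) W).map m = algebraMap N (W.adicCompletion N) ρ ^ 2

theorem Rho.ne {W : HeightOneSpectrum (𝓞 N)} {δ : Set (N ≃ₐ[K] N)} {m : (dn K W).adicCompletion K}
    (h : Rho W δ m) : m ≠ 0 := by
  obtain ⟨ρ, h0, -, -, h4⟩ := h
  rintro rfl
  rw [map_zero] at h4
  exact h0 ((map_eq_zero _).1 (pow_eq_zero_iff two_ne_zero |>.1 h4.symm))

theorem scz {F : Type} [Field F] (x : SC F) : x + x = 0 := by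
  rw [← two_nsmul, ← Nat.cast_smul_eq_nsmul (ZMod 2)]
  have h1 : ((2 : ℕ) : ZMod 2) = 0 := by decide
  rw [h1, zero_smul]

/-- Existence of the class. -/
theorem exists_rho [IsGalois K N] (W : HeightOneSpectrum (𝓞 N))
    (hcomm : ∀ x ∈ Dec K W, ∀ y ∈ Dec K W, x * y = y * x) (H : Subgroup (N ≃ₐ[K] N))
    {g : N ≃ₐ[K] N} (hg : g ∈ Dec K W) (hgH : g ∉ H) (hHD : H ≤ Dec K W)
    (hH : ∀ x ∈ Dec K W, x ∈ H ∨ x * g⁻¹ ∈ H) {δ : Set (N ≃ₐ[K] N)}
    (hδ : ∀ x ∈ Dec K W, x ∈ δ ↔ x ∉ H) : ∃ m, Rho W δ m := by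
  have _ : FiniteDimensional K N := Module.Finite.of_restrictScalars_finite ℚ K N
  have hg2 : g ^ 2 ∈ H := by
    rcases hH (g ^ 2) (Subgroup.pow_mem _ hg 2) with h1 | h1
    · exact h1
    · exfalso
      apply hgH
      rwa [sq, mul_inv_cancel_right] at h1
  obtain ⟨t, ht0, ht1, ht2⟩ := H36MG.ex_anti H hgH hg2 (fun h hh => by
    rw [mul_assoc, hcomm h (hHD hh) g hg, ← mul_assoc, inv_mul_cancel, one_mul]
    exact hh)
  have hneg : ∀ x ∈ Dec K W, x ∉ H → x t = -t := by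
    intro x hx hxH
    have h1 := (hH x hx).resolve_left hxH
    have h2 : x = g * (x * g⁻¹) := by
      rw [hcomm x hx _ (Subgroup.inv_mem _ hg)]
      group
    rw [h2, AlgEquiv.mul_apply, ht1 _ h1, ht2]
  obtain ⟨m, hm⟩ := fixed_range (K := K) (W := W) (y := algebraMap N (W.adicCompletion N) (t ^ 2))
    (fun x hx => by
      rw [ac_coe hx, map_pow x]
      by_cases hxH : x ∈ H
      · rw [ht1 x hxH]
      · rw [hneg x hx hxH, neg_sq])
  refine ⟨m, t, ht0, fun x hx hxδ => hneg x hx ((hδ x hx).1 hxδ), fun x hx hxδ => ?_, ?_⟩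
  · have h1 : x ∈ H := by
      by_contra h2
      exact hxδ ((hδ x hx).2 h2)
    exact ht1 x h1
  · rw [hm, map_pow]

/-- Different characters have different classes. -/
theorem rho_inj {W : HeightOneSpectrum (𝓞 N)} {δ δ' : Set (N ≃ₐ[K] N)}
    {m m' : (dn K W).adicCompletion K} (h : Rho W δ m) (h' : Rho W δ' m') (he : sc m = sc m')
    {g : N ≃ₐ[K] N} (hg : g ∈ Dec K W) : g ∈ δ ↔ g ∈ δ' := by
  have hm0 := h.ne
  have hm0' := h'.ne
  obtain ⟨ρ, h0, h1, h2, h3⟩ := h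
  obtain ⟨ρ', h0', h1', h2', h3'⟩ := h'
  have h4 : IsSquare (m * m') := by
    rw [← H38T1.sc_eq_zero (mul_ne_zero hm0 hm0'), H38T1.sc_mul hm0 hm0', he]
    exact scz _
  obtain ⟨c, hc⟩ := h4
  have h5 : (algebraMap N (W.adicCompletion N) (ρ * ρ')) ^ 2 = ((over_dn (K := K) W).map c) ^ 2 := by
    rw [map_mul, mul_pow, ← h3, ← h3', ← map_mul, hc, map_mul, sq]
  have h6 : ac W g (algebraMap N (W.adicCompletion N) (ρ * ρ')) =
      algebraMap N (W.adicCompletion N) (ρ * ρ') := by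
    have h7 : ∀ y, ac W g ((over_dn (K := K) W).map y) = (over_dn (K := K) W).map y :=
      ac_fix (K := K) (M := K) hg fun x => g.commutes x
    rcases sq_eq_sq_iff_eq_or_eq_neg.1 h5 with h8 | h8
    · rw [h8, h7]
    · rw [h8, map_neg, h7]
  rw [ac_coe hg] at h6
  have h7 := (algebraMap N (W.adicCompletion N)).injective h6
  rw [map_mul] at h7
  have h8 : ρ * ρ' ≠ 0 := mul_ne_zero h0 h0'
  by_cases hgδ : g ∈ δ <;> by_cases hgδ' : g ∈ δ'
  · exact iff_of_true hgδ hgδ'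
  · exfalso
    rw [h1 g hg hgδ, h2' g hg hgδ', neg_mul] at h7
    exact h8 (self_eq_neg.1 h7.symm)
  · exfalso
    rw [h2 g hg hgδ, h1' g hg hgδ', mul_neg] at h7
    exact h8 (self_eq_neg.1 h7.symm)
  · exact iff_of_false hgδ hgδ'

theorem val_coe (W : HeightOneSpectrum (𝓞 N)) (x : N) :
    Valued.v (algebraMap N (W.adicCompletion N) x) = W.valuation N x :=
  HeightOneSpectrum.valuedAdicCompletion_eq_valuation' W x

/-- The inertia group acts trivially on the residue field of the completion. -/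
theorem inert_int {W : HeightOneSpectrum (𝓞 N)} {i : N ≃ₐ[K] N} (hi : i ∈ Dec K W)
    (hin : ∀ x : 𝓞 N, i • x - x ∈ W.asIdeal) {s : W.adicCompletion N} (hs : Valued.v s ≤ 1) :
    Valued.v (ac W i s - s) < 1 := by
  have hint : ∀ x : 𝓞 N, W.valuation N (i (algebraMap (𝓞 N) N x) - algebraMap (𝓞 N) N x) < 1 := by
    intro x
    have h1 : i (algebraMap (𝓞 N) N x) - algebraMap (𝓞 N) N x =
        algebraMap (𝓞 N) N (i • x - x) := by
      rw [map_sub]
      rfl
    rw [h1]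
    exact (W.valuation_lt_one_iff_mem (K := N) _).2 (hin x)
  have hx : ∀ x : N, W.valuation N x ≤ 1 → W.valuation N (i x - x) < 1 := by
    intro x hx
    obtain ⟨n, ⟨d, hd⟩, hnd⟩ := HeightOneSpectrum.exists_primeCompl_mul_eq_of_integer W x hx
    have hnd' : x * algebraMap (𝓞 N) N d = algebraMap (𝓞 N) N n := hnd
    have hWd : W.valuation N (algebraMap (𝓞 N) N d) = 1 :=
      (W.valuation_eq_one_iff_notMem (K := N) (r := d)).2 hd
    have h1 : (i x - x) * i (algebraMap (𝓞 N) N d) =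
        (i (algebraMap (𝓞 N) N n) - algebraMap (𝓞 N) N n) -
          x * (i (algebraMap (𝓞 N) N d) - algebraMap (𝓞 N) N d) := by
      rw [← hnd', map_mul]
      ring
    have h2 : W.valuation N ((i x - x) * i (algebraMap (𝓞 N) N d)) < 1 := by
      rw [h1]
      refine Valuation.map_sub_lt _ (hint n) ?_
      rw [map_mul]
      exact mul_lt_one_of_nonneg_of_lt_one_right hx zero_le (hint d)
    rwa [map_mul, mem_dec.1 hi, hWd, mul_one] at h2
  obtain ⟨x, hxs⟩ := (HeightOneSpectrum.denseRange_algebraMap (K := N) W).mem_nhds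
    (Te_nhd s (one_ne_zero : (1 : W.adicCompletion N) ≠ 0))
  have hxs' : Valued.v (algebraMap N (W.adicCompletion N) x - s) < 1 := by
    have h1 : Valued.v (algebraMap N (W.adicCompletion N) x - s) <
      Valued.v (1 : W.adicCompletion N) := hxs
    rwa [map_one] at h1
  have hx1 : W.valuation N x ≤ 1 := by
    rw [← val_coe]
    have h1 : algebraMap N (W.adicCompletion N) x =
        (algebraMap N (W.adicCompletion N) x - s) + s := by ring
    rw [h1]
    exact Valuation.map_add_le _ hxs'.le hs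
  have h1 : ac W i s - s = (algebraMap N (W.adicCompletion N) x - s) -
      ac W i (algebraMap N (W.adicCompletion N) x - s) +
      algebraMap N (W.adicCompletion N) (i x - x) := by
    rw [map_sub (ac W i), ac_coe hi, map_sub (algebraMap N (W.adicCompletion N))]
    ring
  rw [h1]
  refine Valuation.map_add_lt _ (Valuation.map_sub_lt _ hxs' ?_) ?_
  · rw [ac_iso hi]
    exact hxs'
  · rw [val_coe]
    exact hx x hx1

/-- The class of a ramified character is not the unramified class. -/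
theorem rho_ne_unr {W : HeightOneSpectrum (𝓞 N)} (h2 : W.valuation N 2 < 1)
    {δ : Set (N ≃ₐ[K] N)} {m : (dn K W).adicCompletion K} (h : Rho W δ m) {i : N ≃ₐ[K] N}
    (hi : i ∈ Dec K W) (hin : ∀ x : 𝓞 N, i • x - x ∈ W.asIdeal) (hiδ : i ∈ δ)
    {g0 : (dn K W).adicCompletion K} (hg0 : Unr g0) (h0 : g0 ≠ 0) : sc m ≠ sc g0 := by
  intro he
  have hm0 := h.ne
  obtain ⟨ρ, hρ0, h1, -, h3⟩ := h
  obtain ⟨R, hR1, -, hR⟩ := hg0
  have h4 : IsSquare (m * g0) := by
    rw [← H38T1.sc_eq_zero (mul_ne_zero hm0 h0), H38T1.sc_mul hm0 h0, he]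
    exact scz _
  obtain ⟨c, hc⟩ := h4
  set j := (over_dn (K := K) W).map with hj
  set a := algebraMap N (W.adicCompletion N) with ha
  have haρ : a ρ ≠ 0 := (map_ne_zero a).2 hρ0
  obtain ⟨w, hw⟩ : ∃ w, w = j c / a ρ := ⟨_, rfl⟩
  have hw2 : w ^ 2 = j g0 := by
    rw [hw, div_pow, ← h3, div_eq_iff ((map_ne_zero j).2 hm0), ← map_pow, ← map_mul, sq, ← hc,
      mul_comm]
  have hfix : ∀ y, ac W i (j y) = j y :=
    ac_fix (K := K) (M := K) hi fun x => i.commutes x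
  have hwi : ac W i w = -w := by
    rw [hw, map_div₀, hfix, ac_coe hi, h1 i hi hiδ, map_neg, div_neg]
  have h2' : Valued.v (2 : W.adicCompletion N) < 1 := by
    have e1 : (2 : W.adicCompletion N) = a 2 := by rw [map_ofNat]
    rw [e1, val_coe]
    exact h2
  have h20 : (2 : W.adicCompletion N) ≠ 0 := two_ne_zero
  obtain ⟨s, hs⟩ : ∃ s, s = (w - 1) / 2 := ⟨_, rfl⟩
  have hws : w = 1 + 2 * s := by
    rw [hs]
    field_simp
    ring
  have hsR : s ^ 2 + s = j R := by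
    have e1 : (4 : W.adicCompletion N) * (s ^ 2 + s) = 4 * j R := by
      have e2 : w ^ 2 = 1 + 4 * j R := by
        rw [hw2, hR, map_add, map_mul, map_one, map_ofNat]
      rw [hws] at e2
      linear_combination e2
    have h40 : (4 : W.adicCompletion N) ≠ 0 := by
      have e3 : (4 : W.adicCompletion N) = 2 * 2 := by norm_num
      rw [e3]
      exact mul_ne_zero h20 h20
    exact mul_left_cancel₀ h40 e1
  have hjR : Valued.v (j R) ≤ 1 := by
    have e1 : Valued.v (j R) ≤ Valued.v (j 1) := H36LG.map_le' (over_dn (K := K) W) (by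
      rw [map_one]
      exact hR1)
    rwa [map_one, map_one] at e1
  have hs1 : Valued.v s ≤ 1 := by
    by_contra hcon
    rw [not_le] at hcon
    have e1 : Valued.v (s ^ 2 + s) = Valued.v s ^ 2 := by
      have e3 : Valued.v s < Valued.v (s ^ 2) := by
        rw [map_pow, sq]
        exact lt_mul_of_one_lt_left (zero_lt_one.trans hcon) hcon
      rw [Valuation.map_add_eq_of_lt_left _ e3, map_pow]
    rw [hsR] at e1
    rw [e1] at hjR
    have e2 : (1 : WithZero (Multiplicative ℤ)) < Valued.v s ^ 2 := by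
      rw [sq]
      exact one_lt_mul'' hcon hcon
    exact absurd hjR (not_le.2 e2)
  have h5 := inert_int hi hin hs1
  have h6 : ac W i s - s = -(1 + 2 * s) := by
    have e1 : ac W i s = (ac W i w - 1) / 2 := by
      rw [hs, map_div₀, map_sub, map_one, map_ofNat]
    rw [e1, hwi, hws]
    field_simp
    ring
  rw [h6, Valuation.map_neg] at h5
  have h7 : Valued.v (1 + 2 * s) = 1 := by
    have e1 : Valued.v (2 * s) < Valued.v (1 : W.adicCompletion N) := by
      rw [map_mul, map_one]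
      exact mul_lt_one_of_lt_of_le h2' hs1
    rw [Valuation.map_add_eq_of_lt_left _ e1, map_one]
  rw [h7] at h5
  exact lt_irrefl _ h5

end H76IN

end S_H76_IN_Cl

section S_H76_IN_Gr

set_option autoImplicit false
set_option linter.unusedSectionVars false
open scoped Classical

open H36MG H36IN H30MG

namespace H76IN

/-- The data of a layer: `D₁` is the decomposition group in the first layer, `r` the restriction. -/
structure LD {G G₁ : Type*} [Group G] [Group G₁] (D : Subgroup G) (D₁ : Subgroup G₁) (r : G →* G₁)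
    (k : ℕ) : Prop where
  p2 : IsPGroup 2 G
  p2' : IsPGroup 2 G₁
  k1 : 1 ≤ k
  comm : ∀ x ∈ D, ∀ y ∈ D, x * y = y * x
  cyc : ∃ c ∈ D, ∀ y ∈ D, ∃ i : ℕ, y ^ 2 ^ k = (c ^ 2 ^ k) ^ i
  map : D.map r = D₁
  ker : ∀ z, r z = 1 → ∃ y ∈ D, y ^ 2 ^ k = z
  big : ∃ c ∈ D₁, (c ^ 2 ^ k) ^ 2 ^ (k + 1) ≠ 1

section

variable {G G₁ : Type*} [Group G] [Group G₁] {D T : Subgroup G} {r : G →* G₁} {k : ℕ}
  {D₁ : Subgroup G₁}

theorem LD.comm' (H : LD D D₁ r k) : ∀ x ∈ D₁, ∀ y ∈ D₁, x * y = y * x := by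
  rw [← H.map]
  rintro _ ⟨x, hx, rfl⟩ _ ⟨y, hy, rfl⟩
  rw [← map_mul, ← map_mul, H.comm x hx y hy]

theorem LD.cyc' (H : LD D D₁ r k) : ∃ c ∈ D₁, ∀ y ∈ D₁, ∃ i : ℕ, y ^ 2 ^ k = (c ^ 2 ^ k) ^ i := by
  obtain ⟨c, hc, h⟩ := H.cyc
  rw [← H.map]
  refine ⟨r c, ⟨c, hc, rfl⟩, ?_⟩
  rintro _ ⟨y, hy, rfl⟩
  obtain ⟨i, hi⟩ := h y hy
  exact ⟨i, by rw [← map_pow, hi, map_pow, map_pow]⟩

theorem LD.big' (H : LD D D₁ r k) : ∃ c ∈ D₁, c ^ 2 ^ (2 * k + 1) ≠ 1 := by
  obtain ⟨c, hc, h⟩ := H.big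
  refine ⟨c, hc, fun h1 => h ?_⟩
  rw [← pow_mul, ← pow_add]
  have e : k + (k + 1) = 2 * k + 1 := by ring
  rw [e]
  exact h1

theorem LD.ne1 (H : LD D D₁ r k) : ∃ y ∈ D₁, y ^ 2 ^ k ≠ 1 := by
  obtain ⟨c, hc, h⟩ := H.big
  exact ⟨c, hc, fun h1 => h (by rw [h1, one_pow])⟩

theorem g1 (H : LD D D₁ r k) (hT : CyT D T) {h : G} : h ∈ clS D T ↔ r h ∈ r '' clS D T :=
  cl_fib H.p2 H.comm H.k1 H.ker hT

theorem g2 (H : LD D D₁ r k) (hT : CyT D T) : r '' clS D T = ∅ ↔ D ≤ T := by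
  constructor
  · intro h
    by_contra h1
    obtain ⟨x, hx⟩ := cl_nonempty H.comm hT h1
    have h2 : r x ∈ r '' clS D T := ⟨x, hx, rfl⟩
    rw [h] at h2
    exact h2
  · intro h
    rw [cl_empty h, Set.image_empty]

theorem g3 (H : LD D D₁ r k) (hT : CyT D T) (hi : ∃ y ∈ D, y ^ 2 ^ k ∉ T) :
    r '' clS D T = hiS D₁ k := by
  have h1 := H.ne1
  rw [← H.map] at h1 ⊢
  exact map_high H.p2 H.comm H.cyc H.ker h1 hT hi

theorem g4 (H : LD D D₁ r k) (hT : CyT D T) (lo : ∀ y ∈ D, y ^ 2 ^ k ∈ T) :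
    ∃ T₁ : Subgroup G₁, (∀ h ∈ D, h ∈ T ↔ r h ∈ T₁) ∧ CyT D₁ T₁ ∧ (∀ y ∈ D₁, y ^ 2 ^ k ∈ T₁) ∧
      r '' clS D T = clS D₁ T₁ := by
  refine ⟨(T ⊓ D).map r, fun h hh => low_mem H.ker lo hh, ?_, ?_, ?_⟩
  · rw [← H.map]
    exact low_cyc r hT
  · rw [← H.map]
    rintro _ ⟨y, hy, rfl⟩
    exact ⟨y ^ 2 ^ k, ⟨lo y hy, D.pow_mem hy _⟩, map_pow _ _ _⟩
  · rw [← H.map]
    exact map_low H.ker lo

/-- The types which occur. -/
def IsTy (D₁ : Subgroup G₁) (k : ℕ) (δ₀ : Set G₁) : Prop :=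
  (∃ T₀ : Subgroup G₁, CyT D₁ T₀ ∧ (∀ y ∈ D₁, y ^ 2 ^ k ∈ T₀) ∧ δ₀ = clS D₁ T₀) ∨ δ₀ = hiS D₁ k

theorem isTy_of (H : LD D D₁ r k) (hT : CyT D T) : IsTy D₁ k (r '' clS D T) := by
  by_cases lo : ∀ y ∈ D, y ^ 2 ^ k ∈ T
  · obtain ⟨T₁, -, h2, h3, h4⟩ := g4 H hT lo
    exact Or.inl ⟨T₁, h2, h3, h4⟩
  · right
    refine g3 H hT ?_
    by_contra h
    exact lo fun y hy => by_contra fun h2 => h ⟨y, hy, h2⟩

theorem g5 (H : LD D D₁ r k) {δ₀ : Set G₁} (hδ₀ : δ₀.Nonempty) (hδ : IsTy D₁ k δ₀)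
    {T₁ : Subgroup G₁} (hT₁ : CyT D₁ T₁) (lo : ∀ y ∈ D₁, y ^ 2 ^ k ∈ T₁)
    (hne : clS D₁ T₁ ≠ δ₀) : ∃ g ∈ δ₀, g ∈ T₁ ∧ g ^ 2 ^ (k + 1) ≠ 1 := by
  rcases hδ with ⟨T₀, h1, h2, rfl⟩ | rfl
  · exact low_sep1 H.p2' H.comm' H.big' h1 hT₁ h2 lo hδ₀ hne
  · exact hi_sep H.p2' H.comm' H.cyc' H.big' hT₁ hne

theorem g5' (H : LD D D₁ r k) {δ₀ : Set G₁} (hδ₀ : δ₀.Nonempty) (hδ : IsTy D₁ k δ₀) :
    ∃ g ∈ δ₀, g ^ 2 ^ (k + 1) ≠ 1 := by
  have h1 : CyT D₁ D₁ := ⟨1, D₁.one_mem, fun h hh => ⟨0, h, hh, by rw [pow_zero, one_mul]⟩⟩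
  obtain ⟨g, h2, -, h3⟩ := g5 H hδ₀ hδ h1 (fun y hy => D₁.pow_mem hy _) (by
    rw [cl_empty le_rfl]
    exact hδ₀.ne_empty.symm)
  exact ⟨g, h2, h3⟩

theorem g6 (H : LD D D₁ r k) {T₁ : Subgroup G₁} (hT₁ : CyT D₁ T₁) (lo : ∀ y ∈ D₁, y ^ 2 ^ k ∈ T₁)
    (hne : ¬ D₁ ≤ T₁) : ∃ g ∈ D₁, g ∉ T₁ ∧ g ^ 2 ∈ T₁ ∧ g ^ 2 ^ (k + 1) ≠ 1 := by
  refine low_sep2 (T := D₁) H.p2' H.comm' H.big' lo (cl_empty le_rfl) ?_
  rw [cl_empty le_rfl]
  exact (cl_nonempty H.comm' hT₁ hne).ne_empty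

theorem sqs_mul (hD : ∀ x ∈ D, ∀ y ∈ D, x * y = y * x)
    {g h : G} (hg : g ∈ clS D T) (hh : h ∈ D) (hS : h ∉ sqs D T hD) : h * g⁻¹ ∈ sqs D T hD := by
  have hmem : ∀ h, h ∈ sqs D T hD ↔ h ∈ D ∧ ∃ x ∈ D, h * (x ^ 2)⁻¹ ∈ T := fun _ => Iff.rfl
  obtain ⟨i, hi⟩ := hg.2.2 h hh
  have hi' : h * (g ^ i)⁻¹ ∈ T := by
    have h1 := T.inv_mem hi
    rwa [mul_inv_rev, inv_inv] at h1
  rcases Nat.even_or_odd' i with ⟨k, rfl | rfl⟩
  · exfalso
    apply hS
    refine (hmem _).2 ⟨hh, g ^ k, D.pow_mem hg.1 k, ?_⟩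
    rw [← pow_mul, mul_comm k 2]
    exact hi'
  · refine (hmem _).2 ⟨D.mul_mem hh (D.inv_mem hg.1), g ^ k, D.pow_mem hg.1 k, ?_⟩
    have e : h * g⁻¹ * ((g ^ k) ^ 2)⁻¹ = h * (g ^ (2 * k + 1))⁻¹ := by
      rw [← pow_mul, mul_comm k 2, pow_succ, mul_inv_rev, mul_assoc]
    rw [e]
    exact hi'

theorem g7 (H : LD D D₁ r k) (hT : CyT D T) (hne : (r '' clS D T).Nonempty) :
    ∃ H₁ : Subgroup G₁, H₁ ≤ D₁ ∧ ∃ g ∈ D₁, g ∉ H₁ ∧ (∀ x ∈ D₁, x ∈ H₁ ∨ x * g⁻¹ ∈ H₁) ∧
      ∀ x ∈ D₁, x ∈ r '' clS D T ↔ x ∉ H₁ := by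
  have hmem : ∀ h, h ∈ sqs D T H.comm ↔ h ∈ D ∧ ∃ x ∈ D, h * (x ^ 2)⁻¹ ∈ T := fun _ => Iff.rfl
  have hcl : ∀ h ∈ D, h ∈ clS D T ↔ h ∉ sqs D T H.comm := by
    intro h hh
    rw [mem_cl H.p2 H.comm hT, hmem]
    constructor
    · rintro ⟨-, h1⟩ ⟨-, x, hx, hxT⟩
      exact h1 x hx hxT
    · intro h1
      exact ⟨hh, fun x hx hxT => h1 ⟨hh, x, hx, hxT⟩⟩
  have hmap : ∀ h ∈ D, r h ∈ (sqs D T H.comm).map r ↔ h ∈ sqs D T H.comm := by
    intro h hh
    constructor
    · rintro ⟨h', hh', e⟩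
      by_contra h1
      have h2 := (hcl h hh).2 h1
      have h3 : h' ∈ clS D T := by
        rw [g1 H hT, e]
        exact ⟨h, h2, rfl⟩
      exact (hcl h' hh'.1).1 h3 hh'
    · intro h1
      exact ⟨h, h1, rfl⟩
  have hm : ∀ x, x ∈ D₁ ↔ ∃ y ∈ D, r y = x := fun x => by
    rw [← Subgroup.mem_map, H.map]
  obtain ⟨_, g, hg, rfl⟩ := hne
  refine ⟨(sqs D T H.comm).map r, ?_, r g, ?_, ?_, ?_, ?_⟩
  · rintro _ ⟨x, hx, rfl⟩
    exact (hm _).2 ⟨x, hx.1, rfl⟩
  · exact (hm _).2 ⟨g, hg.1, rfl⟩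
  · rw [hmap g hg.1]
    exact (hcl g hg.1).1 hg
  · intro x hx₁
    obtain ⟨x, hx, rfl⟩ := (hm x).1 hx₁
    by_cases h1 : x ∈ sqs D T H.comm
    · exact Or.inl ⟨x, h1, rfl⟩
    · right
      exact ⟨x * g⁻¹, sqs_mul H.comm hg hx h1, by rw [map_mul, map_inv]⟩
  · intro x hx₁
    obtain ⟨x, hx, rfl⟩ := (hm x).1 hx₁
    rw [hmap x hx, ← hcl x hx]
    exact (g1 H hT).symm

theorem g8 (H : LD D D₁ r k) (hT : CyT D T) (hcyc : ∃ c ∈ D, ∀ y ∈ D, ∃ i : ℕ, y = c ^ i)
    (hne : (r '' clS D T).Nonempty) : r '' clS D T = hiS D₁ k := by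
  by_cases hi : ∃ y ∈ D, y ^ 2 ^ k ∉ T
  · exact g3 H hT hi
  obtain ⟨T₁, -, hT₁, -, he⟩ := g4 H hT fun y hy => by_contra fun h => hi ⟨y, hy, h⟩
  rw [he] at hne ⊢
  obtain ⟨c, hc, hgen⟩ := hcyc
  have hc1 : r c ∈ D₁ := by
    rw [← H.map]
    exact ⟨c, hc, rfl⟩
  have hgen1 : ∀ y ∈ D₁, ∃ i : ℕ, y = r c ^ i := by
    rw [← H.map]
    rintro _ ⟨y, hy, rfl⟩
    obtain ⟨i, hi⟩ := hgen y hy
    exact ⟨i, by rw [hi, map_pow]⟩
  obtain ⟨c₁, hc₁⟩ : ∃ c₁, c₁ = r c := ⟨_, rfl⟩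
  rw [← hc₁] at hc1 hgen1
  have hnT : ¬ D₁ ≤ T₁ := by
    intro h
    rw [cl_empty h] at hne
    exact hne.ne_empty rfl
  -- odd powers of `c₁` generate `D₁`
  have hodd : ∀ j : ℕ, Odd j → ∀ U : Subgroup G₁, c₁ ^ j ∈ U → c₁ ∈ U := by
    intro j hj U h
    refine mem_of_odd_pow H.p2' U (n := (j : ℤ)) ?_ ?_
    · rw [Int.not_even_iff_odd]
      exact_mod_cast hj
    · rw [zpow_natCast]
      exact h
  have hcT : c₁ ∉ T₁ := by
    intro h
    apply hnT
    intro y hy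
    obtain ⟨i, rfl⟩ := hgen1 y hy
    exact T₁.pow_mem h i
  ext y
  constructor
  · intro hy
    refine ⟨hy.1, fun x hx h => ?_⟩
    obtain ⟨j, rfl⟩ := hgen1 y hy.1
    obtain ⟨i, rfl⟩ := hgen1 x hx
    have hj : Odd j := by
      rw [← Nat.not_even_iff_odd]
      rintro ⟨m, rfl⟩
      refine ((mem_cl H.p2' H.comm' hT₁).1 hy).2 (c₁ ^ m) (D₁.pow_mem hc1 m) ?_
      rw [← pow_mul, mul_two, mul_inv_cancel]
      exact T₁.one_mem
    -- `c₁ ^ (2 ^ k * (j - 2 i)) = 1`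
    have h1 : c₁ ^ 2 ^ k = 1 := by
      have h2 : (c₁ ^ 2 ^ k) ^ ((j : ℤ) - 2 * i) ∈ (⊥ : Subgroup G₁) := by
        rw [Subgroup.mem_bot, zpow_sub, mul_inv_eq_one]
        have e1 : (c₁ ^ 2 ^ k) ^ (j : ℤ) = (c₁ ^ j) ^ 2 ^ k := by
          rw [zpow_natCast, ← pow_mul, ← pow_mul, mul_comm]
        have e2 : (c₁ ^ 2 ^ k) ^ (2 * (i : ℤ)) = ((c₁ ^ i) ^ 2 ^ k) ^ 2 := by
          have e3 : (2 * (i : ℤ)) = ((2 * i : ℕ) : ℤ) := by push_cast; rfl
          rw [e3, zpow_natCast, ← pow_mul, ← pow_mul, ← pow_mul]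
          congr 1
          ring
        rw [e1, e2]
        exact h
      have h3 := mem_of_odd_pow H.p2' (⊥ : Subgroup G₁) (x := c₁ ^ 2 ^ k) (by
        rw [Int.not_even_iff_odd]
        obtain ⟨m, hm⟩ := hj
        exact ⟨(m : ℤ) - i, by rw [hm]; push_cast; ring⟩) h2
      exact Subgroup.mem_bot.1 h3
    obtain ⟨z, hz, hz1⟩ := H.ne1
    obtain ⟨l, rfl⟩ := hgen1 z hz
    apply hz1
    rw [← pow_mul, mul_comm, pow_mul, h1, one_pow]
  · rintro ⟨hy, hy2⟩
    obtain ⟨j, rfl⟩ := hgen1 y hy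
    have hj : Odd j := by
      rw [← Nat.not_even_iff_odd]
      rintro ⟨m, rfl⟩
      refine hy2 (c₁ ^ m) (D₁.pow_mem hc1 m) ?_
      rw [← pow_mul, ← pow_mul, ← pow_mul]
      congr 1
      ring
    refine ⟨hy, fun h => hcT (hodd j hj T₁ h), fun x hx => ?_⟩
    obtain ⟨i, rfl⟩ := hgen1 x hx
    have h1 : c₁ ∈ Subgroup.zpowers (c₁ ^ j) := hodd j hj _ (Subgroup.mem_zpowers _)
    have h2 : c₁ ^ i ∈ Subgroup.zpowers (c₁ ^ j) := Subgroup.pow_mem _ h1 i
    obtain ⟨n, hn⟩ := H.p2' (c₁ ^ j)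
    have hfin : IsOfFinOrder (c₁ ^ j) := isOfFinOrder_iff_pow_eq_one.2 ⟨2 ^ n, by positivity, hn⟩
    rw [← hfin.mem_powers_iff_mem_zpowers] at h2
    obtain ⟨l, hl⟩ := h2
    refine ⟨l, ?_⟩
    have hl' : (c₁ ^ j) ^ l = c₁ ^ i := hl
    rw [hl', mul_inv_cancel]
    exact T₁.one_mem

end

end H76IN

end S_H76_IN_Gr
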