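import Mathlib
import Pool.Agent.H76.CQ.Qc
import Pool.Agent.H76.MP.M9
import Pool.Agent.H76.PN.P3
import Pool.Agent.H76.ZQ.Y17
import Pool.Agent.H76.YP.Y1
import Pool.Agent.H76.YP.Y2
import Pool.Agent.H76.YP.Y3
import Pool.Agent.H76.YP.Y4
import Pool.Agent.H76.YP.Y6

/-! This file joins several modules to save build time (Y5). -/

set_option autoImplicit false

section S_H88_AB_Cf

set_option autoImplicit false
set_option linter.unusedSectionVars false
open scoped Classical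

open WithZero NumberField IsDedekindDomain H38RT
open H38T1 (SC sc scu rep eo la si Pri OddP tp unif ka)
open H76PP H36MX H76MQ H76MX H73P2

namespace H88AB

/-- The local conditions of the twist by `μ` in terms of an integral multiple `c^2 μ`. -/
theorem lce_scale {M : Type} [Field M] [NumberField M] {A B μ c : M} (hc : c ≠ 0) {δ : Fin 3 → M}
    (h : LCE M A B μ δ) : LCE M A B (c ^ 2 * μ) δ := by
  have key : ∀ {F : Type} [Field F] (i : M →+* F),
      LC i (μ ^ 2 * A) (μ ^ 3 * B) (fun j => δ j / μ ^ (j : ℕ)) →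
      LC i ((c ^ 2 * μ) ^ 2 * A) ((c ^ 2 * μ) ^ 3 * B) (fun j => δ j / (c ^ 2 * μ) ^ (j : ℕ)) := by
    intro F _ i hL
    have hc0 : i c ≠ 0 := (map_ne_zero i).2 hc
    refine LC_sc i i (c := i c) hc0 ?_ ?_ ?_ hL
    · simp only [map_mul, map_pow]
      ring
    · simp only [map_mul, map_pow]
      ring
    · intro j
      simp only [map_div₀, map_mul, map_pow, mul_pow]
      rw [← pow_mul, div_div, mul_comm (i μ ^ (j : ℕ))]
  exact ⟨fun W => key _ (h.1 W), fun s => key s (h.2 s)⟩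

/-- **The conditions of a pair `(M, μ)`**, with the interface `LocCl`. -/
theorem selL {K M : Type} [Field K] [NumberField K] [Field M] [NumberField M] [Algebra K M]
    [IsGalois K M] {r : ℕ} (hr : Module.finrank K M = 2 ^ r) {μ : M} (hμ : μ ≠ 0)
    {C : CfgX K} (hC : C.Ok) {q₀ : HeightOneSpectrum (𝓞 K)} (hq : q₀ ∉ C.S)
    {T : Finset (HeightOneSpectrum (𝓞 K))} (hT : ∀ v ∈ T, v ∉ C.S ∧ v ≠ q₀)
    {A B : 𝓞 K} {e : (u : HeightOneSpectrum (𝓞 K)) → Fin 3 → Kv u} (hF : FamX C q₀ T A B e)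
    {L : Type} [Field L] [NumberField L] [Algebra K L] {θ : L} (hR : HR2 K L A B θ)
    (Dt : XData C T A B e θ) {J : Finset (HeightOneSpectrum (𝓞 K))} (hJT : J ⊆ T) {D : 𝓞 K}
    (hD : H36MT.TwS C.S q₀ J (D : K))
    (hbad : ∀ V : HeightOneSpectrum (𝓞 M), dn K V ∉ C.S → (Ram K V ∨ eo V (sc μ) ≠ 0) →
      ∀ t : 𝓞 K, t ^ 3 + D ^ 2 * A * t + D ^ 3 * B ∉ (dn K V).asIdeal)
    (hJs : ∀ v ∈ J, ∃ ι : M →+* v.adicCompletion K,
      (∀ x : K, ι (algebraMap K M x) = algebraMap K (v.adicCompletion K) x) ∧ IsSquare (ι μ))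
    {x : (u : HeightOneSpectrum (𝓞 K)) → SC (Kv u)}
    (hx : ∀ u ∈ C.Z, H30MG.LocCl u (e u) μ (x u))
    {δ : Fin 3 → K} (hδ : ev (algebraMap K L (D : K) * θ) δ ≠ 0)
    (hsq : IsSquare (Algebra.norm K (ev (algebraMap K L (D : K) * θ) δ)))
    (hL : LCE M (algebraMap K M ((D ^ 2 * A : 𝓞 K) : K)) (algebraMap K M ((D ^ 3 * B : 𝓞 K) : K)) μ
      (fun i => algebraMap K M (δ i))) :
    Dt.X J (sc (ev (algebraMap K L (D : K) * θ) δ)) ∧
      ∀ u : {u // u ∈ C.Z}, LW (x u.1) (Dt.loc (sc (ev (algebraMap K L (D : K) * θ) δ)) u).1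
        (Dt.loc (sc (ev (algebraMap K L (D : K) * θ) δ)) u).2 := by
  -- an integral multiple of `μ`
  obtain ⟨c, μ', hc, hμ'⟩ : ∃ (c : M) (μ' : 𝓞 M), c ≠ 0 ∧ (μ' : M) = c ^ 2 * μ := by
    obtain ⟨a, b, hb, hab⟩ := IsFractionRing.div_surjective (A := 𝓞 M) μ
    have hb0 : (b : M) ≠ 0 := fun h0 => nonZeroDivisors.ne_zero hb (RingOfIntegers.coe_eq_zero_iff.1 h0)
    refine ⟨(b : M), a * b, hb0, ?_⟩
    rw [← hab]
    have e1 : ((a * b : 𝓞 M) : M) = (a : M) * (b : M) := map_mul _ _ _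
    rw [e1]
    change (a : M) * (b : M) = (b : M) ^ 2 * ((a : M) / (b : M))
    field_simp
  have hμ'0 : μ' ≠ 0 := by
    rintro rfl
    have h1 : ((0 : 𝓞 M) : M) = 0 := map_zero _
    rw [h1] at hμ'
    exact (mul_ne_zero (pow_ne_zero 2 hc) hμ) hμ'.symm
  have hsc : (sc (μ' : M) : SC M) = sc μ := by
    rw [hμ', H38T1.sc_mul (pow_ne_zero 2 hc) hμ,
      (H38T1.sc_eq_zero (pow_ne_zero 2 hc)).2 ⟨c, sq c⟩, zero_add]
  have e1 : ((D ^ 2 * A : 𝓞 K) : K) = (D : K) ^ 2 * (A : K) := by push_cast; rfl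
  have e2 : ((D ^ 3 * B : 𝓞 K) : K) = (D : K) ^ 3 * (B : K) := by push_cast; rfl
  refine selX hr hμ'0 hC hq hT hF hR Dt hJT hD ?_ ?_ ?_ hδ hsq ?_
  · intro V hV hb
    rw [hsc] at hb
    rw [← e1, ← e2]
    exact noRootAt_of (hbad V hV hb)
  · intro v hv
    obtain ⟨ι, hι, s, hs⟩ := hJs v hv
    refine ⟨ι, hι, ι c * s, ?_⟩
    rw [hμ', map_mul, map_pow, hs]
    ring
  · intro u hu
    refine condX_of_loc hr hμ'0 ?_
    obtain ⟨w, hw, h⟩ := hx u hu
    refine ⟨w, hw, fun E z hE hsE => h E z hE ?_⟩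
    obtain ⟨s, hs⟩ := hsE
    have hc0 : algebraMap M (Kv w) c ≠ 0 := (map_ne_zero _).2 hc
    refine ⟨s / algebraMap M (Kv w) c, ?_⟩
    rw [hμ', map_mul, map_pow] at hs
    field_simp
    linear_combination hs
  · rw [← e1, ← e2, hμ']
    exact lce_scale hc hL

end H88AB

end S_H88_AB_Cf

section S_H88_AB_Sr

set_option autoImplicit false
set_option linter.unusedSectionVars false
open scoped Classical

open WithZero NumberField IsDedekindDomain H38RT
open H38T1 (SC sc scu rep eo la si Pri OddP tp unif ka)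
open H76PP H36MX H76MQ H76MX H73P2

namespace H88AB

theorem dn_self {K : Type} [Field K] [NumberField K] (W : HeightOneSpectrum (𝓞 K)) : dn K W = W := by
  apply HeightOneSpectrum.ext
  ext x
  change algebraMap (𝓞 K) (𝓞 K) x ∈ W.asIdeal ↔ x ∈ W.asIdeal
  exact Iff.rfl

/-- The relative condition over `K`: even orders outside `P`, local conditions of the twist by `d` at `P`. -/
def SelR {K : Type} [Field K] [NumberField K] (P : Finset (HeightOneSpectrum (𝓞 K))) (d A B : 𝓞 K)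
    (δ : Fin 3 → K) : Prop :=
  (∀ (L : Type) [Field L] [NumberField L] [Algebra K L] (θ : L), Cub K L (A : K) (B : K) θ →
    ∀ w : HeightOneSpectrum (𝓞 L), dn K w ∉ P → eo w (sc (ev θ δ)) = 0) ∧
  ∀ v ∈ P, LC (algebraMap K (v.adicCompletion K)) ((d : K) ^ 2 * A) ((d : K) ^ 3 * B)
    (fun i => δ i / (d : K) ^ (i : ℕ))

/-- **The relative conditions over `K`** (as `rel_localX`). -/
theorem selR {K : Type} [Field K] [NumberField K] {C : CfgX K} (hC : C.Ok)
    {q₀ : HeightOneSpectrum (𝓞 K)}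
    {T : Finset (HeightOneSpectrum (𝓞 K))} (hT : ∀ v ∈ T, v ∉ C.S ∧ v ≠ q₀)
    {A B : 𝓞 K} {e : (u : HeightOneSpectrum (𝓞 K)) → Fin 3 → Kv u} (hF : FamX C q₀ T A B e)
    {L : Type} [Field L] [NumberField L] [Algebra K L] {θ : L} (hR : HR2 K L A B θ)
    (Dt : XData C T A B e θ) {J : Finset (HeightOneSpectrum (𝓞 K))} (hJT : J ⊆ T) {D : 𝓞 K}
    (hD : H36MT.TwS C.S q₀ J (D : K)) {d : 𝓞 K} (hd0 : d ≠ 0)
    (hdo : ∀ v : HeightOneSpectrum (𝓞 K), v ∉ C.S → eo v (sc (d : K)) = 0)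
    {x : (u : HeightOneSpectrum (𝓞 K)) → SC (Kv u)}
    (hx : ∀ u ∈ C.Z, H30MG.LocCl u (e u) (d : K) (x u))
    {P : Finset (HeightOneSpectrum (𝓞 K))} (hSP : C.S ⊆ P) (hJP : J ⊆ P)
    {δ : Fin 3 → K} (hδ : ev (algebraMap K L (D : K) * θ) δ ≠ 0)
    (hsq : IsSquare (Algebra.norm K (ev (algebraMap K L (D : K) * θ) δ)))
    (hS : SelR P d (D ^ 2 * A) (D ^ 3 * B) δ) :
    Dt.X J (sc (ev (algebraMap K L (D : K) * θ) δ)) ∧
      ∀ u : {u // u ∈ C.Z}, LW (x u.1) (Dt.loc (sc (ev (algebraMap K L (D : K) * θ) δ)) u).1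
        (Dt.loc (sc (ev (algebraMap K L (D : K) * θ) δ)) u).2 := by
  have h := Dt.h
  have hDK : (D : K) ≠ 0 := hD.ne
  have hDd : D ≠ 0 := fun h0 => hDK (RingOfIntegers.coe_eq_zero_iff.2 h0)
  have hdK : (d : K) ≠ 0 := fun h0 => hd0 (RingOfIntegers.coe_eq_zero_iff.1 h0)
  have hdL : algebraMap K L (d : K) ≠ 0 := (map_ne_zero _).2 hdK
  have e1 : ((D ^ 2 * A : 𝓞 K) : K) = (D : K) ^ 2 * (A : K) := by push_cast; rfl
  have e2 : ((D ^ 3 * B : 𝓞 K) : K) = (D : K) ^ 3 * (B : K) := by push_cast; rfl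
  obtain ⟨heo, hLC⟩ := hS
  rw [e1, e2] at hLC
  have heo' := heo L (algebraMap K L (D : K) * θ) (by
    rw [e1, e2]
    exact Cub.twist h hDK)
  obtain ⟨E, hEdef⟩ : ∃ E : 𝓞 K, E = D * d := ⟨_, rfl⟩
  have hE : E ≠ 0 := by
    rw [hEdef]
    exact mul_ne_zero hDd hd0
  have hEK : (E : K) = (D : K) * (d : K) := by
    rw [hEdef]
    exact map_mul (algebraMap (𝓞 K) K) D d
  have hscE : (sc (E : K) : SC K) = sc (D : K) + sc (d : K) := by
    rw [hEK, H38T1.sc_mul hDK hdK]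
  obtain ⟨dd, hdd⟩ : ∃ dd : Fin 3 → K, dd = fun i => δ i / (d : K) ^ (i : ℕ) := ⟨_, rfl⟩
  have hev : ev (algebraMap K L (E : K) * θ) dd = ev (algebraMap K L (D : K) * θ) δ := by
    rw [hdd, hEK]
    unfold ev
    simp only [Fin.val_zero, Fin.val_one, Fin.val_two, pow_zero, div_one, pow_one, map_div₀, map_pow,
      map_mul]
    field_simp
  have hLC' : ∀ v ∈ P, LC (algebraMap K (v.adicCompletion K)) ((E : K) ^ 2 * A) ((E : K) ^ 3 * B) dd := by
    intro v hv
    have h1 := hLC v hv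
    have e3 : (d : K) ^ 2 * ((D : K) ^ 2 * (A : K)) = (E : K) ^ 2 * (A : K) := by rw [hEK]; ring
    have e4 : (d : K) ^ 3 * ((D : K) ^ 3 * (B : K)) = (E : K) ^ 3 * (B : K) := by rw [hEK]; ring
    rw [e3, e4, ← hdd] at h1
    exact h1
  rw [← hev] at hδ hsq heo' ⊢
  refine ⟨⟨mem_HH.2 ⟨?_, ?_⟩, ?_⟩, ?_⟩
  · rw [scm_sc _ hδ]
    exact (H38T1.sc_eq_zero (scm_ne _ hδ)).2 hsq
  · intro w hw
    have hwS : dn K w ∉ C.S := fun h1 => hw (Finset.mem_union_left _ h1)
    have hwJ : dn K w ∉ J := fun h1 => hw (Finset.mem_union_right _ h1)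
    by_cases hwP : dn K w ∈ P
    · by_cases hwq : dn K w = q₀
      · refine even_unique h w (noRootAt_of ?_) hδ hsq
        rw [hwq]
        exact hF.irr
      · refine even_loc h hE (hF.sqf _ hwS) ?_ hδ (hLC' _ hwP)
        rw [hscE, H38T1.eo_add, hdo _ hwS, add_zero]
        exact Sb_eo_even hDK (hD.even _ hwS hwJ hwq)
    · exact heo' w hwP
  · intro v hv
    obtain ⟨hvS, hvq⟩ := hT v (hJT hv)
    refine kum_T h hR (Sb_odd (Rl_six hC hvS)) (hF.sqf v hvS) (Dt.hT v (hJT hv)) hE ?_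
      hδ hsq (hLC' v (hJP hv))
    rw [hscE, H38T1.eo_add, hdo v hvS, add_zero]
    exact Sb_eo_odd hDK (hD.odd v hv)
  · intro u
    rw [Dt.loc_apply]
    have hev' : ev θ (fun i => δ i * (D : K) ^ (i : ℕ)) = ev (algebraMap K L (E : K) * θ) dd := by
      rw [hev]
      unfold ev
      simp only [Fin.val_zero, Fin.val_one, Fin.val_two, pow_zero, mul_one, pow_one, map_mul, map_pow]
      ring
    have h1 := condX_of_loc (K := K) (M := K) (r := 0) (by rw [pow_zero]; exact Module.finrank_self K)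
      hd0 (hx u.1 u.2) (Dt.hs u.1 u.2) L θ Dt.h D hDd (hD.loc u.1 (Finset.mem_union_left _ u.2))
      (algebraMap K K (D : K) * (d : K)) rfl (fun i => δ i * (D : K) ^ (i : ℕ))
      (by rw [hev']; exact hδ) (by rw [hev']; exact hsq) (fun W hW => ?_)
    · rw [hev'] at h1
      exact h1
    · rw [dn_self] at hW
      subst hW
      have h2 := hLC' _ (hSP (Finset.mem_union_left _ u.2))
      have e3 : (fun i : Fin 3 => algebraMap K K (δ i * (D : K) ^ (i : ℕ)) /
          (algebraMap K K (D : K) * (d : K)) ^ (i : ℕ)) = dd := by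
        rw [hdd]
        funext i
        simp only [Algebra.algebraMap_self, RingHom.id_apply, mul_pow]
        field_simp
      rw [e3]
      simp only [Algebra.algebraMap_self, RingHom.id_apply]
      rw [← hEK]
      exact h2

/-- The orders do not depend on the field `K(θ)`. -/
theorem eo_equiv {K L L' : Type} [Field K] [NumberField K] [Field L] [NumberField L] [Algebra K L]
    [Field L'] [NumberField L'] [Algebra K L'] {a b : K} {θ : L} {θ' : L'} (h : Cub K L a b θ)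
    (h' : Cub K L' a b θ') {δ : Fin 3 → K} (hδ : ev θ δ ≠ 0) {P : Finset (HeightOneSpectrum (𝓞 K))}
    (he : ∀ w : HeightOneSpectrum (𝓞 L), dn K w ∉ P → eo w (sc (ev θ δ)) = 0)
    (w : HeightOneSpectrum (𝓞 L')) (hw : dn K w ∉ P) : eo w (sc (ev θ' δ)) = 0 := by
  obtain ⟨φ, hφ⟩ := H36MT.Eq_hom h h'
  have hδ' : ev θ' δ ≠ 0 := by
    rw [← hφ]
    exact (map_ne_zero _).2 hδ
  have h1 := he (H36MT.Eq_mv φ w) (by rw [H36MT.Eq_dn]; exact hw)
  rw [H38T1.eo_sc hδ] at h1
  rw [H38T1.eo_sc hδ']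
  unfold ord at h1 ⊢
  rw [H36MT.Eq_val, hφ] at h1
  exact h1

/-- From the vanishing of the classes with the relative conditions to `RelG` for the twist. -/
theorem relG_of {K : Type} [Field K] [NumberField K] {ι : Type*} {Sel : H76AB.SPred K ι}
    {P : Finset (HeightOneSpectrum (𝓞 K))} {A B : 𝓞 K} (hG : H76AB.SelGood Sel P A B) {i : ι}
    {d : 𝓞 K} (hd : d ≠ 0)
    (hdo : ∀ v : HeightOneSpectrum (𝓞 K), v ∉ P → Even (ord (v.valuation K) (d : K)))
    (hS : ∀ δ, SelR P d A B δ → Sel P i A B δ) : H36MT.RelG K P (d ^ 2 * A) (d ^ 3 * B) := by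
  have hdK : (d : K) ≠ 0 := fun h0 => hd (RingOfIntegers.coe_eq_zero_iff.1 h0)
  have e1 : ((d ^ 2 * A : 𝓞 K) : K) = (d : K) ^ 2 * (A : K) := by push_cast; rfl
  have e2 : ((d ^ 3 * B : 𝓞 K) : K) = (d : K) ^ 3 * (B : K) := by push_cast; rfl
  refine ⟨hG.two, ?_, ?_, ?_, ?_⟩
  · have h1 : 4 * (d ^ 2 * A) ^ 3 + 27 * (d ^ 3 * B) ^ 2 = d ^ 6 * (4 * A ^ 3 + 27 * B ^ 2) := by
      ring
    rw [h1]
    exact mul_ne_zero (pow_ne_zero 6 hd) hG.ne
  · rw [e1, e2]
    intro t ht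
    apply hG.irr (t / (d : K))
    have h7 : (d : K) ^ 3 * ((t / (d : K)) ^ 3 + (A : K) * (t / (d : K)) + (B : K)) = 0 := by
      field_simp
      linear_combination ht
    exact (mul_eq_zero.1 h7).resolve_left (pow_ne_zero 3 hdK)
  · intro v hv
    rw [e1, e2]
    exact nice_mul (hG.nice v hv) hdK (hdo v hv)
  · intro L _ _ _ θ' h' δ' hR
    rw [e1, e2] at h' hR
    have hdL : algebraMap K L (d : K) ≠ 0 := (map_ne_zero _).2 hdK
    have h0 : Cub K L (A : K) (B : K) (θ' / algebraMap K L (d : K)) := by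
      have h1 := Cub.twist h' (D := (d : K)⁻¹) (inv_ne_zero hdK)
      have e3 : (d : K)⁻¹ ^ 2 * ((d : K) ^ 2 * (A : K)) = (A : K) := by field_simp
      have e4 : (d : K)⁻¹ ^ 3 * ((d : K) ^ 3 * (B : K)) = (B : K) := by field_simp
      have e5 : algebraMap K L (d : K)⁻¹ * θ' = θ' / algebraMap K L (d : K) := by
        rw [map_inv₀, div_eq_inv_mul]
      rw [e3, e4, e5] at h1
      exact h1
    have hev : ev (θ' / algebraMap K L (d : K)) (fun i => δ' i * (d : K) ^ (i : ℕ)) = ev θ' δ' := by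
      unfold ev
      simp only [Fin.val_zero, Fin.val_one, Fin.val_two, pow_zero, mul_one, pow_one, map_mul, map_pow]
      field_simp
    have hne : ev (θ' / algebraMap K L (d : K)) (fun i => δ' i * (d : K) ^ (i : ℕ)) ≠ 0 := by
      rw [hev]
      exact hR.ne
    rw [← hev]
    refine hG.rel i L _ h0 _ hne (by rw [hev]; exact hR.sq) (hS _ ⟨?_, ?_⟩)
    · intro L'' _ _ _ θ'' h'' w hw
      refine eo_equiv h0 h'' hne (P := P) (fun w' hw' => ?_) w hw
      rw [hev]
      exact hR.even w' (by rw [dn_self]; exact hw')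
    · intro v hv
      have h1 := hR.loc v hv (algebraMap K (v.adicCompletion K)) (fun x => rfl)
      have e3 : (fun i : Fin 3 => δ' i * (d : K) ^ (i : ℕ) / (d : K) ^ (i : ℕ)) = δ' := by
        funext i
        rw [mul_div_cancel_right₀ _ (pow_ne_zero _ hdK)]
      rw [e3]
      exact h1

end H88AB

end S_H88_AB_Sr

section S_H88_AB_Fi

set_option autoImplicit false
set_option linter.unusedSectionVars false
open scoped Classical

open WithZero NumberField IsDedekindDomain H38RT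
open H38T1 (SC sc scu rep eo la si Pri OddP tp unif ka)
open H76PP H36MX H76MQ H76MX H73P2 H76AB

namespace H88AB

variable {K : Type} [Field K] [NumberField K]

/-- The pair `(M, μ)` has the local classes `x` at `C.Z` and is admissible for the set `P` and `(A, B)`; `Z` is the
set of the places which are allowed for twisting. -/
structure PairOk (C : CfgX K) (Lp : LPred K) (x : (u : HeightOneSpectrum (𝓞 K)) → SC (Kv u))
    (Z : Set (HeightOneSpectrum (𝓞 K))) (P : Finset (HeightOneSpectrum (𝓞 K))) (A B : 𝓞 K)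
    (M : Type) [Field M] [NumberField M] [Algebra K M] (μ : M) : Prop where
  gal : IsGalois K M
  deg : ∃ r : ℕ, Module.finrank K M = 2 ^ r
  ne : μ ≠ 0
  bad : ∀ V : HeightOneSpectrum (𝓞 M), dn K V ∉ C.S → (Ram K V ∨ eo V (sc μ) ≠ 0) →
    ∀ t : 𝓞 K, t ^ 3 + A * t + B ∉ (dn K V).asIdeal
  spl : ∀ v ∈ P, v ∈ Z → v ∉ C.S → (∀ t : 𝓞 K, t ^ 3 + A * t + B ∉ v.asIdeal) ∨
    ∃ ι : M →+* v.adicCompletion K,
      (∀ x : K, ι (algebraMap K M x) = algebraMap K (v.adicCompletion K) x) ∧ IsSquare (ι μ)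
  loc : ∀ u ∈ C.Z, ∀ (A B : 𝓞 K) (e : Fin 3 → Kv u),
    Spl (algebraMap K (Kv u) (A : K)) (algebraMap K (Kv u) (B : K)) e → Lp u A B e →
      H30MG.LocCl u e μ (x u)

/-- The element `d` of `K` has the local classes `x` at `C.Z` and even orders outside `C.S`. -/
structure ElOk (C : CfgX K) (Lp : LPred K) (x : (u : HeightOneSpectrum (𝓞 K)) → SC (Kv u))
    (d : 𝓞 K) : Prop where
  ne : d ≠ 0
  even : ∀ v : HeightOneSpectrum (𝓞 K), v ∉ C.S → eo v (sc (d : K)) = 0
  loc : ∀ u ∈ C.Z, ∀ (A B : 𝓞 K) (e : Fin 3 → Kv u),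
    Spl (algebraMap K (Kv u) (A : K)) (algebraMap K (Kv u) (B : K)) e → Lp u A B e →
      H30MG.LocCl u e (d : K) (x u)

/-- The conditions of the classes over `K`. -/
def SelG (C : CfgX K) (Lp : LPred K) {ι : Type*} (x : (u : HeightOneSpectrum (𝓞 K)) → ι → SC (Kv u))
    (Z : Set (HeightOneSpectrum (𝓞 K))) : SPred K ι := fun P i A B δ =>
  (∃ (M : Type) (_ : Field M) (_ : NumberField M) (_ : Algebra K M) (μ : M),
    PairOk C Lp (fun u => x u i) Z P A B M μ ∧
      LCE M (algebraMap K M (A : K)) (algebraMap K M (B : K)) μ (fun i => algebraMap K M (δ i))) ∨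
  ∃ d : 𝓞 K, ElOk C Lp (fun u => x u i) d ∧ SelR P d A B δ

theorem selHyp_G {C : CfgX K} (hC : C.Ok) {Lp : LPred K} {ι : Type*}
    {x : (u : HeightOneSpectrum (𝓞 K)) → ι → SC (Kv u)} {Z : Set (HeightOneSpectrum (𝓞 K))} :
    SelHyp C x Lp (SelG C Lp x Z) Z := by
  refine ⟨fun q₀ T A B e hq hqZ hT hF hLp L _ _ _ θ hR Dt J hJT D hD P hSP hTP hqP i δ hδ hsq hS => ?_⟩
  have hT' : ∀ v ∈ T, v ∉ C.S ∧ v ≠ q₀ := fun v hv => ⟨(hT v hv).1, (hT v hv).2.1⟩
  rcases hS with ⟨M, _, _, _, μ, hM, hL⟩ | ⟨d, hd, hS⟩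
  · have _ := hM.gal
    obtain ⟨r, hr⟩ := hM.deg
    refine selL hr hM.ne hC hq hT' hF hR Dt hJT hD hM.bad ?_ (x := fun u => x u i)
      (fun u hu => hM.loc u hu A B (e u) (hF.spl u hu) (hLp u hu)) hδ hsq hL
    intro v hv
    have hvT := hJT hv
    rcases hM.spl v (hTP hvT) (hT v hvT).2.2 (hT v hvT).1 with h1 | h1
    · exfalso
      obtain ⟨t, ht, -⟩ := hF.typ v hvT
      apply h1 (D * t)
      have e1 : (D * t) ^ 3 + D ^ 2 * A * (D * t) + D ^ 3 * B = D ^ 3 * (t ^ 3 + A * t + B) := by ring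
      rw [e1]
      exact Ideal.mul_mem_left _ _ ht
    · exact h1
  · exact selR hC hT' hF hR Dt hJT hD hd.ne hd.even (x := fun u => x u i)
      (fun u hu => hd.loc u hu A B (e u) (hF.spl u hu) (hLp u hu)) hSP (hJT.trans hTP) hδ hsq hS

/-- The relative conditions over `K` for the twist by `d`. -/
theorem relG_G {C : CfgX K} {Lp : LPred K} {ι : Type*}
    {x : (u : HeightOneSpectrum (𝓞 K)) → ι → SC (Kv u)} {Z : Set (HeightOneSpectrum (𝓞 K))}
    {P : Finset (HeightOneSpectrum (𝓞 K))} (hSP : C.S ⊆ P) {A B : 𝓞 K}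
    (hG : SelGood (SelG C Lp x Z) P A B) {i : ι} {d : 𝓞 K} (hd : ElOk C Lp (fun u => x u i) d) :
    H36MT.RelG K P (d ^ 2 * A) (d ^ 3 * B) := by
  have hdK : (d : K) ≠ 0 := fun h0 => hd.ne (RingOfIntegers.coe_eq_zero_iff.1 h0)
  refine relG_of hG (i := i) hd.ne (fun v hv => ?_) fun δ hδ => Or.inr ⟨d, hd, hδ⟩
  have h1 := hd.even v fun h => hv (hSP h)
  rw [H38T1.eo_sc hdK] at h1
  exact (ZMod.intCast_eq_zero_iff_even).1 h1

/-- **The pairs.** The twist by `μ` over `M` has finitely many points and trivial two-primary part. -/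
theorem triv_G {C : CfgX K} {Lp : LPred K} {ι : Type*}
    {x : (u : HeightOneSpectrum (𝓞 K)) → ι → SC (Kv u)} {Z : Set (HeightOneSpectrum (𝓞 K))}
    {P : Finset (HeightOneSpectrum (𝓞 K))} {A B : 𝓞 K}
    (hG : SelGood (SelG C Lp x Z) P A B) {i : ι}
    {M : Type} [Field M] [NumberField M] [Algebra K M] {μ : M}
    (hM : PairOk C Lp (fun u => x u i) Z P A B M μ) (hst : Stw K μ) :
    Finite (⟨0, 0, 0, μ ^ 2 * algebraMap K M (A : K), μ ^ 3 * algebraMap K M (B : K)⟩ :
      WeierstrassCurve M).toAffine.Point ∧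
    Pool.Agent.H10.Sha2Trivial M
      (⟨0, 0, 0, μ ^ 2 * algebraMap K M (A : K), μ ^ 3 * algebraMap K M (B : K)⟩ :
        WeierstrassCurve M) := by
  have _ := hM.gal
  obtain ⟨r, hr⟩ := hM.deg
  have hne : 4 * (A : K) ^ 3 + 27 * (B : K) ^ 2 ≠ 0 := by
    intro h
    apply hG.ne
    apply RingOfIntegers.coe_injective
    rw [map_zero, ← h]
    simp only [map_add, map_mul, map_pow, map_ofNat]
  have hirr : ∀ t : M, t ^ 3 + (μ ^ 2 * algebraMap K M (A : K)) * t +
      μ ^ 3 * algebraMap K M (B : K) ≠ 0 := by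
    intro t ht
    apply noroot (K := K) (N := M) (k := M) hr hG.irr (t / μ)
    have h7 : μ ^ 3 * ((t / μ) ^ 3 + algebraMap K M (A : K) * (t / μ) + algebraMap K M (B : K)) = 0 := by
      have := hM.ne
      field_simp
      linear_combination ht
    exact (mul_eq_zero.1 h7).resolve_left (pow_ne_zero 3 hM.ne)
  obtain ⟨L', _, _, _, θ', hL'⟩ := H24PD.exists_cub (K := M) hirr
  refine H24PD.descent hL' (selTriv_of hr hne hM.ne hst ?_ L' θ' hL')
  intro L _ _ _ θ h δ hδ hsq hL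
  exact hG.rel i L θ h δ hδ hsq (Or.inl ⟨M, _, _, _, μ, hM, hL⟩)

end H88AB

end S_H88_AB_Fi

section S_H88_AB_Gd

set_option autoImplicit false
set_option linter.unusedSectionVars false
open scoped Classical

open WithZero NumberField IsDedekindDomain H38RT
open H38T1 (SC sc scu rep eo la si Pri OddP tp unif ka)
open H76PP H36MX H76MQ H76MX H76AB

namespace H88AB

/-- **The positive proportion theorem** for the abstract conditions `Sel`. -/
theorem final_countG2 (K : Type) [Field K] [NumberField K] {C : CfgX K} (hC : C.Ok) (hH : Hilb K)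
    (hcs : ConicSplit K) {ι : Type*} {x : (u : HeightOneSpectrum (𝓞 K)) → ι → SC (Kv u)}
    {W : Submodule (ZMod 2) C.V} (hW : TargetG C x W) {Lp : LPred K} {Sel : SPred K ι}
    {m : Ideal (𝓞 K)} {e : ℕ} {A₀ B₀ : 𝓞 K} (hcl : ClassG C Lp m e A₀ B₀)
    {Z : Set (HeightOneSpectrum (𝓞 K))} (hZ : Z.Infinite) (hSel : SelHyp C x Lp Sel Z) :
    ∃ (Sg : Finset (HeightOneSpectrum (𝓞 K))) (c X₀ : ℝ), C.S ⊆ Sg ∧
      (∀ v ∈ Sg, v ∈ C.S ∨ v ∈ Z) ∧ 0 < c ∧ ∀ X : ℝ, X₀ ≤ X →
      ∃ G : Finset (𝓞 K × 𝓞 K),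
        (∀ p ∈ G, p ∈ Bx K X ∧ ((∀ s : K →+* ℝ, 0 < s (p.1 : K)) ∧
          (∀ v ∈ C.R, ∀ t : 𝓞 K, t ^ 3 + p.1 * t + p.2 ∉ v.asIdeal) ∧
          (∀ u ∈ C.Z, ∃ e : Fin 3 → Kv u,
            Spl (algebraMap K (Kv u) (p.1 : K)) (algebraMap K (Kv u) (p.2 : K)) e) ∧
          ∀ P : Finset (HeightOneSpectrum (𝓞 K)), Sg ⊆ P → SelGood Sel P p.1 p.2)) ∧
        (∀ p ∈ G, ∀ q ∈ G, p.1 ^ 3 * q.2 ^ 2 = q.1 ^ 3 * p.2 ^ 2 → p = q) ∧
        c * ((Bx K X).ncard : ℝ) ≤ (G.card : ℝ) := by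
  have H : Blocks K := blocks_of_HR2 K fun h hd => hr2 h hd
  have hm0 := hcl.bot
  have he := hcl.two
  have hmS := hcl.inS
  have hm := hcl.out
  have hSv : ∀ v : HeightOneSpectrum (𝓞 K), (2 : 𝓞 K) ∈ v.asIdeal → v ∈ C.S := fun v hv =>
    Finset.mem_union_left _ (hC.mem2 v hv)
  obtain ⟨m', hm'0, hm't, hm'm, hm'S, -⟩ := H36MT.exists_mod hm0 C.S
  obtain ⟨Z', hZ'Z, hZ', hZ'm, hZr⟩ := H30CY.aux_set_in K hm'0 hZ
  have hmZ : ∀ v ∈ Z', ¬ m ≤ v.asIdeal ∧ (6 : 𝓞 K) ∉ v.asIdeal := fun v hv =>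
    ⟨fun h => (hZ'm v hv).1 (hm'm.trans h), (hZ'm v hv).2⟩
  have hS6 : ∀ v : HeightOneSpectrum (𝓞 K), ¬ m ≤ v.asIdeal → v ∉ C.S := by
    intro v hv hvS
    exact hv ((hmS v hvS).1.trans (Ideal.pow_le_self (by omega)))
  obtain ⟨q₀, T, b, k, c, X₀, hq₀, hT, hdis, hk0, hk, hc, hmain⟩ :=
    H36MX.count_main K hSv he hZ' hm0 hmZ hmS hm (Module.finrank ℚ K + 2 * C.Z.card)
  obtain ⟨Ta, hTa⟩ : ∃ Ta : Finset (HeightOneSpectrum (𝓞 K)), Ta = (Finset.range k).biUnion T :=
    ⟨_, rfl⟩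
  rw [← hTa] at hmain
  have hTa' : ∀ v ∈ Ta, v ∈ Z' ∧ v ≠ q₀ := by
    intro v hv
    rw [hTa, Finset.mem_biUnion] at hv
    obtain ⟨l, -, hl⟩ := hv
    exact hT l v hl
  have hT0 : T 0 ⊆ Ta := by
    intro v hv
    rw [hTa, Finset.mem_biUnion]
    exact ⟨0, Finset.mem_range.2 hk0, hv⟩
  obtain ⟨c', X₁, hc', h⟩ := H30CY.count_genS H (S := C.S) (e := e) (q₀ := q₀) (T := Ta) (m' := m')
    (fun J hJ => H36MT.exists_twistS hm'0 hm't hm'S (hZ'm q₀ hq₀).1 fun p hp =>
      hZr q₀ hq₀ p (hTa' p (hJ hp)).1 (hTa' p (hJ hp)).2)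
    (fun p => (p.1 - A₀ ∈ m ∧ p.2 - B₀ ∈ m ∧ ∀ s : K →+* ℝ, 0 < s (p.1 : K)) ∧
      ∀ l < k, GoodSt (C.S ∪ (Finset.range l).biUnion T) (T l) (b l) p.1 p.2)
    (fun p => (∀ s : K →+* ℝ, 0 < s (p.1 : K)) ∧
      (∀ v ∈ C.R, ∀ t : 𝓞 K, t ^ 3 + p.1 * t + p.2 ∉ v.asIdeal) ∧
      (∀ u ∈ C.Z, ∃ e : Fin 3 → Kv u,
        Spl (algebraMap K (Kv u) (p.1 : K)) (algebraMap K (Kv u) (p.2 : K)) e) ∧
      ∀ P : Finset (HeightOneSpectrum (𝓞 K)), C.S ∪ insert q₀ Ta ⊆ P →
        SelGood Sel P p.1 p.2) hc (by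
      intro X hX
      refine (hmain X hX).trans ?_
      have hfin : {p : 𝓞 K × 𝓞 K | p ∈ Bx K X ∧ H36MT.FamS C.S e q₀ Ta p.1 p.2 ∧
          ((p.1 - A₀ ∈ m ∧ p.2 - B₀ ∈ m ∧ ∀ s : K →+* ℝ, 0 < s (p.1 : K)) ∧
          ∀ l < k, GoodSt (C.S ∪ (Finset.range l).biUnion T) (T l) (b l) p.1 p.2) ∧
          ¬ H36MT.BadS C.S Ta p.1 p.2}.Finite := (H.fin X).subset fun p hp => hp.1
      refine Nat.cast_le.2 (Set.ncard_le_ncard ?_ hfin)
      rintro p ⟨h1, h2, h3, h4⟩
      refine ⟨h1, h2, ⟨h3, h4⟩, ?_⟩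
      have h5 := h4 0 hk0
      rw [Finset.range_zero, Finset.biUnion_empty, Finset.union_empty] at h5
      exact good_not_bad hT0 h5)
    (by
      rintro p hF ⟨hP, hG⟩ -
      obtain ⟨hP1, hP2, hP3⟩ := hP
      have hloc : ∀ u : HeightOneSpectrum (𝓞 K), ∃ e : Fin 3 → Kv u, u ∈ C.Z →
          Spl (algebraMap K (Kv u) (p.1 : K)) (algebraMap K (Kv u) (p.2 : K)) e ∧
            Lp u p.1 p.2 e := by
        intro u
        by_cases hu : u ∈ C.Z
        · obtain ⟨e, he⟩ := hcl.loc p.1 p.2 hP1 hP2 u hu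
          exact ⟨e, fun _ => he⟩
        · exact ⟨fun _ => 0, fun h => absurd h hu⟩
      choose ee hee using hloc
      have hpos : ∀ s : K →+* ℝ, 0 < s ((dsc p.1 p.2 : 𝓞 K) : K) := by
        intro s
        have e1 : ((dsc p.1 p.2 : 𝓞 K) : K) = 4 * (p.1 : K) ^ 3 + 27 * (p.2 : K) ^ 2 := by
          unfold dsc
          simp only [map_add, map_mul, map_pow, map_ofNat]
        rw [e1, map_add, map_mul, map_mul, map_pow, map_pow, map_ofNat, map_ofNat]
        have h1 := hP3 s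
        positivity
      have hFX : FamX C q₀ Ta p.1 p.2 ee := ⟨fun u hu => (hee u hu).1,
        hcl.res p.1 p.2 hP1 hP2, hF.irr, hF.typ, hF.sqf, hpos⟩
      have hF' := hF
      rw [hTa] at hFX hF'
      obtain ⟨J, hJ, hg⟩ := main_localG hC hH hcs hW hSel (hS6 q₀ (hmZ q₀ hq₀).1) (hZ'Z hq₀) hk0 T b
        (fun i _ j _ hij => hdis i j hij)
        (fun v hv => by
          rw [← hTa] at hv
          exact ⟨hS6 v (hmZ v (hTa' v hv).1).1, (hTa' v hv).2, hZ'Z (hTa' v hv).1⟩) hF' hFX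
        (fun u hu => (hee u hu).2) hG hk
      rw [← hTa] at hJ hg
      refine ⟨J, hJ, fun D hDm hD => ⟨?_, ?_, ?_, ?_⟩⟩
      · intro s
        change 0 < s ((D ^ 2 * p.1 : 𝓞 K) : K)
        have e1 : ((D ^ 2 * p.1 : 𝓞 K) : K) = (D : K) ^ 2 * (p.1 : K) := by push_cast; rfl
        rw [e1, map_mul, map_pow]
        exact mul_pos (pow_pos (hD.pos s) 2) (hP3 s)
      · have hDm' := hm'm hDm
        refine hcl.res (D ^ 2 * p.1) (D ^ 3 * p.2) ?_ ?_
        · have e1 : D ^ 2 * p.1 - A₀ = (p.1 - A₀) + (D - 1) * ((D + 1) * p.1) := by ring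
          rw [e1]
          exact m.add_mem hP1 (m.mul_mem_right _ hDm')
        · have e1 : D ^ 3 * p.2 - B₀ = (p.2 - B₀) + (D - 1) * ((D ^ 2 + D + 1) * p.2) := by ring
          rw [e1]
          exact m.add_mem hP2 (m.mul_mem_right _ hDm')
      · have hDm' := hm'm hDm
        intro u hu
        obtain ⟨e, he, -⟩ := hcl.loc (D ^ 2 * p.1) (D ^ 3 * p.2) (by
          have e1 : D ^ 2 * p.1 - A₀ = (p.1 - A₀) + (D - 1) * ((D + 1) * p.1) := by ring
          rw [e1]
          exact m.add_mem hP1 (m.mul_mem_right _ hDm')) (by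
          have e1 : D ^ 3 * p.2 - B₀ = (p.2 - B₀) + (D - 1) * ((D ^ 2 + D + 1) * p.2) := by ring
          rw [e1]
          exact m.add_mem hP2 (m.mul_mem_right _ hDm')) u hu
        exact ⟨e, he⟩
      · intro P hP
        exact hg D hD P (Finset.subset_union_left.trans hP)
          (((Finset.subset_insert _ _).trans Finset.subset_union_right).trans hP)
          (hP (Finset.mem_union_right _ (Finset.mem_insert_self _ _))))
  refine ⟨C.S ∪ insert q₀ Ta, c', X₁, Finset.subset_union_left, fun v hv => ?_, hc', h⟩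
  rcases Finset.mem_union.1 hv with h1 | h1
  · exact Or.inl h1
  · right
    rcases Finset.mem_insert.1 h1 with h2 | h2
    · rw [h2]
      exact hZ'Z hq₀
    · exact hZ'Z (hTa' v h2).1


/-- A cubic which splits over the completion has a root modulo `v`. -/
theorem root_of_spl {K : Type} [Field K] [NumberField K] {v : HeightOneSpectrum (𝓞 K)} {A B : 𝓞 K}
    {e : Fin 3 → Kv v} (h : Spl (algebraMap K (Kv v) (A : K)) (algebraMap K (Kv v) (B : K)) e) :
    ∃ t : 𝓞 K, t ^ 3 + A * t + B ∈ v.asIdeal := by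
  by_contra hcon
  push Not at hcon
  have hr := h.root 0
  have hA : Valued.v (algebraMap K (Kv v) (A : K)) ≤ 1 := by
    rw [H36CY.val_coe]
    exact v.valuation_le_one A
  have hB : Valued.v (algebraMap K (Kv v) (B : K)) ≤ 1 := by
    rw [H36CY.val_coe]
    exact v.valuation_le_one B
  have he : Valued.v (e 0) ≤ 1 := by
    by_contra hc
    rw [not_le] at hc
    have h0 : 0 < Valued.v (e 0) := zero_lt_one.trans hc
    have h1 : (e 0) ^ 3 = -(algebraMap K (Kv v) (A : K) * e 0 + algebraMap K (Kv v) (B : K)) := by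
      linear_combination hr
    have h2 : Valued.v (e 0) ^ 3 ≤ Valued.v (e 0) := by
      rw [← map_pow, h1, Valuation.map_neg]
      refine (Valuation.map_add _ _ _).trans (max_le ?_ (hB.trans hc.le))
      rw [map_mul]
      exact mul_le_of_le_one_left' hA
    have h3 : Valued.v (e 0) * 1 < Valued.v (e 0) * Valued.v (e 0) ^ 2 :=
      mul_lt_mul_of_pos_left (one_lt_pow₀ hc two_ne_zero) h0
    rw [mul_one, ← pow_succ'] at h3
    exact absurd h3 (not_lt.2 h2)
  obtain ⟨k, hk⟩ := H36CY.near_coe v (e 0) one_ne_zero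
  rw [map_one] at hk
  have hk1 : Valued.v (algebraMap K (Kv v) k) ≤ 1 := by
    have e1 : algebraMap K (Kv v) k = (algebraMap K (Kv v) k - e 0) + e 0 := by ring
    rw [e1]
    exact (Valuation.map_add _ _ _).trans (max_le hk.le he)
  have hk2 : v.valuation K k ≤ 1 := by
    rw [← H36CY.val_coe]
    exact hk1
  have h4 := Tf_unit v hcon hk2
  rw [← H36CY.val_coe] at h4
  have e1 : algebraMap K (Kv v) (k ^ 3 + (A : K) * k + (B : K)) =
      (algebraMap K (Kv v) k - e 0) * ((algebraMap K (Kv v) k) ^ 2 + algebraMap K (Kv v) k * e 0 +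
        (e 0) ^ 2 + algebraMap K (Kv v) (A : K)) := by
    rw [map_add, map_add, map_mul, map_pow]
    linear_combination hr
  rw [e1, map_mul] at h4
  have h5 : Valued.v ((algebraMap K (Kv v) k) ^ 2 + algebraMap K (Kv v) k * e 0 +
        (e 0) ^ 2 + algebraMap K (Kv v) (A : K)) ≤ 1 := by
    refine (Valuation.map_add _ _ _).trans (max_le ((Valuation.map_add _ _ _).trans (max_le
      ((Valuation.map_add _ _ _).trans (max_le ?_ ?_)) ?_)) hA)
    · rw [map_pow]
      exact pow_le_one' hk1 2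
    · rw [map_mul]
      exact mul_le_one' hk1 he
    · rw [map_pow]
      exact pow_le_one' he 2
  have h6 : Valued.v (algebraMap K (Kv v) k - e 0) * Valued.v ((algebraMap K (Kv v) k) ^ 2 +
      algebraMap K (Kv v) k * e 0 + (e 0) ^ 2 + algebraMap K (Kv v) (A : K)) < 1 :=
    mul_lt_one_of_lt_of_le hk h5
  exact absurd h4 h6.ne

end H88AB

end S_H88_AB_Gd

section S_H88_AB_Ly

set_option autoImplicit false
set_option linter.unusedSectionVars false
open scoped Classical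

namespace H88AB

open IntermediateField

section Layer

variable {K L F₀ F' : Type} [Field K] [CharZero K] [Field L] [Field F₀] [Field F'] [Algebra K L]
  [Algebra K F₀] [Algebra K F'] [Algebra L F'] [Algebra F₀ F'] [IsScalarTower K L F']
  [IsScalarTower K F₀ F'] [FiniteDimensional K F₀] [IsGalois K F₀] [IsGalois K L]

/-- The elements of the compositum lie in finite layers. -/
theorem mem_layer (hgen : IntermediateField.adjoin L (Set.range (algebraMap F₀ F')) = ⊤) (α : F') :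
    ∃ U : Finset L, α ∈ IntermediateField.adjoin K
      ((algebraMap L F') '' (U : Set L) ∪ Set.range (algebraMap F₀ F')) := by
  have h1 : α ∈ IntermediateField.adjoin K (Set.range (algebraMap L F') ∪
      Set.range (algebraMap F₀ F')) := by
    let E : IntermediateField L F' :=
      { (IntermediateField.adjoin K (Set.range (algebraMap L F') ∪
          Set.range (algebraMap F₀ F'))).toSubfield with
        algebraMap_mem' := fun x => IntermediateField.subset_adjoin K _ (Or.inl ⟨x, rfl⟩) }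
    have h2 : IntermediateField.adjoin L (Set.range (algebraMap F₀ F')) ≤ E := by
      rw [IntermediateField.adjoin_le_iff]
      intro x hx
      exact IntermediateField.subset_adjoin K _ (Or.inr hx)
    have h3 : α ∈ E := by
      apply h2
      rw [hgen]
      exact IntermediateField.mem_top
    exact h3
  obtain ⟨T, hT, hα⟩ := IntermediateField.exists_finset_of_mem_adjoin h1
  have h4 : ∀ t : F', ∃ x : L, (∃ y : L, algebraMap L F' y = t) → algebraMap L F' x = t := by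
    intro t
    by_cases h : ∃ y : L, algebraMap L F' y = t
    · exact ⟨h.choose, fun _ => h.choose_spec⟩
    · exact ⟨0, fun h' => absurd h' h⟩
  choose f hf using h4
  refine ⟨T.image f, ?_⟩
  refine IntermediateField.adjoin.mono K _ _ ?_ hα
  intro t ht
  rcases hT ht with h5 | h5
  · left
    refine ⟨f t, ?_, hf t h5⟩
    rw [Finset.coe_image]
    exact ⟨t, ht, rfl⟩
  · exact Or.inr h5

/-- Every finite subextension of the compositum lies in the compositum of `F₀` and a finite layer. -/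
theorem exists_layer (hgen : IntermediateField.adjoin L (Set.range (algebraMap F₀ F')) = ⊤)
    (M : IntermediateField K F') [FiniteDimensional K M] :
    ∃ (L0 : IntermediateField K L) (N : IntermediateField K F'), FiniteDimensional K L0 ∧
      Normal K L0 ∧ FiniteDimensional K N ∧ Normal K N ∧ M ≤ N ∧
      (∀ x : L, x ∈ L0 → algebraMap L F' x ∈ N) ∧ (∀ y : F₀, algebraMap F₀ F' y ∈ N) ∧
      N ≤ IntermediateField.adjoin K
        ((algebraMap L F') '' (L0 : Set L) ∪ Set.range (algebraMap F₀ F')) := by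
  obtain ⟨α, hα⟩ := Field.exists_primitive_element K M
  obtain ⟨U, hU⟩ := mem_layer (K := K) hgen (α : F')
  have hLalg : Algebra.IsAlgebraic K L := inferInstance
  let L1 : IntermediateField K L := IntermediateField.adjoin K (U : Set L)
  have hL1 : FiniteDimensional K L1 := IntermediateField.finiteDimensional_adjoin
    (S := (U : Set L)) fun x _ => Algebra.IsIntegral.isIntegral x
  let L0 : IntermediateField K L := IntermediateField.normalClosure K L1 L
  have hL10 : L1 ≤ L0 := IntermediateField.le_normalClosure L1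
  have hL0n : Normal K L0 := inferInstance
  have hL0f : FiniteDimensional K L0 := inferInstance
  let iL : L →ₐ[K] F' := IsScalarTower.toAlgHom K L F'
  let iF : F₀ →ₐ[K] F' := IsScalarTower.toAlgHom K F₀ F'
  let NL : IntermediateField K F' := L0.map iL
  let NF : IntermediateField K F' := iF.fieldRange
  have hNLn : Normal K NL := Normal.of_algEquiv (L0.equivMap iL)
  have hNLf : FiniteDimensional K NL := (L0.equivMap iL).toLinearEquiv.finiteDimensional
  have hNFn : Normal K NF := Normal.of_algEquiv (AlgHom.equivFieldRange iF)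
  have hNFf : FiniteDimensional K NF :=
    (AlgHom.equivFieldRange iF).toLinearEquiv.finiteDimensional
  have hx : ∀ x : L, x ∈ L0 → algebraMap L F' x ∈ NL ⊔ NF := fun x hx =>
    (le_sup_left : NL ≤ NL ⊔ NF) ⟨x, hx, rfl⟩
  have hy : ∀ y : F₀, algebraMap F₀ F' y ∈ NL ⊔ NF := fun y =>
    (le_sup_right : NF ≤ NL ⊔ NF) ⟨y, rfl⟩
  refine ⟨L0, NL ⊔ NF, hL0f, hL0n, inferInstance, inferInstance, ?_, hx, hy, ?_⟩
  · have h1 : (α : F') ∈ NL ⊔ NF := by
      have h2 : IntermediateField.adjoin K ((algebraMap L F') '' (U : Set L) ∪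
          Set.range (algebraMap F₀ F')) ≤ NL ⊔ NF := by
        rw [IntermediateField.adjoin_le_iff]
        rintro x (⟨u, hu, rfl⟩ | ⟨y, rfl⟩)
        · exact hx u (hL10 (IntermediateField.subset_adjoin K _ hu))
        · exact hy y
      exact h2 hU
    intro x hxM
    have h3 : (⟨x, hxM⟩ : M) ∈ IntermediateField.adjoin K {α} := by
      rw [hα]
      exact IntermediateField.mem_top
    have h4 : IntermediateField.adjoin K {α} ≤ (NL ⊔ NF).comap M.val := by
      rw [IntermediateField.adjoin_le_iff]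
      intro y hy'
      rw [Set.mem_singleton_iff] at hy'
      subst hy'
      exact h1
    exact h4 h3
  · rw [sup_le_iff]
    constructor
    · rintro _ ⟨x, hx', rfl⟩
      exact IntermediateField.subset_adjoin K _ (Or.inl ⟨x, hx', rfl⟩)
    · rintro _ ⟨y, rfl⟩
      exact IntermediateField.subset_adjoin K _ (Or.inr ⟨y, rfl⟩)

end Layer

/-- The degree of the compositum of two extensions of two-power degree. -/
theorem layer_deg {K L0 F₀ N : Type} [Field K] [Field L0] [Field F₀] [Field N] [Algebra K L0]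
    [Algebra K F₀] [Algebra K N] [Algebra L0 N] [Algebra F₀ N] [IsScalarTower K L0 N]
    [IsScalarTower K F₀ N] [FiniteDimensional K N] [IsGalois K N] [FiniteDimensional K L0]
    [FiniteDimensional K F₀] [IsGalois K L0] [IsGalois K F₀] {a b : ℕ}
    (ha : Module.finrank K L0 = 2 ^ a) (hb : Module.finrank K F₀ = 2 ^ b)
    (hg : ∀ g : N ≃ₐ[K] N, (∀ x : L0, g (algebraMap L0 N x) = algebraMap L0 N x) →
      (∀ y : F₀, g (algebraMap F₀ N y) = algebraMap F₀ N y) → g = 1) :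
    ∃ r : ℕ, Module.finrank K N = 2 ^ r := by
  have key : ∀ (E : Type) [Field E] [Algebra K E] [Algebra E N] [IsScalarTower K E N]
      [FiniteDimensional K E] [IsGalois K E] (c : ℕ), Module.finrank K E = 2 ^ c →
      ∀ (g : N ≃ₐ[K] N) (m : ℕ) (x : E), (g ^ (2 ^ c * m)) (algebraMap E N x) = algebraMap E N x := by
    intro E _ _ _ _ _ _ c hc g m x
    have h1 : (AlgEquiv.restrictNormalHom E g) ^ (2 ^ c) = 1 := by
      rw [← hc, ← IsGalois.card_aut_eq_finrank K E]
      exact pow_card_eq_one'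
    have h2 : AlgEquiv.restrictNormalHom E (g ^ (2 ^ c * m)) = 1 := by
      rw [map_pow, pow_mul, h1, one_pow]
    have h3 := AlgEquiv.restrictNormal_commutes (g ^ (2 ^ c * m)) E x
    have h4 : (g ^ (2 ^ c * m)).restrictNormal E = 1 := h2
    rw [h4] at h3
    exact h3.symm
  have hp : IsPGroup 2 (N ≃ₐ[K] N) := by
    intro g
    refine ⟨a + b, hg _ (fun x => ?_) (fun y => ?_)⟩
    · rw [pow_add]
      exact key L0 a ha g (2 ^ b) x
    · rw [pow_add, mul_comm]
      exact key F₀ b hb g (2 ^ a) y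
  have _ : Fact (Nat.Prime 2) := ⟨Nat.prime_two⟩
  obtain ⟨n, hn⟩ := (IsPGroup.iff_card (p := 2) (G := N ≃ₐ[K] N)).1 hp
  exact ⟨n, by rw [← IsGalois.card_aut_eq_finrank K N, hn]⟩

end H88AB

end S_H88_AB_Ly

section S_H88_AB_Fn

set_option autoImplicit false
set_option linter.unusedSectionVars false
open scoped Classical

open WithZero NumberField IsDedekindDomain H38RT
open H38T1 (SC sc scu rep eo la si Pri OddP tp unif ka)
open H76PP H36MX H76MQ H76MX H73P2 H76AB

namespace H88AB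

/-- `v` splits completely. -/
def Sp (K L : Type) [Field K] [NumberField K] [Field L] [Algebra K L]
    (v : HeightOneSpectrum (𝓞 K)) : Prop :=
  ∃ ι : L →+* v.adicCompletion K, ∀ x : K,
    ι (algebraMap K L x) = algebraMap K (v.adicCompletion K) x

theorem split_unram {K L0 : Type} [Field K] [NumberField K] [Field L0] [NumberField L0] [Algebra K L0]
    [IsGalois K L0] {V : HeightOneSpectrum (𝓞 L0)} (h : Sp K L0 (dn K V)) : ¬ Ram K V := by
  obtain ⟨ι, hι⟩ := h
  rw [H36AB.inertia_iff, eq_bot_iff, ← H76AB.dec_split ι hι rfl]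
  intro σ hσ
  refine H76AB.stb_of_mem fun x => ?_
  have h1 : σ • x - x ∈ V.asIdeal := hσ x
  exact ⟨fun hx => by
    have h2 := V.asIdeal.add_mem h1 hx
    rwa [sub_add_cancel] at h2, fun hx => by
    have h2 := V.asIdeal.sub_mem hx h1
    rwa [sub_sub_cancel] at h2⟩

theorem unram_even {K M N : Type} [Field K] [NumberField K] [Field M] [NumberField M] [Field N]
    [NumberField N] [Algebra K M] [Algebra K N] [Algebra M N] [IsScalarTower K M N]
    {W : HeightOneSpectrum (𝓞 N)} (h : ¬ Ram K W) {μ : M} (hμ : μ ≠ 0) {ρ : N}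
    (hρ : ρ ^ 2 = algebraMap M N μ) : eo (dn M W) (sc μ) = 0 := by
  obtain ⟨h1, -⟩ := unram_mid (k := M) h
  rw [H38T1.eo_sc hμ, ZMod.intCast_eq_zero_iff_even, ← h1 μ hμ, ← hρ]
  refine ⟨ord (W.valuation N) ρ, ?_⟩
  unfold ord
  rw [map_pow, log_pow, nsmul_eq_mul]
  push_cast
  ring

/-- **The pairs of the layers are admissible.** -/
theorem pairOk_of {K : Type} [Field K] [NumberField K] {C : CfgX K} {Lp : LPred K}
    {x : (u : HeightOneSpectrum (𝓞 K)) → SC (Kv u)} {F₀ : Type} [Field F₀] [NumberField F₀]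
    [Algebra K F₀] [IsGalois K F₀]
    (hF : ∀ V : HeightOneSpectrum (𝓞 F₀), dn K V ∉ C.S → ¬ Ram K V)
    {S : Finset (HeightOneSpectrum (𝓞 K))} {p : 𝓞 K × 𝓞 K} {L : Type} [Field L] [Algebra K L]
    (hL : H30MQ.AdmM K L S p) {L0 : IntermediateField K L} [NumberField L0] [IsGalois K L0]
    {M N : Type} [Field M] [NumberField M] [Field N] [NumberField N] [Algebra K M] [Algebra K N]
    [Algebra M N] [IsScalarTower K M N] [Algebra L0 N] [Algebra F₀ N] [IsScalarTower K L0 N]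
    [IsScalarTower K F₀ N] [IsGalois K N] [IsGalois K M]
    (hg : ∀ g : N ≃ₐ[K] N, (∀ x : L0, g (algebraMap L0 N x) = algebraMap L0 N x) →
      (∀ y : F₀, g (algebraMap F₀ N y) = algebraMap F₀ N y) → g = 1)
    (hdeg : ∃ r : ℕ, Module.finrank K M = 2 ^ r) {μ : M} (hμ : μ ≠ 0) {ρ : N}
    (hρ : ρ ^ 2 = algebraMap M N μ)
    (hloc : ∀ u ∈ C.Z, ∀ (A B : 𝓞 K) (e : Fin 3 → Kv u),
      Spl (algebraMap K (Kv u) (A : K)) (algebraMap K (Kv u) (B : K)) e → Lp u A B e →
        H30MG.LocCl u e μ (x u)) :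
    PairOk C Lp x {v | Sp K F₀ v} S p.1 p.2 M μ := by
  have hres : ∀ v : HeightOneSpectrum (𝓞 K), Sp K L v → Sp K L0 v := by
    rintro v ⟨ι, hι⟩
    exact ⟨ι.comp (algebraMap L0 L), fun y => hι y⟩
  refine ⟨inferInstance, hdeg, hμ, ?_, ?_, hloc⟩
  · intro V hV hb
    obtain ⟨W, hW⟩ := exists_above (L := N) V
    have hKW : dn K W = dn K V := by
      rw [← hW]
      exact (dn_dn W).symm
    have hF' : ¬ Ram K (dn F₀ W) := hF _ (by rw [dn_dn, hKW]; exact hV)
    have key : ¬ Ram K (dn L0 W) → False := by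
      intro h1
      have h2 := H36AB.unram_comp hg h1 hF'
      rcases hb with hb | hb
      · apply h2
        refine H30ZO.ram_up (M := M) ?_
        rw [hW]
        exact hb
      · apply hb
        rw [← hW]
        exact unram_even h2 hμ hρ
    rcases hL.loc (dn K V) with h | ⟨-, h⟩ | ⟨hvS, h⟩
    · exfalso
      refine key (split_unram ?_)
      rw [dn_dn, hKW]
      exact hres _ h
    · exact h
    · exfalso
      refine key fun hr => h ⟨L0, inferInstance, dn L0 W, ?_, hr⟩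
      rw [dn_dn, hKW]
  · intro v hvS hvZ _
    rcases hL.loc v with h | ⟨-, h⟩ | ⟨h, -⟩
    · right
      obtain ⟨ι, hι⟩ := H36AB.split_comp hg (algebraMap K (v.adicCompletion K)) (hres v h) hvZ
      refine ⟨ι.comp (algebraMap M N), fun y => ?_, ι ρ, ?_⟩
      · rw [RingHom.comp_apply, ← IsScalarTower.algebraMap_apply K M N, hι]
      · rw [RingHom.comp_apply, ← hρ, map_pow, sq]
    · exact Or.inl h
    · exact absurd hvS h

end H88AB

end S_H88_AB_Fn
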