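import Mathlib
import Pool.Agent.H76.YP.Y3
import Pool.Agent.H76.YP.Y4
import Pool.Agent.H76.YP.Y5
import Pool.Agent.H76.YP.Y6

/-! This file joins several modules to save build time (Y7). -/

set_option autoImplicit false

section S_H30_MG_Ck

set_option autoImplicit false
set_option linter.unusedSectionVars false
open scoped Classical

open WithZero NumberField IsDedekindDomain H38RT
open H38T1 (SC sc scu rep eo la si Pri OddP tp unif ka)
open H76PP H36MX H76MQ H76MX H73P2 H76AB H88AB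

namespace H30MG

/-- The hypothesis on the decomposition groups above two: they are commutative and their cyclic subgroups are normal
in the whole Galois group. -/
def HypH (K F : Type) [Field K] [NumberField K] [Field F] [NumberField F] [Algebra K F] : Prop :=
  ∀ w : HeightOneSpectrum (𝓞 F), (2 : 𝓞 K) ∈ (dn K w).asIdeal →
    (∀ x ∈ Dec K w, ∀ y ∈ Dec K w, x * y = y * x) ∧
    ∀ x ∈ Dec K w, ∀ y : F ≃ₐ[K] F, y * x * y⁻¹ ∈ Subgroup.zpowers x

/-- What is needed about the configuration: `x u i` are the classes. -/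
structure CfgMG (K F₀ : Type) [Field K] [NumberField K] [Field F₀] [NumberField F₀] [Algebra K F₀]
    (C : CfgX K) {ι : Type} (Lp : LPred K)
    (x : (u : HeightOneSpectrum (𝓞 K)) → ι → SC (Kv u)) : Prop where
  unr : ∀ V : HeightOneSpectrum (𝓞 F₀), dn K V ∉ C.S → ¬ Ram K V
  el : ∀ d : 𝓞 K, d ≠ 0 → IsSquare (algebraMap K F₀ (d : K)) →
    ∃ i, ElOk C Lp (fun u => x u i) d
  pair : ∀ (L0 N : Type) [Field L0] [NumberField L0] [Algebra K L0] [IsGalois K L0]
    [Field N] [NumberField N] [Algebra K N] [IsGalois K N] [Algebra L0 N] [IsScalarTower K L0 N]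
    [Algebra F₀ N] [IsScalarTower K F₀ N] (r : ℕ), Module.finrank K N = 2 ^ r →
    (∀ g : N ≃ₐ[K] N, (∀ x : L0, g (algebraMap L0 N x) = algebraMap L0 N x) →
      (∀ y : F₀, g (algebraMap F₀ N y) = algebraMap F₀ N y) → g = 1) →
    (∀ v ∈ C.Z, Sp K L0 v) →
    ∀ (U : Subgroup (N ≃ₐ[K] N)) [U.Normal] (z : N ≃ₐ[K] N), z ^ 2 ∈ U →
      (∀ x, x ∉ U → (∀ y, x * y * x⁻¹ * y⁻¹ ∈ U) → x ^ 2 ∈ U → x * z⁻¹ ∈ U) →
      ∀ (M : IntermediateField K N) [NumberField M],
        (∀ x, x ∈ M ↔ (∀ u ∈ U, u x = x) ∧ z x = x) → ∀ ρ : N, ρ ≠ 0 → (∀ u ∈ U, u ρ = ρ) →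
        z ρ = -ρ → ∀ μ : M, (μ : N) = ρ ^ 2 →
        ∃ i, ∀ u ∈ C.Z, ∀ (A B : 𝓞 K) (e : Fin 3 → Kv u),
          Spl (algebraMap K (Kv u) (A : K)) (algebraMap K (Kv u) (B : K)) e → Lp u A B e →
            LocCl u e μ (x u i)
  split : ∀ (N : Type) [Field N] [NumberField N] [Algebra K N] [Algebra N F₀]
    [IsScalarTower K N F₀] [IsGalois K N],
    (∀ v : HeightOneSpectrum (𝓞 K), (2 : 𝓞 K) ∈ v.asIdeal → Sp K N v) → ∀ v ∈ C.Z, Sp K N v

/-- The statement of the configuration theorem (proved in `Cm.lean`). -/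
def ExistsCfgMG : Prop :=
  ∀ (K F₀ : Type) [Field K] [NumberField K] [Field F₀] [NumberField F₀] [Algebra K F₀]
    [IsGalois K F₀] (r : ℕ), Module.finrank K F₀ = 2 ^ r → HypH K F₀ →
    (∀ v : HeightOneSpectrum (𝓞 K), HF (Kv v)) →
    ∀ R₀ : Finset (HeightOneSpectrum (𝓞 K)), (∀ v ∈ R₀, (2 : 𝓞 K) ∉ v.asIdeal) →
    ∃ (ι : Type) (C : CfgX K) (Lp : LPred K) (x : (u : HeightOneSpectrum (𝓞 K)) → ι → SC (Kv u))
      (W : Submodule (ZMod 2) C.V) (n : Ideal (𝓞 K)) (E : ℕ) (A₀ B₀ : 𝓞 K),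
      C.Ok ∧ R₀ ⊆ C.R ∧ TargetG C x W ∧ ClassG C Lp n E A₀ B₀ ∧ CfgMG K F₀ C Lp x

end H30MG

end S_H30_MG_Ck

section S_H30_MG_Cz

set_option autoImplicit false
set_option linter.unusedSectionVars false
open scoped Classical

open WithZero NumberField IsDedekindDomain H38RT
open H38T1 (SC sc scu rep rep_ne sc_rep sc_mul sc_eq_zero sc_surj eo la si Pri OddP tp unif ka)
open H76PP H36MX H76MX H76AB

namespace H30MG

variable {K : Type} [Field K] [NumberField K]

/-- The properties of the roots. -/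
def LpM (η : (u : HeightOneSpectrum (𝓞 K)) → SC (Kv u)) (s : ZMod 2) : LPred K := fun u _ _ e =>
  ((2 : 𝓞 K) ∈ u.asIdeal → IsSquare (e 1 - e 0) ∧ Valued.v (e 1 - e 0) = 1 ∧
    Valued.v (e 2 - e 1) = Valued.v (16 : Kv u)) ∧
  ((2 : 𝓞 K) ∉ u.asIdeal → Valued.v (e 1 - e 0) = 1 ∧ Valued.v (e 2 - e 1) < 1 ∧
    sc (e 1 - e 0) = if s = 0 then 0 else η u)

/-- `η u` is the unramified class at an odd place. -/
def EtaOdd (η : (u : HeightOneSpectrum (𝓞 K)) → SC (Kv u)) : Prop :=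
  ∀ u : HeightOneSpectrum (𝓞 K), (2 : 𝓞 K) ∉ u.asIdeal → ∃ n : 𝓞 K, n ∉ u.asIdeal ∧
    eo u (sc (n : K)) = 0 ∧ la u (sc (n : K)) = 1 ∧ η u = sc (algebraMap K (Kv u) (n : K))

/-- `η u` is the unramified class at a place above two. -/
def EtaTwo (η : (u : HeightOneSpectrum (𝓞 K)) → SC (Kv u)) : Prop :=
  ∀ u : HeightOneSpectrum (𝓞 K), (2 : 𝓞 K) ∈ u.asIdeal → ∃ g0 : Kv u, Unr g0 ∧ η u = sc g0

theorem two_lt_of {u : HeightOneSpectrum (𝓞 K)} (h2 : (2 : 𝓞 K) ∈ u.asIdeal) :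
    u.valuation K 2 < 1 := by
  have h := (u.valuation_lt_one_iff_mem (K := K) (2 : 𝓞 K)).2 h2
  exact lt_of_eq_of_lt (congrArg (u.valuation K) (map_ofNat (algebraMap (𝓞 K) K) 2).symm) h

theorem exists_etaG (K : Type) [Field K] [NumberField K] :
    ∃ η : (u : HeightOneSpectrum (𝓞 K)) → SC (Kv u), (∀ u, η u ≠ 0) ∧ EtaTwo η ∧ EtaOdd η := by
  have key : ∀ u : HeightOneSpectrum (𝓞 K), ∃ x : SC (Kv u), x ≠ 0 ∧
      ((2 : 𝓞 K) ∈ u.asIdeal → ∃ g0 : Kv u, Unr g0 ∧ x = sc g0) ∧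
      ((2 : 𝓞 K) ∉ u.asIdeal → ∃ n : 𝓞 K, n ∉ u.asIdeal ∧ eo u (sc (n : K)) = 0 ∧
        la u (sc (n : K)) = 1 ∧ x = sc (algebraMap K (Kv u) (n : K))) := by
    intro u
    by_cases h2 : (2 : 𝓞 K) ∈ u.asIdeal
    · obtain ⟨g0, hg0⟩ := exists_unr (two_lt_of h2)
      have hg : g0 ≠ 0 := by
        intro h
        have h1 := unr_one (two_lt_of h2) hg0
        rw [h, map_zero] at h1
        exact zero_ne_one h1
      refine ⟨sc g0, ?_, fun _ => ⟨g0, hg0, rfl⟩, fun h => absurd h2 h⟩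
      intro h
      exact unr_nsq (two_lt_of h2) hg0 ((sc_eq_zero hg).1 h)
    · have hodd : OddP u := H30MQ.oddP_of h2
      obtain ⟨n, hn, hne, hnl⟩ := exists_la hodd
      have hn0 : (n : K) ≠ 0 := by
        intro h
        exact hn (by
          have : n = 0 := RingOfIntegers.coe_eq_zero_iff.1 h
          rw [this]
          exact Ideal.zero_mem _)
      refine ⟨sc (algebraMap K (Kv u) (n : K)), ?_, fun h => absurd h h2,
        fun _ => ⟨n, hn, hne, hnl, rfl⟩⟩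
      intro h
      exact nsq_of_la hodd hn0 hnl hne ((sc_eq_zero ((map_ne_zero _).2 hn0)).1 h)
  choose η hη0 hη2 hηo using key
  exact ⟨η, hη0, hη2, hηo⟩

/-- At an odd place every element of even valuation which is not a square has the class `η u`. -/
theorem eta_class {η : (u : HeightOneSpectrum (𝓞 K)) → SC (Kv u)} (hη : EtaOdd η)
    {u : HeightOneSpectrum (𝓞 K)} (h2 : (2 : 𝓞 K) ∉ u.asIdeal) (m : Kv u) (hm : ¬ IsSquare m)
    (hv : ∃ n : ℤ, Valued.v m = exp (2 * n)) : sc m = η u := by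
  have hodd : OddP u := H30MQ.oddP_of h2
  obtain ⟨n, hn, hne, hnl, hη'⟩ := hη u h2
  have hn0 : (n : K) ≠ 0 := by
    intro h
    exact hn (by
      have : n = 0 := RingOfIntegers.coe_eq_zero_iff.1 h
      rw [this]
      exact Ideal.zero_mem _)
  have hm0 : m ≠ 0 := by
    rintro rfl
    exact hm IsSquare.zero
  obtain ⟨y, hy0, r, hr, hyr⟩ := rep_F u hm0
  have hy0' : algebraMap K (u.adicCompletion K) y ≠ 0 := (map_ne_zero _).2 hy0
  have h3 : sc (algebraMap K (u.adicCompletion K) y) = sc m := by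
    refine sc_eq_of_sq hy0' hm0 ⟨m * r, ?_⟩
    rw [hyr]
    ring
  have heo : eo u (sc y) = 0 := by
    rw [H38T1.eo_sc hy0, ZMod.intCast_eq_zero_iff_even]
    obtain ⟨k, hk⟩ := hv
    have h4 := congrArg Valued.v hyr
    rw [H36CY.val_coe, map_mul, map_pow, hk] at h4
    have h5 : Valued.v r ≠ 0 := (Valuation.ne_zero_iff _).2 hr
    refine ⟨-(k + log (Valued.v r)), ?_⟩
    unfold ord
    rw [h4, ← exp_log h5, ← exp_nsmul, ← exp_add, log_exp, log_exp, nsmul_eq_mul]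
    push_cast
    ring
  have hla : la u (sc y) = 1 := by
    have h4 : la u (sc y) ≠ 0 := by
      intro h
      have h5 := (sc_eq_zero hy0').2 (sq_of_la hodd hy0 heo h)
      rw [h3] at h5
      exact hm ((sc_eq_zero hm0).1 h5)
    revert h4
    generalize la u (sc y) = z
    revert z
    decide
  rw [hη', ← h3]
  refine sc_eq_of_sq hy0' ((map_ne_zero _).2 hn0) ?_
  rw [← map_mul]
  refine sq_of_la hodd (mul_ne_zero hy0 hn0) ?_ ?_
  · rw [sc_mul hy0 hn0, H38T1.eo_add, heo, hne, add_zero]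
  · rw [sc_mul hy0 hn0, H38T1.la_add hodd, hla, hnl]
    decide

/-- The class at a place above two. -/
theorem dyadicG (η : (u : HeightOneSpectrum (𝓞 K)) → SC (Kv u)) (s : ZMod 2)
    {u : HeightOneSpectrum (𝓞 K)} (h2 : (2 : 𝓞 K) ∈ u.asIdeal) :
    ∃ N : ℕ, LocClass (LpM η s) u (-91) (-330) N := by
  have h2v := two_lt_of h2
  have h20 : (2 : K) ≠ 0 := two_ne_zero
  obtain ⟨n, hn⟩ : ∃ n : ℕ, u.valuation K 2 = exp (-(n : ℤ)) := by
    refine ⟨(-log (u.valuation K 2)).toNat, ?_⟩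
    have h0 : u.valuation K 2 ≠ 0 := (Valuation.ne_zero_iff _).2 h20
    have h1 : log (u.valuation K 2) ≤ 0 := by
      have h3 := (log_le_log h0 one_ne_zero).2 h2v.le
      rwa [log_one] at h3
    rw [Int.toNat_of_nonneg (by omega), neg_neg, exp_log h0]
  have hn0 : 0 < n := by
    rcases Nat.eq_zero_or_pos n with h | h
    · rw [h] at hn
      norm_num at hn
      exact absurd hn h2v.ne
    · exact h
  have hpow : ∀ k : ℕ, u.valuation K ((2 : K) ^ k) = exp (-((k * n : ℕ) : ℤ)) := by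
    intro k
    rw [map_pow, hn, ← exp_nsmul, nsmul_eq_mul]
    congr 1
    push_cast
    ring
  have hpowF : ∀ k : ℕ, Valued.v ((2 : u.adicCompletion K) ^ k) = exp (-((k * n : ℕ) : ℤ)) := by
    intro k
    have e1 : (2 : u.adicCompletion K) ^ k = algebraMap K (u.adicCompletion K) (2 ^ k) := by
      rw [map_pow, map_ofNat]
    rw [e1, H36CY.val_coe, hpow]
  refine ⟨14 * n, ?_, ?_⟩
  · intro hmem
    rw [mem_pow_iff] at hmem
    have e1 : ((dsc (-91 : 𝓞 K) (-330) : 𝓞 K) : K) = -(2 ^ 8 * 17 ^ 2) := by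
      unfold dsc
      simp only [map_add, map_mul, map_pow, map_neg, map_ofNat]
      norm_num
    have h17 : u.valuation K 17 = 1 := by
      have e2 : (17 : K) = 1 + 2 ^ 4 := by norm_num
      have h3 : u.valuation K (2 ^ 4) < 1 := by
        rw [hpow]
        rw [← exp_zero, exp_lt_exp]
        omega
      rw [e2]
      exact Valuation.map_one_add_of_lt _ h3
    rw [e1, Valuation.map_neg, map_mul, hpow, map_pow, h17, one_pow, mul_one, exp_le_exp] at hmem
    push_cast at hmem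
    have : (0 : ℤ) < n := by exact_mod_cast hn0
    omega
  · intro A B hA hB
    rw [mem_pow_iff] at hA hB
    have eA : ((A - (-91) : 𝓞 K) : K) = (A : K) + 91 := by
      simp only [map_sub, map_neg, map_ofNat]
      ring
    have eB : ((B - (-330) : 𝓞 K) : K) = (B : K) + 330 := by
      simp only [map_sub, map_neg, map_ofNat]
      ring
    rw [eA] at hA
    rw [eB] at hB
    obtain ⟨e, hs, hδ, h1, h16⟩ := roots_two (v := u) h2v
      (a := algebraMap K (u.adicCompletion K) (A : K))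
      (b := algebraMap K (u.adicCompletion K) (B : K)) (by
        have e3 : algebraMap K (u.adicCompletion K) (A : K) + 91 =
            algebraMap K (u.adicCompletion K) ((A : K) + 91) := by
          rw [map_add, map_ofNat]
        rw [e3, H36CY.val_coe, hpowF]
        exact hA) (by
        have e3 : algebraMap K (u.adicCompletion K) (B : K) + 330 =
            algebraMap K (u.adicCompletion K) ((B : K) + 330) := by
          rw [map_add, map_ofNat]
        rw [e3, H36CY.val_coe, hpowF]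
        exact hB)
    exact ⟨e, hs, fun _ => ⟨hδ, h1, h16⟩, fun h => absurd h2 h⟩

/-- The classes at an auxiliary place. -/
theorem auxG {η : (u : HeightOneSpectrum (𝓞 K)) → SC (Kv u)} (hη : EtaOdd η)
    {u : HeightOneSpectrum (𝓞 K)} (h6 : (6 : 𝓞 K) ∉ u.asIdeal) (s : ZMod 2) :
    ∃ (a b : 𝓞 K) (N : ℕ), LocClass (LpM η s) u a b N := by
  obtain ⟨hodd, hv6, hv3⟩ := odd_of_six h6
  have h2 : (2 : 𝓞 K) ∉ u.asIdeal := fun h => h6 (by
    rw [show (6 : 𝓞 K) = 2 * 3 by norm_num]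
    exact Ideal.mul_mem_right _ _ h)
  obtain ⟨n, hn, hne, hnl, hη'⟩ := hη u h2
  have hn0 : (n : K) ≠ 0 := by
    intro h
    exact hn (by
      have : n = 0 := RingOfIntegers.coe_eq_zero_iff.1 h
      rw [this]
      exact Ideal.zero_mem _)
  -- the unit
  obtain ⟨σ, hσ, hσs⟩ : ∃ σ : 𝓞 K, σ ∉ u.asIdeal ∧
      sc (algebraMap K (Kv u) (σ : K)) = if s = 0 then 0 else η u := by
    by_cases hs0 : s = 0
    · rw [if_pos hs0]
      refine ⟨1, ?_, ?_⟩
      · intro h
        exact u.isPrime.ne_top ((Ideal.eq_top_iff_one _).2 h)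
      · have e1 : ((1 : 𝓞 K) : K) = 1 := map_one _
        rw [e1, map_one]
        exact (sc_eq_zero one_ne_zero).2 IsSquare.one
    · rw [if_neg hs0]
      exact ⟨n, hn, hη'.symm⟩
  have hσv : u.valuation K (σ : K) = 1 := u.valuation_eq_one_iff_notMem.2 hσ
  have hσ0 : (σ : K) ≠ 0 := by
    intro h
    rw [h, map_zero] at hσv
    exact zero_ne_one hσv
  obtain ⟨π, hπ⟩ := u.intValuation_exists_uniformizer
  have hπv : u.valuation K (π : K) = exp (-1 : ℤ) := by
    rw [u.valuation_of_algebraMap]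
    exact hπ
  obtain ⟨t, ht⟩ : ∃ t : 𝓞 K, t = 3 * σ * π ^ 2 := ⟨_, rfl⟩
  have htK : (t : K) = 3 * (σ : K) * (π : K) ^ 2 := by
    rw [ht]
    push_cast
    rfl
  have htv : u.valuation K (t : K) = exp (-2 : ℤ) := by
    rw [htK, map_mul, map_mul, map_pow, hv3, hσv, hπv, one_mul, one_mul, ← exp_nsmul]
    norm_num
  refine ⟨-(27 * σ ^ 2 + 9 * σ * t + 3 * t ^ 2),
    54 * σ ^ 3 + 27 * σ ^ 2 * t - 9 * σ * t ^ 2 - 2 * t ^ 3, 5, ?_, ?_⟩
  · intro hmem
    rw [mem_pow_iff] at hmem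
    have e1 : ((dsc (-(27 * σ ^ 2 + 9 * σ * t + 3 * t ^ 2))
        (54 * σ ^ 3 + 27 * σ ^ 2 * t - 9 * σ * t ^ 2 - 2 * t ^ 3) : 𝓞 K) : K) =
        -(3 * 3 * (σ : K) * (3 * 3 * (σ : K) + 3 * (t : K)) * (3 * (t : K))) ^ 2 := by
      unfold dsc
      simp only [map_add, map_sub, map_mul, map_pow, map_neg, map_ofNat]
      ring
    have h9 : u.valuation K (3 * 3 * (σ : K) + 3 * (t : K)) = 1 := by
      rw [Valuation.map_add_eq_of_lt_left]
      · rw [map_mul, map_mul, hv3, hσv]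
        simp
      · rw [map_mul, map_mul, map_mul, hv3, hσv, htv]
        simp only [one_mul]
        rw [← exp_zero, exp_lt_exp]
        norm_num
    rw [e1, Valuation.map_neg, map_pow, map_mul, map_mul, h9, map_mul, map_mul, map_mul, hv3, hσv,
      htv] at hmem
    simp only [one_mul, mul_one] at hmem
    rw [← exp_nsmul, exp_le_exp] at hmem
    norm_num at hmem
  · intro A B hA hB
    rw [mem_pow_iff] at hA hB
    obtain ⟨e, hs, h1, hτ, hsq⟩ := roots_odd (v := u) hv6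
      (s := algebraMap K (u.adicCompletion K) (σ : K)) (t := algebraMap K (u.adicCompletion K) (t : K))
      (a := algebraMap K (u.adicCompletion K) (A : K))
      (b := algebraMap K (u.adicCompletion K) (B : K))
      (by rw [H36CY.val_coe]; exact hσv) (by rw [H36CY.val_coe]; exact htv)
      (by
        refine ⟨algebraMap K (u.adicCompletion K) (3 * (σ : K) * (π : K)), ?_⟩
        have e3 : (3 : u.adicCompletion K) = algebraMap K (u.adicCompletion K) 3 := by
          rw [map_ofNat]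
        rw [e3, ← map_mul, ← map_mul, ← map_mul, htK]
        congr 1
        ring)
      (by
        have e3 : algebraMap K (u.adicCompletion K) (A : K) +
            (27 * algebraMap K (u.adicCompletion K) (σ : K) ^ 2 +
              9 * algebraMap K (u.adicCompletion K) (σ : K) *
                algebraMap K (u.adicCompletion K) (t : K) +
              3 * algebraMap K (u.adicCompletion K) (t : K) ^ 2) =
            algebraMap K (u.adicCompletion K)
              ((A - -(27 * σ ^ 2 + 9 * σ * t + 3 * t ^ 2) : 𝓞 K) : K) := by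
          simp only [map_sub, map_add, map_mul, map_pow, map_neg, map_ofNat]
          ring
        rw [e3, H36CY.val_coe]
        exact hA)
      (by
        have e3 : algebraMap K (u.adicCompletion K) (B : K) -
            (54 * algebraMap K (u.adicCompletion K) (σ : K) ^ 3 +
              27 * algebraMap K (u.adicCompletion K) (σ : K) ^ 2 *
                algebraMap K (u.adicCompletion K) (t : K) -
              9 * algebraMap K (u.adicCompletion K) (σ : K) *
                algebraMap K (u.adicCompletion K) (t : K) ^ 2 -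
              2 * algebraMap K (u.adicCompletion K) (t : K) ^ 3) =
            algebraMap K (u.adicCompletion K)
              ((B - (54 * σ ^ 3 + 27 * σ ^ 2 * t - 9 * σ * t ^ 2 - 2 * t ^ 3) : 𝓞 K) : K) := by
          simp only [map_sub, map_add, map_mul, map_pow, map_ofNat]
        rw [e3, H36CY.val_coe]
        exact hB)
    refine ⟨e, hs, fun h => absurd h h2, fun _ => ⟨h1, hτ, ?_⟩⟩
    rw [← hσs]
    have hσ0' : algebraMap K (u.adicCompletion K) (σ : K) ≠ 0 := (map_ne_zero _).2 hσ0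
    exact sc_eq_of_sq (sub_ne_zero.2 hs.ne01.symm) hσ0' hsq

end H30MG

end S_H30_MG_Cz

section S_H30_MG_Cm

set_option autoImplicit false
set_option linter.unusedSectionVars false
open scoped Classical

open WithZero NumberField IsDedekindDomain H38RT
open H38T1 (SC sc scu rep rep_ne sc_rep sc_mul sc_eq_zero sc_surj eo la si Pri OddP tp unif ka)
open H76PP H36MX H76MQ H76MX H73P2 H76AB H88AB H36MG Pool.Agent.H42.PC

namespace H30MG

section Xs

variable {K F : Type} [Field K] [NumberField K] [Field F] [NumberField F] [Algebra K F]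

/-- The chosen element at `u`. -/
noncomputable def mS {u : HeightOneSpectrum (𝓞 K)} {w : HeightOneSpectrum (𝓞 F)}
    (ho : Pool.Agent.H10.Over u w) (S : Set (F ≃ₐ[K] F)) : Kv u :=
  if h : ∃ m : Kv u, IsM ho S m then h.choose else 1

theorem mS_spec {u : HeightOneSpectrum (𝓞 K)} {w : HeightOneSpectrum (𝓞 F)}
    {ho : Pool.Agent.H10.Over u w} {S : Set (F ≃ₐ[K] F)} (h : ∃ m : Kv u, IsM ho S m) :
    IsM ho S (mS ho S) := by
  unfold mS
  rw [dif_pos h]
  exact h.choose_spec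

/-- The classes. -/
noncomputable def xsM (η : (u : HeightOneSpectrum (𝓞 K)) → SC (Kv u))
    (wp : HeightOneSpectrum (𝓞 K) → HeightOneSpectrum (𝓞 F))
    (ho : ∀ u, Pool.Agent.H10.Over u (wp u)) (s : ZMod 2) (u : HeightOneSpectrum (𝓞 K))
    (T : Subgroup (F ≃ₐ[K] F)) : SC (Kv u) :=
  if (2 : 𝓞 K) ∈ u.asIdeal then
    (if clS (Dec K (wp u)) T = ∅ then η u else sc (mS (ho u) (clS (Dec K (wp u)) T)))
  else if Dec K (wp u) ≤ T then (if s = 0 then 0 else η u)
  else if ∀ x ∈ Dec K (wp u), x ^ 2 ∈ T then (if s = 0 then η u else 0) else η u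

variable [IsGalois K F]

theorem exists_isM' {u : HeightOneSpectrum (𝓞 K)} {w : HeightOneSpectrum (𝓞 F)} (hu : dn K w = u)
    (ho : Pool.Agent.H10.Over u w) (hp : IsPGroup 2 (F ≃ₐ[K] F)) {T : Subgroup (F ≃ₐ[K] F)}
    (hD : ∀ x ∈ Dec K w, ∀ y ∈ Dec K w, x * y = y * x) (hcyc : CyT (Dec K w) T)
    (hDT : ¬ Dec K w ≤ T) : ∃ m : Kv u, IsM ho (clS (Dec K w) T) m := by
  obtain ⟨t, ht⟩ := exists_anti hp hD hcyc hDT
  obtain ⟨m, hm⟩ := exists_isM hu ho ht
  exact ⟨m, t, ht, hm⟩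

theorem xsM_ne {η : (u : HeightOneSpectrum (𝓞 K)) → SC (Kv u)} (hη : ∀ u, η u ≠ 0)
    {wp : HeightOneSpectrum (𝓞 K) → HeightOneSpectrum (𝓞 F)} (hwp : ∀ u, dn K (wp u) = u)
    (ho : ∀ u, Pool.Agent.H10.Over u (wp u)) (hp : IsPGroup 2 (F ≃ₐ[K] F)) (s : ZMod 2)
    {u : HeightOneSpectrum (𝓞 K)} (h2 : (2 : 𝓞 K) ∈ u.asIdeal) {T : Subgroup (F ≃ₐ[K] F)}
    (hD : ∀ x ∈ Dec K (wp u), ∀ y ∈ Dec K (wp u), x * y = y * x)
    (hcyc : CyT (Dec K (wp u)) T) : xsM η wp ho s u T ≠ 0 := by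
  unfold xsM
  rw [if_pos h2]
  by_cases hS : clS (Dec K (wp u)) T = ∅
  · rw [if_pos hS]
    exact hη u
  · rw [if_neg hS]
    have hDT : ¬ Dec K (wp u) ≤ T := fun h => hS (cl_empty h)
    have h3 := mS_spec (exists_isM' (hwp u) (ho u) hp hD hcyc hDT)
    obtain ⟨g, hg⟩ := cl_nonempty hD hcyc hDT
    obtain ⟨h4, h5⟩ := isM_ns (hwp u) h3 hg.1 hg
    intro h6
    exact h5 ((sc_eq_zero h4).1 h6)

/-- The local classes: all places of the configuration together. -/
theorem loc_all {M N : Type} [Field M] [NumberField M] [Field N] [NumberField N] [Algebra K M]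
    [Algebra K N] [Algebra M N] [Algebra F N] [IsScalarTower K M N] [IsScalarTower K F N]
    [IsGalois K N] {η : (u : HeightOneSpectrum (𝓞 K)) → SC (Kv u)} (hη2 : EtaTwo η)
    (hηo : EtaOdd η) {wp : HeightOneSpectrum (𝓞 K) → HeightOneSpectrum (𝓞 F)}
    (hwp : ∀ u, dn K (wp u) = u) (ho : ∀ u, Pool.Agent.H10.Over u (wp u))
    (hp : IsPGroup 2 (F ≃ₐ[K] F)) {s : ZMod 2} {u : HeightOneSpectrum (𝓞 K)}
    {W : HeightOneSpectrum (𝓞 N)} (hW : dn F W = wp u) (hunr : (2 : 𝓞 K) ∉ u.asIdeal → ¬ Ram K W)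
    (hD : ∀ x ∈ Dec K (wp u), ∀ y ∈ Dec K (wp u), x * y = y * x) {T : Subgroup (F ≃ₐ[K] F)}
    (hcyc : CyT (Dec K (wp u)) T) {μ : M} {ρ : N} (hρ0 : ρ ≠ 0) (hρ : ρ ^ 2 = algebraMap M N μ)
    {U : Subgroup (N ≃ₐ[K] N)} (hU : U.Normal)
    (hUM : ∀ h ∈ U, ∀ x : M, h (algebraMap M N x) = algebraMap M N x) (hUρ : ∀ h ∈ U, h ρ = ρ)
    (hT : ∀ h ∈ Dec K W, AlgEquiv.restrictNormalHom F h ∈ T ↔ h ∈ U) (hcase : DCase W U M ρ)
    {A B : 𝓞 K} {e : Fin 3 → Kv u}
    (hs : Spl (algebraMap K (Kv u) (A : K)) (algebraMap K (Kv u) (B : K)) e)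
    (hL : LpM η s u A B e) : LocCl u e μ (xsM η wp ho s u T) := by
  unfold xsM
  by_cases h2 : (2 : 𝓞 K) ∈ u.asIdeal
  · rw [if_pos h2]
    obtain ⟨g0, hg0, hη'⟩ := hη2 u h2
    obtain ⟨hδ, h1, h16⟩ := hL.1 h2
    have h3 := loc_two hW (hwp u) (ho u) (two_lt_of h2) hs hδ h1 h16 hρ0 hρ hU hUM hUρ hT hcase hg0
      (m := mS (ho u) (clS (Dec K (wp u)) T))
      (fun hDT => mS_spec (exists_isM' (hwp u) (ho u) hp hD hcyc hDT))
    by_cases hDT : Dec K (wp u) ≤ T
    · rw [if_pos hDT] at h3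
      rw [if_pos (cl_empty hDT), hη']
      exact h3
    · rw [if_neg hDT] at h3
      rw [if_neg (cl_nonempty hD hcyc hDT).ne_empty]
      exact h3
  · rw [if_neg h2]
    obtain ⟨h1, hτ, hsig⟩ := hL.2 h2
    exact loc_odd hW (hwp u) hp hD hcyc (hunr h2) (H30MQ.oddP_of h2) hs h1 hτ
      (eta_class hηo h2) hsig hρ0 hρ hU hUM hUρ hT hcase

/-- The classes at an auxiliary place. -/
theorem xsM_aux {η : (u : HeightOneSpectrum (𝓞 K)) → SC (Kv u)}
    {wp : HeightOneSpectrum (𝓞 K) → HeightOneSpectrum (𝓞 F)}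
    (ho : ∀ u, Pool.Agent.H10.Over u (wp u)) (s : ZMod 2) {u : HeightOneSpectrum (𝓞 K)}
    (h2 : (2 : 𝓞 K) ∉ u.asIdeal) {g : F ≃ₐ[K] F} (hg : Dec K (wp u) = Subgroup.zpowers g)
    (T : Subgroup (F ≃ₐ[K] F)) : xsM η wp ho s u T = if g ∈ T then (if s = 0 then 0 else η u) else
      if g ^ 2 ∈ T then (if s = 0 then η u else 0) else η u := by
  unfold xsM
  rw [if_neg h2, hg]
  have h3 : (Subgroup.zpowers g ≤ T) = (g ∈ T) := propext Subgroup.zpowers_le
  have h4 : (∀ x ∈ Subgroup.zpowers g, x ^ 2 ∈ T) = (g ^ 2 ∈ T) := by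
    refine propext ⟨fun h => h g (Subgroup.mem_zpowers g), fun h x hx => ?_⟩
    obtain ⟨k, rfl⟩ := Subgroup.mem_zpowers_iff.1 hx
    rw [← zpow_natCast, ← zpow_mul, mul_comm, zpow_mul, zpow_natCast]
    exact T.zpow_mem h k
  simp only [h3, h4]

end Xs

end H30MG

end S_H30_MG_Cm

section S_H30_MG_Cn

set_option autoImplicit false
set_option linter.unusedSectionVars false
open scoped Classical

open WithZero NumberField IsDedekindDomain H38RT
open H38T1 (SC sc scu rep rep_ne sc_rep sc_mul sc_eq_zero sc_surj eo la si Pri OddP tp unif ka)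
open H76PP H36MX H76MQ H76MX H73P2 H76AB H88AB H36MG H36CY Pool.Agent.H42.PC

namespace H30MG

section Split

variable {K N : Type} [Field K] [NumberField K] [Field N] [NumberField N] [Algebra K N] [IsGalois K N]

/-- A place with trivial decomposition group splits completely. -/
theorem sp_of_bot {W : HeightOneSpectrum (𝓞 N)} (h : Dec K W = ⊥) : Sp K N (dn K W) := by
  have hsurj : ∀ y : W.adicCompletion N, ∃ x : (dn K W).adicCompletion K,
      (over_dn (K := K) W).map x = y := by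
    intro y
    refine fixed_range fun g hg => ?_
    rw [h, Subgroup.mem_bot] at hg
    rw [hg]
    exact ac_one W y
  obtain ⟨e, he⟩ : ∃ e : (dn K W).adicCompletion K ≃+* W.adicCompletion N,
      ∀ x, e x = (over_dn (K := K) W).map x :=
    ⟨RingEquiv.ofBijective (over_dn (K := K) W).map ⟨RingHom.injective _, hsurj⟩, fun _ => rfl⟩
  refine ⟨(e.symm : W.adicCompletion N →+* (dn K W).adicCompletion K).comp
    (algebraMap N (W.adicCompletion N)), fun x => ?_⟩
  apply e.injective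
  have h5 : ∀ y : W.adicCompletion N,
      e ((e.symm : W.adicCompletion N →+* (dn K W).adicCompletion K) y) = y := fun y =>
    e.apply_symm_apply y
  rw [RingHom.comp_apply, h5, he, Pool.Agent.H10.Over.map_algebraMap]

theorem un_not_ram {V : HeightOneSpectrum (𝓞 N)} (h : Un K N (dn K V)) : ¬ Ram K V := by
  rw [H36AB.inertia_iff, eq_bot_iff]
  intro g hg
  rw [Subgroup.mem_bot]
  exact h V ⟨rfl⟩ g fun x => hg x

end Split

section Layer

variable {K F L N : Type} [Field K] [NumberField K] [Field F] [NumberField F] [Field L]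
  [NumberField L] [Field N] [NumberField N] [Algebra K F] [Algebra K L] [Algebra K N] [Algebra L N]
  [Algebra F N] [IsScalarTower K L N] [IsScalarTower K F N] [IsGalois K F] [IsGalois K L]
  [IsGalois K N]

/-- The group which belongs to `U`. -/
noncomputable def TU (L : Type) [Field L] [NumberField L] [Algebra K L] [Algebra L N] [IsScalarTower K L N]
    [IsGalois K L] (F : Type) [Field F] [NumberField F] [Algebra K F] [Algebra F N]
    [IsScalarTower K F N] [IsGalois K F] (U : Subgroup (N ≃ₐ[K] N)) : Subgroup (F ≃ₐ[K] F) :=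
  (U ⊓ (AlgEquiv.restrictNormalHom (F := K) (K₁ := N) L).ker).map (AlgEquiv.restrictNormalHom F)

theorem mem_kerL {h : N ≃ₐ[K] N} : h ∈ (AlgEquiv.restrictNormalHom (F := K) (K₁ := N) L).ker ↔
    ∀ x : L, h (algebraMap L N x) = algebraMap L N x := by
  rw [MonoidHom.mem_ker]
  constructor
  · intro h1 x
    rw [← res_apply (F := L), h1]
    rfl
  · intro h1
    apply AlgEquiv.ext
    intro x
    apply (algebraMap L N).injective
    rw [res_apply, h1]
    rfl

theorem eq_of_res (hgen : ∀ g : N ≃ₐ[K] N, (∀ x : L, g (algebraMap L N x) = algebraMap L N x) →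
      (∀ y : F, g (algebraMap F N y) = algebraMap F N y) → g = 1) {g h : N ≃ₐ[K] N}
    (hg : ∀ x : L, g (algebraMap L N x) = algebraMap L N x)
    (hh : ∀ x : L, h (algebraMap L N x) = algebraMap L N x)
    (hF : AlgEquiv.restrictNormalHom F g = AlgEquiv.restrictNormalHom F h) : g = h := by
  have h1 : ∀ x : L, g⁻¹ (algebraMap L N x) = algebraMap L N x := by
    intro x
    have h2 : g⁻¹ (g (algebraMap L N x)) = algebraMap L N x := g.symm_apply_apply _
    rwa [hg] at h2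
  have h3 := hgen (g⁻¹ * h) (fun x => by rw [AlgEquiv.mul_apply, hh, h1]) (fun y => by
    rw [← res_apply, map_mul, map_inv, hF, inv_mul_cancel]
    rfl)
  exact inv_mul_eq_one.1 h3

variable {U : Subgroup (N ≃ₐ[K] N)} {W : HeightOneSpectrum (𝓞 N)}

/-- The decomposition group is trivial on `L`. -/
theorem dec_L (hsp : Sp K L (dn K W)) {h : N ≃ₐ[K] N} (hh : h ∈ Dec K W) (x : L) :
    h (algebraMap L N x) = algebraMap L N x := by
  obtain ⟨ι, hι⟩ := hsp
  exact dec_triv ι hι hh x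

theorem mem_TU (hgen : ∀ g : N ≃ₐ[K] N, (∀ x : L, g (algebraMap L N x) = algebraMap L N x) →
      (∀ y : F, g (algebraMap F N y) = algebraMap F N y) → g = 1) (hsp : Sp K L (dn K W))
    {h : N ≃ₐ[K] N} (hh : h ∈ Dec K W) :
    AlgEquiv.restrictNormalHom F h ∈ TU L F U ↔ h ∈ U := by
  unfold TU
  rw [Subgroup.mem_map]
  constructor
  · rintro ⟨g, ⟨hgU, hgL⟩, hgh⟩
    have h1 := eq_of_res hgen (mem_kerL.1 hgL) (dec_L hsp hh) hgh
    rw [← h1]
    exact hgU
  · intro hU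
    exact ⟨h, ⟨hU, mem_kerL.2 (dec_L hsp hh)⟩, rfl⟩

/-- The decomposition group in `N` has the same property. -/
theorem nc_up (hgen : ∀ g : N ≃ₐ[K] N, (∀ x : L, g (algebraMap L N x) = algebraMap L N x) →
      (∀ y : F, g (algebraMap F N y) = algebraMap F N y) → g = 1) (hsp : Sp K L (dn K W))
    (hNC : NC (Dec K (dn F W))) : NC (Dec K W) := by
  have hres : ∀ h ∈ Dec K W, AlgEquiv.restrictNormalHom F h ∈ Dec K (dn F W) := by
    intro h hh
    rw [← dec_map (N₀ := F) W]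
    exact ⟨h, hh, rfl⟩
  refine ⟨fun x hx y hy => ?_, fun x hx y => ?_⟩
  · refine eq_of_res hgen (dec_L hsp ((Dec K W).mul_mem hx hy))
      (dec_L hsp ((Dec K W).mul_mem hy hx)) ?_
    rw [map_mul, map_mul]
    exact hNC.1 _ (hres x hx) _ (hres y hy)
  · obtain ⟨k, hk⟩ := Subgroup.mem_zpowers_iff.1
      (hNC.2 _ (hres x hx) (AlgEquiv.restrictNormalHom F y))
    refine Subgroup.mem_zpowers_iff.2 ⟨k, ?_⟩
    refine eq_of_res hgen (dec_L hsp ((Dec K W).zpow_mem hx k)) ?_ ?_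
    · rw [← mem_kerL]
      exact (MonoidHom.normal_ker _).conj_mem _ (mem_kerL.2 (dec_L hsp hx)) y
    · rw [map_zpow, hk, map_mul, map_mul, map_inv]

/-- The decomposition of the pair. -/
theorem dcase_of {r : ℕ} (hr : Module.finrank K N = 2 ^ r) [U.Normal] {z : N ≃ₐ[K] N}
    (hz2 : z ^ 2 ∈ U)
    (hmono : ∀ x, x ∉ U → (∀ y, x * y * x⁻¹ * y⁻¹ ∈ U) → x ^ 2 ∈ U → x * z⁻¹ ∈ U)
    (hNC : NC (Dec K W)) {M : Type} [Field M] [Algebra M N]
    (hM : ∀ x : M, (∀ u ∈ U, u (algebraMap M N x) = algebraMap M N x) ∧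
      z (algebraMap M N x) = algebraMap M N x) {ρ : N} (hρU : ∀ u ∈ U, u ρ = ρ)
    (hρz : z ρ = -ρ) : DCase W U M ρ := by
  have hp : IsPGroup 2 (N ≃ₐ[K] N) := IsPGroup.of_card (n := r) (by
    rw [IsGalois.card_aut_eq_finrank, hr])
  have hfin : Finite (N ≃ₐ[K] N) := inferInstance
  have hU : U.Normal := inferInstance
  rcases cyc_or hp U hmono (Dec K W) hNC.1 hNC.2 with h | ⟨g, hg, r', hgen, hgz⟩
  · exact Or.inl h
  · refine Or.inr ⟨g, hg, r', hgen, fun x => ?_, ?_, ?_⟩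
    · have h1 : g ^ 2 ^ r' = (g ^ 2 ^ r' * z⁻¹) * z := by group
      rw [h1, AlgEquiv.mul_apply, (hM x).2, (hM x).1 _ hgz]
    · have h1 : g ^ 2 ^ r' = (g ^ 2 ^ r' * z⁻¹) * z := by group
      rw [h1, AlgEquiv.mul_apply, hρz, map_neg, hρU _ hgz]
    · obtain ⟨y, hy⟩ : ∃ y, y = g ^ 2 ^ r' * z⁻¹ := ⟨_, rfl⟩
      have h1 : g ^ 2 ^ r' = y * z := by rw [hy]; group
      rw [h1]
      rw [← hy] at hgz
      have h2 : (y * z) ^ 2 = y * (z * y * z⁻¹) * z ^ 2 := by
        rw [sq, sq]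
        group
      rw [h2]
      exact U.mul_mem (U.mul_mem hgz (hU.conj_mem _ hgz z)) hz2

/-- The group `T` is admissible at `W`. -/
theorem cyT_of {M : Type} [Field M] [Algebra M N] {ρ : N}
    {T : Subgroup (F ≃ₐ[K] F)} (hT : ∀ h ∈ Dec K W, AlgEquiv.restrictNormalHom F h ∈ T ↔ h ∈ U)
    (h : DCase W U M ρ) : CyT (Dec K (dn F W)) T := by
  rcases h with h | ⟨g, hg, -, hgen, -⟩
  · refine ⟨1, (Dec K (dn F W)).one_mem, fun x hx => ⟨0, x, dec_le_T hT h hx, by group⟩⟩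
  · refine ⟨AlgEquiv.restrictNormalHom F g, ?_, fun x hx => ?_⟩
    · rw [← dec_map (N₀ := F) W]
      exact ⟨g, hg, rfl⟩
    · rw [← dec_map (N₀ := F) W] at hx
      obtain ⟨x', hx', rfl⟩ := hx
      obtain ⟨i, c, hc, rfl⟩ := hgen x' hx'
      have hcD : c ∈ Dec K W := by
        have h2 := (Dec K W).mul_mem ((Dec K W).inv_mem ((Dec K W).pow_mem hg i)) hx'
        rwa [inv_mul_cancel_left] at h2
      refine ⟨i, AlgEquiv.restrictNormalHom F c, (hT c hcD).2 hc, ?_⟩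
      rw [map_mul, map_pow]

end Layer

end H30MG

end S_H30_MG_Cn

section S_H30_MG_Co

set_option autoImplicit false
set_option linter.unusedSectionVars false
open scoped Classical

open WithZero NumberField IsDedekindDomain H38RT
open H38T1 (SC sc scu rep rep_ne sc_rep sc_mul sc_eq_zero sc_surj eo la si Pri OddP tp unif ka)
open H76PP H36MX H76MQ H76MX H73P2 H76AB H88AB H36MG H36CY Pool.Agent.H42.PC

namespace H30MG

section Self

variable {K F : Type} [Field K] [NumberField K] [Field F] [NumberField F] [Algebra K F]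

theorem over_of {w : HeightOneSpectrum (𝓞 F)} {u : HeightOneSpectrum (𝓞 K)} (h : dn K w = u) :
    Pool.Agent.H10.Over u w := by
  subst h
  exact over_dn w

theorem dn_self (W : HeightOneSpectrum (𝓞 F)) : dn F W = W := by
  apply HeightOneSpectrum.ext
  ext x
  rfl

theorem res_self [IsGalois K F] (h : F ≃ₐ[K] F) : AlgEquiv.restrictNormalHom F h = h := by
  apply AlgEquiv.ext
  intro x
  exact res_apply (F := F) h x

/-- The stabilizer of an element. -/
def stR (K : Type) {F : Type} [Field K] [Field F] [Algebra K F] (ρ : F) :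
    Subgroup (F ≃ₐ[K] F) where
  carrier := {g | g ρ = ρ}
  mul_mem' := by
    intro a b ha hb
    show (a * b) ρ = ρ
    rw [AlgEquiv.mul_apply]
    have ha' : a ρ = ρ := ha
    have hb' : b ρ = ρ := hb
    rw [hb', ha']
  one_mem' := rfl
  inv_mem' := by
    intro a ha
    have ha' : a ρ = ρ := ha
    show a⁻¹ ρ = ρ
    have h1 : a⁻¹ (a ρ) = ρ := a.symm_apply_apply ρ
    rwa [ha'] at h1

theorem mem_stR {ρ : F} {g : F ≃ₐ[K] F} : g ∈ stR K ρ ↔ g ρ = ρ := Iff.rfl

variable {ρ : F} {d : K}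

theorem stR_sign (hρ : ρ ^ 2 = algebraMap K F d) (g : F ≃ₐ[K] F) : g ρ = ρ ∨ g ρ = -ρ := by
  apply sq_eq_sq_iff_eq_or_eq_neg.1
  rw [← map_pow, hρ, g.commutes]

theorem stR_normal (hρ : ρ ^ 2 = algebraMap K F d) : (stR K ρ).Normal := by
  refine ⟨fun g hg h => ?_⟩
  rw [mem_stR] at hg ⊢
  have h1 : g (h⁻¹ ρ) = h⁻¹ ρ := by
    rcases stR_sign hρ h⁻¹ with h2 | h2
    · rw [h2, hg]
    · rw [h2, map_neg, hg]
  rw [AlgEquiv.mul_apply, AlgEquiv.mul_apply, h1]
  exact h.apply_symm_apply ρ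

theorem stR_dcase (hρ : ρ ^ 2 = algebraMap K F d) (W : HeightOneSpectrum (𝓞 F)) :
    DCase W (stR K ρ) K ρ := by
  by_cases h : Dec K W ≤ stR K ρ
  · exact Or.inl h
  · obtain ⟨g, hg, hgT⟩ := SetLike.not_le_iff_exists.1 h
    have hgρ : g ρ = -ρ := (stR_sign hρ g).resolve_left hgT
    have hginv : g⁻¹ ρ = -ρ := by
      have h1 : g⁻¹ (g ρ) = ρ := g.symm_apply_apply ρ
      rw [hgρ, map_neg] at h1
      exact neg_eq_iff_eq_neg.1 h1
    refine Or.inr ⟨g, hg, 0, fun h hh => ?_, fun x => ?_, ?_, ?_⟩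
    · rcases stR_sign hρ h with h2 | h2
      · exact ⟨0, h, h2, by group⟩
      · refine ⟨1, g⁻¹ * h, ?_, by group⟩
        rw [mem_stR, AlgEquiv.mul_apply, h2, map_neg, hginv, neg_neg]
    · exact AlgEquiv.commutes _ x
    · rw [pow_zero, pow_one, hgρ]
    · rw [pow_zero, pow_one, sq, mem_stR, AlgEquiv.mul_apply, hgρ, map_neg, hgρ, neg_neg]

end Self

/-- **The configuration theorem.** -/
theorem existsCfgMG : ExistsCfgMG := by
  intro K F₀ _ _ _ _ _ _ r hr hH hHF R₀ hR₀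
  have hfd : FiniteDimensional K F₀ := Module.Finite.of_restrictScalars_finite ℚ K F₀
  have hp : IsPGroup 2 (F₀ ≃ₐ[K] F₀) := IsPGroup.of_card (n := r) (by
    rw [IsGalois.card_aut_eq_finrank, hr])
  obtain ⟨η, hη0, hη2, hηo⟩ := exists_etaG K
  choose wp hwp using fun u : HeightOneSpectrum (𝓞 K) => exists_above (L := F₀) u
  have ho : ∀ u, Pool.Agent.H10.Over u (wp u) := fun u => over_of (hwp u)
  have hNC2 : ∀ p : HeightOneSpectrum (𝓞 K), (2 : 𝓞 K) ∈ p.asIdeal → NC (Dec K (wp p)) :=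
    fun p h2 => hH (wp p) (by rw [hwp]; exact h2)
  obtain ⟨Aux, hAux⟩ : ∃ Aux : Set (HeightOneSpectrum (𝓞 K)), ∀ u, u ∈ Aux ↔
      (6 : 𝓞 K) ∉ u.asIdeal ∧ Un K F₀ u ∧ (∃ g, Dec K (wp u) = Subgroup.zpowers g) ∧
      (Dec K (wp u) = ⊥ ∨ ∃ p : HeightOneSpectrum (𝓞 K), (2 : 𝓞 K) ∈ p.asIdeal ∧
        Dec K (wp u) ≤ Dec K (wp p)) := ⟨{u | _}, fun u => Iff.rfl⟩
  have h26 : ∀ u : HeightOneSpectrum (𝓞 K), (6 : 𝓞 K) ∉ u.asIdeal → (2 : 𝓞 K) ∉ u.asIdeal := by
    intro u h6 h2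
    apply h6
    rw [show (6 : 𝓞 K) = 2 * 3 by norm_num]
    exact Ideal.mul_mem_right _ _ h2
  have h6f : {v : HeightOneSpectrum (𝓞 K) | (6 : 𝓞 K) ∈ v.asIdeal}.Finite :=
    H30MQ.fin_mem (by
      intro h
      have h1 : algebraMap (𝓞 K) K 6 = 0 := by rw [h, map_zero]
      rw [map_ofNat] at h1
      norm_num at h1)
  -- auxiliary places
  have hreal : ∀ g : F₀ ≃ₐ[K] F₀, (g = 1 ∨ ∃ p : HeightOneSpectrum (𝓞 K),
      (2 : 𝓞 K) ∈ p.asIdeal ∧ g ∈ Dec K (wp p)) →
      {u : HeightOneSpectrum (𝓞 K) | u ∈ Aux ∧ Dec K (wp u) = Subgroup.zpowers g}.Infinite := by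
    intro g hg
    refine (exists_dec g _ h6f).mono ?_
    rintro u ⟨h6, hun, W, hWu, hW⟩
    have hn : (Dec K W).Normal := by
      rw [hW]
      rcases hg with rfl | ⟨p, h2, hgp⟩
      · rw [Subgroup.zpowers_one_eq_bot]
        infer_instance
      · exact ((hNC2 p h2).mono (Subgroup.zpowers_le.2 hgp)).normal
    have hD : Dec K (wp u) = Subgroup.zpowers g := by
      rw [← hW]
      exact dec_eq (by rw [hwp, hWu]) hn
    refine ⟨(hAux u).2 ⟨h6, hun, ⟨g, hD⟩, ?_⟩, hD⟩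
    rcases hg with rfl | ⟨p, h2, hgp⟩
    · left
      rw [hD, Subgroup.zpowers_one_eq_bot]
    · right
      refine ⟨p, h2, ?_⟩
      rw [hD]
      exact Subgroup.zpowers_le.2 hgp
  -- properties of the decomposition groups
  have hNC : ∀ u : HeightOneSpectrum (𝓞 K), ((2 : 𝓞 K) ∈ u.asIdeal ∨ u ∈ Aux) →
      NC (Dec K (wp u)) := by
    rintro u (h2 | hu)
    · exact hNC2 u h2
    · rcases ((hAux u).1 hu).2.2.2 with h | ⟨p, h2, h⟩
      · rw [h]
        refine ⟨fun x hx y hy => ?_, fun x hx y => ?_⟩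
        · rw [Subgroup.mem_bot.1 hx, Subgroup.mem_bot.1 hy]
        · rw [Subgroup.mem_bot.1 hx, mul_one, mul_inv_cancel]
          exact Subgroup.one_mem _
      · exact (hNC2 p h2).mono h
  let ι : Type := {T : Subgroup (F₀ ≃ₐ[K] F₀) //
    ∀ p : HeightOneSpectrum (𝓞 K), (2 : 𝓞 K) ∈ p.asIdeal → CyT (Dec K (wp p)) T}
  have hCy : ∀ (a : ι) (u : HeightOneSpectrum (𝓞 K)), ((2 : 𝓞 K) ∈ u.asIdeal ∨ u ∈ Aux) →
      CyT (Dec K (wp u)) a.1 := by
    rintro a u (h2 | hu)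
    · exact a.2 u h2
    · obtain ⟨g, hg⟩ := ((hAux u).1 hu).2.2.1
      rw [hg]
      refine ⟨g, Subgroup.mem_zpowers g, fun h hh => ?_⟩
      rw [← mem_powers_iff_mem_zpowers] at hh
      obtain ⟨i, hi⟩ := hh
      exact ⟨i, 1, a.1.one_mem, by rw [mul_one]; exact hi.symm⟩
  -- the sign of the tests
  have hR1 : ∀ (g : F₀ ≃ₐ[K] F₀), (g = 1 ∨ ∃ p : HeightOneSpectrum (𝓞 K),
      (2 : 𝓞 K) ∈ p.asIdeal ∧ g ∈ Dec K (wp p)) → ∀ (s : ZMod 2) (τ : ι → Prop),
      (∀ (u : HeightOneSpectrum (𝓞 K)) (a : ι), (if g ∈ a.1 then (if s = 0 then 0 else η u) else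
        if g ^ 2 ∈ a.1 then (if s = 0 then η u else 0) else η u) = if τ a then η u else 0) →
      Real η (fun s u (a : ι) => xsM η wp ho s u a.1) Aux (s, τ) := by
    intro g hg s τ hτ
    refine (hreal g hg).mono ?_
    rintro u ⟨hu, hD⟩
    refine ⟨hu, fun a => ?_⟩
    show xsM η wp ho s u a.1 = if τ a then η u else 0
    rw [xsM_aux ho s (h26 u ((hAux u).1 hu).1) hD a.1]
    exact hτ u a
  have hs1 : (1 : ZMod 2) ≠ 0 := one_ne_zero
  have hon : Real η (fun s u (a : ι) => xsM η wp ho s u a.1) Aux (1, fun _ => True) := by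
    refine hR1 1 (Or.inl rfl) 1 _ fun u a => ?_
    rw [if_pos a.1.one_mem, if_neg hs1, if_pos trivial]
  have hoff : Real η (fun s u (a : ι) => xsM η wp ho s u a.1) Aux (0, fun _ => False) := by
    refine hR1 1 (Or.inl rfl) 0 _ fun u a => ?_
    rw [if_pos a.1.one_mem, if_pos rfl, if_neg not_false]
  -- the separation
  have hsep : ∀ u : HeightOneSpectrum (𝓞 K), (2 : 𝓞 K) ∈ u.asIdeal → ∀ a₀ : ι,
      ∃ T : List (ZMod 2 × (ι → Prop)),
        (∀ t ∈ T, Real η (fun s u (a : ι) => xsM η wp ho s u a.1) Aux t) ∧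
        (∀ t ∈ T, ∀ a : ι, clS (Dec K (wp u)) a.1 = clS (Dec K (wp u)) a₀.1 → t.2 a) ∧
        ∀ a : ι, clS (Dec K (wp u)) a.1 ≠ clS (Dec K (wp u)) a₀.1 → (∃ t ∈ T, ¬ t.2 a) ∨
          (xsM η wp ho 0 u a.1 = 0 ∧ xsM η wp ho 0 u a₀.1 ≠ 0) := by
    intro u h2 a₀
    have hDc := (hNC2 u h2).1
    by_cases hS : clS (Dec K (wp u)) a₀.1 = ∅
    · refine ⟨(Finset.univ.filter (fun g : F₀ ≃ₐ[K] F₀ => g ∈ Dec K (wp u))).toList.map
        (fun g => (1, fun a => g ∈ a.1 ∨ g ^ 2 ∉ a.1)), ?_, ?_, ?_⟩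
      · intro t ht
        obtain ⟨g, hg, rfl⟩ := List.mem_map.1 ht
        have hgD : g ∈ Dec K (wp u) := (Finset.mem_filter.1 (Finset.mem_toList.1 hg)).2
        refine hR1 g (Or.inr ⟨u, h2, hgD⟩) 1 _ fun v a => ?_
        by_cases h3 : g ∈ a.1
        · rw [if_pos h3, if_neg hs1, if_pos (Or.inl h3)]
        · rw [if_neg h3]
          by_cases h4 : g ^ 2 ∈ a.1
          · rw [if_pos h4, if_neg hs1, if_neg]
            rintro (h | h)
            · exact h3 h
            · exact h h4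
          · rw [if_neg h4, if_pos (Or.inr h4)]
      · intro t ht a ha
        obtain ⟨g, hg, rfl⟩ := List.mem_map.1 ht
        have hgD : g ∈ Dec K (wp u) := (Finset.mem_filter.1 (Finset.mem_toList.1 hg)).2
        left
        by_contra hga
        have h5 : (clS (Dec K (wp u)) a.1).Nonempty :=
          cl_nonempty hDc (a.2 u h2) fun h => hga (h hgD)
        rw [ha, hS] at h5
        exact Set.not_nonempty_empty h5
      · intro a ha
        left
        obtain ⟨g, hgD, h3, h4⟩ := cl_sep2 hp hS ha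
        refine ⟨_, List.mem_map.2 ⟨g, Finset.mem_toList.2 (Finset.mem_filter.2
          ⟨Finset.mem_univ _, hgD⟩), rfl⟩, ?_⟩
        rintro (h | h)
        · exact h3 h
        · exact h h4
    · have hne : (clS (Dec K (wp u)) a₀.1).Nonempty := Set.nonempty_iff_ne_empty.2 hS
      refine ⟨(Finset.univ.filter (fun g : F₀ ≃ₐ[K] F₀ =>
        g ∈ clS (Dec K (wp u)) a₀.1)).toList.map (fun g => (0, fun a => g ∉ a.1)), ?_, ?_, ?_⟩
      · intro t ht
        obtain ⟨g, hg, rfl⟩ := List.mem_map.1 ht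
        have hgS : g ∈ clS (Dec K (wp u)) a₀.1 :=
          (Finset.mem_filter.1 (Finset.mem_toList.1 hg)).2
        refine hR1 g (Or.inr ⟨u, h2, hgS.1⟩) 0 _ fun v a => ?_
        by_cases h3 : g ∈ a.1
        · rw [if_pos h3, if_pos rfl, if_neg (not_not.2 h3)]
        · rw [if_neg h3, if_pos h3, if_pos rfl, ite_self]
      · intro t ht a ha
        obtain ⟨g, hg, rfl⟩ := List.mem_map.1 ht
        have hgS : g ∈ clS (Dec K (wp u)) a₀.1 :=
          (Finset.mem_filter.1 (Finset.mem_toList.1 hg)).2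
        rw [← ha] at hgS
        exact cl_notMem hgS
      · intro a ha
        left
        obtain ⟨g, hgS, h3⟩ := cl_sep1 hp hDc (a₀.2 u h2) (a.2 u h2) hne ha
        exact ⟨_, List.mem_map.2 ⟨g, Finset.mem_toList.2 (Finset.mem_filter.2
          ⟨Finset.mem_univ _, hgS⟩), rfl⟩, fun h => h h3⟩
  -- the ramified places
  have hun_f : {v : HeightOneSpectrum (𝓞 K) | ¬ Un K F₀ v ∧ (2 : 𝓞 K) ∉ v.asIdeal}.Finite :=
    (un_finite (K := K) (L := F₀)).subset fun v hv => hv.1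
  obtain ⟨R₁, hR₁⟩ : ∃ R₁ : Finset (HeightOneSpectrum (𝓞 K)), ∀ v, v ∈ R₁ ↔
      v ∈ R₀ ∨ (¬ Un K F₀ v ∧ (2 : 𝓞 K) ∉ v.asIdeal) := by
    refine ⟨R₀ ∪ hun_f.toFinset, fun v => ?_⟩
    rw [Finset.mem_union, Set.Finite.mem_toFinset]
    rfl
  obtain ⟨C, s, W, n, E, A₀, B₀, hC, hRC, hZ, hW, hcls⟩ := exists_configG K hHF hη0
    (fun s u (a : ι) => xsM η wp ho s u a.1) (LpM η) Aux (fun u hu => ((hAux u).1 hu).1) R₁
    (fun v hv => by
      rcases (hR₁ v).1 hv with h | h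
      · exact hR₀ v h
      · exact h.2)
    (fun u h2 a => xsM_ne hη0 hwp ho hp 0 h2 (hNC2 u h2).1 (a.2 u h2))
    (fun u h2 => dyadicG η 0 h2) (fun u hu s => auxG hηo ((hAux u).1 hu).1 s) hon hoff
    (D := Set (F₀ ≃ₐ[K] F₀)) (fun u a => clS (Dec K (wp u)) a.1) (by
      intro u h2 a a' h
      show xsM η wp ho 0 u a.1 = xsM η wp ho 0 u a'.1
      unfold xsM
      rw [if_pos h2, if_pos h2]
      have h' : clS (Dec K (wp u)) a.1 = clS (Dec K (wp u)) a'.1 := h
      rw [h']) (fun _ => 0) hsep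
  have hZ' : ∀ u ∈ C.Z, (2 : 𝓞 K) ∈ u.asIdeal ∨ u ∈ Aux := by
    intro u hu
    rcases hZ u hu with h | h
    · exact Or.inl h.1
    · exact Or.inr h.1
  have hunZ : ∀ u ∈ C.Z, (2 : 𝓞 K) ∉ u.asIdeal → Un K F₀ u := by
    intro u hu h2
    exact ((hAux u).1 ((hZ' u hu).resolve_left h2)).2.1
  have hunS : ∀ V : HeightOneSpectrum (𝓞 F₀), dn K V ∉ C.S → ¬ Ram K V := by
    intro V hV
    apply un_not_ram
    by_contra h
    by_cases h2 : (2 : 𝓞 K) ∈ (dn K V).asIdeal
    · exact hV (Finset.mem_union_left _ (hC.mem2 _ h2))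
    · exact hV (Finset.mem_union_right _ (hRC ((hR₁ _).2 (Or.inr ⟨h, h2⟩))))
  refine ⟨ι, C, fun u => LpM η (s u) u, fun u a => xsM η wp ho (s u) u a.1, W, n, E, A₀, B₀, hC,
    fun v hv => hRC ((hR₁ v).2 (Or.inl hv)), hW, hcls, hunS, ?_, ?_, ?_⟩
  · -- elements of `K`
    rintro d hd ⟨ρ, hρ⟩
    have hd0 : (d : K) ≠ 0 := fun h => hd (RingOfIntegers.coe_eq_zero_iff.1 h)
    have hρ' : ρ ^ 2 = algebraMap K F₀ (d : K) := by rw [hρ, sq]
    have hρ0 : ρ ≠ 0 := by
      rintro rfl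
      rw [mul_zero] at hρ
      exact hd0 ((map_eq_zero _).1 hρ)
    have hres : ∀ (V : HeightOneSpectrum (𝓞 F₀)), ∀ h ∈ Dec K V,
        AlgEquiv.restrictNormalHom F₀ h ∈ stR K ρ ↔ h ∈ stR K ρ := fun V h _ => by
      rw [res_self]
    have hcy : ∀ u, CyT (Dec K (wp u)) (stR K ρ) := by
      intro u
      have h1 := cyT_of (F := F₀) (hres (wp u)) (stR_dcase hρ' (wp u))
      rwa [dn_self] at h1
    refine ⟨⟨stR K ρ, fun p _ => hcy p⟩, hd, fun v hv => ?_, fun u hu A B e he hL => ?_⟩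
    · have h1 := H36AB.eo_of_sq (K := K) (M := K) (N := F₀) (V := wp v)
        (hunS (wp v) (by rw [hwp]; exact hv)) hd0 ⟨ρ, hρ⟩
      rwa [hwp] at h1
    · refine loc_all (F := F₀) (M := K) (N := F₀) hη2 hηo hwp ho hp (dn_self (wp u)) (fun h2 => ?_)
        (hNC u (hZ' u hu)).1 (hcy u) hρ0 hρ' (stR_normal hρ') (fun h _ x => h.commutes x)
        (fun h hh => hh) (hres (wp u)) (stR_dcase hρ' (wp u)) he hL
      apply un_not_ram
      rw [hwp]
      exact hunZ u hu h2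
  · -- the pairs
    intro L0 N _ _ _ _ _ _ _ _ _ _ _ _ r' hr' hgen hsp U hU z hz2 hmono M _ hM ρ hρ0 hρU hρz μ hμ
    have key : ∀ u ∈ C.Z, ∀ V : HeightOneSpectrum (𝓞 N), dn F₀ V = wp u →
        (∀ h ∈ Dec K V, AlgEquiv.restrictNormalHom F₀ h ∈ TU L0 F₀ U ↔ h ∈ U) ∧
          DCase V U M ρ := by
      intro u hu V hV
      have hKV : dn K V = u := by
        rw [← H30CY.dn_tower (K := K) (N₀ := F₀) V, hV, hwp]
      have hspV : Sp K L0 (dn K V) := by
        rw [hKV]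
        exact hsp u hu
      refine ⟨fun h hh => mem_TU hgen hspV hh, ?_⟩
      refine dcase_of hr' hz2 hmono (nc_up (F := F₀) hgen hspV ?_) (fun x => (hM _).1 x.2) hρU hρz
      rw [hV]
      exact hNC u (hZ' u hu)
    refine ⟨⟨TU L0 F₀ U, fun p h2 => ?_⟩, fun u hu A B e he hL => ?_⟩
    · obtain ⟨V, hV⟩ := exists_above (L := N) (wp p)
      obtain ⟨h3, h4⟩ := key p (hC.mem2 p h2) V hV
      have h5 := cyT_of (F := F₀) h3 h4
      rwa [hV] at h5
    · obtain ⟨V, hV⟩ := exists_above (L := N) (wp u)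
      obtain ⟨h3, h4⟩ := key u hu V hV
      have hKV : dn K V = u := by
        rw [← H30CY.dn_tower (K := K) (N₀ := F₀) V, hV, hwp]
      refine loc_all (F := F₀) (M := M) (N := N) hη2 hηo hwp ho hp hV (fun h2 => ?_)
        (hNC u (hZ' u hu)).1 ?_ hρ0 (hμ.symm) hU (fun h hh x => ((hM _).1 x.2).1 h hh) hρU h3 h4 he hL
      · refine H36AB.unram_comp hgen ?_ ?_
        · apply split_unram
          rw [H30CY.dn_tower, hKV]
          exact hsp u hu
        · rw [hV]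
          apply un_not_ram
          rw [hwp]
          exact hunZ u hu h2
      · have h5 := cyT_of (F := F₀) h3 h4
        rwa [hV] at h5
  · -- splitting
    intro N _ _ _ _ _ _ h2 v hv
    rcases hZ v hv with h | h
    · exact h2 v h.1
    · have hb := ((hAux v).1 h.1).2.2.2
      have h3 := dec_map (K := K) (N₀ := N) (N := F₀) (wp v)
      have h4 : Dec K (dn N (wp v)) = ⊥ := by
        rw [← h3]
        rcases hb with hb | ⟨p, hp2, hb⟩
        · rw [hb, Subgroup.map_bot]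
        · rw [eq_bot_iff]
          have h5 := dec_map (K := K) (N₀ := N) (N := F₀) (wp p)
          obtain ⟨j, hj⟩ := h2 p hp2
          have h6 : Dec K (dn N (wp p)) = ⊥ :=
            dec_split j hj (by rw [H30CY.dn_tower, hwp])
          rw [← h6, ← h5]
          exact Subgroup.map_mono hb
      have h7 := sp_of_bot h4
      rwa [H30CY.dn_tower, hwp] at h7

end H30MG

end S_H30_MG_Co
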