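import Mathlib
import Pool.Agent.H76.CQ.Qa
import Pool.Agent.H76.YP.Y4
import Pool.Agent.H76.YP.Y5
import Pool.Agent.H76.YP.Y7

/-! This file joins several modules to save build time (Y8). -/

set_option autoImplicit false

section S_H88_AB_Fm

set_option autoImplicit false
set_option linter.unusedSectionVars false
open scoped Classical

open WithZero NumberField IsDedekindDomain H38RT
open H38T1 (SC sc scu rep eo la si Pri OddP tp unif ka)
open H76PP H36MX H76MQ H76MX H73P2 H76AB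

namespace H88AB

section Gal

variable {K N : Type} [Field K] [NumberField K] [Field N] [NumberField N] [Algebra K N] [IsGalois K N]
  {U : Subgroup (N ≃ₐ[K] N)} [hU : U.Normal] {z : N ≃ₐ[K] N}

theorem fixU {x : N} (hx : ∀ u ∈ U, u x = x) (g : N ≃ₐ[K] N) : ∀ u ∈ U, u (g x) = g x := by
  intro u hu
  have h1 : g⁻¹ * u * g ∈ U := by
    have h2 := hU.conj_mem u hu g⁻¹
    rwa [inv_inv] at h2
  have h2 := hx _ h1
  have h3 : (g⁻¹ * u * g) x = g⁻¹ (u (g x)) := rfl
  rw [h3] at h2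
  have h4 := congrArg g h2
  have h5 : g (g⁻¹ (u (g x))) = u (g x) := g.apply_symm_apply _
  rwa [h5] at h4

theorem zg_comm (hzc : ∀ y, z * y * z⁻¹ * y⁻¹ ∈ U) {x : N} (hx : ∀ u ∈ U, u x = x)
    (g : N ≃ₐ[K] N) : z (g x) = g (z x) := by
  have h1 := hzc g
  have h2 := fixU (fixU hx z) g _ h1
  have h3 : (z * g * z⁻¹ * g⁻¹) (g (z x)) = z (g (z⁻¹ (g⁻¹ (g (z x))))) := rfl
  have h4 : g⁻¹ (g (z x)) = z x := g.symm_apply_apply _
  have h5 : z⁻¹ (z x) = x := z.symm_apply_apply _
  rw [h3, h4, h5] at h2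
  exact h2

theorem gal_M (hzc : ∀ y, z * y * z⁻¹ * y⁻¹ ∈ U) {M : IntermediateField K N}
    (hM : ∀ x, x ∈ M ↔ (∀ u ∈ U, u x = x) ∧ z x = x) : IsGalois K M := by
  have h1 : Normal K M := by
    rw [IntermediateField.normal_iff_forall_map_le']
    rintro σ _ ⟨x, hx, rfl⟩
    obtain ⟨h2, h3⟩ := (hM x).1 hx
    refine (hM _).2 ⟨fixU h2 σ, ?_⟩
    have h4 := zg_comm hzc h2 σ
    rw [h3] at h4
    exact h4
  exact ⟨⟩

theorem stw_M (hzc : ∀ y, z * y * z⁻¹ * y⁻¹ ∈ U) {M : IntermediateField K N}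
    (hM : ∀ x, x ∈ M ↔ (∀ u ∈ U, u x = x) ∧ z x = x) {ρ : N} (hρ0 : ρ ≠ 0)
    (hρ : ∀ u ∈ U, u ρ = ρ) (hz : z ρ = -ρ) {μ : M} (hμ : (μ : N) = ρ ^ 2) : Stw K μ := by
  have _ := gal_M hzc hM
  intro g
  obtain ⟨σ, hσ⟩ : ∃ σ : N ≃ₐ[K] N, ∀ x : M, σ (x : N) = ((g x : M) : N) :=
    ⟨g.liftNormal N, fun x => g.liftNormal_commutes N x⟩
  have hσ0 : σ ρ ≠ 0 := (map_ne_zero σ).2 hρ0
  have hzσ : z (σ ρ) = -σ ρ := by
    rw [zg_comm hzc hρ σ, hz, map_neg]
  have ht : σ ρ / ρ ∈ M := by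
    refine (hM _).2 ⟨fun u hu => ?_, ?_⟩
    · rw [map_div₀, fixU hρ σ u hu, hρ u hu]
    · rw [map_div₀, hzσ, hz, neg_div_neg_eq]
  refine ⟨⟨σ ρ / ρ, ht⟩, ?_, ?_⟩
  · intro h0
    exact div_ne_zero hσ0 hρ0 (congrArg Subtype.val h0)
  · apply Subtype.ext
    have h1 : ((μ * (⟨σ ρ / ρ, ht⟩ : M) ^ 2 : M) : N) = (μ : N) * (σ ρ / ρ) ^ 2 := rfl
    rw [h1, ← hσ, hμ, map_pow]
    field_simp

end Gal

/-- The local classes of `μ` at the places of `C.Z`. -/
def LocZ {K : Type} [Field K] [NumberField K] (C : CfgX K) (Lp : LPred K)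
    (x : (u : HeightOneSpectrum (𝓞 K)) → SC (Kv u)) {M : Type} [Field M] [NumberField M] [Algebra K M]
    (μ : M) : Prop :=
  ∀ u ∈ C.Z, ∀ (A B : 𝓞 K) (e : Fin 3 → Kv u),
    Spl (algebraMap K (Kv u) (A : K)) (algebraMap K (Kv u) (B : K)) e → Lp u A B e →
      H30MG.LocCl u e μ (x u)

/-- The configuration for `F₀`. -/
structure Conf {K : Type} [Field K] [NumberField K] (F₀ : Type) [Field F₀] [NumberField F₀]
    [Algebra K F₀] (C : CfgX K) (Lp : LPred K) {ι : Type*}
    (x : (u : HeightOneSpectrum (𝓞 K)) → ι → SC (Kv u)) : Prop where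
  ok : C.Ok
  ram : ∀ V : HeightOneSpectrum (𝓞 F₀), dn K V ∉ C.S → ¬ Ram K V
  low : ∀ (N : IntermediateField K F₀) [NumberField N], IsGalois K N →
    (∀ v : HeightOneSpectrum (𝓞 K), (2 : 𝓞 K) ∈ v.asIdeal → Sp K N v) → ∀ v ∈ C.Z, Sp K N v
  el : ∀ d : 𝓞 K, d ≠ 0 → IsSquare (algebraMap K F₀ (d : K)) →
    ∃ i, LocZ C Lp (fun u => x u i) (d : K)
  pr : ∀ (L0 N : Type) [Field L0] [NumberField L0] [Field N] [NumberField N] [Algebra K L0]
    [Algebra K N] [Algebra L0 N] [Algebra F₀ N] [IsScalarTower K L0 N] [IsScalarTower K F₀ N]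
    [IsGalois K L0] [IsGalois K N], (∃ r : ℕ, Module.finrank K N = 2 ^ r) →
    (∀ g : N ≃ₐ[K] N, (∀ x : L0, g (algebraMap L0 N x) = algebraMap L0 N x) →
      (∀ y : F₀, g (algebraMap F₀ N y) = algebraMap F₀ N y) → g = 1) →
    (∀ v ∈ C.Z, Sp K L0 v) → ∀ (U : Subgroup (N ≃ₐ[K] N)) [U.Normal] (z : N ≃ₐ[K] N), z ∉ U →
    z ^ 2 ∈ U → (∀ y, z * y * z⁻¹ * y⁻¹ ∈ U) →
    (∀ x, x ∉ U → (∀ y, x * y * x⁻¹ * y⁻¹ ∈ U) → x ^ 2 ∈ U → x * z⁻¹ ∈ U) →
    ∀ (M : IntermediateField K N) [NumberField M], (∀ x, x ∈ M ↔ (∀ u ∈ U, u x = x) ∧ z x = x) →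
    ∀ ρ : N, ρ ≠ 0 → (∀ u ∈ U, u ρ = ρ) → z ρ = -ρ → ∀ μ : M, (μ : N) = ρ ^ 2 →
      ∃ i, LocZ C Lp (fun u => x u i) μ

section Main

variable {K : Type} [Field K] [NumberField K] {F₀ : Type} [Field F₀] [NumberField F₀]
  [Algebra K F₀] [IsGalois K F₀] {C : CfgX K} {Lp : LPred K} {ι : Type*}
  {x : (u : HeightOneSpectrum (𝓞 K)) → ι → SC (Kv u)}

theorem Conf.elOk (hc : Conf F₀ C Lp x) {d : 𝓞 K} (hd : d ≠ 0)
    (hs : IsSquare (algebraMap K F₀ (d : K))) : ∃ i, ElOk C Lp (fun u => x u i) d := by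
  obtain ⟨i, hi⟩ := hc.el d hd hs
  refine ⟨i, hd, fun v hv => ?_, hi⟩
  have hdK : (d : K) ≠ 0 := fun h0 => hd (RingOfIntegers.coe_eq_zero_iff.1 h0)
  obtain ⟨V, hV⟩ := exists_above (L := F₀) v
  obtain ⟨s, hs⟩ := hs
  have h1 := unram_even (K := K) (M := K) (N := F₀) (hc.ram V (by rw [hV]; exact hv)) hdK (ρ := s)
    (by rw [sq]; exact hs.symm)
  rw [hV] at h1
  exact h1

theorem pg_of {A B : K} {M : Type} [Field M] [NumberField M] [Algebra K M] {μ : M}
    (h : Finite (⟨0, 0, 0, μ ^ 2 * algebraMap K M A, μ ^ 3 * algebraMap K M B⟩ :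
      WeierstrassCurve M).toAffine.Point ∧
    Pool.Agent.H10.Sha2Trivial M
      (⟨0, 0, 0, μ ^ 2 * algebraMap K M A, μ ^ 3 * algebraMap K M B⟩ : WeierstrassCurve M)) :
    H36MG.PG K A B μ := ⟨H14T1.bdd_of_sha2 h.2, h.1⟩

/-- The curve over the layers. -/
theorem pg_layer (hc : Conf F₀ C Lp x) {S : Finset (HeightOneSpectrum (𝓞 K))} (hCS : C.S ⊆ S)
    {p : 𝓞 K × 𝓞 K}
    (hspl : ∀ u ∈ C.Z, ∃ e : Fin 3 → Kv u,
      Spl (algebraMap K (Kv u) (p.1 : K)) (algebraMap K (Kv u) (p.2 : K)) e)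
    (hG : SelGood (SelG C Lp x {v | Sp K F₀ v}) S p.1 p.2) {L : Type} [Field L] [Algebra K L]
    (hL : H30MQ.AdmM K L S p) {L0 : IntermediateField K L} [NumberField L0] [IsGalois K L0]
    {N : Type} [Field N] [NumberField N] [Algebra K N] [Algebra L0 N] [Algebra F₀ N]
    [IsScalarTower K L0 N] [IsScalarTower K F₀ N] [IsGalois K N]
    (hg : ∀ g : N ≃ₐ[K] N, (∀ x : L0, g (algebraMap L0 N x) = algebraMap L0 N x) →
      (∀ y : F₀, g (algebraMap F₀ N y) = algebraMap F₀ N y) → g = 1)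
    (hdeg : ∃ r : ℕ, Module.finrank K N = 2 ^ r) : H36MG.PG K (p.1 : K) (p.2 : K) (1 : N) := by
  obtain ⟨r, hr⟩ := hdeg
  have hne : 4 * (p.1 : K) ^ 3 + 27 * (p.2 : K) ^ 2 ≠ 0 := by
    intro h
    apply hG.ne
    apply RingOfIntegers.coe_injective
    rw [map_zero, ← h]
    simp only [map_add, map_mul, map_pow, map_ofNat]
  have hZ : ∀ v ∈ C.Z, Sp K L0 v := by
    intro v hv
    have hvS : v ∈ S := hCS (Finset.mem_union_left _ hv)
    rcases hL.loc v with ⟨ι, hι⟩ | ⟨-, h⟩ | ⟨h, -⟩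
    · exact ⟨ι.comp (algebraMap L0 L), fun y => hι y⟩
    · exfalso
      obtain ⟨e, he⟩ := hspl v hv
      obtain ⟨t, ht⟩ := root_of_spl he
      exact h t ht
    · exact absurd hvS h
  refine H36MG.gt_all hr hne ?_ ?_
  · -- the curve over `K`
    obtain ⟨i, hi⟩ := hc.el 1 one_ne_zero ⟨1, by
      rw [mul_one]
      have h1 : ((1 : 𝓞 K) : K) = 1 := map_one _
      rw [h1, map_one]⟩
    have h1 : ((1 : 𝓞 K) : K) = 1 := map_one _
    refine pg_of (triv_G hG (i := i) (M := K) (μ := 1) ⟨inferInstance, ⟨0, ?_⟩, one_ne_zero, ?_, ?_, ?_⟩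
      fun g => ⟨1, one_ne_zero, by rw [map_one, one_pow, mul_one]⟩)
    · rw [pow_zero]
      exact Module.finrank_self K
    · intro V _ hb
      exfalso
      rcases hb with hb | hb
      · exact H36MT.not_ram V hb
      · apply hb
        rw [(H38T1.sc_eq_zero one_ne_zero).2 ⟨1, (mul_one 1).symm⟩, H38T1.eo_zero]
    · intro v _ _ _
      exact Or.inr ⟨algebraMap K _, fun x => rfl, ⟨1, by rw [map_one, mul_one]⟩⟩
    · rw [← h1]
      exact hi
  · intro U _ z hzU hz2 hzc hmono M _ hM ρ hρ0 hρ hz μ hμ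
    have _ := gal_M hzc hM
    obtain ⟨i, hi⟩ := hc.pr L0 N ⟨r, hr⟩ hg hZ U z hzU hz2 hzc hmono M hM ρ hρ0 hρ hz μ hμ
    have hμ0 : μ ≠ 0 := by
      rintro rfl
      have h1 : ((0 : M) : N) = 0 := rfl
      rw [h1] at hμ
      exact pow_ne_zero 2 hρ0 hμ.symm
    have hMdeg : ∃ r : ℕ, Module.finrank K M = 2 ^ r := by
      have h5 := Module.finrank_mul_finrank K M N
      rw [hr] at h5
      obtain ⟨s, -, hs⟩ := (Nat.dvd_prime_pow Nat.prime_two).1 (Dvd.intro _ h5)
      exact ⟨s, hs⟩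
    exact pg_of (triv_G hG (i := i) (pairOk_of hc.ram hL hg hMdeg hμ0 (ρ := ρ) hμ.symm hi)
      (stw_M hzc hM hρ0 hρ hz hμ))

end Main

end H88AB

end S_H88_AB_Fm

section S_H88_AB_Lz

set_option autoImplicit false
set_option linter.unusedSectionVars false
open scoped Classical

namespace H88AB

open IntermediateField

section Layer

variable {K L F F' : Type} [Field K] [CharZero K] [Field L] [Field F] [Field F'] [Algebra K L]
  [Algebra K F] [Algebra K F'] [Algebra L F'] [Algebra F F'] [IsScalarTower K L F']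
  [IsScalarTower K F F'] [IsGalois K F] [IsGalois K L]

/-- The elements of the compositum lie in finite layers. -/
theorem mem_layer2 (hgen : IntermediateField.adjoin L (Set.range (algebraMap F F')) = ⊤) (α : F') :
    ∃ (U : Finset L) (U' : Finset F), α ∈ IntermediateField.adjoin K
      ((algebraMap L F') '' (U : Set L) ∪ (algebraMap F F') '' (U' : Set F)) := by
  have h1 : α ∈ IntermediateField.adjoin K (Set.range (algebraMap L F') ∪
      Set.range (algebraMap F F')) := by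
    let E : IntermediateField L F' :=
      { (IntermediateField.adjoin K (Set.range (algebraMap L F') ∪
          Set.range (algebraMap F F'))).toSubfield with
        algebraMap_mem' := fun x => IntermediateField.subset_adjoin K _ (Or.inl ⟨x, rfl⟩) }
    have h2 : IntermediateField.adjoin L (Set.range (algebraMap F F')) ≤ E := by
      rw [IntermediateField.adjoin_le_iff]
      intro x hx
      exact IntermediateField.subset_adjoin K _ (Or.inr hx)
    have h3 : α ∈ E := by
      apply h2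
      rw [hgen]
      exact IntermediateField.mem_top
    exact h3
  obtain ⟨T, hT, hα⟩ := IntermediateField.exists_finset_of_mem_adjoin h1
  have h4 : ∀ t : F', ∃ x : L, (∃ y : L, algebraMap L F' y = t) → algebraMap L F' x = t := by
    intro t
    by_cases h : ∃ y : L, algebraMap L F' y = t
    · exact ⟨h.choose, fun _ => h.choose_spec⟩
    · exact ⟨0, fun h' => absurd h' h⟩
  have h4' : ∀ t : F', ∃ x : F, (∃ y : F, algebraMap F F' y = t) → algebraMap F F' x = t := by
    intro t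
    by_cases h : ∃ y : F, algebraMap F F' y = t
    · exact ⟨h.choose, fun _ => h.choose_spec⟩
    · exact ⟨0, fun h' => absurd h' h⟩
  choose f hf using h4
  choose f' hf' using h4'
  refine ⟨T.image f, T.image f', ?_⟩
  refine IntermediateField.adjoin.mono K _ _ ?_ hα
  intro t ht
  rcases hT ht with h5 | h5
  · left
    refine ⟨f t, ?_, hf t h5⟩
    rw [Finset.coe_image]
    exact ⟨t, ht, rfl⟩
  · right
    refine ⟨f' t, ?_, hf' t h5⟩
    rw [Finset.coe_image]
    exact ⟨t, ht, rfl⟩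

/-- Every finite subextension of the compositum lies in the compositum of finite layers. -/
theorem exists_layer2 (hgen : IntermediateField.adjoin L (Set.range (algebraMap F F')) = ⊤)
    (M : IntermediateField K F') [FiniteDimensional K M] :
    ∃ T : IntermediateField K F, FiniteDimensional K T ∧
      ∀ M0 : IntermediateField K F, T ≤ M0 → FiniteDimensional K M0 → Normal K M0 →
      ∃ (L0 : IntermediateField K L) (N : IntermediateField K F'), FiniteDimensional K L0 ∧
        Normal K L0 ∧ FiniteDimensional K N ∧ Normal K N ∧ M ≤ N ∧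
        (∀ x : L, x ∈ L0 → algebraMap L F' x ∈ N) ∧ (∀ y : F, y ∈ M0 → algebraMap F F' y ∈ N) ∧
        N ≤ IntermediateField.adjoin K
          ((algebraMap L F') '' (L0 : Set L) ∪ (algebraMap F F') '' (M0 : Set F)) := by
  obtain ⟨α, hα⟩ := Field.exists_primitive_element K M
  obtain ⟨U, U', hU⟩ := mem_layer2 (K := K) hgen (α : F')
  have hLalg : Algebra.IsAlgebraic K L := inferInstance
  have hFalg : Algebra.IsAlgebraic K F := inferInstance
  let T : IntermediateField K F := IntermediateField.adjoin K (U' : Set F)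
  have hT : FiniteDimensional K T := IntermediateField.finiteDimensional_adjoin
    (S := (U' : Set F)) fun x _ => Algebra.IsIntegral.isIntegral x
  refine ⟨T, hT, fun M0 hTM0 hM0f hM0n => ?_⟩
  let L1 : IntermediateField K L := IntermediateField.adjoin K (U : Set L)
  have hL1 : FiniteDimensional K L1 := IntermediateField.finiteDimensional_adjoin
    (S := (U : Set L)) fun x _ => Algebra.IsIntegral.isIntegral x
  let L0 : IntermediateField K L := IntermediateField.normalClosure K L1 L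
  have hL10 : L1 ≤ L0 := IntermediateField.le_normalClosure L1
  have hL0n : Normal K L0 := inferInstance
  have hL0f : FiniteDimensional K L0 := inferInstance
  let iL : L →ₐ[K] F' := IsScalarTower.toAlgHom K L F'
  let iF : F →ₐ[K] F' := IsScalarTower.toAlgHom K F F'
  let NL : IntermediateField K F' := L0.map iL
  let NF : IntermediateField K F' := M0.map iF
  have hNLn : Normal K NL := Normal.of_algEquiv (L0.equivMap iL)
  have hNLf : FiniteDimensional K NL := (L0.equivMap iL).toLinearEquiv.finiteDimensional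
  have hNFn : Normal K NF := Normal.of_algEquiv (M0.equivMap iF)
  have hNFf : FiniteDimensional K NF := (M0.equivMap iF).toLinearEquiv.finiteDimensional
  have hx : ∀ x : L, x ∈ L0 → algebraMap L F' x ∈ NL ⊔ NF := fun x hx =>
    (le_sup_left : NL ≤ NL ⊔ NF) ⟨x, hx, rfl⟩
  have hy : ∀ y : F, y ∈ M0 → algebraMap F F' y ∈ NL ⊔ NF := fun y hy =>
    (le_sup_right : NF ≤ NL ⊔ NF) ⟨y, hy, rfl⟩
  refine ⟨L0, NL ⊔ NF, hL0f, hL0n, inferInstance, inferInstance, ?_, hx, hy, ?_⟩
  · have h1 : (α : F') ∈ NL ⊔ NF := by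
      have h2 : IntermediateField.adjoin K ((algebraMap L F') '' (U : Set L) ∪
          (algebraMap F F') '' (U' : Set F)) ≤ NL ⊔ NF := by
        rw [IntermediateField.adjoin_le_iff]
        rintro x (⟨u, hu, rfl⟩ | ⟨u, hu, rfl⟩)
        · exact hx u (hL10 (IntermediateField.subset_adjoin K _ hu))
        · exact hy u (hTM0 (IntermediateField.subset_adjoin K _ hu))
      exact h2 hU
    intro x hxM
    have h3 : (⟨x, hxM⟩ : M) ∈ IntermediateField.adjoin K {α} := by
      rw [hα]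
      exact IntermediateField.mem_top
    have h4 : IntermediateField.adjoin K {α} ≤ (NL ⊔ NF).comap M.val := by
      rw [IntermediateField.adjoin_le_iff]
      intro y hy'
      rw [Set.mem_singleton_iff] at hy'
      subst hy'
      exact h1
    exact h4 h3
  · rw [sup_le_iff]
    constructor
    · rintro _ ⟨x, hx', rfl⟩
      exact IntermediateField.subset_adjoin K _ (Or.inl ⟨x, hx', rfl⟩)
    · rintro _ ⟨y, hy', rfl⟩
      exact IntermediateField.subset_adjoin K _ (Or.inr ⟨y, hy', rfl⟩)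

end Layer

section Split

variable {K : Type} [Field K]

/-- An algebraic extension all of whose finite Galois layers embed into `C` embeds into `C`. -/
theorem emb_of_layers {F : Type} [Field F] [Algebra K F] [IsGalois K F] {C : Type} [Field C]
    [Algebra K C]
    (h : ∀ T : IntermediateField K F, FiniteDimensional K T → IsGalois K T →
      Nonempty (T →ₐ[K] C)) : Nonempty (F →ₐ[K] C) := by
  let Ω := AlgebraicClosure C
  have hFalg : Algebra.IsAlgebraic K F := inferInstance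
  let j : F →ₐ[K] Ω := IsAlgClosed.lift
  let c : C →ₐ[K] Ω := IsScalarTower.toAlgHom K C Ω
  have key : ∀ x : F, j x ∈ c.fieldRange := by
    intro x
    let T1 : IntermediateField K F := IntermediateField.adjoin K {x}
    have hT1 : FiniteDimensional K T1 :=
      IntermediateField.adjoin.finiteDimensional (Algebra.IsIntegral.isIntegral x)
    let T : IntermediateField K F := IntermediateField.normalClosure K T1 F
    have hTf : FiniteDimensional K T := inferInstance
    have hTn : Normal K T := inferInstance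
    have hTg : IsGalois K T := ⟨⟩
    have hxT : x ∈ T := IntermediateField.le_normalClosure T1
      (IntermediateField.subset_adjoin K _ rfl)
    obtain ⟨i⟩ := h T hTf hTg
    have hrng : ∀ f g : T →ₐ[K] Ω, f.fieldRange ≤ g.fieldRange := by
      rintro f g _ ⟨y, rfl⟩
      let _ : Algebra T Ω := g.toRingHom.toAlgebra
      have hg : ∀ z : T, algebraMap T Ω z = g z := fun _ => rfl
      have _ : IsScalarTower K T Ω := IsScalarTower.of_algebraMap_eq fun z => by
        rw [hg, AlgHom.commutes]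
      exact ⟨f.restrictNormal T y, f.restrictNormal_commutes T y⟩
    have h1 : (c.comp i).fieldRange = (j.comp T.val).fieldRange :=
      le_antisymm (hrng _ _) (hrng _ _)
    have h2 : j x ∈ (j.comp T.val).fieldRange := ⟨⟨x, hxT⟩, rfl⟩
    rw [← h1] at h2
    obtain ⟨y, hy⟩ := h2
    exact ⟨i y, hy⟩
  let e := AlgEquiv.ofInjectiveField c
  exact ⟨(e.symm : c.range →ₐ[K] C).comp (j.codRestrict c.range key)⟩

end Split

end H88AB

end S_H88_AB_Lz

section S_H88_AB_Fx

set_option autoImplicit false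
set_option linter.unusedSectionVars false
open scoped Classical

open WithZero NumberField IsDedekindDomain H38RT
open H38T1 (SC sc scu rep eo la si Pri OddP tp unif ka)
open H76PP H36MX H76MQ H76MX H73P2 H76AB

namespace H88AB

section Sub

variable {K : Type} [Field K] [NumberField K] {C : CfgX K} {Lp : LPred K} {ι : Type*}
  {x : (u : HeightOneSpectrum (𝓞 K)) → ι → SC (Kv u)}

theorem ne_K {p : 𝓞 K × 𝓞 K} (hne : 4 * p.1 ^ 3 + 27 * p.2 ^ 2 ≠ 0) :
    4 * (p.1 : K) ^ 3 + 27 * (p.2 : K) ^ 2 ≠ 0 := by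
  intro h
  apply hne
  apply RingOfIntegers.coe_injective
  rw [map_zero, ← h]
  simp only [map_add, map_mul, map_pow, map_ofNat]

theorem pg_sub {F₀ : Type} [Field F₀] [NumberField F₀]
    [Algebra K F₀] [IsGalois K F₀] (hc : Conf F₀ C Lp x)
    (hdegF : ∃ r : ℕ, Module.finrank K F₀ = 2 ^ r)
    {S : Finset (HeightOneSpectrum (𝓞 K))} (hCS : C.S ⊆ S) {p : 𝓞 K × 𝓞 K}
    (hspl : ∀ u ∈ C.Z, ∃ e : Fin 3 → Kv u,
      Spl (algebraMap K (Kv u) (p.1 : K)) (algebraMap K (Kv u) (p.2 : K)) e)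
    (hG : SelGood (SelG C Lp x {v | Sp K F₀ v}) S p.1 p.2) {L F' : Type} [Field L] [Field F']
    [Algebra K L] [Algebra K F'] [Algebra L F'] [IsScalarTower K L F'] (iF : F₀ →ₐ[K] F')
    (hL : H30MQ.AdmM K L S p) {L0 : IntermediateField K L} [FiniteDimensional K L0] [Normal K L0]
    {N : IntermediateField K F'} [FiniteDimensional K N] [Normal K N]
    (hLN : ∀ x : L, x ∈ L0 → algebraMap L F' x ∈ N) (hFN : ∀ y : F₀, iF y ∈ N)
    (hNle : N ≤ IntermediateField.adjoin K ((algebraMap L F') '' (L0 : Set L) ∪ Set.range iF))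
    [NumberField N] : H36MG.PG K (p.1 : K) (p.2 : K) (1 : N) := by
  have _ : NumberField L0 := NumberField.of_module_finite K L0
  have _ : IsGalois K L0 := ⟨⟩
  have _ : IsGalois K N := ⟨⟩
  let jL : L0 →+* N := ((algebraMap L F').comp (algebraMap L0 L)).codRestrict N.toSubfield
    fun y => hLN _ y.2
  let jF : F₀ →+* N := (iF : F₀ →+* F').codRestrict N.toSubfield fun y => hFN y
  let _ : Algebra L0 N := jL.toAlgebra
  let _ : Algebra F₀ N := jF.toAlgebra
  have hLc : ∀ y : L0, ((algebraMap L0 N y : N) : F') = algebraMap L F' (y : L) := fun _ => rfl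
  have hFc : ∀ y : F₀, ((algebraMap F₀ N y : N) : F') = iF y := fun _ => rfl
  have hKc : ∀ y : K, ((algebraMap K N y : N) : F') = algebraMap K F' y := fun _ => rfl
  have _ : IsScalarTower K L0 N := IsScalarTower.of_algebraMap_eq fun y => Subtype.ext (by
    rw [hLc, hKc, IsScalarTower.algebraMap_apply K L F']
    rfl)
  have _ : IsScalarTower K F₀ N := IsScalarTower.of_algebraMap_eq fun y => Subtype.ext (by
    rw [hFc, hKc, AlgHom.commutes])
  have hg : ∀ g : N ≃ₐ[K] N, (∀ x : L0, g (algebraMap L0 N x) = algebraMap L0 N x) →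
      (∀ y : F₀, g (algebraMap F₀ N y) = algebraMap F₀ N y) → g = 1 := by
    intro g h1 h2
    let E : IntermediateField K F' := (IntermediateField.fixedField (Subgroup.zpowers g)).map N.val
    have hE : IntermediateField.adjoin K
        ((algebraMap L F') '' (L0 : Set L) ∪ Set.range iF) ≤ E := by
      rw [IntermediateField.adjoin_le_iff]
      have hfix : ∀ w : N, g w = w → w ∈ IntermediateField.fixedField (Subgroup.zpowers g) := by
        intro w hw
        rw [IntermediateField.mem_fixedField_iff]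
        rintro f hf
        obtain ⟨n, rfl⟩ := Subgroup.mem_zpowers_iff.1 hf
        have h3 : g ∈ MulAction.stabilizer (N ≃ₐ[K] N) w := hw
        exact Subgroup.zpow_mem _ h3 n
      rintro w (⟨y, hy, rfl⟩ | ⟨y, rfl⟩)
      · exact ⟨algebraMap L0 N ⟨y, hy⟩, hfix _ (h1 _), rfl⟩
      · exact ⟨algebraMap F₀ N y, hfix _ (h2 _), rfl⟩
    ext w
    obtain ⟨w', hw', hww⟩ := hE (hNle w.2)
    have h3 : w' = w := Subtype.ext hww
    subst h3
    rw [AlgEquiv.one_apply]
    exact congrArg Subtype.val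
      ((IntermediateField.mem_fixedField_iff (Subgroup.zpowers g) w').1 hw' g
        (Subgroup.mem_zpowers g))
  have _ : FiniteDimensional K F₀ := Module.Finite.of_restrictScalars_finite ℚ K F₀
  obtain ⟨a, ha⟩ := hL.deg L0 inferInstance
  obtain ⟨b, hb⟩ := hdegF
  exact pg_layer hc hCS hspl hG hL (L0 := L0) (N := N) hg (layer_deg ha hb hg)

theorem selGood_mono {Z Z' : Set (HeightOneSpectrum (𝓞 K))} (hZ : Z ⊆ Z')
    {S : Finset (HeightOneSpectrum (𝓞 K))} {A B : 𝓞 K} (h : SelGood (SelG C Lp x Z) S A B) :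
    SelGood (SelG C Lp x Z') S A B := by
  refine ⟨h.two, h.ne, h.irr, h.nice, ?_⟩
  intro i L _ _ _ θ hθ δ hδ hsq hS
  refine h.rel i L θ hθ δ hδ hsq ?_
  rcases hS with ⟨M, _, _, _, μ, hM, hl⟩ | hS
  · exact Or.inl ⟨M, _, _, _, μ, ⟨hM.gal, hM.deg, hM.ne, hM.bad,
      fun v hv hvZ => hM.spl v hv (hZ hvZ), hM.loc⟩, hl⟩
  · exact Or.inr hS

end Sub

/-- Configurations for all finite layers of `F`. -/
def ConfL {K : Type} [Field K] [NumberField K] (F : Type) [Field F] [Algebra K F] (C : CfgX K)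
    (Lp : LPred K) {ι : Type*} (x : (u : HeightOneSpectrum (𝓞 K)) → ι → SC (Kv u)) : Prop :=
  ∀ T : IntermediateField K F, FiniteDimensional K T → ∃ M : IntermediateField K F, T ≤ M ∧
    ∃ _ : NumberField M, IsGalois K M ∧ Conf M C Lp x

/-- The conclusion for the curve of `p`. -/
structure Cnc (K F : Type) [Field K] [NumberField K] [Field F] [Algebra K F]
    (S : Finset (HeightOneSpectrum (𝓞 K))) (p : 𝓞 K × 𝓞 K) : Prop where
  ne : 4 * p.1 ^ 3 + 27 * p.2 ^ 2 ≠ 0
  adm : ∀ N : IntermediateField K F, IsGalois K N →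
    (∀ v : HeightOneSpectrum (𝓞 K), (2 : 𝓞 K) ∈ v.asIdeal → Sp K N v) → H30MQ.AdmM K N S p
  triv : ∀ (L : Type) [Field L] [Algebra K L], H30MQ.AdmM K L S p → ∀ d : 𝓞 K, d ≠ 0 →
    IsSquare (algebraMap K F (d : K)) → H30ZO.PF K L (d ^ 2 * p.1, d ^ 3 * p.2)
  fin : ∀ (L F' : Type) [Field L] [Field F'] [Algebra K L] [Algebra K F'] [Algebra L F']
    [Algebra F F'] [IsScalarTower K L F'] [IsScalarTower K F F'], H30MQ.AdmM K L S p →
    IntermediateField.adjoin L (Set.range (algebraMap F F')) = ⊤ →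
    ∀ (M : IntermediateField K F') [NumberField M] (m : M), m ≠ 0 → IsSquare (m : F') →
      Finite (H36MG.twM K (p.1 : K) (p.2 : K) m).toAffine.Point ∧
      H14T1.TwoPartFinite M (H36MG.twM K (p.1 : K) (p.2 : K) m)

/-- A positive proportion of the curves satisfies the conclusion. -/
def PosP (K F : Type) [Field K] [NumberField K] [Field F] [Algebra K F] : Prop :=
  ∃ (S : Finset (HeightOneSpectrum (𝓞 K))) (c X₀ : ℝ), 0 < c ∧ ∀ X : ℝ, X₀ ≤ X →
    ∃ G : Finset (𝓞 K × 𝓞 K), (∀ p ∈ G, p ∈ Bx K X ∧ Cnc K F S p) ∧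
      (∀ p ∈ G, ∀ q ∈ G, p.1 ^ 3 * q.2 ^ 2 = q.1 ^ 3 * p.2 ^ 2 → p = q) ∧
      c * ((Bx K X).ncard : ℝ) ≤ (G.card : ℝ)

section Conc

variable {K : Type} [Field K] [NumberField K] {F : Type} [Field F]
  [Algebra K F] [IsGalois K F] {C : CfgX K} {Lp : LPred K} {ι : Type*}
  {x : (u : HeightOneSpectrum (𝓞 K)) → ι → SC (Kv u)}

theorem sp_layer {M : IntermediateField K F} {v : HeightOneSpectrum (𝓞 K)} (h : Sp K F v) :
    Sp K M v := by
  obtain ⟨ι, hι⟩ := h
  exact ⟨ι.comp (algebraMap M F), fun y => hι y⟩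

theorem fin_L (hc : ConfL F C Lp x)
    (hdeg : ∀ (M : IntermediateField K F) [NumberField M], IsGalois K M →
      ∃ r : ℕ, Module.finrank K M = 2 ^ r)
    {S : Finset (HeightOneSpectrum (𝓞 K))} (hCS : C.S ⊆ S) {p : 𝓞 K × 𝓞 K}
    (hspl : ∀ u ∈ C.Z, ∃ e : Fin 3 → Kv u,
      Spl (algebraMap K (Kv u) (p.1 : K)) (algebraMap K (Kv u) (p.2 : K)) e)
    (hG : SelGood (SelG C Lp x {v | Sp K F v}) S p.1 p.2) {L F' : Type} [Field L] [Field F']
    [Algebra K L] [Algebra K F'] [Algebra L F'] [Algebra F F'] [IsScalarTower K L F']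
    [IsScalarTower K F F'] (hL : H30MQ.AdmM K L S p)
    (hgen : IntermediateField.adjoin L (Set.range (algebraMap F F')) = ⊤)
    (M : IntermediateField K F') [NumberField M] (m : M) (hm : m ≠ 0) (hs : IsSquare (m : F')) :
    Finite (H36MG.twM K (p.1 : K) (p.2 : K) m).toAffine.Point ∧
      H14T1.TwoPartFinite M (H36MG.twM K (p.1 : K) (p.2 : K) m) := by
  have hgalL := hL.gal
  have _ : FiniteDimensional K M := Module.Finite.of_restrictScalars_finite ℚ K M
  obtain ⟨s, hs⟩ := hs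
  have hsM : IsIntegral K s := by
    have h1 : IsIntegral K (m : F') := (Algebra.IsIntegral.isIntegral (R := K) m).map M.val
    rw [hs, ← sq] at h1
    exact h1.of_pow two_pos
  let Ms : IntermediateField K F' := IntermediateField.adjoin K {s}
  have hMs : FiniteDimensional K Ms := IntermediateField.adjoin.finiteDimensional hsM
  obtain ⟨T, hT, hlay⟩ := exists_layer2 (K := K) (L := L) hgen (M ⊔ Ms)
  obtain ⟨M0, hTM0, hM0nf, hM0g, hM0c⟩ := hc T hT
  have hM0f : FiniteDimensional K M0 := Module.Finite.of_restrictScalars_finite ℚ K M0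
  obtain ⟨L0, N, hL0f, hL0n, hNf, hNn, hMN, hLN, hFN, hNle⟩ := hlay M0 hTM0 hM0f inferInstance
  have _ : NumberField N := NumberField.of_module_finite K N
  have _ : IsGalois K N := ⟨⟩
  have hZ : {v | Sp K F v} ⊆ {v | Sp K M0 v} := fun v hv => sp_layer hv
  let iF : M0 →ₐ[K] F' := (IsScalarTower.toAlgHom K F F').comp M0.val
  have hrg : (algebraMap F F') '' (M0 : Set F) = Set.range iF := by
    ext w
    constructor
    · rintro ⟨y, hy, rfl⟩
      exact ⟨⟨y, hy⟩, rfl⟩
    · rintro ⟨y, rfl⟩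
      exact ⟨y, y.2, rfl⟩
  have hN : H36MG.PG K (p.1 : K) (p.2 : K) (1 : N) :=
    pg_sub hM0c (hdeg M0 hM0g) hCS hspl (selGood_mono hZ hG) iF hL hLN (fun y => hFN y y.2) (by
      rw [← hrg]
      exact hNle)
  have hMN' : M ≤ N := le_sup_left.trans hMN
  have hsN : s ∈ N := (le_sup_right.trans hMN) (IntermediateField.subset_adjoin K _ rfl)
  let iM : M →+* N := (algebraMap M F').codRestrict N.toSubfield fun y => hMN' y.2
  let _ : Algebra M N := iM.toAlgebra
  have hMc : ∀ y : M, ((algebraMap M N y : N) : F') = (y : F') := fun _ => rfl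
  have _ : IsScalarTower K M N := IsScalarTower.of_algebraMap_eq fun y => Subtype.ext (by
    rw [hMc]
    rfl)
  exact H36MG.pg_down (ne_K hG.ne) hN M hm ⟨⟨s, hsN⟩, Subtype.ext (by
    rw [hMc, hs]
    rfl)⟩

theorem sp_low (hc : ConfL F C Lp x) {N : IntermediateField K F} (hN : IsGalois K N)
    (h2 : ∀ v : HeightOneSpectrum (𝓞 K), (2 : 𝓞 K) ∈ v.asIdeal → Sp K N v)
    {v : HeightOneSpectrum (𝓞 K)} (hv : v ∈ C.Z) : Sp K N v := by
  obtain ⟨j⟩ := emb_of_layers (K := K) (F := N) (C := v.adicCompletion K) (fun T hT hTg => by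
    let T' : IntermediateField K F := T.map N.val
    have hT'f : FiniteDimensional K T' := (T.equivMap N.val).toLinearEquiv.finiteDimensional
    obtain ⟨M, hTM, hMnf, hMg, hMc⟩ := hc T' hT'f
    let φ : T →ₐ[K] M := (N.val.comp T.val).codRestrict M.toSubalgebra fun y =>
      hTM ⟨(y : N), y.2, rfl⟩
    let e : T ≃ₐ[K] φ.fieldRange := AlgEquiv.ofInjectiveField φ
    have hRg : IsGalois K φ.fieldRange := IsGalois.of_algEquiv e
    have _ : FiniteDimensional K φ.fieldRange := e.toLinearEquiv.finiteDimensional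
    have _ : NumberField φ.fieldRange := NumberField.of_module_finite K φ.fieldRange
    have hsp : ∀ u : HeightOneSpectrum (𝓞 K), (2 : 𝓞 K) ∈ u.asIdeal → Sp K φ.fieldRange u := by
      intro u hu
      obtain ⟨ι, hι⟩ := h2 u hu
      refine ⟨(ι.comp (algebraMap T N)).comp (e.symm : φ.fieldRange →+* T), fun y => ?_⟩
      have h1 : (e.symm : φ.fieldRange →+* T) (algebraMap K φ.fieldRange y) = algebraMap K T y :=
        e.symm.commutes y
      rw [RingHom.comp_apply, RingHom.comp_apply, h1, ← IsScalarTower.algebraMap_apply K T N, hι]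
    obtain ⟨ι, hι⟩ := hMc.low φ.fieldRange hRg hsp v hv
    refine ⟨{ (ι.comp (e : T →+* φ.fieldRange)) with commutes' := fun y => ?_ }⟩
    have h1 : (e : T →+* φ.fieldRange) (algebraMap K T y) = algebraMap K φ.fieldRange y :=
      e.commutes y
    change ι ((e : T →+* φ.fieldRange) (algebraMap K T y)) = _
    rw [h1]
    exact hι y)
  exact ⟨j, fun y => j.commutes y⟩

theorem adm_L (hc : ConfL F C Lp x)
    (hdeg : ∀ (M : IntermediateField K F) [NumberField M], IsGalois K M →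
      ∃ r : ℕ, Module.finrank K M = 2 ^ r)
    {S : Finset (HeightOneSpectrum (𝓞 K))} (hCS : C.S ⊆ S)
    (hSZ : ∀ v ∈ S, v ∈ C.S ∨ Sp K F v) {p : 𝓞 K × 𝓞 K}
    (hR : ∀ v ∈ C.R, ∀ t : 𝓞 K, t ^ 3 + p.1 * t + p.2 ∉ v.asIdeal) (N : IntermediateField K F)
    (hN : IsGalois K N)
    (hN2 : ∀ v : HeightOneSpectrum (𝓞 K), (2 : 𝓞 K) ∈ v.asIdeal → Sp K N v) :
    H30MQ.AdmM K N S p := by
  refine ⟨hN, ?_, ?_⟩
  · intro T _ hTg
    let e := T.equivMap N.val
    have _ : IsGalois K (T.map N.val) := IsGalois.of_algEquiv e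
    have _ : FiniteDimensional K T := Module.Finite.of_restrictScalars_finite ℚ K T
    have _ : FiniteDimensional K (T.map N.val) := e.toLinearEquiv.finiteDimensional
    have _ : NumberField (T.map N.val) := NumberField.of_module_finite K _
    obtain ⟨r, hr⟩ := hdeg (T.map N.val) inferInstance
    exact ⟨r, by rw [← hr]; exact e.toLinearEquiv.finrank_eq⟩
  · intro v
    by_cases hv2 : (2 : 𝓞 K) ∈ v.asIdeal
    · exact Or.inl (hN2 v hv2)
    by_cases hvR : v ∈ C.R
    · exact Or.inr (Or.inl ⟨hv2, hR v hvR⟩)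
    by_cases hvS : v ∈ S
    · left
      rcases hSZ v hvS with h5 | h5
      · rcases Finset.mem_union.1 h5 with h6 | h6
        · exact sp_low hc hN hN2 h6
        · exact absurd h6 hvR
      · exact sp_layer h5
    · refine Or.inr (Or.inr ⟨hvS, ?_⟩)
      rintro ⟨T, hT, V, hV, hr⟩
      have _ : FiniteDimensional K T := Module.Finite.of_restrictScalars_finite ℚ K T
      have _ : FiniteDimensional K (T.map N.val) :=
        (T.equivMap N.val).toLinearEquiv.finiteDimensional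
      obtain ⟨M, hTM, hMnf, hMg, hMc⟩ := hc (T.map N.val) inferInstance
      let φ : T →ₐ[K] M := (N.val.comp T.val).codRestrict M.toSubalgebra fun y =>
        hTM ⟨(y : N), y.2, rfl⟩
      let _ : Algebra T M := (φ : T →+* M).toAlgebra
      have hφ : ∀ y : T, algebraMap T M y = φ y := fun _ => rfl
      have _ : IsScalarTower K T M := IsScalarTower.of_algebraMap_eq fun y => by
        rw [hφ, AlgHom.commutes]
      obtain ⟨W, hW⟩ := exists_above (L := M) V
      have h5 : dn K W = v := by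
        rw [← hV, ← hW]
        exact (dn_dn W).symm
      refine hMc.ram W (by rw [h5]; exact fun h6 => hvS (hCS h6)) (H30ZO.ram_up (M := T) ?_)
      rw [hW]
      exact hr

theorem el_L (hc : ConfL F C Lp x) {d : 𝓞 K} (hd : d ≠ 0)
    (hs : IsSquare (algebraMap K F (d : K))) : ∃ i, ElOk C Lp (fun u => x u i) d := by
  obtain ⟨s, hs⟩ := hs
  let T : IntermediateField K F := IntermediateField.adjoin K {s}
  have hT : FiniteDimensional K T :=
    IntermediateField.adjoin.finiteDimensional (Algebra.IsIntegral.isIntegral s)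
  obtain ⟨M, hTM, hMnf, hMg, hMc⟩ := hc T hT
  have hsM : s ∈ M := hTM (IntermediateField.subset_adjoin K _ rfl)
  exact hMc.elOk hd ⟨⟨s, hsM⟩, Subtype.ext hs⟩

/-- **The main theorem** from the configurations. -/
theorem main_L (hH : Hilb K) (hcs : ConicSplit K) (hok : C.Ok) (hc : ConfL F C Lp x)
    (hdeg : ∀ (M : IntermediateField K F) [NumberField M], IsGalois K M →
      ∃ r : ℕ, Module.finrank K M = 2 ^ r)
    (hZ : {v : HeightOneSpectrum (𝓞 K) | Sp K F v}.Infinite)
    {W : Submodule (ZMod 2) C.V} (hW : TargetG C x W) {m : Ideal (𝓞 K)} {E : ℕ} {A₀ B₀ : 𝓞 K}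
    (hcl : ClassG C Lp m E A₀ B₀) : PosP K F := by
  obtain ⟨S, c, X₀, hCS, hSZ, hc0, h⟩ := final_countG2 K hok hH hcs hW hcl hZ
    (selHyp_G hok (Lp := Lp) (x := x))
  refine ⟨S, c, X₀, hc0, fun X hX => ?_⟩
  obtain ⟨G, h1, h3, h4⟩ := h X hX
  refine ⟨G, fun p hp => ?_, h3, h4⟩
  obtain ⟨g1, g2, g3, g5, g4⟩ := h1 p hp
  have hG := g4 S subset_rfl
  refine ⟨g1, hG.ne, ?_, ?_, ?_⟩
  · intro N hN hN2
    exact adm_L hc hdeg hCS hSZ g3 N hN hN2
  · intro L _ _ hL d hd hs
    obtain ⟨i, hi⟩ := el_L hc hd hs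
    exact H30MQ.pf_of_adm g2 hd (fun P hP => relG_G (hCS.trans hP) (g4 P hP) hi) hL
  · intro L F' _ _ _ _ _ _ _ _ hL hgen M _ m hm hs
    exact fin_L hc hdeg hCS g5 hG hL hgen M m hm hs

end Conc

end H88AB

end S_H88_AB_Fx

section S_H88_AB_Fy

set_option autoImplicit false
set_option linter.unusedSectionVars false
open scoped Classical

open WithZero NumberField IsDedekindDomain H38RT
open H38T1 (SC sc scu rep eo la si Pri OddP tp unif ka)
open H76PP H36MX H76MQ H76MX H73P2 H76AB H30MG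

namespace H88AB

theorem conf_of_cfg {K : Type} [Field K] [NumberField K] {F₀ : Type} [Field F₀] [NumberField F₀]
    [Algebra K F₀] [IsGalois K F₀] {C : CfgX K} {Lp : LPred K} {ι : Type}
    {x : (u : HeightOneSpectrum (𝓞 K)) → ι → SC (Kv u)} (hC : C.Ok)
    (h : H30MG.CfgMG K F₀ C Lp x) : Conf F₀ C Lp x := by
  refine ⟨hC, h.unr, ?_, ?_, ?_⟩
  · intro N _ hN h2 v hv
    exact h.split N h2 v hv
  · intro d hd hs
    obtain ⟨i, hi⟩ := h.el d hd hs
    exact ⟨i, hi.loc⟩
  · intro L0 N _ _ _ _ _ _ _ _ _ _ _ _ hr hg hZ U _ z _ hz2 _ hmono M _ hM ρ hρ0 hρ hz μ hμ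
    obtain ⟨r, hr⟩ := hr
    exact h.pair L0 N r hr hg hZ U z hz2 hmono M hM ρ hρ0 hρ hz μ hμ

/-- The condition at two does not change under isomorphisms. -/
theorem hypH_iso {K F F₁ : Type} [Field K] [NumberField K] [Field F] [NumberField F] [Field F₁]
    [NumberField F₁] [Algebra K F] [Algebra K F₁] (e : F ≃ₐ[K] F₁) (h : HypH K F) : HypH K F₁ := by
  let _ : Algebra F F₁ := (e : F →+* F₁).toAlgebra
  have he : ∀ y : F, algebraMap F F₁ y = e y := fun _ => rfl
  have _ : IsScalarTower K F F₁ := IsScalarTower.of_algebraMap_eq fun y => by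
    rw [he, AlgEquiv.commutes]
  let c : (F₁ ≃ₐ[K] F₁) →* (F ≃ₐ[K] F) :=
    { toFun := fun g => e.trans (g.trans e.symm)
      map_one' := by
        ext y
        simp
      map_mul' := fun g g' => by
        ext y
        simp }
  have hc : ∀ (g : F₁ ≃ₐ[K] F₁) (y : F), e (c g y) = g (e y) := fun g y => by
    change e (e.symm (g (e y))) = _
    rw [AlgEquiv.apply_symm_apply]
  have hcinj : Function.Injective c := by
    intro g g' hgg
    ext y
    obtain ⟨z, rfl⟩ := e.surjective y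
    rw [← hc, ← hc, hgg]
  have hdec : ∀ (w : HeightOneSpectrum (𝓞 F₁)) (g : F₁ ≃ₐ[K] F₁), g ∈ Dec K w →
      c g ∈ Dec K (dn F w) := by
    intro w g hg
    apply stb_of_mem
    intro x
    have h1 : ∀ y : 𝓞 F, y ∈ (dn F w).asIdeal ↔ algebraMap (𝓞 F) (𝓞 F₁) y ∈ w.asIdeal :=
      fun y => Iff.rfl
    have h2 : algebraMap (𝓞 F) (𝓞 F₁) (c g • x) = g • algebraMap (𝓞 F) (𝓞 F₁) x := by
      apply RingOfIntegers.coe_injective
      change algebraMap F F₁ (c g (x : F)) = g (algebraMap F F₁ (x : F))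
      rw [he, he, hc]
    rw [h1, h1, h2]
    exact mem_of_dec hg _
  intro w hw
  have hw' : (2 : 𝓞 K) ∈ (dn K (dn F w)).asIdeal := by
    rw [dn_dn]
    exact hw
  obtain ⟨h1, h2⟩ := h (dn F w) hw'
  refine ⟨fun x hx y hy => hcinj ?_, fun x hx y => ?_⟩
  · rw [map_mul, map_mul]
    exact h1 _ (hdec w x hx) _ (hdec w y hy)
  · obtain ⟨n, hn⟩ := Subgroup.mem_zpowers_iff.1 (h2 _ (hdec w x hx) (c y))
    rw [Subgroup.mem_zpowers_iff]
    refine ⟨n, hcinj ?_⟩
    rw [map_zpow, hn, map_mul, map_mul, map_inv]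

/-- **The main theorem** for finite extensions, from the configuration theorem. -/
theorem posP_fin (h : ExistsCfgMG) (K : Type) [Field K] [NumberField K] (hH : Hilb K)
    (hcs : ConicSplit K) (F : Type) [Field F] [NumberField F] [Algebra K F] [IsGalois K F]
    (hdeg : ∃ r : ℕ, Module.finrank K F = 2 ^ r) (hF : HypH K F) : PosP K F := by
  have _ : FiniteDimensional K F := Module.Finite.of_restrictScalars_finite ℚ K F
  have _ : NumberField (⊤ : IntermediateField K F) := NumberField.of_module_finite K _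
  have _ : IsGalois K (⊤ : IntermediateField K F) :=
    IsGalois.of_algEquiv IntermediateField.topEquiv.symm
  obtain ⟨r, hr⟩ := hdeg
  obtain ⟨ι, C, Lp, x, W, n, E, A₀, B₀, hok, -, hW, hcl, hcfg⟩ := h K
    (⊤ : IntermediateField K F) r (by rw [IntermediateField.finrank_top', hr])
    (hypH_iso IntermediateField.topEquiv.symm hF) hH.hf ∅ (fun v hv => absurd hv (Finset.notMem_empty v))
  refine main_L (F := F) hH hcs hok (fun T hT => ⟨⊤, le_top, inferInstance, inferInstance,
    conf_of_cfg hok hcfg⟩) ?_ (H30PN.split_inf K F) hW hcl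
  intro M _ _
  have h6 := Module.finrank_mul_finrank K M F
  rw [hr] at h6
  obtain ⟨s, -, hs⟩ := (Nat.dvd_prime_pow Nat.prime_two).1 (Dvd.intro _ h6)
  exact ⟨s, hs⟩

end H88AB

end S_H88_AB_Fy
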