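import Mathlib
import Pool.Agent.H76.YP.Y3
import Pool.Agent.H76.YP.Y4
import Pool.Agent.H76.YP.Y5
import Pool.Agent.H76.YP.Y6
import Pool.Agent.H76.YP.Y7

/-! This file joins several modules to save build time (Y9). -/

set_option autoImplicit false

section S_H76_IN_Ax

set_option autoImplicit false
set_option linter.unusedSectionVars false
open scoped Classical

open WithZero NumberField IsDedekindDomain H76PP H36CY H30MG H30CY H76AB Pool.Agent.H42.PC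

namespace H76IN

section Grp

variable {G : Type*} [Group G]

theorem pow_comp (hp : IsPGroup 2 G) (x : G) (i j : ℕ) :
    x ^ i ∈ Subgroup.zpowers (x ^ j) ∨ x ^ j ∈ Subgroup.zpowers (x ^ i) := by
  have key : ∀ a b m l : ℕ, a ≤ b → Odd m → x ^ (2 ^ b * l) ∈ Subgroup.zpowers (x ^ (2 ^ a * m)) := by
    intro a b m l hab hm
    have h1 : x ^ 2 ^ a ∈ Subgroup.zpowers (x ^ (2 ^ a * m)) := by
      refine H36MG.mem_of_odd_pow hp _ (n := (m : ℤ)) ?_ ?_
      · rw [Int.not_even_iff_odd]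
        exact_mod_cast hm
      · rw [zpow_natCast, ← pow_mul]
        exact Subgroup.mem_zpowers _
    obtain ⟨c, rfl⟩ := Nat.exists_eq_add_of_le hab
    have e1 : x ^ (2 ^ (a + c) * l) = (x ^ 2 ^ a) ^ (2 ^ c * l) := by
      rw [← pow_mul, pow_add, mul_assoc]
    rw [e1]
    exact Subgroup.pow_mem _ h1 _
  rcases Nat.eq_zero_or_pos i with rfl | hi
  · left
    rw [pow_zero]
    exact Subgroup.one_mem _
  rcases Nat.eq_zero_or_pos j with rfl | hj
  · right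
    rw [pow_zero]
    exact Subgroup.one_mem _
  obtain ⟨a, m, hm, rfl⟩ := Nat.exists_eq_two_pow_mul_odd hi.ne'
  obtain ⟨b, l, hl, rfl⟩ := Nat.exists_eq_two_pow_mul_odd hj.ne'
  rcases le_total a b with h | h
  · exact Or.inr (key a b m l h hm)
  · exact Or.inl (key b a l m h hl)

variable {G₁ : Type*} [Group G₁]

/-- The kernel of the restriction is generated by powers of a lift of a large element. -/
theorem ker_pow (hp : IsPGroup 2 G) {D : Subgroup G} {r : G →* G₁} {k : ℕ}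
    (hC : ∃ c ∈ D, ∀ y ∈ D, ∃ i : ℕ, y ^ 2 ^ k = (c ^ 2 ^ k) ^ i)
    (hker : ∀ z, r z = 1 → ∃ y ∈ D, y ^ 2 ^ k = z) {h : G} (hh : h ∈ D)
    (hne : r h ^ 2 ^ (k + 1) ≠ 1) {z : G} (hz : r z = 1) :
    z ∈ Subgroup.zpowers (h ^ 2 ^ (k + 1)) := by
  obtain ⟨c, hc, hgen⟩ := hC
  obtain ⟨y, hy, rfl⟩ := hker z hz
  obtain ⟨i, hi⟩ := hgen y hy
  obtain ⟨j, hj⟩ := hgen (h ^ 2) (D.pow_mem hh 2)
  have e1 : h ^ 2 ^ (k + 1) = (c ^ 2 ^ k) ^ j := by
    rw [← hj, ← pow_mul, ← pow_succ']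
  rcases pow_comp hp (c ^ 2 ^ k) i j with h1 | h1
  · rw [hi, e1]
    exact h1
  · exfalso
    apply hne
    rw [← map_pow, e1]
    obtain ⟨n, hn⟩ := Subgroup.mem_zpowers_iff.1 h1
    rw [← hn, ← hi, map_zpow, hz, one_zpow]

/-- The preimage of the group generated by the image of a large element. -/
theorem comap_zp (hp : IsPGroup 2 G) {D : Subgroup G} {r : G →* G₁} {k : ℕ}
    (hC : ∃ c ∈ D, ∀ y ∈ D, ∃ i : ℕ, y ^ 2 ^ k = (c ^ 2 ^ k) ^ i)
    (hker : ∀ z, r z = 1 → ∃ y ∈ D, y ^ 2 ^ k = z) {h : G} (hh : h ∈ D)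
    (hne : r h ^ 2 ^ (k + 1) ≠ 1) :
    (Subgroup.zpowers (r h)).comap r = Subgroup.zpowers h ∧
      (Subgroup.zpowers (r h ^ 2)).comap r = Subgroup.zpowers (h ^ 2) := by
  have h1 : ∀ z, r z = 1 → z ∈ Subgroup.zpowers (h ^ 2) := by
    intro z hz
    obtain ⟨n, hn⟩ := Subgroup.mem_zpowers_iff.1 (ker_pow hp hC hker hh hne hz)
    have e1 : h ^ 2 ^ (k + 1) = (h ^ 2) ^ 2 ^ k := by rw [← pow_mul, ← pow_succ']
    rw [← hn, e1]
    exact Subgroup.zpow_mem _ (Subgroup.npow_mem_zpowers _ _) n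
  have key : ∀ m : ℕ, (∀ z, r z = 1 → z ∈ Subgroup.zpowers (h ^ m)) →
      (Subgroup.zpowers (r h ^ m)).comap r = Subgroup.zpowers (h ^ m) := by
    intro m hm
    ext x
    rw [Subgroup.mem_comap]
    constructor
    · intro hx
      obtain ⟨n, hn⟩ := Subgroup.mem_zpowers_iff.1 hx
      have h2 : r (x * ((h ^ m) ^ n)⁻¹) = 1 := by
        rw [map_mul, map_inv, map_zpow, map_pow, hn, mul_inv_cancel]
      have h3 := Subgroup.mul_mem _ (hm _ h2) (Subgroup.zpow_mem _ (Subgroup.mem_zpowers (h ^ m)) n)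
      rwa [inv_mul_cancel_right] at h3
    · intro hx
      obtain ⟨n, rfl⟩ := Subgroup.mem_zpowers_iff.1 hx
      rw [map_zpow, map_pow]
      exact Subgroup.zpow_mem _ (Subgroup.mem_zpowers _) n
  constructor
  · have h2 := key 1 (fun z hz => by
      rw [pow_one]
      obtain ⟨n, hn⟩ := Subgroup.mem_zpowers_iff.1 (h1 z hz)
      rw [← hn]
      exact Subgroup.zpow_mem _ (Subgroup.npow_mem_zpowers _ _) n)
    rwa [pow_one, pow_one] at h2
  · exact key 2 h1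

end Grp

section Un

variable {K N : Type} [Field K] [NumberField K] [Field N] [NumberField N] [Algebra K N]

theorem un_of_ram [IsGalois K N] {v : HeightOneSpectrum (𝓞 K)}
    (h : ∀ V : HeightOneSpectrum (𝓞 N), dn K V = v → ¬ H73P2.Ram K V) : Un K N v := by
  intro w hw g hg
  have h1 : dn K w = v := HeightOneSpectrum.ext hw.over.symm
  have h2 := H36AB.inertia_iff.1 (h w h1)
  have h3 : g ∈ w.asIdeal.inertia (N ≃ₐ[K] N) := hg
  rw [h2] at h3
  exact h3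

theorem exists_frob [IsGalois K N] (W : HeightOneSpectrum (𝓞 N)) :
    ∃ g : N ≃ₐ[K] N, IsArithFrobAt (𝓞 K) g W.asIdeal := by
  have hwp := W.isPrime
  have : Finite (𝓞 N ⧸ W.asIdeal) := Ideal.finiteQuotientOfFreeOfNeBot _ W.ne_bot
  exact IsArithFrobAt.exists_of_isInvariant (𝓞 K) (N ≃ₐ[K] N) W.asIdeal

end Un

section Two

variable {K N₀ N : Type} [Field K] [NumberField K] [Field N₀] [NumberField N₀] [Field N] [NumberField N]
  [Algebra K N₀] [Algebra N₀ N] [Algebra K N] [IsScalarTower K N₀ N] [IsGalois K N₀] [IsGalois K N]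
  {u p : HeightOneSpectrum (𝓞 K)} {n k : ℕ}

/-- The decomposition groups of an auxiliary place `u` are the preimages of the group generated by `g₁`. -/
theorem aux_dec (hu : Un K N u) (h₀ : DOk K N₀ p n) (h : DOk K N p n) {r : ℕ}
    (hr : Module.finrank K N = 2 ^ r) (hk : n ≤ 2 ^ k)
    (hker : ∀ z : N ≃ₐ[K] N, AlgEquiv.restrictNormalHom N₀ z = 1 → z ∈ Cs K N p k)
    {g₁ : N₀ ≃ₐ[K] N₀} (hg₁ : g₁ ∈ Dc K N₀ p) (hne : g₁ ^ 2 ^ (k + 1) ≠ 1)
    {W₁ : HeightOneSpectrum (𝓞 N₀)} (hW₁ : dn K W₁ = u) (hdec : Dec K W₁ = Subgroup.zpowers g₁)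
    {W : HeightOneSpectrum (𝓞 N)} (hW : dn K W = u) :
    Dec K W = (Subgroup.zpowers g₁).comap (AlgEquiv.restrictNormalHom N₀) ∧
      ∃ h ∈ Dc K N p, Dec K W = Subgroup.zpowers h := by
  have _ : FiniteDimensional K N := Module.Finite.of_restrictScalars_finite ℚ K N
  have hnorm : (Subgroup.zpowers g₁).Normal := by
    refine ⟨fun x hx y => ?_⟩
    obtain ⟨j, rfl⟩ := Subgroup.mem_zpowers_iff.1 hx
    rw [conj_zpow.symm]
    exact Subgroup.zpow_mem _ (h₀.conj' g₁ hg₁ y) j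
  have hd : dn K (dn N₀ W) = u := (dn_tower W).trans hW
  have h1 : Dec K (dn N₀ W) = Subgroup.zpowers g₁ := by
    rw [dec_eq (hd.trans hW₁.symm) (by rw [hdec]; exact hnorm), hdec]
  obtain ⟨g, hg⟩ := exists_frob (K := K) W
  have h2 : Dec K W = Subgroup.zpowers g := by
    subst hW
    exact dec_frob hu hg
  have hmap := dec_map (K := K) (N₀ := N₀) W
  rw [h2, h1, MonoidHom.map_zpowers] at hmap
  have hp2 : IsPGroup 2 (N ≃ₐ[K] N) := by
    rw [IsPGroup.iff_card]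
    exact ⟨r, by rw [IsGalois.card_aut_eq_finrank, hr]⟩
  have hC := (cs_cyc h hr hk).1
  have hker' : ∀ z : N ≃ₐ[K] N, AlgEquiv.restrictNormalHom N₀ z = 1 →
      ∃ y ∈ Dc K N p, y ^ 2 ^ k = z := fun z hz => (mem_cs h).1 (hker z hz)
  -- `g` is in the decomposition group at `p`
  have hgD : g ∈ Dc K N p := by
    have h3 : AlgEquiv.restrictNormalHom N₀ g ∈ Dc K N₀ p := by
      have h4 : AlgEquiv.restrictNormalHom N₀ g ∈ Subgroup.zpowers g₁ := by
        rw [← hmap]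
        exact Subgroup.mem_zpowers _
      exact (Subgroup.zpowers_le.2 hg₁) h4
    rw [← dc_map (N := N) h₀] at h3
    obtain ⟨y, hy, hyg⟩ := h3
    have h5 : AlgEquiv.restrictNormalHom N₀ (g * y⁻¹) = 1 := by
      rw [map_mul, map_inv, hyg, mul_inv_cancel]
    obtain ⟨y', hy', he⟩ := hker' _ h5
    have h6 : g = y' ^ 2 ^ k * y := by
      rw [he, inv_mul_cancel_right]
    rw [h6]
    exact Subgroup.mul_mem _ (Subgroup.pow_mem _ hy' _) hy
  have hne' : (AlgEquiv.restrictNormalHom N₀ g) ^ 2 ^ (k + 1) ≠ 1 := by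
    intro h3
    apply hne
    have h4 : g₁ ∈ Subgroup.zpowers (AlgEquiv.restrictNormalHom N₀ g) := by
      rw [hmap]
      exact Subgroup.mem_zpowers _
    obtain ⟨j, hj⟩ := Subgroup.mem_zpowers_iff.1 h4
    rw [← hj, ← zpow_natCast, ← zpow_mul, mul_comm, zpow_mul, zpow_natCast, h3, one_zpow]
  refine ⟨?_, g, hgD, h2⟩
  rw [h2, ← hmap]
  exact (comap_zp hp2 hC hker' hgD hne').1.symm

end Two

end H76IN

end S_H76_IN_Ax

section S_H76_IN_Df

set_option autoImplicit false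
set_option linter.unusedSectionVars false
open scoped Classical

open WithZero NumberField IsDedekindDomain H76PP H36CY H30MG H30CY H76AB H36MX H38RT
open H76MX (Kv)
open H38T1 (SC sc)

namespace H76IN

section Res

variable {K F : Type} [Field K] [Field F] [Algebra K F]

/-- The restriction to the first layer. -/
noncomputable def rs {F₁ M : IntermediateField K F} [Normal K F₁] (h : F₁ ≤ M) :
    (M ≃ₐ[K] M) →* (F₁ ≃ₐ[K] F₁) :=
  letI : Algebra F₁ M := (IntermediateField.inclusion h).toRingHom.toAlgebra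
  haveI : IsScalarTower K F₁ M := IsScalarTower.of_algebraMap_eq fun _ => rfl
  AlgEquiv.restrictNormalHom F₁

theorem rs_coe {F₁ M : IntermediateField K F} [Normal K F₁] (h : F₁ ≤ M) (g : M ≃ₐ[K] M) (x : F₁) :
    ((rs h g x : F₁) : F) = ((g ⟨x, h x.2⟩ : M) : F) := by
  let _ : Algebra F₁ M := (IntermediateField.inclusion h).toRingHom.toAlgebra
  have _ : IsScalarTower K F₁ M := IsScalarTower.of_algebraMap_eq fun _ => rfl
  have h1 : algebraMap F₁ M (AlgEquiv.restrictNormalHom F₁ g x) = g (algebraMap F₁ M x) :=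
    AlgEquiv.restrictNormal_commutes g F₁ x
  exact congrArg Subtype.val h1

end Res

section Ind

variable {K F : Type} [Field K] [NumberField K] [Field F] [Algebra K F]

/-- The indices: a layer `M` and a subgroup of its Galois group, such that the decomposition groups above two are
cyclic modulo the subgroup. -/
structure Ix (F₁ : IntermediateField K F) where
  M : IntermediateField K F
  nf : NumberField M
  gal : IsGalois K M
  le : F₁ ≤ M
  T : Subgroup (M ≃ₐ[K] M)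
  cyc : ∀ u : HeightOneSpectrum (𝓞 K), (2 : 𝓞 K) ∈ u.asIdeal →
    CyT (Dc K M u) T

attribute [instance] Ix.nf Ix.gal

variable {F₁ : IntermediateField K F} [NumberField F₁] [IsGalois K F₁]

/-- The type of the index `a` at the place `u`. -/
noncomputable def ty (u : HeightOneSpectrum (𝓞 K)) (a : Ix F₁) : Set (F₁ ≃ₐ[K] F₁) :=
  rs a.le '' H36MG.clS (Dc K a.M u) a.T

/-- The chosen place above `u`. -/
noncomputable def Wc (K N : Type) [Field K] [NumberField K] [Field N] [NumberField N] [Algebra K N]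
    (u : HeightOneSpectrum (𝓞 K)) : HeightOneSpectrum (𝓞 N) := (exists_above (L := N) u).choose

theorem wc_dn {N : Type} [Field N] [NumberField N] [Algebra K N] (u : HeightOneSpectrum (𝓞 K)) :
    dn K (Wc K N u) = u := (exists_above (L := N) u).choose_spec

theorem over_of {N : Type} [Field N] [NumberField N] [Algebra K N] {u : HeightOneSpectrum (𝓞 K)}
    {W : HeightOneSpectrum (𝓞 N)} (h : dn K W = u) : Pool.Agent.H10.Over u W := by
  subst h
  exact over_dn W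

theorem dc_wc {N : Type} [Field N] [NumberField N] [Algebra K N] (u : HeightOneSpectrum (𝓞 K)) :
    Dc K N u = Dec K (Wc K N u) := rfl

/-- `m` is the class of the quadratic character of the decomposition group with the value `-1` on `δ`. -/
def RhoO {N : Type} [Field N] [NumberField N] [Algebra K N] {u : HeightOneSpectrum (𝓞 K)}
    (W : HeightOneSpectrum (𝓞 N)) (hov : Pool.Agent.H10.Over u W) (δ : Set (N ≃ₐ[K] N))
    (m : Kv u) : Prop :=
  ∃ ρ : N, ρ ≠ 0 ∧ (∀ g ∈ Dec K W, g ∈ δ → g ρ = -ρ) ∧ (∀ g ∈ Dec K W, g ∉ δ → g ρ = ρ) ∧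
    hov.map m = algebraMap N (W.adicCompletion N) ρ ^ 2

variable (F₁) in
/-- The class of the type `δ`. -/
noncomputable def mc (u : HeightOneSpectrum (𝓞 K)) (δ : Set (F₁ ≃ₐ[K] F₁)) : SC (Kv u) :=
  if h : ∃ m : Kv u, RhoO (Wc K F₁ u) (over_of (wc_dn u)) δ m then sc h.choose else 0

/-- The classes of the indices; `s` is the sign of an auxiliary place. -/
noncomputable def xs (η : (u : HeightOneSpectrum (𝓞 K)) → SC (Kv u)) (s : ZMod 2)
    (u : HeightOneSpectrum (𝓞 K)) (a : Ix F₁) : SC (Kv u) :=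
  if (2 : 𝓞 K) ∈ u.asIdeal then (if ty u a = ∅ then η u else mc F₁ u (ty u a))
  else (if Dc K a.M u ≤ a.T then s • η u
    else if ∀ g ∈ Dc K a.M u, g ^ 2 ∈ a.T then (1 + s) • η u else η u)

section Rho

variable {N : Type} [Field N] [NumberField N] [Algebra K N] {u : HeightOneSpectrum (𝓞 K)}
  {W : HeightOneSpectrum (𝓞 N)}

theorem RhoO.ne {hov : Pool.Agent.H10.Over u W} {δ : Set (N ≃ₐ[K] N)} {m : Kv u}
    (h : RhoO W hov δ m) : m ≠ 0 := by
  obtain ⟨ρ, h0, -, -, h4⟩ := h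
  rintro rfl
  rw [map_zero] at h4
  exact h0 ((map_eq_zero _).1 (pow_eq_zero_iff two_ne_zero |>.1 h4.symm))

theorem exists_rhoO [IsGalois K N] (hW : dn K W = u)
    (hcomm : ∀ x ∈ Dec K W, ∀ y ∈ Dec K W, x * y = y * x) (H : Subgroup (N ≃ₐ[K] N))
    {g : N ≃ₐ[K] N} (hg : g ∈ Dec K W) (hgH : g ∉ H) (hHD : H ≤ Dec K W)
    (hH : ∀ x ∈ Dec K W, x ∈ H ∨ x * g⁻¹ ∈ H) {δ : Set (N ≃ₐ[K] N)}
    (hδ : ∀ x ∈ Dec K W, x ∈ δ ↔ x ∉ H) : ∃ m, RhoO W (over_of hW) δ m := by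
  subst hW
  exact exists_rho W hcomm H hg hgH hHD hH hδ

theorem rhoO_inj (hW : dn K W = u) {δ δ' : Set (N ≃ₐ[K] N)} {m m' : Kv u}
    (h : RhoO W (over_of hW) δ m) (h' : RhoO W (over_of hW) δ' m') (he : sc m = sc m')
    {g : N ≃ₐ[K] N} (hg : g ∈ Dec K W) : g ∈ δ ↔ g ∈ δ' := by
  subst hW
  exact rho_inj h h' he hg

theorem rhoO_sc (hW : dn K W = u) {δ : Set (N ≃ₐ[K] N)} {m : Kv u}
    (h : RhoO W (over_of hW) δ m) {g : N ≃ₐ[K] N} (hg : g ∈ Dec K W) (hgδ : g ∈ δ) : sc m ≠ 0 := by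
  subst hW
  intro h0
  have h1 : Rho W ∅ (1 : (dn K W).adicCompletion K) :=
    ⟨1, one_ne_zero, fun g _ h => absurd h (Set.notMem_empty g), fun g _ _ => map_one g, by
      rw [map_one, map_one, one_pow]⟩
  have h2 : sc m = sc (1 : (dn K W).adicCompletion K) := by
    rw [h0]
    exact ((H38T1.sc_eq_zero one_ne_zero).2 ⟨1, (mul_one 1).symm⟩).symm
  exact (rho_inj h h1 h2 hg).1 hgδ

theorem rhoO_unr (hW : dn K W = u) (h2 : (2 : 𝓞 K) ∈ u.asIdeal)
    {δ : Set (N ≃ₐ[K] N)} {m : Kv u} (h : RhoO W (over_of hW) δ m) {i : N ≃ₐ[K] N}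
    (hi : i ∈ Dec K W) (hin : ∀ x : 𝓞 N, i • x - x ∈ W.asIdeal) (hiδ : i ∈ δ) {g0 : Kv u}
    (hg0 : Unr g0) (h0 : g0 ≠ 0) : sc m ≠ sc g0 := by
  subst hW
  refine rho_ne_unr ?_ h hi hin hiδ hg0 h0
  have h3 : algebraMap (𝓞 K) (𝓞 N) 2 ∈ W.asIdeal := h2
  rw [map_ofNat] at h3
  have h4 := (W.valuation_lt_one_iff_mem (K := N) (2 : 𝓞 N)).2 h3
  have h5 : algebraMap (𝓞 N) N 2 = 2 := map_ofNat _ 2
  have h6 : W.valuation N (algebraMap (𝓞 N) N 2) < 1 := h4
  rwa [h5] at h6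

end Rho

theorem mc_spec {u : HeightOneSpectrum (𝓞 K)} {δ : Set (F₁ ≃ₐ[K] F₁)}
    (h : ∃ m : Kv u, RhoO (Wc K F₁ u) (over_of (wc_dn u)) δ m) :
    ∃ m : Kv u, RhoO (Wc K F₁ u) (over_of (wc_dn u)) δ m ∧ mc F₁ u δ = sc m := by
  refine ⟨h.choose, h.choose_spec, ?_⟩
  unfold mc
  rw [dif_pos h]

end Ind

end H76IN

end S_H76_IN_Df

section S_H76_IN_Cn

set_option autoImplicit false
set_option linter.unusedSectionVars false
open scoped Classical

open WithZero NumberField IsDedekindDomain H76PP H36CY H30MG H30CY H76AB H36MX H38RT H76MQ H76MX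
open Pool.Agent.H42.PC H88AB H36IN H36MG
open H38T1 (SC sc)

namespace H76IN

variable {K F : Type} [Field K] [NumberField K] [Field F] [Algebra K F] {F₁ : IntermediateField K F}
  [NumberField F₁] [IsGalois K F₁] {η : (u : HeightOneSpectrum (𝓞 K)) → SC (Kv u)} {n k : ℕ}

/-- The conditions at a place above two which does not split completely. -/
structure PlN (F₁ : IntermediateField K F) [NumberField F₁] [IsGalois K F₁]
    (η : (u : HeightOneSpectrum (𝓞 K)) → SC (Kv u)) (n k : ℕ) (p : HeightOneSpectrum (𝓞 K)) :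
    Prop where
  all : DAll K F p n
  ker : KerOk k F₁ p
  big : ∃ c ∈ Dc K F₁ p, (c ^ 2 ^ k) ^ 2 ^ (k + 1) ≠ 1
  alt : (∀ (M : IntermediateField K F) [NumberField M], IsGalois K M → F₁ ≤ M →
      ∃ c ∈ Dc K M p, ∀ y ∈ Dc K M p, ∃ i : ℕ, y = c ^ i) ∨
    mc F₁ p (hiS (Dc K F₁ p) k) ≠ η p

/-- The degrees of the layers. -/
def DegOk (K F : Type) [Field K] [NumberField K] [Field F] [Algebra K F] : Prop :=
  ∀ (M : IntermediateField K F) [NumberField M], IsGalois K M → ∃ r : ℕ, Module.finrank K M = 2 ^ r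

theorem rs_one {M : IntermediateField K F} (h : F₁ ≤ M) {z : M ≃ₐ[K] M} (hz : rs h z = 1) (x : M)
    (hx : (x : F) ∈ F₁) : z x = x := by
  have h1 := rs_coe h z ⟨x, hx⟩
  rw [hz] at h1
  exact Subtype.ext h1.symm

theorem ld_of (hdeg : DegOk K F) (hk1 : 1 ≤ k) (hk : n ≤ 2 ^ k) {p : HeightOneSpectrum (𝓞 K)}
    (hp : PlN F₁ η n k p) {M : IntermediateField K F} [NumberField M] [IsGalois K M] (hle : F₁ ≤ M) :
    LD (Dc K M p) (Dc K F₁ p) (rs hle) k := by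
  have _ : FiniteDimensional K M := Module.Finite.of_restrictScalars_finite ℚ K M
  obtain ⟨r, hr⟩ := hdeg M inferInstance
  have hD := hp.all M inferInstance
  have _ : FiniteDimensional K F₁ := Module.Finite.of_restrictScalars_finite ℚ K F₁
  refine ⟨?_, ?_, hk1, hD.comm', (cs_cyc hD hr hk).1, ?_, fun z hz => ?_, hp.big⟩
  · rw [IsPGroup.iff_card]
    exact ⟨r, by rw [IsGalois.card_aut_eq_finrank, hr]⟩
  · rw [IsPGroup.iff_card]
    obtain ⟨r₁, hr₁⟩ := hdeg F₁ inferInstance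
    exact ⟨r₁, by rw [IsGalois.card_aut_eq_finrank, hr₁]⟩
  · let _ : Algebra F₁ M := (IntermediateField.inclusion hle).toRingHom.toAlgebra
    have _ : IsScalarTower K F₁ M := IsScalarTower.of_algebraMap_eq fun _ => rfl
    exact dc_map (hp.all F₁ inferInstance)
  · exact (mem_cs hD).1 (hp.ker M inferInstance hle z fun x hx => rs_one hle hz x hx)

/-- Auxiliary places. -/
structure AuxN (F₁ : IntermediateField K F) [NumberField F₁] [IsGalois K F₁] (k : ℕ)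
    (p : HeightOneSpectrum (𝓞 K)) (g₁ : F₁ ≃ₐ[K] F₁) (u : HeightOneSpectrum (𝓞 K)) : Prop where
  mem : g₁ ∈ Dc K F₁ p
  ne : g₁ ^ 2 ^ (k + 1) ≠ 1
  dec : ∃ W₁ : HeightOneSpectrum (𝓞 F₁), dn K W₁ = u ∧ Dec K W₁ = Subgroup.zpowers g₁

theorem un_layer {u : HeightOneSpectrum (𝓞 K)} (hu : ¬ H30ZO.RamF K F u)
    (M : IntermediateField K F) [NumberField M] [IsGalois K M] : Un K M u :=
  un_of_ram fun V hV hR => hu ⟨M, inferInstance, V, hV, hR⟩

theorem auxN_dec (hdeg : DegOk K F) (hk : n ≤ 2 ^ k) {p u : HeightOneSpectrum (𝓞 K)}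
    (hp : PlN F₁ η n k p) (hu : ¬ H30ZO.RamF K F u) {g₁ : F₁ ≃ₐ[K] F₁} (h : AuxN F₁ k p g₁ u)
    {M : IntermediateField K F} [NumberField M] [IsGalois K M] (hle : F₁ ≤ M)
    {W : HeightOneSpectrum (𝓞 M)} (hW : dn K W = u) :
    Dec K W = (Subgroup.zpowers g₁).comap (rs hle) ∧ ∃ h ∈ Dc K M p, Dec K W = Subgroup.zpowers h := by
  obtain ⟨r, hr⟩ := hdeg M inferInstance
  obtain ⟨W₁, hW₁, hdec⟩ := h.dec
  let _ : Algebra F₁ M := (IntermediateField.inclusion hle).toRingHom.toAlgebra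
  have _ : IsScalarTower K F₁ M := IsScalarTower.of_algebraMap_eq fun _ => rfl
  exact aux_dec (un_layer hu M) (hp.all F₁ inferInstance) (hp.all M inferInstance) hr hk
    (fun z hz => hp.ker M inferInstance hle z fun x hx => rs_one hle hz x hx) h.mem h.ne hW₁ hdec hW

theorem sp_dec {u : HeightOneSpectrum (𝓞 K)} (hu : Sp K F u) {M : IntermediateField K F}
    [NumberField M] [IsGalois K M] {W : HeightOneSpectrum (𝓞 M)} (hW : dn K W = u) :
    Dec K W = ⊥ := by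
  obtain ⟨ι, hι⟩ := hu
  exact dec_split (ι.comp (algebraMap M F)) (fun x => hι x) hW

variable (F₁ k) in
/-- The set of the auxiliary places. -/
def AuxI (η : (u : HeightOneSpectrum (𝓞 K)) → SC (Kv u)) (n : ℕ) : Set (HeightOneSpectrum (𝓞 K)) :=
  {u | (6 : 𝓞 K) ∉ u.asIdeal ∧ ¬ H30ZO.RamF K F u ∧ (Sp K F u ∨
    ∃ p, (2 : 𝓞 K) ∈ p.asIdeal ∧ PlN F₁ η n k p ∧ ∃ g₁, AuxN F₁ k p g₁ u)}

theorem two_of_six {u : HeightOneSpectrum (𝓞 K)} (h : (6 : 𝓞 K) ∉ u.asIdeal) :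
    (2 : 𝓞 K) ∉ u.asIdeal := by
  intro h2
  apply h
  have e1 : (6 : 𝓞 K) = 2 * 3 := by norm_num
  rw [e1]
  exact Ideal.mul_mem_right _ _ h2

theorem z2 : ∀ s : ZMod 2, s = 0 ∨ s = 1 := by decide

theorem one_one : (1 : ZMod 2) + 1 = 0 := by decide

/-- The test with the element `g₁` and the sign `s`. -/
def ont (s : ZMod 2) (g₁ : F₁ ≃ₐ[K] F₁) (a : Ix F₁) : Prop :=
  if (Subgroup.zpowers g₁).comap (rs a.le) ≤ a.T then s = 1
  else if ∀ x ∈ (Subgroup.zpowers g₁).comap (rs a.le), x ^ 2 ∈ a.T then s = 0 else True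

theorem fin_six : {u : HeightOneSpectrum (𝓞 K) | (6 : 𝓞 K) ∈ u.asIdeal}.Finite := H30MQ.fin_mem (by
  intro h
  have h1 : algebraMap (𝓞 K) K 6 = 0 := by rw [h, map_zero]
  rw [map_ofNat] at h1
  have h2 : (6 : K) ≠ 0 := by norm_num
  exact h2 h1)

theorem real_ont (hdeg : DegOk K F) (hk : n ≤ 2 ^ k) (hram : {u | H30ZO.RamF K F u}.Finite)
    {p : HeightOneSpectrum (𝓞 K)} (hp2 : (2 : 𝓞 K) ∈ p.asIdeal) (hp : PlN F₁ η n k p)
    {g₁ : F₁ ≃ₐ[K] F₁} (hg : g₁ ∈ Dc K F₁ p) (hne : g₁ ^ 2 ^ (k + 1) ≠ 1) (s : ZMod 2) :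
    Real η (xs η) (AuxI F₁ k η n) (s, ont s g₁) := by
  refine (exists_dec (K := K) g₁ ({u | H30ZO.RamF K F u} ∪ {u | (6 : 𝓞 K) ∈ u.asIdeal})
    (hram.union fin_six)).mono ?_
  rintro u ⟨hu, -, W₁, hW₁, hdec⟩
  have hu1 : ¬ H30ZO.RamF K F u := fun h => hu (Or.inl h)
  have hu6 : (6 : 𝓞 K) ∉ u.asIdeal := fun h => hu (Or.inr h)
  have hA : AuxN F₁ k p g₁ u := ⟨hg, hne, W₁, hW₁, hdec⟩
  refine ⟨⟨hu6, hu1, Or.inr ⟨p, hp2, hp, g₁, hA⟩⟩, fun a => ?_⟩
  have h1 := (auxN_dec hdeg hk hp hu1 hA a.le (wc_dn (N := a.M) u)).1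
  rw [← dc_wc] at h1
  show xs η s u a = if ont s g₁ a then η u else 0
  unfold xs ont
  rw [if_neg (two_of_six hu6), h1]
  by_cases c1 : (Subgroup.zpowers g₁).comap (rs a.le) ≤ a.T
  · rw [if_pos c1, if_pos c1]
    rcases z2 s with rfl | rfl
    · rw [if_neg zero_ne_one, zero_smul]
    · rw [if_pos rfl, one_smul]
  · rw [if_neg c1, if_neg c1]
    by_cases c2 : ∀ x ∈ (Subgroup.zpowers g₁).comap (rs a.le), x ^ 2 ∈ a.T
    · rw [if_pos c2, if_pos c2]
      rcases z2 s with rfl | rfl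
      · rw [if_pos rfl, add_zero, one_smul]
      · rw [if_neg one_ne_zero, one_one, zero_smul]
    · rw [if_neg c2, if_neg c2, if_pos trivial]

theorem real_sp (hram : {u | H30ZO.RamF K F u}.Finite) (hsp : {v | Sp K F v}.Infinite) (s : ZMod 2) :
    Real η (xs (F₁ := F₁) η) (AuxI F₁ k η n) (s, fun _ => s = 1) := by
  refine (hsp.sdiff (hram.union fin_six)).mono ?_
  rintro u ⟨hu, hu2⟩
  have hu1 : ¬ H30ZO.RamF K F u := fun h => hu2 (Or.inl h)
  have hu6 : (6 : 𝓞 K) ∉ u.asIdeal := fun h => hu2 (Or.inr h)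
  refine ⟨⟨hu6, hu1, Or.inl hu⟩, fun a => ?_⟩
  have h1 : Dc K a.M u = ⊥ := sp_dec hu (wc_dn (N := a.M) u)
  have h2 : xs η s u a = s • η u := by
    unfold xs
    rw [if_neg (two_of_six hu6), h1, if_pos bot_le]
  rcases z2 s with rfl | rfl
  · refine h2.trans ?_
    rw [zero_smul]
    exact (if_neg zero_ne_one).symm
  · refine h2.trans ?_
    rw [one_smul]
    exact (if_pos rfl).symm

section Cls

variable (hdeg : DegOk K F) (hk1 : 1 ≤ k) (hk : n ≤ 2 ^ k)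
include hdeg hk1 hk

/-- The class of a nonempty type. -/
theorem rho_of {p : HeightOneSpectrum (𝓞 K)} (hp : PlN F₁ η n k p) {δ : Set (F₁ ≃ₐ[K] F₁)}
    (hδ : ∃ H₁ : Subgroup (F₁ ≃ₐ[K] F₁), H₁ ≤ Dc K F₁ p ∧ ∃ g ∈ Dc K F₁ p, g ∉ H₁ ∧
      (∀ x ∈ Dc K F₁ p, x ∈ H₁ ∨ x * g⁻¹ ∈ H₁) ∧ ∀ x ∈ Dc K F₁ p, x ∈ δ ↔ x ∉ H₁) :
    ∃ m : Kv p, RhoO (Wc K F₁ p) (over_of (wc_dn p)) δ m ∧ mc F₁ p δ = sc m ∧ sc m ≠ 0 := by
  obtain ⟨H₁, hle, g, hg, hgH, hH, hδ'⟩ := hδ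
  obtain ⟨m, hm, he⟩ := mc_spec (exists_rhoO (wc_dn p) (hp.all F₁ inferInstance).comm' H₁ hg hgH hle
    hH hδ')
  exact ⟨m, hm, he, rhoO_sc (wc_dn p) hm hg ((hδ' g hg).2 hgH)⟩

end Cls

end H76IN

end S_H76_IN_Cn

section S_H76_IN_Co

set_option autoImplicit false
set_option linter.unusedSectionVars false
open scoped Classical

open WithZero NumberField IsDedekindDomain H76PP H36CY H30MG H30CY H76AB H36MX H38RT H76MQ H76MX
open Pool.Agent.H42.PC H88AB H36IN H36MG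
open H38T1 (SC sc)

namespace H76IN

variable {K F : Type} [Field K] [NumberField K] [Field F] [Algebra K F] {F₁ : IntermediateField K F}
  [NumberField F₁] [IsGalois K F₁] {η : (u : HeightOneSpectrum (𝓞 K)) → SC (Kv u)} {n k : ℕ}

theorem xs_two {u : HeightOneSpectrum (𝓞 K)} (h2 : (2 : 𝓞 K) ∈ u.asIdeal) (s : ZMod 2) (a : Ix F₁) :
    xs η s u a = if ty u a = ∅ then η u else mc F₁ u (ty u a) := by
  unfold xs
  rw [if_pos h2]

theorem ty_sp {u : HeightOneSpectrum (𝓞 K)} (hu : Sp K F u) (a : Ix F₁) : ty u a = ∅ := by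
  have h1 : Dc K a.M u = ⊥ := sp_dec hu (wc_dn (N := a.M) u)
  unfold ty
  rw [h1, cl_empty bot_le, Set.image_empty]

section Main

variable (hdeg : DegOk K F) (hk1 : 1 ≤ k) (hk : n ≤ 2 ^ k)
include hdeg hk1 hk

theorem ty_sub {p : HeightOneSpectrum (𝓞 K)} (hp : PlN F₁ η n k p) (a : Ix F₁) {g : F₁ ≃ₐ[K] F₁}
    (hg : g ∈ ty p a) : g ∈ Dc K F₁ p := by
  obtain ⟨x, hx, rfl⟩ := hg
  rw [← (ld_of hdeg hk1 hk hp a.le).map]
  exact ⟨x, hx.1, rfl⟩

theorem mem_dc_of {p : HeightOneSpectrum (𝓞 K)} (hp : PlN F₁ η n k p) (a : Ix F₁)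
    {g : F₁ ≃ₐ[K] F₁} (hg : g ∈ Dc K F₁ p) {x : a.M ≃ₐ[K] a.M}
    (hx : x ∈ (Subgroup.zpowers g).comap (rs a.le)) : x ∈ Dc K a.M p := by
  have H := ld_of hdeg hk1 hk hp a.le
  rw [← H.map] at hg
  exact mem_of_zp H.ker hg hx

/-- The class of a nonempty type. -/
theorem xs_ne {p : HeightOneSpectrum (𝓞 K)} (hp2 : (2 : 𝓞 K) ∈ p.asIdeal) (hp : PlN F₁ η n k p)
    (s : ZMod 2) (a : Ix F₁) (ha : ty p a ≠ ∅) :
    ∃ m : Kv p, RhoO (Wc K F₁ p) (over_of (wc_dn p)) (ty p a) m ∧ mc F₁ p (ty p a) = sc m ∧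
      sc m ≠ 0 ∧ xs η s p a = sc m := by
  have H := ld_of hdeg hk1 hk hp a.le
  obtain ⟨m, h1, h2, h3⟩ := rho_of hdeg hk1 hk hp (δ := ty p a)
    (g7 H (a.cyc p hp2) (Set.nonempty_iff_ne_empty.2 ha))
  refine ⟨m, h1, h2, h3, ?_⟩
  rw [xs_two hp2, if_neg ha, h2]

theorem xs_ne_zero (hη : ∀ u, η u ≠ 0)
    (hP : ∀ p : HeightOneSpectrum (𝓞 K), (2 : 𝓞 K) ∈ p.asIdeal → Sp K F p ∨ PlN F₁ η n k p)
    {p : HeightOneSpectrum (𝓞 K)} (hp2 : (2 : 𝓞 K) ∈ p.asIdeal) (s : ZMod 2) (a : Ix F₁) :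
    xs η s p a ≠ 0 := by
  by_cases ha : ty p a = ∅
  · rw [xs_two hp2, if_pos ha]
    exact hη p
  · rcases hP p hp2 with h | h
    · exact absurd (ty_sp h a) ha
    · obtain ⟨m, -, -, h3, h4⟩ := xs_ne hdeg hk1 hk hp2 h s a ha
      rw [h4]
      exact h3

/-- A high index has the high type; a low index has a type which is decided in the first layer. -/
theorem low_or_high {p : HeightOneSpectrum (𝓞 K)} (hp2 : (2 : 𝓞 K) ∈ p.asIdeal)
    (hp : PlN F₁ η n k p) (a : Ix F₁) :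
    (ty p a = hiS (Dc K F₁ p) k ∧ ty p a ≠ ∅) ∨
    ∃ T₁ : Subgroup (F₁ ≃ₐ[K] F₁), (∀ h ∈ Dc K a.M p, h ∈ a.T ↔ rs a.le h ∈ T₁) ∧
      CyT (Dc K F₁ p) T₁ ∧ (∀ y ∈ Dc K F₁ p, y ^ 2 ^ k ∈ T₁) ∧ ty p a = clS (Dc K F₁ p) T₁ := by
  have H := ld_of hdeg hk1 hk hp a.le
  by_cases lo : ∀ y ∈ Dc K a.M p, y ^ 2 ^ k ∈ a.T
  · exact Or.inr (g4 H (a.cyc p hp2) lo)
  · left
    have hi : ∃ y ∈ Dc K a.M p, y ^ 2 ^ k ∉ a.T := by
      by_contra h
      exact lo fun y hy => by_contra fun h2 => h ⟨y, hy, h2⟩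
    have h1 := g3 H (a.cyc p hp2) hi
    refine ⟨h1, ?_⟩
    have h2 : ty p a = hiS (Dc K F₁ p) k := h1
    rw [h2]
    exact (hi_nonempty H.p2' H.cyc' H.ne1).ne_empty

/-- Separation at a place above two. -/
theorem hsep_of (hram : {u | H30ZO.RamF K F u}.Finite) {p : HeightOneSpectrum (𝓞 K)}
    (hp2 : (2 : 𝓞 K) ∈ p.asIdeal) (hp : PlN F₁ η n k p)
    (hηm : mc F₁ p (hiS (Dc K F₁ p) k) ≠ η p) (a₀ : Ix F₁) :
    ∃ T : List (ZMod 2 × (Ix F₁ → Prop)), (∀ t ∈ T, Real η (xs η) (AuxI F₁ k η n) t) ∧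
      (∀ t ∈ T, ∀ a, ty p a = ty p a₀ → t.2 a) ∧
      ∀ a, ty p a ≠ ty p a₀ → (∃ t ∈ T, ¬ t.2 a) ∨
        (xs η 0 p a = mc F₁ p (hiS (Dc K F₁ p) k) ∧
          xs η 0 p a₀ ≠ mc F₁ p (hiS (Dc K F₁ p) k)) := by
  have _ : FiniteDimensional K F₁ := Module.Finite.of_restrictScalars_finite ℚ K F₁
  have _ : Fintype (F₁ ≃ₐ[K] F₁) := Fintype.ofFinite _
  by_cases ha₀ : ty p a₀ = ∅
  · obtain ⟨L, hL⟩ : ∃ L : List (F₁ ≃ₐ[K] F₁), ∀ g, g ∈ L ↔ g ∈ Dc K F₁ p ∧ g ^ 2 ^ (k + 1) ≠ 1 :=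
      ⟨(Finset.univ.filter fun g => g ∈ Dc K F₁ p ∧ g ^ 2 ^ (k + 1) ≠ 1).toList, fun g => by
        rw [Finset.mem_toList, Finset.mem_filter]
        exact ⟨fun h => h.2, fun h => ⟨Finset.mem_univ _, h⟩⟩⟩
    refine ⟨L.map fun g => (1, ont 1 g), ?_, ?_, ?_⟩
    · intro t ht
      obtain ⟨g, hg, rfl⟩ := List.mem_map.1 ht
      obtain ⟨h1, h2⟩ := (hL g).1 hg
      exact real_ont hdeg hk hram hp2 hp h1 h2 1
    · intro t ht a ha
      obtain ⟨g, hg, rfl⟩ := List.mem_map.1 ht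
      obtain ⟨h1, h2⟩ := (hL g).1 hg
      have H := ld_of hdeg hk1 hk hp a.le
      have h3 : Dc K a.M p ≤ a.T := (g2 H (a.cyc p hp2)).1 (ha.trans ha₀)
      show ont 1 g a
      unfold ont
      have c1 : (Subgroup.zpowers g).comap (rs a.le) ≤ a.T :=
        fun x hx => h3 (mem_dc_of hdeg hk1 hk hp a h1 hx)
      rw [if_pos c1]
    · intro a ha
      rw [ha₀] at ha
      rcases low_or_high hdeg hk1 hk hp2 hp a with ⟨h1, -⟩ | ⟨T₁, h1, h2, h3, h4⟩
      · right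
        rw [xs_two hp2, if_neg ha, xs_two hp2, if_pos ha₀, h1]
        exact ⟨rfl, hηm.symm⟩
      · left
        have H := ld_of hdeg hk1 hk hp a.le
        obtain ⟨g, h5, h6, h7, h8⟩ := g6 H h2 h3 (fun h => ha (by rw [h4, cl_empty h]))
        refine ⟨(1, ont 1 g), List.mem_map.2 ⟨g, (hL g).2 ⟨h5, h8⟩, rfl⟩, ?_⟩
        show ¬ ont 1 g a
        unfold ont
        have c1 : ¬ (Subgroup.zpowers g).comap (rs a.le) ≤ a.T := by
          intro h
          have h9 := h5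
          rw [← H.map] at h9
          obtain ⟨x, hx, hxg⟩ := h9
          have h10 : x ∈ a.T := h (by
            rw [Subgroup.mem_comap, hxg]
            exact Subgroup.mem_zpowers _)
          apply h6
          rw [← hxg]
          exact (h1 x hx).1 h10
        have c2 : ∀ x ∈ (Subgroup.zpowers g).comap (rs a.le), x ^ 2 ∈ a.T := by
          intro x hx
          have hxD := mem_dc_of hdeg hk1 hk hp a h5 hx
          rw [h1 _ (Subgroup.pow_mem _ hxD 2), map_pow]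
          obtain ⟨j, hj⟩ := Subgroup.mem_zpowers_iff.1 (Subgroup.mem_comap.1 hx)
          rw [← hj, ← zpow_natCast, ← zpow_mul, mul_comm, zpow_mul, zpow_natCast]
          exact Subgroup.zpow_mem _ h7 j
        rw [if_neg c1, if_pos c2]
        exact one_ne_zero
  · have hδne : (ty p a₀).Nonempty := Set.nonempty_iff_ne_empty.2 ha₀
    have hty : IsTy (Dc K F₁ p) k (ty p a₀) :=
      isTy_of (ld_of hdeg hk1 hk hp a₀.le) (a₀.cyc p hp2)
    obtain ⟨L, hL⟩ : ∃ L : List (F₁ ≃ₐ[K] F₁), ∀ g, g ∈ L ↔ g ∈ ty p a₀ ∧ g ^ 2 ^ (k + 1) ≠ 1 :=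
      ⟨(Finset.univ.filter fun g => g ∈ ty p a₀ ∧ g ^ 2 ^ (k + 1) ≠ 1).toList, fun g => by
        rw [Finset.mem_toList, Finset.mem_filter]
        exact ⟨fun h => h.2, fun h => ⟨Finset.mem_univ _, h⟩⟩⟩
    refine ⟨L.map fun g => (0, ont 0 g), ?_, ?_, ?_⟩
    · intro t ht
      obtain ⟨g, hg, rfl⟩ := List.mem_map.1 ht
      obtain ⟨h1, h2⟩ := (hL g).1 hg
      exact real_ont hdeg hk hram hp2 hp (ty_sub hdeg hk1 hk hp a₀ h1) h2 0
    · intro t ht a ha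
      obtain ⟨g, hg, rfl⟩ := List.mem_map.1 ht
      obtain ⟨h1, h2⟩ := (hL g).1 hg
      show ont 0 g a
      unfold ont
      have c1 : ¬ (Subgroup.zpowers g).comap (rs a.le) ≤ a.T := by
        intro h
        rw [← ha] at h1
        obtain ⟨x, hx, rfl⟩ := h1
        exact hx.2.1 (h (by
          rw [Subgroup.mem_comap]
          exact Subgroup.mem_zpowers _))
      rw [if_neg c1]
      split_ifs with c2
      rfl
    · intro a ha
      rcases low_or_high hdeg hk1 hk hp2 hp a with ⟨h1, h0⟩ | ⟨T₁, h1, h2, h3, h4⟩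
      · right
        obtain ⟨m, m1, m2, m3, m4⟩ := xs_ne hdeg hk1 hk hp2 hp 0 a h0
        obtain ⟨m', m1', m2', m3', m4'⟩ := xs_ne hdeg hk1 hk hp2 hp 0 a₀ ha₀
        rw [← h1, m2, m4, m4']
        refine ⟨rfl, fun h => ha ?_⟩
        ext g
        constructor
        · intro hg
          exact (rhoO_inj (wc_dn p) m1 m1' h.symm (ty_sub hdeg hk1 hk hp a hg)).1 hg
        · intro hg
          exact (rhoO_inj (wc_dn p) m1 m1' h.symm (ty_sub hdeg hk1 hk hp a₀ hg)).2 hg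
      · left
        have H := ld_of hdeg hk1 hk hp a.le
        obtain ⟨g, h5, h6, h7⟩ := g5 H hδne hty h2 h3 (by rw [← h4]; exact ha)
        refine ⟨(0, ont 0 g), List.mem_map.2 ⟨g, (hL g).2 ⟨h5, h7⟩, rfl⟩, ?_⟩
        show ¬ ont 0 g a
        unfold ont
        have c1 : (Subgroup.zpowers g).comap (rs a.le) ≤ a.T := by
          intro x hx
          have hxD := mem_dc_of hdeg hk1 hk hp a (ty_sub hdeg hk1 hk hp a₀ h5) hx
          rw [h1 x hxD]
          exact (Subgroup.zpowers_le.2 h6) (Subgroup.mem_comap.1 hx)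
        rw [if_pos c1]
        exact zero_ne_one

/-- **The configuration theorem.** -/
theorem exists_configI (hH : ∀ v : HeightOneSpectrum (𝓞 K), HF (Kv v)) (hη : ∀ u, η u ≠ 0)
    (hηo : EtaOdd η) (hram : {u | H30ZO.RamF K F u}.Finite) (hsp : {v | Sp K F v}.Infinite)
    (hP : ∀ p : HeightOneSpectrum (𝓞 K), (2 : 𝓞 K) ∈ p.asIdeal → Sp K F p ∨ PlN F₁ η n k p)
    (R₀ : Finset (HeightOneSpectrum (𝓞 K))) (hR₀ : ∀ v ∈ R₀, (2 : 𝓞 K) ∉ v.asIdeal) :
    ∃ (C : CfgX K) (s : HeightOneSpectrum (𝓞 K) → ZMod 2) (W : Submodule (ZMod 2) C.V)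
      (n' : Ideal (𝓞 K)) (E : ℕ) (A₀ B₀ : 𝓞 K), C.Ok ∧ R₀ ⊆ C.R ∧
      (∀ v ∈ C.Z, ((2 : 𝓞 K) ∈ v.asIdeal ∧ s v = 0) ∨ v ∈ AuxI F₁ k η n) ∧
      TargetG C (fun u (a : Ix F₁) => xs η (s u) u a) W ∧
      ClassG C (fun u => LpM η (s u) u) n' E A₀ B₀ := by
  have _ : FiniteDimensional K F₁ := Module.Finite.of_restrictScalars_finite ℚ K F₁
  have _ : Finite (Set (F₁ ≃ₐ[K] F₁)) := inferInstance
  -- the places at which nothing has to be separated
  obtain ⟨Mg, hMg⟩ : ∃ Mg : HeightOneSpectrum (𝓞 K) → Prop, ∀ u, Mg u ↔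
      ∀ a : Ix F₁, xs η 0 u a = η u := ⟨fun u => ∀ a : Ix F₁, xs η 0 u a = η u, fun _ => Iff.rfl⟩
  have hnMg : ∀ p : HeightOneSpectrum (𝓞 K), (2 : 𝓞 K) ∈ p.asIdeal → ¬ Mg p →
      PlN F₁ η n k p ∧ mc F₁ p (hiS (Dc K F₁ p) k) ≠ η p := by
    intro p hp2 hM
    rcases hP p hp2 with h | h
    · exfalso
      apply hM
      rw [hMg]
      intro a
      rw [xs_two hp2, if_pos (ty_sp h a)]
    · refine ⟨h, fun he => hM ?_⟩
      rcases h.alt with hcyc | h2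
      · rw [hMg]
        intro a
        rw [xs_two hp2]
        split_ifs with ha
        · rfl
        · have h3 : ty p a = hiS (Dc K F₁ p) k :=
            g8 (ld_of hdeg hk1 hk h a.le) (a.cyc p hp2) (hcyc a.M inferInstance a.le)
              (Set.nonempty_iff_ne_empty.2 ha)
          rw [h3, he]
      · exact absurd he h2
  obtain ⟨C, s, W, n', E, A₀, B₀, h1, h2, h3, h4, h5⟩ := exists_configG K hH (ι := Ix F₁) hη (xs η)
    (LpM η) (AuxI F₁ k η n) (fun u hu => hu.1) R₀ hR₀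
    (fun u hu a => xs_ne_zero hdeg hk1 hk hη hP hu 0 a)
    (fun u hu => dyadicG η 0 hu) (fun u hu s => auxG hηo hu.1 s)
    (by
      have h := real_sp (F₁ := F₁) (k := k) (η := η) (n := n) hram hsp 1
      have e : (fun _ : Ix F₁ => True) = fun _ => (1 : ZMod 2) = 1 := by
        funext _
        exact (eq_true rfl).symm
      rw [e]
      exact h)
    (by
      have h := real_sp (F₁ := F₁) (k := k) (η := η) (n := n) hram hsp 0
      have e : (fun _ : Ix F₁ => False) = fun _ => (0 : ZMod 2) = 1 := by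
        funext _
        exact (eq_false zero_ne_one).symm
      rw [e]
      exact h)
    (D := Set (F₁ ≃ₐ[K] F₁)) (fun u a => if Mg u then ∅ else ty u a)
    (by
      intro u hu a a' h
      by_cases hM : Mg u
      · rw [(hMg u).1 hM a, (hMg u).1 hM a']
      · simp only [if_neg hM] at h
        rw [xs_two hu, xs_two hu, h])
    (fun u => mc F₁ u (hiS (Dc K F₁ u) k))
    (by
      intro u hu a₀
      by_cases hM : Mg u
      · refine ⟨[], fun t ht => absurd ht List.not_mem_nil, fun t ht => absurd ht List.not_mem_nil,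
          fun a ha => ?_⟩
        simp only [if_pos hM] at ha
        exact absurd rfl ha
      · obtain ⟨hp, hηm⟩ := hnMg u hu hM
        simp only [if_neg hM]
        exact hsep_of hdeg hk1 hk hram hu hp hηm a₀)
  refine ⟨C, s, W, n', E, A₀, B₀, h1, h2, fun v hv => ?_, h4, h5⟩
  rcases h3 v hv with h | h
  · exact Or.inl h
  · exact Or.inr h.1

end Main

end H76IN

end S_H76_IN_Co
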